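import Mathlib

/-!
# MP_c0a553_nt : Hasse principle for quadratic forms in k-th powers

Common definitions of the circle method proof (captain: helper62).
-/

namespace Pool.Agent.Lib.MP_c0a553_nt

open Finset

/-- `e x = exp (2 π i x)`. -/
noncomputable def e (x : ℝ) : ℂ := Complex.exp (2 * Real.pi * x * Complex.I)

lemma e_zero : e 0 = 1 := by simp [e]

lemma e_add (x y : ℝ) : e (x + y) = e x * e y := by
  rw [e, e, e, ← Complex.exp_add]
  congr 1
  push_cast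
  ring

lemma norm_e (x : ℝ) : ‖e x‖ = 1 := by
  have h : (2 * Real.pi * x * Complex.I : ℂ) = ((2 * Real.pi * x : ℝ) : ℂ) * Complex.I := by
    push_cast; ring
  rw [e, h, Complex.norm_exp_ofReal_mul_I]

lemma e_ne_zero (x : ℝ) : e x ≠ 0 := Complex.exp_ne_zero _

lemma e_int (n : ℤ) : e n = 1 := by
  rw [e]
  have h : (2 * Real.pi * ((n : ℝ) : ℂ) * Complex.I : ℂ) = (n : ℂ) * (2 * Real.pi * Complex.I) := by
    push_cast; ring
  rw [h, Complex.exp_int_mul_two_pi_mul_I]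

lemma e_neg (x : ℝ) : e (-x) = starRingEnd ℂ (e x) := by
  rw [e, e, ← Complex.exp_conj]
  congr 1
  simp only [map_mul, Complex.conj_ofReal, Complex.conj_I, Complex.conj_ofNat]
  push_cast
  ring

lemma e_add_int (x : ℝ) (n : ℤ) : e (x + n) = e x := by
  rw [e_add, e_int, mul_one]

lemma e_sum {ι : Type*} (s : Finset ι) (f : ι → ℝ) : e (∑ i ∈ s, f i) = ∏ i ∈ s, e (f i) := by
  classical
  induction s using Finset.induction_on with
  | empty => simp [e_zero]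
  | insert a s ha ih => rw [Finset.sum_insert ha, Finset.prod_insert ha, e_add, ih]

/-- distance to the nearest integer -/
noncomputable def nn (x : ℝ) : ℝ := |x - round x|

/-- the geometric sum `∑_{|m| ≤ Y} e (m x)`, in absolute value -/
noncomputable def geo (Y : ℕ) (x : ℝ) : ℝ := ‖∑ m ∈ Finset.Icc (-(Y : ℤ)) Y, e (m * x)‖

/-- The number of solutions of `∑ f (x_i) = ∑ f (y_i)` with `x, y` in `U^t`. -/
noncomputable def JJ {U ι : Type} [Fintype U] [Fintype ι] (f : U → ι → ℤ) (t : ℕ) : ℕ :=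
  Nat.card {p : (Fin t → U) × (Fin t → U) // ∀ i, ∑ j, f (p.1 j) i = ∑ j, f (p.2 j) i}

/-- Number of solutions in `A` of the system `∑ x_i ^ j = ∑ y_i ^ j`, `j ∈ E`,
with `t + t` variables. -/
def JE (E : Finset ℕ) (t : ℕ) (A : Finset ℤ) : ℕ :=
  (((Fintype.piFinset fun _ : Fin t => A) ×ˢ (Fintype.piFinset fun _ : Fin t => A)).filter
    fun p => ∀ j ∈ E, ∑ i, (p.1 i) ^ j = ∑ i, (p.2 i) ^ j).card

variable {ι : Type} [Fintype ι] [DecidableEq ι]

/-- the lattice points of the box `∏ (P lo_i, P hi_i]` -/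
noncomputable def box (P : ℕ) (lo hi : ι → ℝ) : Finset (ι → ℤ) :=
  Fintype.piFinset fun i => Finset.Ioc ⌊(P : ℝ) * lo i⌋ ⌊(P : ℝ) * hi i⌋

/-- the exponential sum over the box -/
noncomputable def S (G : (ι → ℤ) → ℤ) (P : ℕ) (lo hi : ι → ℝ) (α : ℝ) : ℂ :=
  ∑ x ∈ box P lo hi, e (α * G x)

/-- `α` is on the major arcs of level `1/10` for degree `D` -/
def Major (D P : ℕ) (α : ℝ) : Prop :=
  ∃ q : ℕ, 1 ≤ q ∧ (q : ℝ) ≤ (P : ℝ) ^ (1 / 10 : ℝ) ∧
    ∃ a : ℤ, |(q : ℝ) * α - a| * (P : ℝ) ^ D ≤ (P : ℝ) ^ (1 / 10 : ℝ)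

/-- Weyl bound: outside the major arcs the exponential sum over any box saves `P^(D+1)`. -/
def WeylBound (G : (ι → ℤ) → ℤ) (D : ℕ) : Prop :=
  ∀ lo hi : ι → ℝ, (∀ i, lo i ≤ hi i) → ∃ P₀ : ℕ, ∀ P : ℕ, P₀ ≤ P → ∀ α : ℝ,
    ¬ Major D P α → ‖S G P lo hi α‖ * (P : ℝ) ^ (D + 1) ≤ (P : ℝ) ^ (Fintype.card ι)

/-- the number of variables exponent used in the mean value theorem, for degree `2k` -/
def tt (k : ℕ) : ℕ := 10 * (2 * k) ^ 3

/-- required off-diagonal rank -/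
def rr (k : ℕ) : ℕ := 400 * (tt k) ^ 2 * (k + 1)

/-- required number of diagonal variables -/
def vv (k : ℕ) : ℕ := 200 * (tt k) ^ 2 * (4 * k * rr k + 4 * k + 2)

/-- The number of variables in the main theorem. -/
def s₀ (k : ℕ) : ℕ := vv k + 5 * rr k

/-- The integral form `F(y) = ∑ M i j y_i^k y_j^k`. -/
noncomputable def FF {s : ℕ} (k : ℕ) (M : Matrix (Fin s) (Fin s) ℤ) : MvPolynomial (Fin s) ℤ :=
  ∑ i, ∑ j, MvPolynomial.C (M i j) * MvPolynomial.X i ^ k * MvPolynomial.X j ^ k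

/-- The form `G(u,v) = F(u v)` in `2 s` variables. -/
noncomputable def GG {s : ℕ} (k : ℕ) (M : Matrix (Fin s) (Fin s) ℤ) :
    MvPolynomial (Fin s ⊕ Fin s) ℤ :=
  ∑ i, ∑ j, MvPolynomial.C (M i j) *
    (MvPolynomial.X (Sum.inl i) * MvPolynomial.X (Sum.inr i)) ^ k *
    (MvPolynomial.X (Sum.inl j) * MvPolynomial.X (Sum.inr j)) ^ k

/-- the integer valued function of a polynomial -/
noncomputable def fn (G : MvPolynomial ι ℤ) (x : ι → ℤ) : ℤ := MvPolynomial.eval x G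

/-- `G` has a nonsingular zero in `K`. -/
def NonsingZero {σ : Type} (G : MvPolynomial σ ℤ) (K : Type) [Field K] : Prop :=
  ∃ y : σ → K, MvPolynomial.aeval y G = 0 ∧ ∃ i, MvPolynomial.aeval y (MvPolynomial.pderiv i G) ≠ 0

end Pool.Agent.Lib.MP_c0a553_nt
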