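import Pool.Agent.Lib.MP_c0a553_nt.Holder

section

/-! # Splitting off poor solutions (job HP-7) -/

namespace Pool.Agent.Lib.MP_c0a553_nt

open Finset

/-- the vector of power sums -/
private def rs_key (d : ℕ) {s : ℕ} (x : Fin s → ℤ) : Fin d → ℤ := fun j => ∑ i, x i ^ (j.1 + 1)

private lemma rs_key_eq_iff {d s : ℕ} (x y : Fin s → ℤ) : rs_key d x = rs_key d y ↔
    ∀ j ∈ Finset.Icc 1 d, ∑ i, (x i) ^ j = ∑ i, (y i) ^ j := by
  constructor
  · intro h j hj
    rw [Finset.mem_Icc] at hj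
    have := congrFun h ⟨j - 1, by omega⟩
    simp only [rs_key] at this
    rwa [Nat.sub_add_cancel hj.1] at this
  · intro h
    funext j
    exact h (j.1 + 1) (Finset.mem_Icc.2 ⟨by omega, by have := j.2; omega⟩)

private lemma rs_not_rich {d s : ℕ} {x : Fin s → ℤ} (h : ¬ Rich d x) :
    (Finset.univ.image x).card < d := by
  by_contra hc
  push Not at hc
  apply h
  set I := Finset.univ.image x with hI
  have hpre : ∀ a : I, ∃ i, x i = a := by
    intro a
    obtain ⟨i, _, hi⟩ := Finset.mem_image.1 a.2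
    exact ⟨i, hi⟩
  choose g hg using hpre
  refine ⟨fun j => g (I.equivFin.symm (Fin.castLE hc j)), ?_⟩
  intro j j' hjj
  simp only [Function.comp] at hjj
  rw [hg, hg] at hjj
  have h1 := I.equivFin.symm.injective (Subtype.ext hjj)
  exact Fin.castLE_injective hc h1

private lemma rs_poor_card (d s : ℕ) (hs : 1 ≤ s) (A : Finset ℤ)
    (P : Finset (Fin s → ℤ)) (hP : ∀ x ∈ P, (∀ i, x i ∈ A) ∧ ¬ Rich d x) :
    P.card ≤ A.card ^ (d - 1) * d ^ s := by
  classical
  set Q : Finset ((Fin (d - 1) → ℤ) × (Fin s → Fin (d - 1))) :=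
    (Fintype.piFinset fun _ : Fin (d - 1) => A) ×ˢ Finset.univ with hQ
  have hsub : P ⊆ Q.image (fun p => fun i => p.1 (p.2 i)) := by
    intro x hx
    obtain ⟨hxA, hxP⟩ := hP x hx
    have hc := rs_not_rich hxP
    set I := Finset.univ.image x with hI
    have hle : I.card ≤ d - 1 := by omega
    have hmem : ∀ i, x i ∈ I := fun i => Finset.mem_image_of_mem _ (Finset.mem_univ i)
    rw [Finset.mem_image]
    refine ⟨(fun j => if h : j.1 < I.card then ((I.equivFin.symm ⟨j.1, h⟩ : I) : ℤ) else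
      x ⟨0, by omega⟩, fun i => Fin.castLE hle (I.equivFin ⟨x i, hmem i⟩)), ?_, ?_⟩
    · rw [hQ, Finset.mem_product]
      refine ⟨?_, Finset.mem_univ _⟩
      rw [Fintype.mem_piFinset]
      intro j
      dsimp only
      split_ifs with h
      · obtain ⟨i, _, hi⟩ := Finset.mem_image.1 (I.equivFin.symm ⟨j.1, h⟩).2
        rw [← hi]
        exact hxA i
      · exact hxA _
    · funext i
      simp
  calc P.card ≤ (Q.image (fun p => fun i => p.1 (p.2 i))).card := Finset.card_le_card hsub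
    _ ≤ Q.card := Finset.card_image_le
    _ = A.card ^ (d - 1) * (d - 1) ^ s := by
        rw [hQ, Finset.card_product, Fintype.card_piFinset]
        simp
    _ ≤ _ := Nat.mul_le_mul_left _ (Nat.pow_le_pow_left (by omega) _)

/-- number of pairs with equal keys -/
private lemma rs_pairs {α β : Type*} [DecidableEq β] (f : α → β) (D U V : Finset α)
    (hU : U ⊆ D) : ((U ×ˢ V).filter fun p => f p.1 = f p.2).card =
      ∑ h ∈ D.image f, (U.filter fun x => f x = h).card * (V.filter fun x => f x = h).card := by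
  classical
  rw [Finset.card_eq_sum_card_fiberwise (f := fun p : α × α => f p.1) (t := D.image f)]
  · apply Finset.sum_congr rfl
    intro h _
    rw [← Finset.card_product]
    congr 1
    ext p
    simp only [Finset.mem_filter, Finset.mem_product]
    constructor
    · rintro ⟨⟨⟨h1, h2⟩, h3⟩, h4⟩
      exact ⟨⟨h1, h4⟩, h2, h3 ▸ h4⟩
    · rintro ⟨⟨h1, h4⟩, h2, h3⟩
      exact ⟨⟨⟨h1, h2⟩, h4.trans h3.symm⟩, h4⟩
  · intro p hp
    simp only [Finset.coe_filter, Finset.mem_product, Set.mem_ofPred_eq] at hp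
    exact Finset.mem_coe.2 (Finset.mem_image_of_mem f (hU hp.1.1))

theorem rich_split (d s X : ℕ) (hd : 1 ≤ d) (hs : 1 ≤ s) :
    (JE (Finset.Icc 1 d) s (Finset.Ioc (0 : ℤ) X) : ℝ)
      ≤ 2 * RR d s X + 4 * ((d : ℝ) ^ s) ^ 2 * (X : ℝ) ^ (2 * (d - 1)) := by
  classical
  set A : Finset ℤ := Finset.Ioc (0 : ℤ) X with hA
  have hAc : A.card = X := by simp [hA]
  set D : Finset (Fin s → ℤ) := Fintype.piFinset fun _ : Fin s => A with hD
  set P : Finset (Fin s → ℤ) := D.filter fun x => ¬ Rich d x with hP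
  set R : Finset (Fin s → ℤ) := D.filter fun x => Rich d x with hR
  have hPD : P ⊆ D := Finset.filter_subset _ _
  have hRD : R ⊆ D := Finset.filter_subset _ _
  set N : Finset (Fin s → ℤ) → Finset (Fin s → ℤ) → ℕ := fun U V =>
    ((U ×ˢ V).filter fun p => rs_key d p.1 = rs_key d p.2).card with hN
  -- J
  have hJ : JE (Finset.Icc 1 d) s A = N D D := by
    simp only [JE, hN, hD]
    congr 1
    ext p
    simp only [Finset.mem_filter, rs_key_eq_iff]
  -- RR
  have hRR : RR d s X = N R R := by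
    simp only [RR, hN]
    rw [← Nat.card_eq_finsetCard]
    apply Nat.card_congr
    apply Equiv.subtypeEquivRight
    intro p
    simp only [Finset.mem_filter, Finset.mem_product, hR, hD, Fintype.mem_piFinset,
      rs_key_eq_iff, ← hA]
    tauto
  -- splitting
  have hsplit : N D D ≤ N R R + 2 * N P D := by
    have h1 : N D D ≤ N R R + N P D + N D P := by
      simp only [hN]
      refine le_trans (Finset.card_le_card (t := ((R ×ˢ R).filter fun p => rs_key d p.1 =
        rs_key d p.2) ∪ ((P ×ˢ D).filter fun p => rs_key d p.1 = rs_key d p.2) ∪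
        ((D ×ˢ P).filter fun p => rs_key d p.1 = rs_key d p.2)) ?_) ?_
      · intro p hp
        simp only [Finset.mem_union, Finset.mem_filter, Finset.mem_product, hR, hP] at hp ⊢
        tauto
      · exact (Finset.card_union_le _ _).trans
          (Nat.add_le_add_right (Finset.card_union_le _ _) _)
    have h2 : N D P = N P D := by
      simp only [hN]
      apply Finset.card_bij (fun p _ => (p.2, p.1))
      · intro p hp
        simp only [Finset.mem_filter, Finset.mem_product] at hp ⊢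
        exact ⟨⟨hp.1.2, hp.1.1⟩, hp.2.symm⟩
      · intro p _ q _ h
        simp only [Prod.mk.injEq] at h
        exact Prod.ext h.2 h.1
      · intro p hp
        simp only [Finset.mem_filter, Finset.mem_product] at hp
        exact ⟨(p.2, p.1), by
          simp only [Finset.mem_filter, Finset.mem_product]
          exact ⟨⟨hp.1.2, hp.1.1⟩, hp.2.symm⟩, rfl⟩
    omega
  -- Cauchy-Schwarz
  have hCS : 4 * N P D ≤ 4 * N P P + N D D := by
    simp only [hN]
    rw [rs_pairs (rs_key d) D P D hPD, rs_pairs (rs_key d) D P P hPD,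
      rs_pairs (rs_key d) D D D (Finset.Subset.refl _), Finset.mul_sum, Finset.mul_sum,
      ← Finset.sum_add_distrib]
    apply Finset.sum_le_sum
    intro h _
    set a := (P.filter fun x => rs_key d x = h).card
    set b := (D.filter fun x => rs_key d x = h).card
    have : (4 * ((a : ℤ) * b)) ≤ 4 * (a * a) + b * b := by nlinarith [sq_nonneg (2 * (a : ℤ) - b)]
    exact_mod_cast this
  have hPP : N P P ≤ P.card * P.card := by
    simp only [hN]
    refine (Finset.card_filter_le _ _).trans ?_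
    rw [Finset.card_product]
  have hB : P.card ≤ X ^ (d - 1) * d ^ s := by
    have := rs_poor_card d s hs A P (fun x hx => by
      simp only [hP, hD, Finset.mem_filter, Fintype.mem_piFinset] at hx
      exact hx)
    rwa [hAc] at this
  rw [hJ, hRR]
  have h1 : N D D ≤ 2 * N R R + 4 * (P.card * P.card) := by omega
  have h2 : P.card * P.card ≤ (X ^ (d - 1) * d ^ s) * (X ^ (d - 1) * d ^ s) :=
    Nat.mul_le_mul hB hB
  have h3 : N D D ≤ 2 * N R R + 4 * ((X ^ (d - 1) * d ^ s) * (X ^ (d - 1) * d ^ s)) := by omega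
  have h4 : (N D D : ℝ) ≤ 2 * (N R R : ℝ) +
      4 * (((X : ℝ) ^ (d - 1) * (d : ℝ) ^ s) * ((X : ℝ) ^ (d - 1) * (d : ℝ) ^ s)) := by
    exact_mod_cast h3
  refine h4.trans (le_of_eq ?_)
  rw [two_mul (d - 1), pow_add]
  ring

end Pool.Agent.Lib.MP_c0a553_nt
end

section

/-! # Hoelder over residue classes (job HP-9) -/

namespace Pool.Agent.Lib.MP_c0a553_nt

open Finset

section jph

open Classical in
/-- the points `(x, u)`, `x` pairwise incongruent modulo `p`, `u` with entries in `D` -/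
private noncomputable def jphA (p d m X : ℕ) (D : Finset ℤ) : Finset ((Fin d → ℤ) × (Fin m → ℤ)) :=
  ((Fintype.piFinset fun _ : Fin d => Finset.Ioc (0 : ℤ) X).filter (fun x => Incong p x)) ×ˢ
    (Fintype.piFinset fun _ : Fin m => D)

/-- the vector of power sums -/
private def jphv {d m : ℕ} (w : (Fin d → ℤ) × (Fin m → ℤ)) (j : Fin d) : ℤ :=
  ∑ i, (w.1 i) ^ ((j : ℕ) + 1) + ∑ i, (w.2 i) ^ ((j : ℕ) + 1)

open Classical in
/-- the number of solutions -/
private noncomputable def jphC (p d m X : ℕ) (D : Finset ℤ) : ℕ :=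
  ((jphA p d m X D ×ˢ jphA p d m X D).filter fun w => jphv w.1 = jphv w.2).card

private lemma jph_eq_iff {d m : ℕ} (w w' : (Fin d → ℤ) × (Fin m → ℤ)) :
    jphv w = jphv w' ↔ ∀ j ∈ Finset.Icc 1 d, ∑ i, (w.1 i) ^ j + ∑ i, (w.2 i) ^ j
      = ∑ i, (w'.1 i) ^ j + ∑ i, (w'.2 i) ^ j := by
  constructor
  · intro h j hj
    rw [Finset.mem_Icc] at hj
    have := congrFun h (⟨j - 1, by omega⟩ : Fin d)
    unfold jphv at this
    simp only [Nat.sub_add_cancel hj.1] at this
    exact this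
  · intro h
    funext j
    exact h ((j : ℕ) + 1) (Finset.mem_Icc.mpr ⟨by omega, by omega⟩)

private lemma jph_JP (p d m X : ℕ) : JP p d m X = jphC p d m X (Finset.Ioc (0 : ℤ) X) := by
  classical
  unfold JP jphC
  refine Nat.subtype_card _ ?_
  rintro ⟨⟨x, u⟩, ⟨y, v⟩⟩
  simp only [Finset.mem_filter, Finset.mem_product, jphA, Fintype.mem_piFinset, jph_eq_iff]
  tauto

private lemma jph_JPa (p d m X : ℕ) (a : ℤ) : JPa p a d m X =
    jphC p d m X ((Finset.Ioc (0 : ℤ) X).filter fun u => (p : ℤ) ∣ u - a) := by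
  classical
  unfold JPa jphC
  refine Nat.subtype_card _ ?_
  rintro ⟨⟨x, u⟩, ⟨y, v⟩⟩
  simp only [Finset.mem_filter, Finset.mem_product, jphA, Fintype.mem_piFinset, jph_eq_iff,
    forall_and]
  tauto

/-- the exponential -/
private noncomputable def jphe {d : ℕ} (N : ℕ) (β : Fin d → ℕ) (c : Fin d → ℤ) : ℂ :=
  e (∑ j, (β j : ℝ) * c j / N)

private lemma jphe_add {d : ℕ} (N : ℕ) (β : Fin d → ℕ) (c c' : Fin d → ℤ) :
    jphe N β (c + c') = jphe N β c * jphe N β c' := by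
  unfold jphe
  rw [← e_add, ← Finset.sum_add_distrib]
  congr 1
  refine Finset.sum_congr rfl fun j _ => ?_
  simp only [Pi.add_apply]
  push_cast
  ring

private lemma jphe_zero {d : ℕ} (N : ℕ) (β : Fin d → ℕ) : jphe N β (0 : Fin d → ℤ) = 1 := by
  unfold jphe
  simp [e_zero]

private lemma jphe_sum {d : ℕ} (N : ℕ) (β : Fin d → ℕ) {κ : Type} (s : Finset κ)
    (c : κ → Fin d → ℤ) : jphe N β (∑ i ∈ s, c i) = ∏ i ∈ s, jphe N β (c i) := by
  classical
  induction s using Finset.induction_on with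
  | empty => simp [jphe_zero]
  | insert a s ha ih => rw [Finset.sum_insert ha, Finset.prod_insert ha, jphe_add, ih]

private lemma jphe_conj {d : ℕ} (N : ℕ) (β : Fin d → ℕ) (c c' : Fin d → ℤ) :
    jphe N β c * starRingEnd ℂ (jphe N β c') = jphe N β (c - c') := by
  unfold jphe
  rw [← e_neg, ← e_add, ← Finset.sum_neg_distrib, ← Finset.sum_add_distrib]
  congr 1
  refine Finset.sum_congr rfl fun j _ => ?_
  simp only [Pi.sub_apply]
  push_cast
  ring

/-- Parseval -/
private lemma jph_parseval {p d m X N : ℕ} (hN : 1 ≤ N) (D : Finset ℤ)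
    (hD : ∀ w ∈ jphA p d m X D, ∀ w' ∈ jphA p d m X D, ∀ j, |jphv w j - jphv w' j| < N) :
    ∑ β ∈ Fintype.piFinset (fun _ : Fin d => Finset.range N),
      ‖∑ w ∈ jphA p d m X D, jphe N β (jphv w)‖ ^ 2 = (N : ℝ) ^ d * jphC p d m X D := by
  classical
  have h1 : ∀ β : Fin d → ℕ, ((‖∑ w ∈ jphA p d m X D, jphe N β (jphv w)‖ ^ 2 : ℝ) : ℂ) =
      ∑ w ∈ jphA p d m X D ×ˢ jphA p d m X D, jphe N β (jphv w.1 - jphv w.2) := by
    intro β
    rw [← Complex.normSq_eq_norm_sq, ← Complex.mul_conj, map_sum, Finset.sum_mul_sum,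
      Finset.sum_product]
    refine Finset.sum_congr rfl fun w _ => Finset.sum_congr rfl fun w' _ => ?_
    rw [jphe_conj]
  have h2 : ((∑ β ∈ Fintype.piFinset (fun _ : Fin d => Finset.range N),
      ‖∑ w ∈ jphA p d m X D, jphe N β (jphv w)‖ ^ 2 : ℝ) : ℂ) =
      (((N : ℝ) ^ d * jphC p d m X D : ℝ) : ℂ) := by
    rw [Complex.ofReal_sum]
    simp_rw [h1]
    rw [Finset.sum_comm]
    have h3 : ∀ w ∈ jphA p d m X D ×ˢ jphA p d m X D,
        ∑ β ∈ Fintype.piFinset (fun _ : Fin d => Finset.range N), jphe N β (jphv w.1 - jphv w.2) =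
        if jphv w.1 = jphv w.2 then (N : ℂ) ^ d else 0 := by
      intro w hw
      rw [Finset.mem_product] at hw
      have := orth (ι := Fin d) N hN (jphv w.1 - jphv w.2) (fun j => hD w.1 hw.1 w.2 hw.2 j)
      rw [Fintype.card_fin] at this
      unfold jphe
      rw [this]
      simp only [sub_eq_zero]
    rw [Finset.sum_congr rfl h3, ← Finset.sum_filter, Finset.sum_const, nsmul_eq_mul]
    unfold jphC
    push_cast
    ring
  exact_mod_cast h2

/-- the generating function of the first coordinates -/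
private noncomputable def jphF (p d X N : ℕ) (β : Fin d → ℕ) : ℂ :=
  open Classical in
  ∑ x ∈ (Fintype.piFinset fun _ : Fin d => Finset.Ioc (0 : ℤ) X).filter (fun x => Incong p x),
    jphe N β (fun j => ∑ i, (x i) ^ ((j : ℕ) + 1))

/-- factorization of the generating function -/
private lemma jph_factor (p d m X N : ℕ) (D : Finset ℤ) (β : Fin d → ℕ) :
    ∑ w ∈ jphA p d m X D, jphe N β (jphv w) =
      jphF p d X N β * (∑ u ∈ D, jphe N β (fun j => u ^ ((j : ℕ) + 1))) ^ m := by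
  classical
  have h1 : (∑ u ∈ D, jphe N β (fun j => u ^ ((j : ℕ) + 1))) ^ m =
      ∑ u ∈ Fintype.piFinset (fun _ : Fin m => D), jphe N β (fun j => ∑ i, (u i) ^ ((j : ℕ) + 1)) := by
    have h2 := Finset.prod_univ_sum (fun _ : Fin m => D)
      (fun (_ : Fin m) (u : ℤ) => jphe N β (fun j => u ^ ((j : ℕ) + 1)))
    rw [Finset.prod_const, Finset.card_univ, Fintype.card_fin] at h2
    rw [h2]
    refine Finset.sum_congr rfl fun u _ => ?_
    rw [← jphe_sum]
    congr 1
    funext j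
    rw [Finset.sum_apply]
  rw [h1]
  unfold jphA jphF
  rw [Finset.sum_product, Finset.sum_mul_sum]
  refine Finset.sum_congr rfl fun x _ => Finset.sum_congr rfl fun u _ => ?_
  rw [← jphe_add]
  rfl

/-- splitting into residue classes -/
private lemma jph_split (p X : ℕ) (hp : 1 ≤ p) (g : ℤ → ℂ) :
    ∑ u ∈ Finset.Ioc (0 : ℤ) X, g u =
      ∑ a ∈ Finset.range p, ∑ u ∈ (Finset.Ioc (0 : ℤ) X).filter (fun u => (p : ℤ) ∣ u - (a : ℤ)),
        g u := by
  classical
  have hp0 : (0 : ℤ) < p := by exact_mod_cast hp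
  rw [← Finset.sum_fiberwise_of_maps_to (s := Finset.Ioc (0 : ℤ) X) (t := Finset.range p)
    (g := fun u : ℤ => (u % (p : ℤ)).toNat) (f := g)]
  · refine Finset.sum_congr rfl fun a ha => ?_
    refine Finset.sum_congr ?_ fun _ _ => rfl
    refine Finset.filter_congr fun u _ => ?_
    rw [Finset.mem_range] at ha
    have h1 := Int.emod_nonneg u hp0.ne'
    have h2 := Int.emod_lt_of_pos u hp0
    constructor
    · intro h
      have h3 : u % (p : ℤ) = a := by omega
      rw [← h3]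
      exact Int.dvd_self_sub_emod
    · intro h
      have h3 : u % (p : ℤ) = (a : ℤ) % (p : ℤ) := by
        exact Int.ModEq.symm ((Int.modEq_iff_dvd).mpr h)
      have h4 : (a : ℤ) % (p : ℤ) = a := Int.emod_eq_of_lt (by omega) (by exact_mod_cast ha)
      rw [h4] at h3
      rw [h3, Int.toNat_natCast]
  · intro u _
    rw [Finset.mem_range]
    have h1 := Int.emod_nonneg u hp0.ne'
    have h2 := Int.emod_lt_of_pos u hp0
    omega

/-- power mean -/
private lemma jph_power (p m : ℕ) (hp : 1 ≤ p) (hm : 1 ≤ m) (z : ℕ → ℂ) :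
    ‖∑ a ∈ Finset.range p, z a‖ ^ (2 * m) ≤
      (p : ℝ) ^ (2 * m - 1) * ∑ a ∈ Finset.range p, ‖z a‖ ^ (2 * m) := by
  have h1 := pow_sum_div_card_le_sum_pow (s := Finset.range p) (f := fun a => ‖z a‖) (n := 2 * m - 1)
    (fun a _ => norm_nonneg _)
  have h2 : 2 * m - 1 + 1 = 2 * m := by omega
  rw [h2, Finset.card_range, div_le_iff₀ (by positivity)] at h1
  calc ‖∑ a ∈ Finset.range p, z a‖ ^ (2 * m) ≤ (∑ a ∈ Finset.range p, ‖z a‖) ^ (2 * m) :=
        pow_le_pow_left₀ (norm_nonneg _) (norm_sum_le _ _) _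
    _ ≤ _ := h1
    _ = _ := by ring

end jph

theorem JP_holder (p d m X : ℕ) (hp : 1 ≤ p) (hm : 1 ≤ m) :
    JP p d m X ≤ p ^ (2 * m - 1) * ∑ a ∈ Finset.range p, JPa p (a : ℤ) d m X := by
  classical
  obtain ⟨N, hN, hB⟩ : ∃ N : ℕ, 1 ≤ N ∧ ∀ w ∈ jphA p d m X (Finset.Ioc (0 : ℤ) X),
      ∀ w' ∈ jphA p d m X (Finset.Ioc (0 : ℤ) X), ∀ j, |jphv w j - jphv w' j| < (N : ℤ) := by
    refine ⟨1 + ∑ w ∈ jphA p d m X (Finset.Ioc (0 : ℤ) X),
      ∑ w' ∈ jphA p d m X (Finset.Ioc (0 : ℤ) X), ∑ j, (jphv w j - jphv w' j).natAbs,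
      by omega, ?_⟩
    intro w hw w' hw' j
    have h1 : (jphv w j - jphv w' j).natAbs ≤ ∑ j, (jphv w j - jphv w' j).natAbs :=
      Finset.single_le_sum (f := fun j => (jphv w j - jphv w' j).natAbs)
        (fun _ _ => Nat.zero_le _) (Finset.mem_univ j)
    have h2 : ∑ j, (jphv w j - jphv w' j).natAbs ≤
        ∑ w' ∈ jphA p d m X (Finset.Ioc (0 : ℤ) X), ∑ j, (jphv w j - jphv w' j).natAbs :=
      Finset.single_le_sum (f := fun w' => ∑ j, (jphv w j - jphv w' j).natAbs)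
        (fun _ _ => Nat.zero_le _) hw'
    have h3 : ∑ w' ∈ jphA p d m X (Finset.Ioc (0 : ℤ) X), ∑ j, (jphv w j - jphv w' j).natAbs ≤
        ∑ w ∈ jphA p d m X (Finset.Ioc (0 : ℤ) X),
        ∑ w' ∈ jphA p d m X (Finset.Ioc (0 : ℤ) X), ∑ j, (jphv w j - jphv w' j).natAbs :=
      Finset.single_le_sum (f := fun w => ∑ w' ∈ jphA p d m X (Finset.Ioc (0 : ℤ) X),
        ∑ j, (jphv w j - jphv w' j).natAbs)
        (fun _ _ => Nat.zero_le _) hw
    have h4 : |jphv w j - jphv w' j| = ((jphv w j - jphv w' j).natAbs : ℤ) :=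
      (Int.natCast_natAbs _).symm
    rw [h4]
    exact_mod_cast (by omega)
  have hN0 : (0 : ℝ) < (N : ℝ) ^ d := by
    have : (0 : ℝ) < N := by exact_mod_cast hN
    positivity
  set Da : ℕ → Finset ℤ := fun a => (Finset.Ioc (0 : ℤ) X).filter fun u => (p : ℤ) ∣ u - (a : ℤ)
    with hDa
  have hsub : ∀ a, jphA p d m X (Da a) ⊆ jphA p d m X (Finset.Ioc (0 : ℤ) X) := by
    intro a w hw
    unfold jphA at hw ⊢
    rw [Finset.mem_product] at hw ⊢
    refine ⟨hw.1, ?_⟩
    rw [Fintype.mem_piFinset] at hw ⊢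
    intro i
    exact (Finset.mem_filter.mp (hw.2 i)).1
  have hP := jph_parseval (p := p) (d := d) (m := m) (X := X) hN (Finset.Ioc (0 : ℤ) X) hB
  have hPa : ∀ a, ∑ β ∈ Fintype.piFinset (fun _ : Fin d => Finset.range N),
      ‖∑ w ∈ jphA p d m X (Da a), jphe N β (jphv w)‖ ^ 2 =
      (N : ℝ) ^ d * jphC p d m X (Da a) := fun a =>
    jph_parseval hN (Da a) (fun w hw w' hw' j => hB w (hsub a hw) w' (hsub a hw') j)
  have hkey : ∀ β : Fin d → ℕ, ‖∑ w ∈ jphA p d m X (Finset.Ioc (0 : ℤ) X), jphe N β (jphv w)‖ ^ 2 ≤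
      (p : ℝ) ^ (2 * m - 1) * ∑ a ∈ Finset.range p,
        ‖∑ w ∈ jphA p d m X (Da a), jphe N β (jphv w)‖ ^ 2 := by
    intro β
    have h1 : ∀ D : Finset ℤ, ‖∑ w ∈ jphA p d m X D, jphe N β (jphv w)‖ ^ 2 =
        ‖jphF p d X N β‖ ^ 2 *
          ‖∑ u ∈ D, jphe N β (fun j => u ^ ((j : ℕ) + 1))‖ ^ (2 * m) := by
      intro D
      rw [jph_factor, norm_mul, norm_pow, mul_pow, ← pow_mul, mul_comm m 2]
    rw [h1, jph_split p X hp]
    simp_rw [h1]
    rw [← Finset.mul_sum]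
    calc _ ≤ ‖jphF p d X N β‖ ^ 2 * ((p : ℝ) ^ (2 * m - 1) * ∑ a ∈ Finset.range p,
          ‖∑ u ∈ Da a, jphe N β (fun j => u ^ ((j : ℕ) + 1))‖ ^ (2 * m)) :=
          mul_le_mul_of_nonneg_left (jph_power p m hp hm _) (by positivity)
      _ = _ := by ring
  have hsum := Finset.sum_le_sum fun β (_ : β ∈ Fintype.piFinset (fun _ : Fin d => Finset.range N)) =>
    hkey β
  rw [hP, ← Finset.mul_sum, Finset.sum_comm] at hsum
  simp_rw [hPa] at hsum
  rw [← Finset.mul_sum] at hsum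
  have h5 : (N : ℝ) ^ d * (jphC p d m X (Finset.Ioc (0 : ℤ) X) : ℝ) ≤
      (N : ℝ) ^ d * ((p : ℝ) ^ (2 * m - 1) * ∑ a ∈ Finset.range p, (jphC p d m X (Da a) : ℝ)) := by
    calc _ ≤ _ := hsum
      _ = _ := by ring
  have h6 := le_of_mul_le_mul_left h5 hN0
  rw [jph_JP]
  have h7 : ∀ a ∈ Finset.range p, JPa p (a : ℤ) d m X = jphC p d m X (Da a) := fun a _ =>
    jph_JPa p d m X a
  rw [Finset.sum_congr rfl h7]
  exact_mod_cast h6

end Pool.Agent.Lib.MP_c0a553_nt
end

section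

/-! # Counting with Linnik lemma (job HP-10) -/

namespace Pool.Agent.Lib.MP_c0a553_nt

open Finset

private theorem shift_fiber {α β : Type*} [DecidableEq β] [AddCommGroup β] (U : Finset α)
    (f : α → β) (c : β) :
    ((U ×ˢ U).filter fun p => f p.1 - f p.2 = c).card =
      ∑ h ∈ U.image f, (U.filter fun u => f u = h).card * (U.filter fun u => f u = h - c).card := by
  classical
  rw [Finset.card_eq_sum_card_fiberwise (f := fun p : α × α => f p.1) (t := U.image f)]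
  · refine Finset.sum_congr rfl fun h _ => ?_
    rw [← Finset.card_product]
    congr 1
    ext ⟨u, v⟩
    simp only [Finset.mem_filter, Finset.mem_product]
    constructor
    · rintro ⟨⟨⟨hu, hv⟩, h1⟩, h2⟩
      refine ⟨⟨hu, h2⟩, hv, ?_⟩
      rw [← h2, ← h1]
      abel
    · rintro ⟨⟨hu, h2⟩, hv, h1⟩
      refine ⟨⟨⟨hu, hv⟩, ?_⟩, h2⟩
      rw [h2, h1]
      abel
  · intro p hp
    rw [Finset.mem_coe, Finset.mem_filter, Finset.mem_product] at hp
    exact Finset.mem_coe.mpr (Finset.mem_image_of_mem _ hp.1.1)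

private theorem shift_gen {α β : Type*} [DecidableEq β] [AddCommGroup β] (U : Finset α)
    (f : α → β) (c : β) :
    ((U ×ˢ U).filter fun p => f p.1 - f p.2 = c).card ≤
      ((U ×ˢ U).filter fun p => f p.1 = f p.2).card := by
  classical
  have h0 : ((U ×ˢ U).filter fun p => f p.1 = f p.2) =
      ((U ×ˢ U).filter fun p => f p.1 - f p.2 = 0) := by
    refine Finset.filter_congr fun p _ => ?_
    rw [sub_eq_zero]
  rw [h0, shift_fiber, shift_fiber]
  set r : β → ℕ := fun h => (U.filter fun u => f u = h).card with hr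
  have e0 : ∑ h ∈ U.image f, (U.filter fun u => f u = h).card *
      (U.filter fun u => f u = h - 0).card = ∑ h ∈ U.image f, r h * r h := by
    refine Finset.sum_congr rfl fun h _ => ?_
    rw [sub_zero]
  rw [e0]
  change ∑ h ∈ U.image f, r h * r (h - c) ≤ _
  have h1 : ∑ h ∈ U.image f, r (h - c) * r (h - c) ≤ ∑ h ∈ U.image f, r h * r h := by
    have h2 : ∑ h ∈ U.image f, r (h - c) * r (h - c) =
        ∑ h ∈ (U.image f).image (fun h => h - c), r h * r h := by
      symm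
      apply Finset.sum_image
      intro a _ b _ hab
      exact sub_left_injective hab
    rw [h2]
    have h3 : ∑ h ∈ (U.image f).image (fun h => h - c), r h * r h =
        ∑ h ∈ ((U.image f).image (fun h => h - c)).filter (fun h => h ∈ U.image f), r h * r h := by
      symm
      apply Finset.sum_filter_of_ne
      intro h _ hne
      by_contra hni
      apply hne
      have : r h = 0 := by
        rw [hr]
        change (U.filter fun u => f u = h).card = 0
        rw [Finset.card_eq_zero, Finset.filter_eq_empty_iff]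
        intro u hu hfu
        exact hni (Finset.mem_image.mpr ⟨u, hu, hfu⟩)
      rw [this, Nat.mul_zero]
    rw [h3]
    refine Finset.sum_le_sum_of_subset ?_
    intro h hh
    rw [Finset.mem_filter] at hh
    exact hh.2
  have h4 : 2 * ∑ h ∈ U.image f, r h * r (h - c) ≤
      ∑ h ∈ U.image f, r h * r h + ∑ h ∈ U.image f, r (h - c) * r (h - c) := by
    rw [Finset.mul_sum, ← Finset.sum_add_distrib]
    refine Finset.sum_le_sum fun h _ => ?_
    have := two_mul_le_add_sq (r h) (r (h - c))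
    nlinarith
  omega

/-- a difference of representation numbers is largest at zero: for every `c` the number of
solutions of `∑ u_i^j - ∑ v_i^j = c j`, `j ∈ E`, is at most `JE E m A`. -/
theorem JE_shift (E : Finset ℕ) (m : ℕ) (A : Finset ℤ) (c : ℕ → ℤ) :
    (((Fintype.piFinset fun _ : Fin m => A) ×ˢ (Fintype.piFinset fun _ : Fin m => A)).filter
      fun p => ∀ j ∈ E, ∑ i, (p.1 i) ^ j - ∑ i, (p.2 i) ^ j = c j).card ≤ JE E m A := by
  classical
  have h := shift_gen (Fintype.piFinset fun _ : Fin m => A)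
    (fun (u : Fin m → ℤ) (j : {j // j ∈ E}) => ∑ i, (u i) ^ (j : ℕ)) (fun j => c j)
  unfold JE
  convert h using 2
  · refine Finset.filter_congr fun p _ => ?_
    rw [funext_iff]
    constructor
    · intro hp j
      exact hp j.1 j.2
    · intro hp j hj
      exact hp ⟨j, hj⟩
  · refine Finset.filter_congr fun p _ => ?_
    rw [funext_iff]
    constructor
    · intro hp j
      exact hp j.1 j.2
    · intro hp j hj
      exact hp ⟨j, hj⟩

/-- translation invariance of a complete system, general form -/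
private theorem translate_gen {ι κ : Type*} [Fintype ι] [Fintype κ] (d : ℕ) (u : ι → ℤ)
    (v : κ → ℤ) (c : ℤ) (h : ∀ j ≤ d, ∑ i, (u i) ^ j = ∑ i, (v i) ^ j) :
    ∀ j ≤ d, ∑ i, (u i + c) ^ j = ∑ i, (v i + c) ^ j := by
  intro j hj
  simp_rw [add_pow]
  rw [Finset.sum_comm, Finset.sum_comm (s := (Finset.univ : Finset κ))]
  refine Finset.sum_congr rfl fun l hl => ?_
  rw [Finset.mem_range] at hl
  have h1 := h l (by omega)
  simp_rw [mul_assoc]
  rw [← Finset.sum_mul, ← Finset.sum_mul, h1]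

/-- translation invariance of complete systems -/
theorem JE_translate (d m : ℕ) (a b c : ℤ) :
    JE (Finset.Icc 1 d) m (Finset.Ioc (a + c) (b + c)) = JE (Finset.Icc 1 d) m (Finset.Ioc a b) := by
  have tr : ∀ (u v : Fin m → ℤ) (c : ℤ), (∀ j ∈ Finset.Icc 1 d, ∑ i, (u i) ^ j = ∑ i, (v i) ^ j) →
      ∀ j ∈ Finset.Icc 1 d, ∑ i, (u i + c) ^ j = ∑ i, (v i + c) ^ j := by
    intro u v c h j hj
    rw [Finset.mem_Icc] at hj
    refine translate_gen d u v c ?_ j hj.2
    intro l hl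
    rcases Nat.eq_zero_or_pos l with h0 | h0
    · subst h0
      simp
    · exact h l (by rw [Finset.mem_Icc]; omega)
  unfold JE
  refine Finset.card_nbij' (fun p => (fun i => p.1 i + -c, fun i => p.2 i + -c))
    (fun p => (fun i => p.1 i + c, fun i => p.2 i + c)) ?_ ?_ ?_ ?_
  · intro p hp
    simp only [Finset.coe_filter, Finset.mem_product, Fintype.mem_piFinset, Set.mem_ofPred_eq,
      Finset.mem_Ioc] at hp ⊢
    refine ⟨⟨fun i => ?_, fun i => ?_⟩, tr _ _ _ hp.2⟩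
    · have := hp.1.1 i
      constructor <;> linarith [this.1, this.2]
    · have := hp.1.2 i
      constructor <;> linarith [this.1, this.2]
  · intro p hp
    simp only [Finset.coe_filter, Finset.mem_product, Fintype.mem_piFinset, Set.mem_ofPred_eq,
      Finset.mem_Ioc] at hp ⊢
    refine ⟨⟨fun i => ?_, fun i => ?_⟩, tr _ _ _ hp.2⟩
    · have := hp.1.1 i
      constructor <;> linarith [this.1, this.2]
    · have := hp.1.2 i
      constructor <;> linarith [this.1, this.2]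
  · intro p _
    simp
  · intro p _
    simp

/-- bound of a cardinality by the fibres -/
private theorem card_fibre {α β : Type*} (s : Finset α) (f : α → β) (t : Finset β) (n : ℕ)
    (hf : ∀ a ∈ s, f a ∈ t)
    (hn : ∀ b ∈ t, ∀ s' : Finset α, s' ⊆ s → (∀ a ∈ s', f a = b) → s'.card ≤ n) :
    s.card ≤ n * t.card := by
  classical
  refine Finset.card_le_mul_card_image_of_maps_to hf n fun b hb => ?_
  refine hn b hb _ (Finset.filter_subset _ _) fun a ha => ?_
  exact (Finset.mem_filter.mp ha).2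

/-- Linnik's lemma, as a bound for a finset. -/
private theorem linnik_card (p d X : ℕ) (a : ℤ) (hp : p.Prime) (hd : d < p) (hd1 : 1 ≤ d)
    (hX : X ≤ p ^ d) (h : ℕ → ℤ) (L : Finset (Fin d → ℤ))
    (hL : ∀ x ∈ L, (∀ i, x i ∈ Finset.Ioc (0 : ℤ) X) ∧ Incong p x ∧
      ∀ j ∈ Finset.Icc 1 d, (p : ℤ) ^ j ∣ ∑ i, (x i - a) ^ j - h j) :
    L.card ≤ d.factorial * p ^ (d * (d - 1) / 2) := by
  classical
  have hab : ((X : ℤ) - a) - (-a) ≤ (p : ℤ) ^ d := by
    have : (X : ℤ) ≤ (p : ℤ) ^ d := by exact_mod_cast hX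
    linarith
  have hlin := linnik p d hp hd hd1 h (-a) ((X : ℤ) - a) hab
  set F : Finset (Fin d → ℤ) := (Fintype.piFinset fun _ : Fin d => Finset.Ioc (-a) ((X : ℤ) - a)).filter
    (fun x => (∀ i j, i ≠ j → ¬ (p : ℤ) ∣ x i - x j) ∧
        ∀ j ∈ Finset.Icc 1 d, (p : ℤ) ^ j ∣ ∑ i, x i ^ j - h j) with hF
  have hcard := Nat.subtype_card F (p := fun x : Fin d → ℤ => (∀ i, x i ∈ Finset.Ioc (-a) ((X : ℤ) - a)) ∧
      (∀ i j, i ≠ j → ¬ (p : ℤ) ∣ x i - x j) ∧
        ∀ j ∈ Finset.Icc 1 d, (p : ℤ) ^ j ∣ ∑ i, x i ^ j - h j) (by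
      intro x
      rw [hF, Finset.mem_filter, Fintype.mem_piFinset])
  rw [hcard] at hlin
  refine le_trans ?_ hlin
  refine Finset.card_le_card_of_injOn (fun x i => x i - a) ?_ ?_
  · intro x hx
    obtain ⟨h1, h2, h3⟩ := hL x hx
    rw [hF, Finset.mem_coe, Finset.mem_filter, Fintype.mem_piFinset]
    refine ⟨fun i => ?_, fun i j hij => ?_, h3⟩
    · have := h1 i
      rw [Finset.mem_Ioc] at this ⊢
      constructor <;> linarith [this.1, this.2]
    · have := h2 i j hij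
      have e : x i - a - (x j - a) = x i - x j := by ring
      change ¬ (p : ℤ) ∣ x i - a - (x j - a)
      rwa [e]
  · intro x _ y _ hxy
    funext i
    have := congrFun hxy i
    simp only at this
    linarith

/-- the conditions of `JPa` without the box -/
private def JQ (p : ℕ) (a : ℤ) (d m : ℕ)
    (w : ((Fin d → ℤ) × (Fin m → ℤ)) × ((Fin d → ℤ) × (Fin m → ℤ))) : Prop :=
  ((∀ i, (p : ℤ) ∣ w.1.2 i - a) ∧ (∀ i, (p : ℤ) ∣ w.2.2 i - a)) ∧
    Incong p w.1.1 ∧ Incong p w.2.1 ∧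
    ∀ j ∈ Finset.Icc 1 d, ∑ i, (w.1.1 i) ^ j + ∑ i, (w.1.2 i) ^ j
      = ∑ i, (w.2.1 i) ^ j + ∑ i, (w.2.2 i) ^ j

theorem JPa_le (p d m X : ℕ) (a : ℤ) (hp : p.Prime) (hd : d < p) (hd1 : 1 ≤ d) (hX : X ≤ p ^ d) :
    JPa p a d m X ≤ X ^ d * (d.factorial * p ^ (d * (d - 1) / 2))
      * JE (Finset.Icc 1 d) m (Finset.Ioc (0 : ℤ) ((X / p + 1 : ℕ) : ℤ)) := by
  classical
  have hp0 : (0 : ℤ) < p := by exact_mod_cast hp.pos
  obtain ⟨N, hN⟩ : ∃ N : ℤ, N = ((X / p + 1 : ℕ) : ℤ) := ⟨_, rfl⟩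
  have e3 : (X : ℤ) < N * p := by
    have h1 := Nat.lt_div_mul_add (a := X) hp.pos
    have h2 : X < (X / p + 1) * p := by
      rw [Nat.add_mul]
      omega
    rw [hN]
    exact_mod_cast h2
  rw [← hN]
  clear hN
  set B : Finset (Fin d → ℤ) := Fintype.piFinset fun _ : Fin d => Finset.Ioc (0 : ℤ) X with hB
  set Bm : Finset (Fin m → ℤ) := Fintype.piFinset fun _ : Fin m => Finset.Ioc (0 : ℤ) X with hBm
  set J : ℕ := JE (Finset.Icc 1 d) m (Finset.Ioc (0 : ℤ) N) with hJ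
  set T : Finset (((Fin d → ℤ) × (Fin m → ℤ)) × ((Fin d → ℤ) × (Fin m → ℤ))) :=
    ((B ×ˢ Bm) ×ˢ (B ×ˢ Bm)).filter (JQ p a d m) with hT
  have memT : ∀ w, w ∈ T ↔ (((∀ i, w.1.1 i ∈ Finset.Ioc (0 : ℤ) X) ∧
      (∀ i, w.1.2 i ∈ Finset.Ioc (0 : ℤ) X)) ∧ ((∀ i, w.2.1 i ∈ Finset.Ioc (0 : ℤ) X) ∧
      (∀ i, w.2.2 i ∈ Finset.Ioc (0 : ℤ) X))) ∧ JQ p a d m w := by
    intro w
    rw [hT, Finset.mem_filter, Finset.mem_product, Finset.mem_product, Finset.mem_product, hB, hBm,
      Fintype.mem_piFinset, Fintype.mem_piFinset, Fintype.mem_piFinset, Fintype.mem_piFinset]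
  clear_value T
  have hTc : JPa p a d m X = T.card := by
    unfold JPa
    apply Nat.subtype_card
    intro w
    rw [memT]
    unfold JQ
    tauto
  rw [hTc]
  -- the translated system
  have tr : ∀ w ∈ T, ∀ j ∈ Finset.Icc 1 d, ∑ i, (w.1.1 i - a) ^ j + ∑ i, (w.1.2 i - a) ^ j
      = ∑ i, (w.2.1 i - a) ^ j + ∑ i, (w.2.2 i - a) ^ j := by
    intro w hw j hj
    rw [memT] at hw
    obtain ⟨_, _, _, _, hs⟩ := hw
    have h := translate_gen d (Sum.elim w.1.1 w.1.2) (Sum.elim w.2.1 w.2.2) (-a) (by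
      intro l hl
      rw [Fintype.sum_sum_type, Fintype.sum_sum_type]
      rcases Nat.eq_zero_or_pos l with h0 | h0
      · subst h0
        simp
      · exact hs l (by rw [Finset.mem_Icc]; omega)) j (Finset.mem_Icc.mp hj).2
    rw [Fintype.sum_sum_type, Fintype.sum_sum_type] at h
    simpa only [Sum.elim_inl, Sum.elim_inr, ← sub_eq_add_neg] using h
  -- the innermost fibre
  have fib : ∀ (y x : Fin d → ℤ)
      (T' : Finset (((Fin d → ℤ) × (Fin m → ℤ)) × ((Fin d → ℤ) × (Fin m → ℤ)))), T' ⊆ T →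
      (∀ w ∈ T', w.2.1 = y) → (∀ w ∈ T', w.1.1 = x) → T'.card ≤ J := by
    intro y x T' hT' hTy hTx
    set t0 : ℤ := (-a) / p with ht0
    have hJ' : J = JE (Finset.Icc 1 d) m (Finset.Ioc t0 (t0 + N)) := by
      have h := JE_translate d m 0 N t0
      rw [zero_add] at h
      rw [hJ, ← h, add_comm]
    rw [hJ']
    refine le_trans ?_ (JE_shift (Finset.Icc 1 d) m _
      (fun j => (∑ i, (y i - a) ^ j - ∑ i, (x i - a) ^ j) / (p : ℤ) ^ j))
    refine Finset.card_le_card_of_injOn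
      (fun w => (fun i => (w.1.2 i - a) / p, fun i => (w.2.2 i - a) / p)) ?_ ?_
    · intro w hw
      have hwT := hT' hw
      have hy := hTy w hw
      have hx := hTx w hw
      have hs := tr w hwT
      rw [memT] at hwT
      obtain ⟨⟨⟨_, hu⟩, _, hv⟩, ⟨hdu, hdv⟩, _⟩ := hwT
      have rng : ∀ t : ℤ, t ∈ Finset.Ioc (0 : ℤ) X → (p : ℤ) ∣ t - a →
          (t - a) / p ∈ Finset.Ioc t0 (t0 + N) := by
        intro t ht hdt
        obtain ⟨q, hq⟩ := hdt
        have hq' : (t - a) / p = q := by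
          rw [hq]
          exact Int.mul_ediv_cancel_left _ hp0.ne'
        rw [hq', Finset.mem_Ioc]
        rw [Finset.mem_Ioc] at ht
        have e1 : t0 * p ≤ -a := Int.ediv_mul_le _ hp0.ne'
        have e2 : -a < (t0 + 1) * p := Int.lt_ediv_add_one_mul_self _ hp0
        constructor
        · by_contra hle
          push Not at hle
          have : (p : ℤ) * q ≤ p * t0 := mul_le_mul_of_nonneg_left hle hp0.le
          nlinarith [ht.1]
        · by_contra hlt
          push Not at hlt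
          have h5 : (t0 + N) + 1 ≤ q := hlt
          have : (p : ℤ) * ((t0 + N) + 1) ≤ p * q :=
            mul_le_mul_of_nonneg_left h5 hp0.le
          nlinarith [ht.2]
      have pw : ∀ (z : Fin m → ℤ), (∀ i, (p : ℤ) ∣ z i - a) → ∀ j : ℕ,
          (p : ℤ) ^ j * ∑ i, ((z i - a) / p) ^ j = ∑ i, (z i - a) ^ j := by
        intro z hz j
        rw [Finset.mul_sum]
        refine Finset.sum_congr rfl fun i _ => ?_
        rw [← mul_pow, Int.mul_ediv_cancel' (hz i)]
      rw [Finset.mem_coe, Finset.mem_filter, Finset.mem_product, Fintype.mem_piFinset,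
        Fintype.mem_piFinset]
      refine ⟨⟨fun i => rng _ (hu i) (hdu i), fun i => rng _ (hv i) (hdv i)⟩, ?_⟩
      intro j hj
      have h1 := hs j hj
      rw [← pw _ hdu, ← pw _ hdv, hx, hy] at h1
      have hpj : (p : ℤ) ^ j ≠ 0 := pow_ne_zero _ hp0.ne'
      rw [eq_comm]
      apply Int.ediv_eq_of_eq_mul_right hpj
      rw [mul_sub]
      linarith
    · intro w hw w' hw' hww
      have hwT := hT' hw
      have hy := hTy w hw
      have hx := hTx w hw
      have hwT' := hT' hw'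
      have hy' := hTy w' hw'
      have hx' := hTx w' hw'
      rw [memT] at hwT hwT'
      obtain ⟨_, ⟨hdu, hdv⟩, _⟩ := hwT
      obtain ⟨_, ⟨hdu', hdv'⟩, _⟩ := hwT'
      simp only [Prod.mk.injEq] at hww
      have cancel : ∀ s t : ℤ, (p : ℤ) ∣ s - a → (p : ℤ) ∣ t - a → (s - a) / p = (t - a) / p →
          s = t := by
        intro s t hs ht hst
        have h1 := Int.mul_ediv_cancel' hs
        have h2 := Int.mul_ediv_cancel' ht
        rw [hst, h2] at h1
        linarith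
      have e1 : w.1.2 = w'.1.2 := by
        funext i
        exact cancel _ _ (hdu i) (hdu' i) (congrFun hww.1 i)
      have e2 : w.2.2 = w'.2.2 := by
        funext i
        exact cancel _ _ (hdv i) (hdv' i) (congrFun hww.2 i)
      exact Prod.ext (Prod.ext (hx.trans hx'.symm) e1) (Prod.ext (hy.trans hy'.symm) e2)
  -- the middle fibre
  have fib2 : ∀ y ∈ B, ∀ T' : Finset (((Fin d → ℤ) × (Fin m → ℤ)) × ((Fin d → ℤ) × (Fin m → ℤ))),
      T' ⊆ T → (∀ w ∈ T', w.2.1 = y) → T'.card ≤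
      (d.factorial * p ^ (d * (d - 1) / 2)) * J := by
    intro y _ T' hT' hTy
    set L : Finset (Fin d → ℤ) := T'.image (fun w => w.1.1) with hLdef
    have h1 := card_fibre T' (fun w => w.1.1) L J
      (fun w hw => Finset.mem_image.mpr ⟨w, hw, rfl⟩)
      (fun x _ T'' hT'' hx => fib y x T'' (hT''.trans hT') (fun w hw => hTy w (hT'' hw)) hx)
    have h2 : L.card ≤ d.factorial * p ^ (d * (d - 1) / 2) := by
      refine linnik_card p d X a hp hd hd1 hX (fun j => ∑ i, (y i - a) ^ j) L ?_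
      intro x hx
      rw [hLdef, Finset.mem_image] at hx
      obtain ⟨w, hw, rfl⟩ := hx
      have hwT := hT' hw
      have hy := hTy w hw
      have hs := tr w hwT
      rw [memT] at hwT
      obtain ⟨⟨⟨hx1, _⟩, _⟩, ⟨hdu, hdv⟩, hi1, _, _⟩ := hwT
      refine ⟨hx1, hi1, ?_⟩
      intro j hj
      have h3 := hs j hj
      rw [hy] at h3
      have h4 : ∑ i, (w.1.1 i - a) ^ j - ∑ i, (y i - a) ^ j =
          ∑ i, (w.2.2 i - a) ^ j - ∑ i, (w.1.2 i - a) ^ j := by linarith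
      rw [h4]
      apply dvd_sub
      · exact Finset.dvd_sum fun i _ => pow_dvd_pow_of_dvd (hdv i) j
      · exact Finset.dvd_sum fun i _ => pow_dvd_pow_of_dvd (hdu i) j
    calc T'.card ≤ J * L.card := h1
      _ ≤ J * (d.factorial * p ^ (d * (d - 1) / 2)) := Nat.mul_le_mul_left _ h2
      _ = _ := Nat.mul_comm _ _
  have h1 := card_fibre T (fun w => w.2.1) B _ (by
      intro w hw
      rw [memT] at hw
      rw [hB, Fintype.mem_piFinset]
      exact hw.1.2.1) fib2
  have hBc : B.card = X ^ d := by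
    rw [hB, Fintype.card_piFinset]
    simp
  rw [hBc] at h1
  refine h1.trans (le_of_eq ?_)
  ring

end Pool.Agent.Lib.MP_c0a553_nt
end

section

/-! # Vinogradov mean value theorem, recursion (job HP-11) -/

namespace Pool.Agent.Lib.MP_c0a553_nt

open Finset

private theorem vr_primes (N : ℕ) (hN : 1 ≤ N) (k : ℕ) :
    ∃ T : Finset ℕ, T.card = k ∧ ∀ p ∈ T, p.Prime ∧ N < p ∧ p ≤ 2 ^ k * N := by
  induction k with
  | zero => exact ⟨∅, by simp, by simp⟩
  | succ k ih =>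
    obtain ⟨T, hT, h⟩ := ih
    obtain ⟨p, hp, h1, h2⟩ := Nat.exists_prime_lt_and_le_two_mul (2 ^ k * N) (by positivity)
    refine ⟨insert p T, ?_, ?_⟩
    · rw [Finset.card_insert_of_notMem, hT]
      intro hmem
      have := (h p hmem).2.2
      omega
    · intro q hq
      rcases Finset.mem_insert.1 hq with rfl | hq
      · refine ⟨hp, ?_, ?_⟩
        · have : N ≤ 2 ^ k * N := Nat.le_mul_of_pos_left _ (by positivity)
          omega
        · rw [pow_succ]
          calc q ≤ 2 * (2 ^ k * N) := h2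
            _ = 2 ^ k * 2 * N := by ring
      · obtain ⟨a, b, c⟩ := h q hq
        refine ⟨a, b, c.trans ?_⟩
        exact Nat.mul_le_mul_right _ (Nat.pow_le_pow_right (by norm_num) (Nat.le_succ k))

private theorem vr_base_mem (d : ℕ) (x y : Fin d → ℤ)
    (h : ∀ j ∈ Finset.Icc 1 d, ∑ i, x i ^ j = ∑ i, y i ^ j) (i : Fin d) : ∃ j, x i = y j := by
  have h1 := newton_prod (R := ℚ) d (fun j hj => by
      have : (j : ℚ) ≠ 0 := by
        have := (Finset.mem_Icc.1 hj).1
        positivity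
      exact this.isUnit) (fun i => (x i : ℚ)) (fun i => (y i : ℚ)) (fun j hj => by
      have := congrArg (fun z : ℤ => (z : ℚ)) (h j hj)
      simpa using this)
  have h2 := congrArg (Polynomial.eval (x i : ℚ)) h1
  rw [Polynomial.eval_prod, Polynomial.eval_prod] at h2
  simp only [Polynomial.eval_sub, Polynomial.eval_X, Polynomial.eval_C] at h2
  have h3 : ∏ j, ((x i : ℚ) - (x j : ℚ)) = 0 :=
    Finset.prod_eq_zero (Finset.mem_univ i) (by simp)
  rw [h3] at h2
  obtain ⟨j, -, hj⟩ := Finset.prod_eq_zero_iff.1 h2.symm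
  refine ⟨j, ?_⟩
  have : (x i : ℚ) = (y j : ℚ) := by linarith
  exact_mod_cast this

private theorem vr_base (d X : ℕ) :
    JE (Finset.Icc 1 d) d (Finset.Ioc (0 : ℤ) X) ≤ d ^ d * X ^ d := by
  classical
  unfold JE
  have hsub : ((Fintype.piFinset fun _ : Fin d => Finset.Ioc (0 : ℤ) X) ×ˢ
      (Fintype.piFinset fun _ : Fin d => Finset.Ioc (0 : ℤ) X)).filter
        (fun p => ∀ j ∈ Finset.Icc 1 d, ∑ i, (p.1 i) ^ j = ∑ i, (p.2 i) ^ j) ⊆
      (Fintype.piFinset fun _ : Fin d => Finset.Ioc (0 : ℤ) X).biUnion fun y =>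
        (Fintype.piFinset fun _ : Fin d => Finset.univ.image y).image fun x => (x, y) := by
    rintro ⟨x, y⟩ hp
    rw [Finset.mem_filter, Finset.mem_product] at hp
    obtain ⟨⟨h1, h2⟩, h3⟩ := hp
    rw [Finset.mem_biUnion]
    refine ⟨y, h2, ?_⟩
    rw [Finset.mem_image]
    refine ⟨x, ?_, rfl⟩
    rw [Fintype.mem_piFinset]
    intro i
    obtain ⟨j, hj⟩ := vr_base_mem d x y h3 i
    rw [Finset.mem_image]
    exact ⟨j, Finset.mem_univ j, hj.symm⟩
  refine (Finset.card_le_card hsub).trans (Finset.card_biUnion_le.trans ?_)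
  calc ∑ y ∈ Fintype.piFinset fun _ : Fin d => Finset.Ioc (0 : ℤ) X,
        ((Fintype.piFinset fun _ : Fin d => Finset.univ.image y).image fun x => (x, y)).card
      ≤ ∑ y ∈ Fintype.piFinset fun _ : Fin d => Finset.Ioc (0 : ℤ) X, d ^ d := by
        refine Finset.sum_le_sum fun y _ => Finset.card_image_le.trans ?_
        rw [Fintype.card_piFinset_const]
        have : (Finset.univ.image y).card ≤ d := by
          simpa using Finset.card_image_le (s := (Finset.univ : Finset (Fin d))) (f := y)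
        simpa using Nat.pow_le_pow_left this d
    _ = d ^ d * X ^ d := by
        rw [Finset.sum_const, Fintype.card_piFinset_const, Int.card_Ioc]
        simp [mul_comm]

/-- the exponent -/
private noncomputable def vrE (d l : ℕ) : ℝ :=
  2 * (d : ℝ) * l - d * (d + 1) / 2 + (d : ℝ) ^ 2 / 2 * (1 - 1 / (d : ℝ)) ^ l

private theorem vrE_ge (d l : ℕ) (hd : 2 ≤ d) : 3 / 2 * (d : ℝ) * l - d / 2 ≤ vrE d l := by
  have hd' : (2 : ℝ) ≤ d := by exact_mod_cast hd
  have h1 : (-2 : ℝ) ≤ -(1 / (d : ℝ)) := by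
    have : 1 / (d : ℝ) ≤ 1 := by
      rw [div_le_one (by positivity)]
      linarith
    linarith
  have h2 := one_add_mul_le_pow h1 l
  have h3 : (d : ℝ) ^ 2 / 2 * (1 + l * -(1 / (d : ℝ))) ≤
      (d : ℝ) ^ 2 / 2 * (1 - 1 / (d : ℝ)) ^ l := by
    refine mul_le_mul_of_nonneg_left ?_ (by positivity)
    rw [sub_eq_add_neg]
    exact h2
  have h4 : (d : ℝ) ^ 2 / 2 * (1 + l * -(1 / (d : ℝ))) = d ^ 2 / 2 - d * l / 2 := by
    field_simp
    ring
  unfold vrE
  linarith

private theorem vrE_succ (d l : ℕ) (hd : 2 ≤ d) :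
    (2 * (l : ℝ) + ((d : ℝ) - 1) / 2) + d + (1 - 1 / (d : ℝ)) * vrE d l = vrE d (l + 1) := by
  have hd' : (2 : ℝ) ≤ d := by exact_mod_cast hd
  have hd0 : (d : ℝ) ≠ 0 := by positivity
  unfold vrE
  rw [pow_succ]
  push_cast
  have h1 : (1 - 1 / (d : ℝ)) * (2 * (d : ℝ) * l) = 2 * d * l - 2 * l := by
    field_simp
  have h2 : (1 - 1 / (d : ℝ)) * ((d : ℝ) * (d + 1) / 2) = d * (d + 1) / 2 - (d + 1) / 2 := by
    field_simp
  linear_combination h1 - h2

private theorem vr_step (d l : ℕ) (hd : 2 ≤ d) (hl : 1 ≤ l) (C : ℝ) (hC : 0 < C)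
    (ih : ∀ X : ℕ, 1 ≤ X → (JE (Finset.Icc 1 d) (d * l) (Finset.Ioc (0 : ℤ) X) : ℝ)
        ≤ C * (X : ℝ) ^ vrE d l) :
    ∃ K : ℝ, 0 < K ∧ ∀ X : ℕ, 1 ≤ X → (RR d (d + d * l) X : ℝ) ≤ K * (X : ℝ) ^ vrE d (l + 1) := by
  have hd' : (2 : ℝ) ≤ d := by exact_mod_cast hd
  have hl' : (1 : ℝ) ≤ l := by exact_mod_cast hl
  have hE0 : 0 ≤ vrE d l := by
    have := vrE_ge d l hd
    nlinarith
  set C1 : ℝ := 2 ^ (d ^ 3) * (d + 2) with hC1
  have hC10 : 0 < C1 := by positivity
  set M : ℕ := 2 * (d * l) + d * (d - 1) / 2 with hM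
  refine ⟨(((d + d * l : ℕ) : ℝ) ^ d) ^ 2 * (d ^ 3 : ℕ) * (C1 ^ M * d.factorial *
    (C * 2 ^ vrE d l)), by positivity, ?_⟩
  intro X hX
  have hX1 : (1 : ℝ) ≤ X := by exact_mod_cast hX
  have hX0 : (0 : ℝ) < X := by linarith
  set Z : ℝ := (X : ℝ) ^ (1 / (d : ℝ)) with hZ
  have hZ1 : 1 ≤ Z := Real.one_le_rpow hX1 (by positivity)
  have hZd : Z ^ d = X := by
    rw [hZ, ← Real.rpow_natCast, ← Real.rpow_mul hX0.le]
    rw [one_div, inv_mul_cancel₀ (by positivity), Real.rpow_one]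
  set N : ℕ := ⌈Z⌉₊ + d with hN
  have hN1 : 1 ≤ N := by omega
  have hZN : Z ≤ N := by
    have := Nat.le_ceil Z
    rw [hN]
    push_cast
    linarith
  have hNZ : (N : ℝ) ≤ (d + 2) * Z := by
    have := (Nat.ceil_lt_add_one (by linarith : (0 : ℝ) ≤ Z)).le
    rw [hN]
    push_cast
    nlinarith
  obtain ⟨T, hT, hTp⟩ := vr_primes N hN1 (d ^ 3)
  have hpZ : ∀ p ∈ T, (p : ℝ) ≤ C1 * Z := by
    intro p hp
    have h1 := (hTp p hp).2.2
    have h2 : (p : ℝ) ≤ 2 ^ (d ^ 3) * N := by exact_mod_cast h1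
    calc (p : ℝ) ≤ 2 ^ (d ^ 3) * N := h2
      _ ≤ 2 ^ (d ^ 3) * ((d + 2) * Z) := by gcongr
      _ = C1 * Z := by rw [hC1]; ring
  have hZp : ∀ p ∈ T, Z ≤ p := by
    intro p hp
    have h1 : (N : ℝ) ≤ p := by exact_mod_cast (hTp p hp).2.1.le
    linarith
  have hXp : ∀ p ∈ T, X ≤ p ^ d := by
    intro p hp
    have h1 : (X : ℝ) ≤ (p : ℝ) ^ d := by
      rw [← hZd]
      exact pow_le_pow_left₀ (by linarith) (hZp p hp) d
    exact_mod_cast h1
  have hRR := rich_primes d (d * l) X hX (by omega) T (fun p hp => ⟨(hTp p hp).1, hXp p hp⟩)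
    (le_of_eq hT.symm)
  -- each prime
  have hJP : ∀ p ∈ T, (JP p d (d * l) X : ℝ) ≤ C1 ^ M * d.factorial *
      (C * 2 ^ vrE d l) * (X : ℝ) ^ vrE d (l + 1) := by
    intro p hp
    obtain ⟨hpp, hNp, -⟩ := hTp p hp
    have hp0 : 0 < p := hpp.pos
    have hp0' : (0 : ℝ) < p := by exact_mod_cast hp0
    have hdp : d < p := by omega
    have hm1 : 1 ≤ d * l := Nat.mul_pos (by omega) hl
    have h1 := JP_holder p d (d * l) X (by omega) hm1
    set J' := JE (Finset.Icc 1 d) (d * l) (Finset.Ioc (0 : ℤ) ((X / p + 1 : ℕ) : ℤ)) with hJ'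
    have h2 : ∀ a ∈ Finset.range p, JPa p (a : ℤ) d (d * l) X ≤
        X ^ d * (d.factorial * p ^ (d * (d - 1) / 2)) * J' := fun a _ =>
      JPa_le p d (d * l) X a hpp hdp (by omega) (hXp p hp)
    have h3 : JP p d (d * l) X ≤ p ^ M * (X ^ d * d.factorial * J') := by
      calc JP p d (d * l) X ≤ p ^ (2 * (d * l) - 1) *
            ∑ a ∈ Finset.range p, JPa p (a : ℤ) d (d * l) X := h1
        _ ≤ p ^ (2 * (d * l) - 1) * ∑ a ∈ Finset.range p,
            (X ^ d * (d.factorial * p ^ (d * (d - 1) / 2)) * J') :=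
            Nat.mul_le_mul_left _ (Finset.sum_le_sum h2)
        _ = p ^ (2 * (d * l) - 1) * p * p ^ (d * (d - 1) / 2) * (X ^ d * d.factorial * J') := by
            rw [Finset.sum_const, Finset.card_range, smul_eq_mul]
            ring
        _ = p ^ M * (X ^ d * d.factorial * J') := by
            rw [← pow_succ, Nat.sub_add_cancel (by omega), ← pow_add]
    have h4 := ih (X / p + 1) (Nat.succ_le_succ (Nat.zero_le _))
    have h5 : (((X / p + 1 : ℕ) : ℕ) : ℝ) ≤ 2 * (X : ℝ) ^ (1 - 1 / (d : ℝ)) := by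
      have a1 : ((X / p : ℕ) : ℝ) ≤ (X : ℝ) / p := Nat.cast_div_le
      have a2 : (X : ℝ) / p ≤ X / Z := by
        have := hZp p hp
        gcongr
      have a3 : (X : ℝ) / Z = (X : ℝ) ^ (1 - 1 / (d : ℝ)) := by
        rw [hZ, Real.rpow_sub hX0, Real.rpow_one]
      have a4 : (1 : ℝ) ≤ (X : ℝ) ^ (1 - 1 / (d : ℝ)) := by
        apply Real.one_le_rpow hX1
        have : 1 / (d : ℝ) ≤ 1 := by
          rw [div_le_one (by positivity)]
          linarith
        linarith
      push_cast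
      linarith
    have h6 : (J' : ℝ) ≤ C * 2 ^ vrE d l * (X : ℝ) ^ ((1 - 1 / (d : ℝ)) * vrE d l) := by
      calc (J' : ℝ) ≤ C * (((X / p + 1 : ℕ) : ℕ) : ℝ) ^ vrE d l := h4
        _ ≤ C * (2 * (X : ℝ) ^ (1 - 1 / (d : ℝ))) ^ vrE d l := by
            refine mul_le_mul_of_nonneg_left ?_ hC.le
            exact Real.rpow_le_rpow (by positivity) h5 hE0
        _ = _ := by
            rw [Real.mul_rpow (by norm_num) (by positivity), ← Real.rpow_mul hX0.le]
            ring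
    have h7 : (p : ℝ) ^ M ≤ C1 ^ M * (X : ℝ) ^ (2 * (l : ℝ) + ((d : ℝ) - 1) / 2) := by
      calc (p : ℝ) ^ M ≤ (C1 * Z) ^ M := pow_le_pow_left₀ hp0'.le (hpZ p hp) M
        _ = C1 ^ M * (X : ℝ) ^ ((1 / (d : ℝ)) * M) := by
            rw [mul_pow, Real.rpow_mul hX0.le, Real.rpow_natCast]
        _ = _ := by
            congr 2
            have a1 : ((d * (d - 1) / 2 : ℕ) : ℝ) = (d : ℝ) * (d - 1) / 2 := by
              rw [Nat.cast_div (Nat.even_mul_pred_self d).two_dvd (by norm_num)]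
              rw [Nat.cast_mul, Nat.cast_sub (by omega)]
              simp
            rw [hM, Nat.cast_add, a1]
            push_cast
            have : (d : ℝ) ≠ 0 := by positivity
            field_simp
    have h8 : (JP p d (d * l) X : ℝ) ≤ (p : ℝ) ^ M * ((X : ℝ) ^ d * d.factorial * J') := by
      exact_mod_cast h3
    calc (JP p d (d * l) X : ℝ) ≤ (p : ℝ) ^ M * ((X : ℝ) ^ d * d.factorial * J') := h8
      _ ≤ (C1 ^ M * (X : ℝ) ^ (2 * (l : ℝ) + ((d : ℝ) - 1) / 2)) * ((X : ℝ) ^ d * d.factorial *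
          (C * 2 ^ vrE d l * (X : ℝ) ^ ((1 - 1 / (d : ℝ)) * vrE d l))) := by gcongr
      _ = C1 ^ M * d.factorial * (C * 2 ^ vrE d l) *
          ((X : ℝ) ^ (2 * (l : ℝ) + ((d : ℝ) - 1) / 2) * (X : ℝ) ^ (d : ℝ) *
            (X : ℝ) ^ ((1 - 1 / (d : ℝ)) * vrE d l)) := by
          rw [Real.rpow_natCast]
          ring
      _ = _ := by
          rw [← Real.rpow_add hX0, ← Real.rpow_add hX0, vrE_succ d l hd]
  have h9 : (RR d (d + d * l) X : ℝ) ≤ (((d + d * l : ℕ) : ℝ) ^ d) ^ 2 *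
      ∑ p ∈ T, (JP p d (d * l) X : ℝ) := by exact_mod_cast hRR
  refine h9.trans ?_
  have h10 := Finset.sum_le_sum hJP
  rw [Finset.sum_const, hT, nsmul_eq_mul] at h10
  calc (((d + d * l : ℕ) : ℝ) ^ d) ^ 2 * ∑ p ∈ T, (JP p d (d * l) X : ℝ)
      ≤ (((d + d * l : ℕ) : ℝ) ^ d) ^ 2 * (((d ^ 3 : ℕ) : ℝ) * (C1 ^ M * d.factorial *
      (C * 2 ^ vrE d l) * (X : ℝ) ^ vrE d (l + 1))) :=
        mul_le_mul_of_nonneg_left h10 (by positivity)
    _ = _ := by ring

theorem vino_rec (d l : ℕ) (hd : 2 ≤ d) (hl : 1 ≤ l) :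
    ∃ C : ℝ, 0 < C ∧ ∀ X : ℕ, 1 ≤ X →
      (JE (Finset.Icc 1 d) (d * l) (Finset.Ioc (0 : ℤ) X) : ℝ)
        ≤ C * (X : ℝ) ^ (2 * (d : ℝ) * l - d * (d + 1) / 2
            + (d : ℝ) ^ 2 / 2 * (1 - 1 / (d : ℝ)) ^ l) := by
  change ∃ C : ℝ, 0 < C ∧ ∀ X : ℕ, 1 ≤ X →
      (JE (Finset.Icc 1 d) (d * l) (Finset.Ioc (0 : ℤ) X) : ℝ) ≤ C * (X : ℝ) ^ vrE d l
  induction l, hl using Nat.le_induction with
  | base =>
    refine ⟨(d : ℝ) ^ d, by positivity, fun X hX => ?_⟩
    rw [Nat.mul_one]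
    have h1 : (JE (Finset.Icc 1 d) d (Finset.Ioc (0 : ℤ) X) : ℝ) ≤ (d : ℝ) ^ d * (X : ℝ) ^ d := by
      exact_mod_cast vr_base d X
    have h2 : vrE d 1 = d := by
      unfold vrE
      have : (d : ℝ) ≠ 0 := by positivity
      field_simp
      push_cast
      ring
    rw [h2, Real.rpow_natCast]
    exact h1
  | succ l hl ih =>
    obtain ⟨C, hC, ih⟩ := ih
    obtain ⟨K, hK, hRR⟩ := vr_step d l hd hl C hC ih
    refine ⟨2 * K + 4 * ((d : ℝ) ^ (d * (l + 1))) ^ 2, by positivity, fun X hX => ?_⟩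
    have hX1 : (1 : ℝ) ≤ X := by exact_mod_cast hX
    have hX0 : (0 : ℝ) < X := by linarith
    have h1 := rich_split d (d * (l + 1)) X (by omega) (Nat.mul_pos (by omega) (Nat.succ_pos l))
    have h2 : RR d (d * (l + 1)) X = RR d (d + d * l) X := by
      congr 1
      ring
    rw [h2] at h1
    have h3 : (X : ℝ) ^ (2 * (d - 1)) ≤ (X : ℝ) ^ vrE d (l + 1) := by
      rw [← Real.rpow_natCast]
      apply Real.rpow_le_rpow_of_exponent_le hX1
      have a1 := vrE_ge d (l + 1) hd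
      have a2 : ((2 * (d - 1) : ℕ) : ℝ) = 2 * ((d : ℝ) - 1) := by
        rw [Nat.cast_mul, Nat.cast_sub (by omega)]
        simp
      rw [a2]
      have hd' : (2 : ℝ) ≤ d := by exact_mod_cast hd
      have hl' : (1 : ℝ) ≤ l := by exact_mod_cast hl
      push_cast at a1
      nlinarith
    calc (JE (Finset.Icc 1 d) (d * (l + 1)) (Finset.Ioc (0 : ℤ) X) : ℝ)
        ≤ 2 * RR d (d + d * l) X + 4 * ((d : ℝ) ^ (d * (l + 1))) ^ 2 *
          (X : ℝ) ^ (2 * (d - 1)) := h1
      _ ≤ 2 * (K * (X : ℝ) ^ vrE d (l + 1)) + 4 * ((d : ℝ) ^ (d * (l + 1))) ^ 2 *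
          (X : ℝ) ^ vrE d (l + 1) := by
          have := hRR X hX
          gcongr
      _ = _ := by ring

end Pool.Agent.Lib.MP_c0a553_nt
end

section

/-! # Mean values for sparse systems (job HP-12) -/

namespace Pool.Agent.Lib.MP_c0a553_nt

open Finset

private lemma en_exp (d : ℕ) (hd : 2 ≤ d) :
    (d : ℝ) ^ 2 / 2 * (1 - 1 / (d : ℝ)) ^ (10 * d ^ 2) ≤ 1 / 100 := by
  have hd' : (2 : ℝ) ≤ d := by exact_mod_cast hd
  have hd0 : (0 : ℝ) < d := by linarith
  have h1 : 0 ≤ 1 - 1 / (d : ℝ) := by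
    have : 1 / (d : ℝ) ≤ 1 := by
      rw [div_le_one hd0]
      linarith
    linarith
  have h2 : 1 - 1 / (d : ℝ) ≤ Real.exp (-(1 / (d : ℝ))) := by
    have := Real.add_one_le_exp (-(1 / (d : ℝ)))
    linarith
  have h3 : (1 - 1 / (d : ℝ)) ^ (10 * d ^ 2) ≤ Real.exp (-(10 * d)) := by
    calc (1 - 1 / (d : ℝ)) ^ (10 * d ^ 2) ≤ Real.exp (-(1 / (d : ℝ))) ^ (10 * d ^ 2) := by
          gcongr
      _ = Real.exp (-(10 * d)) := by
          rw [← Real.exp_nat_mul]
          congr 1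
          push_cast
          field_simp
  have h4 := Real.quadratic_le_exp_of_nonneg (x := 10 * (d : ℝ)) (by positivity)
  have h5 : 50 * (d : ℝ) ^ 2 ≤ Real.exp (10 * d) := by nlinarith
  calc (d : ℝ) ^ 2 / 2 * (1 - 1 / (d : ℝ)) ^ (10 * d ^ 2)
      ≤ (d : ℝ) ^ 2 / 2 * Real.exp (-(10 * d)) := by gcongr
    _ ≤ 1 / 100 := by
        rw [Real.exp_neg, ← div_eq_mul_inv, div_le_iff₀ (Real.exp_pos _)]
        linarith

theorem vino (d : ℕ) (hd : 2 ≤ d) :
    ∃ C : ℝ, 0 < C ∧ ∀ X : ℕ, 1 ≤ X →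
      (JE (Finset.Icc 1 d) (10 * d ^ 3) (Finset.Ioc (0 : ℤ) X) : ℝ)
        ≤ C * (X : ℝ) ^ (20 * (d : ℝ) ^ 3 - d * (d + 1) / 2 + 1 / 100) := by
  obtain ⟨C, hC, h⟩ := vino_rec d (10 * d ^ 2) hd (by
    have : 1 ≤ d ^ 2 := Nat.one_le_pow _ _ (by omega)
    omega)
  refine ⟨C, hC, fun X hX => ?_⟩
  have h1 := h X hX
  have h2 : d * (10 * d ^ 2) = 10 * d ^ 3 := by ring
  rw [h2] at h1
  refine h1.trans ?_
  have hX1 : (1 : ℝ) ≤ X := by exact_mod_cast hX
  refine mul_le_mul_of_nonneg_left ?_ hC.le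
  apply Real.rpow_le_rpow_of_exponent_le hX1
  have h3 := en_exp d hd
  push_cast
  have h4 : 2 * (d : ℝ) * (10 * d ^ 2) = 20 * (d : ℝ) ^ 3 := by ring
  rw [h4]
  linarith

private lemma en_abs (t A P : ℕ) (a b : ℤ) (ha : |a| ≤ A * P) (hb : |b| ≤ A * P)
    (x : Fin t → ℤ) (hx : ∀ i, x i ∈ Finset.Ioc a b) (j : ℕ) :
    |∑ i, x i ^ j| ≤ t * ((A : ℤ) * P) ^ j := by
  calc |∑ i, x i ^ j| ≤ ∑ i, |x i ^ j| := Finset.abs_sum_le_sum_abs _ _
    _ ≤ ∑ _i : Fin t, ((A : ℤ) * P) ^ j := by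
        apply Finset.sum_le_sum
        intro i _
        rw [abs_pow]
        have h1 := Finset.mem_Ioc.1 (hx i)
        have h2 := abs_le.1 ha
        have h3 := abs_le.1 hb
        have h4 : |x i| ≤ (A : ℤ) * P := abs_le.2 ⟨by omega, by omega⟩
        exact pow_le_pow_left₀ (abs_nonneg _) h4 j
    _ = _ := by simp

/-- splitting into the values of the missing power sums -/
private lemma en_split (E D : Finset ℕ) (d : ℕ) (hD : D = Finset.Icc 1 d \ E)
    (t A P : ℕ) (a b : ℤ) (ha : |a| ≤ A * P) (hb : |b| ≤ A * P) :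
    JE E t (Finset.Ioc a b) ≤ (∏ j ∈ D, (4 * t * (A * P) ^ j + 1)) *
      JE (Finset.Icc 1 d) t (Finset.Ioc a b) := by
  classical
  set I := Finset.Ioc a b with hI
  set S := ((Fintype.piFinset fun _ : Fin t => I) ×ˢ (Fintype.piFinset fun _ : Fin t => I)).filter
    fun p => ∀ j ∈ E, ∑ i, (p.1 i) ^ j = ∑ i, (p.2 i) ^ j with hS
  let B : ℕ → ℤ := fun j => 2 * (t * ((A : ℤ) * P) ^ j)
  let T : Finset (D → ℤ) := Fintype.piFinset fun j : D => Finset.Icc (-(B j)) (B j)
  let f : ((Fin t → ℤ) × (Fin t → ℤ)) → (D → ℤ) := fun p j =>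
    ∑ i, (p.1 i) ^ (j : ℕ) - ∑ i, (p.2 i) ^ (j : ℕ)
  have hmaps : ∀ p ∈ S, f p ∈ T := by
    intro p hp
    rw [hS, Finset.mem_filter, Finset.mem_product, Fintype.mem_piFinset,
      Fintype.mem_piFinset] at hp
    obtain ⟨⟨h1, h2⟩, -⟩ := hp
    simp only [T, Fintype.mem_piFinset]
    intro j
    have h3 := en_abs t A P a b ha hb p.1 h1 j
    have h4 := en_abs t A P a b ha hb p.2 h2 j
    have h5 : |f p j| ≤ B j := by
      refine (abs_sub _ _).trans ?_
      simp only [B]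
      linarith
    rw [Finset.mem_Icc]
    exact abs_le.1 h5
  have hcard : S.card ≤ T.card * JE (Finset.Icc 1 d) t I := by
    rw [Finset.card_eq_sum_card_fiberwise hmaps, ← smul_eq_mul, ← Finset.sum_const]
    apply Finset.sum_le_sum
    intro h _
    let c : ℕ → ℤ := fun j => if hj : j ∈ D then h ⟨j, hj⟩ else 0
    refine le_trans (Finset.card_le_card ?_) (JE_shift (Finset.Icc 1 d) t I c)
    intro p hp
    rw [Finset.mem_filter, hS, Finset.mem_filter] at hp
    obtain ⟨⟨h1, h2⟩, h3⟩ := hp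
    rw [Finset.mem_filter]
    refine ⟨h1, fun j hj => ?_⟩
    by_cases hjD : j ∈ D
    · have h4 := congrFun h3 ⟨j, hjD⟩
      simp only [c, hjD, dif_pos]
      exact h4
    · have hjE : j ∈ E := by
        by_contra hne
        exact hjD (by rw [hD, Finset.mem_sdiff]; exact ⟨hj, hne⟩)
      simp only [c, hjD, dif_neg, not_false_eq_true]
      rw [h2 j hjE, sub_self]
  have hT : T.card = ∏ j ∈ D, (4 * t * (A * P) ^ j + 1) := by
    simp only [T]
    rw [Fintype.card_piFinset, ← Finset.prod_coe_sort D (fun j => 4 * t * (A * P) ^ j + 1)]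
    refine Finset.prod_congr rfl fun j _ => ?_
    rw [Int.card_Icc]
    simp only [B]
    have h1 : (2 * (t * ((A : ℤ) * P) ^ (j : ℕ)) + 1 - -(2 * (t * ((A : ℤ) * P) ^ (j : ℕ)))) =
        ((4 * t * (A * P) ^ (j : ℕ) + 1 : ℕ) : ℤ) := by
      push_cast
      ring
    rw [h1, Int.toNat_natCast]
  rw [← hT]
  exact hcard

private lemma en_sum (d : ℕ) : ∑ j ∈ Finset.Icc 1 d, (j : ℝ) = d * (d + 1) / 2 := by
  induction d with
  | zero => simp
  | succ d ih =>
    rw [Finset.sum_Icc_succ_top (by omega), ih]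
    push_cast
    ring

/-- Sparse systems: for a set `E` of exponents in `[1, 2k]` and intervals inside `[-A P, A P]`. -/
theorem energy (k A : ℕ) (hk : 1 ≤ k) (hA : 1 ≤ A) (E : Finset ℕ) (hE : E ⊆ Finset.Icc 1 (2 * k)) :
    ∃ C : ℝ, 0 < C ∧ ∀ P : ℕ, 1 ≤ P → ∀ a b : ℤ, |a| ≤ A * P → |b| ≤ A * P →
      (JE E (tt k) (Finset.Ioc a b) : ℝ)
        ≤ C * (P : ℝ) ^ (2 * (tt k : ℝ) - (∑ j ∈ E, (j : ℝ)) + 1 / 100) := by
  classical
  obtain ⟨C, hC, hv⟩ := vino (2 * k) (by omega)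
  set d := 2 * k with hd
  have hd2 : (2 : ℝ) ≤ d := by
    have : 2 ≤ d := by omega
    exact_mod_cast this
  set t := tt k with ht
  have htd : t = 10 * d ^ 3 := rfl
  have ht1 : 1 ≤ t := by
    rw [htd]
    have : 1 ≤ d ^ 3 := Nat.one_le_pow _ _ (by omega)
    omega
  set D := Finset.Icc 1 d \ E with hD
  set e : ℝ := 20 * (d : ℝ) ^ 3 - d * (d + 1) / 2 + 1 / 100 with he
  have he0 : 0 ≤ e := by
    have h1 : (d : ℝ) * (d + 1) / 2 ≤ 20 * (d : ℝ) ^ 3 := by
      have h2 : (0 : ℝ) ≤ d * (d - 2) := mul_nonneg (by linarith) (by linarith)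
      nlinarith [mul_nonneg (by linarith : (0:ℝ) ≤ d) h2]
    rw [he]
    linarith
  refine ⟨(∏ j ∈ D, (5 * t * (A : ℝ) ^ j)) * (C * (2 * (A : ℝ)) ^ e), ?_, ?_⟩
  · have hA0 : (0 : ℝ) < A := by exact_mod_cast hA
    have ht0 : (0 : ℝ) < t := by exact_mod_cast ht1
    have : 0 < ∏ j ∈ D, (5 * t * (A : ℝ) ^ j) := Finset.prod_pos fun j _ => by positivity
    positivity
  intro P hP a b ha hb
  have hP1 : (1 : ℝ) ≤ P := by exact_mod_cast hP
  have hP0 : (0 : ℝ) < P := by linarith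
  have hA1 : (1 : ℝ) ≤ A := by exact_mod_cast hA
  have hA0 : (0 : ℝ) < A := by linarith
  have ht1' : (1 : ℝ) ≤ t := by exact_mod_cast ht1
  have h1 := en_split E D d hD t A P a b ha hb
  have h2 : (JE E t (Finset.Ioc a b) : ℝ) ≤ (∏ j ∈ D, (4 * (t : ℝ) * (A * P) ^ j + 1)) *
      (JE (Finset.Icc 1 d) t (Finset.Ioc a b) : ℝ) := by exact_mod_cast h1
  -- the number of shifts
  have h3 : (∏ j ∈ D, (4 * (t : ℝ) * (A * P) ^ j + 1)) ≤
      (∏ j ∈ D, (5 * t * (A : ℝ) ^ j)) * (P : ℝ) ^ (∑ j ∈ D, (j : ℝ)) := by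
    have h4 : (P : ℝ) ^ (∑ j ∈ D, (j : ℝ)) = ∏ j ∈ D, (P : ℝ) ^ j := by
      rw [Finset.prod_pow_eq_pow_sum, ← Real.rpow_natCast]
      push_cast
      rfl
    rw [h4, ← Finset.prod_mul_distrib]
    apply Finset.prod_le_prod
    · intro j _
      positivity
    · intro j _
      have h5 : (1 : ℝ) ≤ (A * P) ^ j := one_le_pow₀ (by nlinarith)
      have h6 : 5 * (t : ℝ) * (A : ℝ) ^ j * (P : ℝ) ^ j = 5 * t * (A * P) ^ j := by
        rw [mul_pow]
        ring
      rw [h6]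
      have h7 : 1 ≤ (t : ℝ) * (A * P) ^ j := by nlinarith
      linarith
  -- the complete system
  have h4 : (JE (Finset.Icc 1 d) t (Finset.Ioc a b) : ℝ) ≤
      C * (2 * (A : ℝ)) ^ e * (P : ℝ) ^ e := by
    rcases le_or_gt b a with hba | hab
    · have h5 : Finset.Ioc a b = ∅ := Finset.Ioc_eq_empty (by omega)
      have h6 : JE (Finset.Icc 1 d) t (Finset.Ioc a b) = 0 := by
        rw [h5]
        unfold JE
        have h7 : (Fintype.piFinset fun _ : Fin t => (∅ : Finset ℤ)) = ∅ := by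
          apply Finset.eq_empty_of_forall_notMem
          intro x hx
          rw [Fintype.mem_piFinset] at hx
          exact absurd (hx ⟨0, by omega⟩) (Finset.notMem_empty _)
        rw [h7]
        simp
      rw [h6]
      push_cast
      positivity
    · obtain ⟨L, hL⟩ : ∃ L : ℕ, b - a = L := ⟨(b - a).toNat, by omega⟩
      have h5 : Finset.Ioc a b = Finset.Ioc (0 + a) ((L : ℤ) + a) := by
        congr 1 <;> omega
      rw [h5, JE_translate]
      have hL1 : 1 ≤ L := by omega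
      have h6 := hv L hL1
      rw [← htd] at h6
      have h7 : (L : ℝ) ≤ 2 * A * P := by
        have h8 := abs_le.1 ha
        have h9 := abs_le.1 hb
        have h10 : (L : ℤ) ≤ 2 * (A * P) := by omega
        have h11 : (L : ℝ) ≤ 2 * (A * P) := by exact_mod_cast h10
        linarith
      calc (JE (Finset.Icc 1 d) t (Finset.Ioc (0 : ℤ) L) : ℝ) ≤ C * (L : ℝ) ^ e := h6
        _ ≤ C * (2 * A * P) ^ e := by
            refine mul_le_mul_of_nonneg_left ?_ hC.le
            exact Real.rpow_le_rpow (by positivity) h7 he0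
        _ = _ := by
            rw [Real.mul_rpow (by positivity) (by positivity)]
            ring
  have h5 : (∑ j ∈ D, (j : ℝ)) = (d : ℝ) * (d + 1) / 2 - ∑ j ∈ E, (j : ℝ) := by
    have h6 := Finset.sum_sdiff (f := fun j : ℕ => (j : ℝ)) hE
    rw [en_sum] at h6
    rw [hD]
    linarith
  calc (JE E t (Finset.Ioc a b) : ℝ) ≤ (∏ j ∈ D, (4 * (t : ℝ) * (A * P) ^ j + 1)) *
      (JE (Finset.Icc 1 d) t (Finset.Ioc a b) : ℝ) := h2
    _ ≤ ((∏ j ∈ D, (5 * t * (A : ℝ) ^ j)) * (P : ℝ) ^ (∑ j ∈ D, (j : ℝ))) *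
      (C * (2 * (A : ℝ)) ^ e * (P : ℝ) ^ e) := by
        have h6 : 0 ≤ ∏ j ∈ D, (5 * t * (A : ℝ) ^ j) :=
          Finset.prod_nonneg fun j _ => by positivity
        apply mul_le_mul h3 h4 (by positivity) (by positivity)
    _ = (∏ j ∈ D, (5 * t * (A : ℝ) ^ j)) * (C * (2 * (A : ℝ)) ^ e) *
        ((P : ℝ) ^ (∑ j ∈ D, (j : ℝ)) * (P : ℝ) ^ e) := by ring
    _ = _ := by
        rw [← Real.rpow_add hP0, h5]
        congr 2
        rw [he, htd]
        push_cast
        ring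

end Pool.Agent.Lib.MP_c0a553_nt
end
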