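import Pool.Agent.Lib.MP_c0a553_nt.Defs

section

/-! # Definitions for the circle method endgame -/

namespace Pool.Agent.Lib.MP_c0a553_nt

open Finset

variable {ι : Type} [Fintype ι] [DecidableEq ι]

/-- the complete exponential sum `∑_{x mod q} e(a G(x)/q)` -/
noncomputable def Sc (G : (ι → ℤ) → ℤ) (q : ℕ) (a : ℤ) : ℂ :=
  ∑ x ∈ Fintype.piFinset (fun _ : ι => Finset.range q), e ((a : ℝ) * G (fun i => (x i : ℤ)) / q)

/-- the `q`-th term of the singular series -/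
noncomputable def AA (G : (ι → ℤ) → ℤ) (q : ℕ) : ℂ :=
  (∑ a ∈ (Finset.range q).filter (fun a => Nat.Coprime a q), Sc G q a) / (q : ℂ) ^ Fintype.card ι

/-- number of solutions mod `q` -/
noncomputable def NN (G : (ι → ℤ) → ℤ) (q : ℕ) : ℕ :=
  ((Fintype.piFinset (fun _ : ι => Finset.range q)).filter
    fun x => (q : ℤ) ∣ G (fun i => (x i : ℤ))).card

/-- half width of the major arcs -/
noncomputable def tau (D P : ℕ) : ℝ := (P : ℝ) ^ (1 / 10 : ℝ) / (P : ℝ) ^ D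

/-- the truncated singular integral (a discrete version) -/
noncomputable def JI (G : (ι → ℤ) → ℤ) (D P : ℕ) (lo hi : ι → ℝ) : ℂ :=
  ∫ β in (-tau D P)..(tau D P), S G P lo hi β

end Pool.Agent.Lib.MP_c0a553_nt
end

section

/-! # The form G (job HP-32) -/

namespace Pool.Agent.Lib.MP_c0a553_nt

open Finset

theorem eval_FF {s : ℕ} (k : ℕ) (M : Matrix (Fin s) (Fin s) ℤ) (R : Type) [CommRing R]
    (y : Fin s → R) :
    MvPolynomial.aeval y (FF k M) = ∑ i, ∑ j, (M i j : R) * y i ^ k * y j ^ k := by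
  simp [FF]

private theorem ggn_pderiv_FF {s : ℕ} (k : ℕ) (M : Matrix (Fin s) (Fin s) ℤ) (R : Type)
    [CommRing R] (y : Fin s → R) (a : Fin s) :
    MvPolynomial.aeval y (MvPolynomial.pderiv a (FF k M)) =
      ∑ i, ∑ j, (M i j : R) * (k * y i ^ (k - 1) * (if i = a then 1 else 0) * y j ^ k +
        y i ^ k * (k * y j ^ (k - 1) * (if j = a then 1 else 0))) := by
  unfold FF
  rw [map_sum, map_sum]
  refine Finset.sum_congr rfl fun i _ => ?_
  rw [map_sum, map_sum]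
  refine Finset.sum_congr rfl fun j _ => ?_
  simp only [Derivation.leibniz, Derivation.leibniz_pow, MvPolynomial.pderiv_X,
    MvPolynomial.pderiv_C, Pi.single_apply, smul_eq_mul, nsmul_eq_mul, map_add, map_mul, map_pow,
    MvPolynomial.aeval_X, MvPolynomial.aeval_C, map_natCast, mul_zero, add_zero]
  have h1 : ∀ b : Fin s, MvPolynomial.aeval y (if b = a then (1 : MvPolynomial (Fin s) ℤ) else 0) =
      if b = a then (1 : R) else 0 := by
    intro b
    split_ifs <;> simp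
  rw [h1, h1]
  simp only [algebraMap_int_eq, eq_intCast]
  ring

private theorem ggn_pderiv_GG {s : ℕ} (k : ℕ) (M : Matrix (Fin s) (Fin s) ℤ) (R : Type)
    [CommRing R] (y : Fin s → R) (a : Fin s) :
    MvPolynomial.aeval (Sum.elim y (fun _ => (1 : R)))
      (MvPolynomial.pderiv (Sum.inl a) (GG k M)) =
      ∑ i, ∑ j, (M i j : R) * (k * y i ^ (k - 1) * (if i = a then 1 else 0) * y j ^ k +
        y i ^ k * (k * y j ^ (k - 1) * (if j = a then 1 else 0))) := by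
  unfold GG
  rw [map_sum, map_sum]
  refine Finset.sum_congr rfl fun i _ => ?_
  rw [map_sum, map_sum]
  refine Finset.sum_congr rfl fun j _ => ?_
  have h1 : ∀ b : Fin s, MvPolynomial.pderiv (Sum.inl a : Fin s ⊕ Fin s)
      (MvPolynomial.X (Sum.inl b) : MvPolynomial (Fin s ⊕ Fin s) ℤ) =
      MvPolynomial.C (if b = a then (1 : ℤ) else 0) := by
    intro b
    rw [MvPolynomial.pderiv_X, Pi.single_apply]
    by_cases h : b = a
    · subst h; simp
    · rw [if_neg h, if_neg (fun hc => h (Sum.inl_injective hc))]; simp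
  have h2 : ∀ b : Fin s, MvPolynomial.pderiv (Sum.inl a : Fin s ⊕ Fin s)
      (MvPolynomial.X (Sum.inr b) : MvPolynomial (Fin s ⊕ Fin s) ℤ) = 0 := by
    intro b
    rw [MvPolynomial.pderiv_X, Pi.single_apply, if_neg (by simp)]
  simp only [Derivation.leibniz, Derivation.leibniz_pow, h1, h2,
    MvPolynomial.pderiv_C, smul_eq_mul, nsmul_eq_mul, map_add, map_mul, map_pow,
    MvPolynomial.aeval_X, MvPolynomial.aeval_C, map_natCast, mul_zero, add_zero, zero_add,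
    Sum.elim_inl, Sum.elim_inr, mul_one, one_mul]
  have h3 : ∀ b : Fin s, (algebraMap ℤ R) (if b = a then (1 : ℤ) else 0) =
      if b = a then (1 : R) else 0 := by
    intro b
    split_ifs <;> simp
  rw [h3, h3]
  simp only [algebraMap_int_eq, eq_intCast]
  ring

theorem eval_GG {s : ℕ} (k : ℕ) (M : Matrix (Fin s) (Fin s) ℤ) (R : Type) [CommRing R]
    (u v : Fin s → R) :
    MvPolynomial.aeval (Sum.elim u v) (GG k M) =
      MvPolynomial.aeval (fun i => u i * v i) (FF k M) := by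
  simp [GG, FF]

/-- nonsingular zeros of `F` give nonsingular zeros of `G(u,v) = F(u v)` -/
theorem GG_nonsing {s : ℕ} (k : ℕ) (M : Matrix (Fin s) (Fin s) ℤ) (K : Type) [Field K]
    (y : Fin s → K) (hy : MvPolynomial.aeval y (FF k M) = 0) (i : Fin s)
    (hi : MvPolynomial.aeval y (MvPolynomial.pderiv i (FF k M)) ≠ 0) :
    MvPolynomial.aeval (Sum.elim y (fun _ => (1 : K))) (GG k M) = 0 ∧
    MvPolynomial.aeval (Sum.elim y (fun _ => (1 : K)))
      (MvPolynomial.pderiv (Sum.inl i) (GG k M)) ≠ 0 := by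
  refine ⟨?_, ?_⟩
  · rw [eval_GG]
    simpa using hy
  · rw [ggn_pderiv_GG, ← ggn_pderiv_FF]
    exact hi

theorem FF_hom {s : ℕ} (k : ℕ) (M : Matrix (Fin s) (Fin s) ℤ) :
    (FF k M).IsHomogeneous (2 * k) := by
  unfold FF
  refine MvPolynomial.IsHomogeneous.sum _ _ _ fun i _ => ?_
  refine MvPolynomial.IsHomogeneous.sum _ _ _ fun j _ => ?_
  have h := ((MvPolynomial.isHomogeneous_C (Fin s) (M i j)).mul
    ((MvPolynomial.isHomogeneous_X ℤ i).pow k)).mul ((MvPolynomial.isHomogeneous_X ℤ j).pow k)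
  have e : 0 + 1 * k + 1 * k = 2 * k := by ring
  rwa [e] at h

theorem GG_hom {s : ℕ} (k : ℕ) (M : Matrix (Fin s) (Fin s) ℤ) :
    (GG k M).IsHomogeneous (4 * k) := by
  unfold GG
  refine MvPolynomial.IsHomogeneous.sum _ _ _ fun i _ => ?_
  refine MvPolynomial.IsHomogeneous.sum _ _ _ fun j _ => ?_
  have hx : ∀ b : Fin s, ((MvPolynomial.X (Sum.inl b) * MvPolynomial.X (Sum.inr b) :
      MvPolynomial (Fin s ⊕ Fin s) ℤ)).IsHomogeneous (1 + 1) := fun b =>
    (MvPolynomial.isHomogeneous_X ℤ _).mul (MvPolynomial.isHomogeneous_X ℤ _)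
  have h := ((MvPolynomial.isHomogeneous_C (Fin s ⊕ Fin s) (M i j)).mul
    ((hx i).pow k)).mul ((hx j).pow k)
  have e : 0 + (1 + 1) * k + (1 + 1) * k = 4 * k := by ring
  rwa [e] at h

/-- the partial derivative of `F` -/
theorem pderiv_FF {s : ℕ} (k : ℕ) (M : Matrix (Fin s) (Fin s) ℤ) (hM : M.IsSymm) (R : Type)
    [CommRing R] (y : Fin s → R) (i : Fin s) :
    MvPolynomial.aeval y (MvPolynomial.pderiv i (FF k M)) =
      2 * (k : R) * y i ^ (k - 1) * ∑ j, (M i j : R) * y j ^ k := by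
  rw [ggn_pderiv_FF]
  simp only [mul_add, Finset.sum_add_distrib]
  have h1 : ∑ a : Fin s, ∑ j : Fin s,
      (M a j : R) * ((k : R) * y a ^ (k - 1) * (if a = i then 1 else 0) * y j ^ k) =
      ∑ j : Fin s, (M i j : R) * ((k : R) * y i ^ (k - 1) * y j ^ k) := by
    rw [Finset.sum_eq_single i]
    · simp
    · intro b _ hb
      simp [hb]
    · intro h
      exact absurd (Finset.mem_univ i) h
  have h2 : ∑ a : Fin s, ∑ j : Fin s,
      (M a j : R) * (y a ^ k * ((k : R) * y j ^ (k - 1) * (if j = i then 1 else 0))) =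
      ∑ j : Fin s, (M i j : R) * ((k : R) * y i ^ (k - 1) * y j ^ k) := by
    rw [Finset.sum_comm, Finset.sum_eq_single i]
    · refine Finset.sum_congr rfl fun j _ => ?_
      rw [← hM.apply i j, if_pos rfl]
      ring
    · intro b _ hb
      simp [hb]
    · intro h
      exact absurd (Finset.mem_univ i) h
  rw [h1, h2, ← two_mul, Finset.mul_sum, Finset.mul_sum]
  refine Finset.sum_congr rfl fun j _ => ?_
  ring

end Pool.Agent.Lib.MP_c0a553_nt
end

section

/-! # Orthogonality relations (job HP-1) -/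

namespace Pool.Agent.Lib.MP_c0a553_nt

open Finset

private lemma orth_e_pow (x : ℝ) (n : ℕ) : e (n * x) = e x ^ n := by
  rw [e, e, ← Complex.exp_nat_mul]
  congr 1
  push_cast
  ring

private lemma orth_e_eq_one {x : ℝ} (h : e x = 1) : ∃ n : ℤ, x = n := by
  rw [e, Complex.exp_eq_one_iff] at h
  obtain ⟨n, hn⟩ := h
  refine ⟨n, ?_⟩
  have h2 : (2 * Real.pi * Complex.I : ℂ) ≠ 0 := Complex.two_pi_I_ne_zero
  have h3 : (x : ℂ) * (2 * Real.pi * Complex.I) = (n : ℂ) * (2 * Real.pi * Complex.I) := by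
    rw [← hn]
    ring
  have h4 := mul_right_cancel₀ h2 h3
  exact_mod_cast h4

/-- one-dimensional orthogonality -/
theorem orth_one (N : ℕ) (hN : 1 ≤ N) (h : ℤ) :
    ∑ β ∈ Finset.range N, e ((β : ℝ) * h / N) = if (N : ℤ) ∣ h then (N : ℂ) else 0 := by
  have hN0 : (N : ℝ) ≠ 0 := by
    have : (1 : ℝ) ≤ N := by exact_mod_cast hN
    linarith
  split_ifs with hd
  · obtain ⟨c, rfl⟩ := hd
    have h1 : ∀ β ∈ Finset.range N, e ((β : ℝ) * ((N : ℤ) * c : ℤ) / N) = 1 := by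
      intro β _
      have h2 : (β : ℝ) * (((N : ℤ) * c : ℤ) : ℝ) / N = (((β : ℤ) * c : ℤ) : ℝ) := by
        push_cast
        field_simp
      rw [h2, e_int]
    rw [Finset.sum_congr rfl h1]
    simp
  · have h1 : ∀ β ∈ Finset.range N, e ((β : ℝ) * h / N) = e ((h : ℝ) / N) ^ β := by
      intro β _
      rw [← orth_e_pow]
      congr 1
      ring
    rw [Finset.sum_congr rfl h1]
    have hz : e ((h : ℝ) / N) ≠ 1 := by
      intro hz
      obtain ⟨n, hn⟩ := orth_e_eq_one hz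
      apply hd
      refine ⟨n, ?_⟩
      have h3 : (h : ℝ) = N * n := by
        rw [← hn]
        field_simp
      exact_mod_cast h3
    have hp : e ((h : ℝ) / N) ^ N = 1 := by
      rw [← orth_e_pow]
      have : (N : ℝ) * ((h : ℝ) / N) = h := by field_simp
      rw [this, e_int]
    rw [geom_sum_eq hz, hp, sub_self, zero_div]

/-- orthogonality on `(ℤ/N)^ι`, for integer vectors which are smaller than `N` -/
theorem orth {ι : Type} [Fintype ι] [DecidableEq ι] (N : ℕ) (hN : 1 ≤ N) (h : ι → ℤ)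
    (hh : ∀ i, |h i| < N) :
    ∑ β ∈ Fintype.piFinset (fun _ : ι => Finset.range N), e (∑ i, (β i : ℝ) * h i / N)
      = if h = 0 then (N : ℂ) ^ (Fintype.card ι) else 0 := by
  have h1 : ∀ β ∈ Fintype.piFinset (fun _ : ι => Finset.range N),
      e (∑ i, (β i : ℝ) * h i / N) = ∏ i, e ((β i : ℝ) * h i / N) := by
    intro β _
    exact e_sum _ _
  rw [Finset.sum_congr rfl h1]
  have h2 := Finset.prod_univ_sum (fun _ : ι => Finset.range N)
    (fun (i : ι) (b : ℕ) => e ((b : ℝ) * h i / N))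
  rw [← h2]
  have h3 : ∀ i, (∑ b ∈ Finset.range N, e ((b : ℝ) * h i / N)) = if h i = 0 then (N : ℂ) else 0 := by
    intro i
    rw [orth_one N hN (h i)]
    congr 1
    rw [eq_iff_iff]
    constructor
    · intro hd
      exact Int.eq_zero_of_abs_lt_dvd hd (hh i)
    · intro h0
      rw [h0]
      exact dvd_zero _
  simp_rw [h3]
  split_ifs with h0
  · subst h0
    simp
  · obtain ⟨i, hi⟩ := Function.ne_iff.mp h0
    refine Finset.prod_eq_zero (Finset.mem_univ i) ?_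
    have hi' : ¬ h i = 0 := hi
    rw [if_neg hi']

private lemma orth_integral (a : ℝ) (g : ℤ) :
    ∫ α in a..(a + 1), e (α * g) = if g = 0 then 1 else 0 := by
  split_ifs with h0
  · subst h0
    simp [e_zero]
  · have hc : (2 * Real.pi * g * Complex.I : ℂ) ≠ 0 := by
      have h2 : (2 * Real.pi * Complex.I : ℂ) ≠ 0 := Complex.two_pi_I_ne_zero
      have h3 : (g : ℂ) ≠ 0 := by exact_mod_cast h0
      have h4 : (2 * Real.pi * g * Complex.I : ℂ) = g * (2 * Real.pi * Complex.I) := by ring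
      rw [h4]
      exact mul_ne_zero h3 h2
    have h1 : (fun α : ℝ => e (α * g)) =
        fun α : ℝ => Complex.exp ((2 * Real.pi * g * Complex.I) * α) := by
      funext α
      rw [e]
      congr 1
      push_cast
      ring
    rw [h1, integral_exp_mul_complex hc]
    have h2 : Complex.exp (2 * Real.pi * g * Complex.I * ((a + 1 : ℝ) : ℂ)) =
        Complex.exp (2 * Real.pi * g * Complex.I * (a : ℂ)) := by
      have h3 : (2 * Real.pi * g * Complex.I * ((a + 1 : ℝ) : ℂ) : ℂ) =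
          2 * Real.pi * g * Complex.I * (a : ℂ) + g * (2 * Real.pi * Complex.I) := by
        push_cast
        ring
      rw [h3, Complex.exp_add, Complex.exp_int_mul_two_pi_mul_I, mul_one]
    rw [h2, sub_self, zero_div]

/-- `∫_a^{a+1} S = ` number of zeros in the box -/
theorem count_eq {ι : Type} [Fintype ι] [DecidableEq ι] (G : (ι → ℤ) → ℤ) (P : ℕ) (lo hi : ι → ℝ)
    (a : ℝ) :
    ∫ α in a..(a + 1), S G P lo hi α = (((box P lo hi).filter fun x => G x = 0).card : ℂ) := by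
  unfold S
  rw [intervalIntegral.integral_finsetSum]
  · simp_rw [orth_integral]
    rw [Finset.sum_ite, Finset.sum_const_zero, add_zero, Finset.sum_const, nsmul_eq_mul, mul_one]
  · intro x _
    apply Continuous.intervalIntegrable
    unfold e
    fun_prop

end Pool.Agent.Lib.MP_c0a553_nt
end

section

/-! # Definitions for the mean value theorem -/

namespace Pool.Agent.Lib.MP_c0a553_nt

open Finset

/-- `x` takes at least `d` distinct values. -/
def Rich (d : ℕ) {s : ℕ} (x : Fin s → ℤ) : Prop := ∃ φ : Fin d → Fin s, Function.Injective (x ∘ φ)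

/-- number of rich solutions -/
noncomputable def RR (d s X : ℕ) : ℕ :=
  Nat.card {p : (Fin s → ℤ) × (Fin s → ℤ) // (∀ i, p.1 i ∈ Finset.Ioc (0 : ℤ) X) ∧
    (∀ i, p.2 i ∈ Finset.Ioc (0 : ℤ) X) ∧ Rich d p.1 ∧ Rich d p.2 ∧
    ∀ j ∈ Finset.Icc 1 d, ∑ i, (p.1 i) ^ j = ∑ i, (p.2 i) ^ j}

/-- pairwise incongruent modulo `p` -/
def Incong (p : ℕ) {d : ℕ} (x : Fin d → ℤ) : Prop := ∀ i j, i ≠ j → ¬ (p : ℤ) ∣ x i - x j

/-- number of solutions with `x, y` pairwise incongruent mod `p` and `m` further variables -/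
noncomputable def JP (p d m X : ℕ) : ℕ :=
  Nat.card {w : ((Fin d → ℤ) × (Fin m → ℤ)) × ((Fin d → ℤ) × (Fin m → ℤ)) //
    ((∀ i, w.1.1 i ∈ Finset.Ioc (0 : ℤ) X) ∧ (∀ i, w.1.2 i ∈ Finset.Ioc (0 : ℤ) X) ∧
     (∀ i, w.2.1 i ∈ Finset.Ioc (0 : ℤ) X) ∧ (∀ i, w.2.2 i ∈ Finset.Ioc (0 : ℤ) X)) ∧
    Incong p w.1.1 ∧ Incong p w.2.1 ∧
    ∀ j ∈ Finset.Icc 1 d, ∑ i, (w.1.1 i) ^ j + ∑ i, (w.1.2 i) ^ j
      = ∑ i, (w.2.1 i) ^ j + ∑ i, (w.2.2 i) ^ j}

/-- the same, with the further variables all congruent to `a` mod `p` -/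
noncomputable def JPa (p : ℕ) (a : ℤ) (d m X : ℕ) : ℕ :=
  Nat.card {w : ((Fin d → ℤ) × (Fin m → ℤ)) × ((Fin d → ℤ) × (Fin m → ℤ)) //
    ((∀ i, w.1.1 i ∈ Finset.Ioc (0 : ℤ) X) ∧ (∀ i, w.1.2 i ∈ Finset.Ioc (0 : ℤ) X) ∧
     (∀ i, w.2.1 i ∈ Finset.Ioc (0 : ℤ) X) ∧ (∀ i, w.2.2 i ∈ Finset.Ioc (0 : ℤ) X)) ∧
    ((∀ i, (p : ℤ) ∣ w.1.2 i - a) ∧ (∀ i, (p : ℤ) ∣ w.2.2 i - a)) ∧
    Incong p w.1.1 ∧ Incong p w.2.1 ∧
    ∀ j ∈ Finset.Icc 1 d, ∑ i, (w.1.1 i) ^ j + ∑ i, (w.1.2 i) ^ j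
      = ∑ i, (w.2.1 i) ^ j + ∑ i, (w.2.2 i) ^ j}

end Pool.Agent.Lib.MP_c0a553_nt
end

section

section

/-! # Newton identities and the full Linnik system (job HP-5) -/

namespace Pool.Agent.Lib.MP_c0a553_nt

open Finset

/-- equal power sums give equal elementary symmetric functions -/
private theorem newton_esymm {R : Type} [CommRing R] (d : ℕ)
    (hu : ∀ j ∈ Finset.Icc 1 d, IsUnit ((j : ℕ) : R))
    (x y : Fin d → R) (h : ∀ j ∈ Finset.Icc 1 d, ∑ i, x i ^ j = ∑ i, y i ^ j) (k : ℕ) (hk : k ≤ d) :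
    MvPolynomial.aeval x (MvPolynomial.esymm (Fin d) R k) =
      MvPolynomial.aeval y (MvPolynomial.esymm (Fin d) R k) := by
  induction k using Nat.strong_induction_on with
  | _ k ih =>
    rcases Nat.eq_zero_or_pos k with h0 | h0
    · subst h0
      simp [MvPolynomial.esymm_zero]
    · have hx := congrArg (MvPolynomial.aeval x) (MvPolynomial.mul_esymm_eq_sum (Fin d) R k)
      have hy := congrArg (MvPolynomial.aeval y) (MvPolynomial.mul_esymm_eq_sum (Fin d) R k)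
      simp only [map_mul, map_natCast, map_pow, map_neg, map_one, map_sum] at hx hy
      have hp : ∀ (z : Fin d → R) (j : ℕ), MvPolynomial.aeval z (MvPolynomial.psum (Fin d) R j) =
          ∑ i, z i ^ j := by
        intro z j
        simp [MvPolynomial.psum]
      have hs : ∑ a ∈ antidiagonal k with a.1 < k, (-1) ^ a.1 *
            MvPolynomial.aeval x (MvPolynomial.esymm (Fin d) R a.1) *
            MvPolynomial.aeval x (MvPolynomial.psum (Fin d) R a.2) =
          ∑ a ∈ antidiagonal k with a.1 < k, (-1) ^ a.1 *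
            MvPolynomial.aeval y (MvPolynomial.esymm (Fin d) R a.1) *
            MvPolynomial.aeval y (MvPolynomial.psum (Fin d) R a.2) := by
        refine Finset.sum_congr rfl fun a ha => ?_
        rw [Finset.mem_filter, Finset.HasAntidiagonal.mem_antidiagonal] at ha
        rw [ih a.1 ha.2 (by omega), hp, hp, h a.2 (by rw [Finset.mem_Icc]; omega)]
      rw [hs, ← hy] at hx
      exact (hu k (by rw [Finset.mem_Icc]; omega)).mul_left_cancel hx

/-- Newton: in a commutative ring where `1, …, d` are units, equal power sums `1..d` of `d`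
elements give the same polynomial `∏ (T - x_i)`. -/
theorem newton_prod {R : Type} [CommRing R] (d : ℕ) (hu : ∀ j ∈ Finset.Icc 1 d, IsUnit ((j : ℕ) : R))
    (x y : Fin d → R) (h : ∀ j ∈ Finset.Icc 1 d, ∑ i, x i ^ j = ∑ i, y i ^ j) :
    ∏ i, (Polynomial.X - Polynomial.C (x i)) = ∏ i, (Polynomial.X - Polynomial.C (y i)) := by
  have key : ∀ z : Fin d → R, ∏ i, (Polynomial.X - Polynomial.C (z i)) =
      ∑ j ∈ Finset.range (d + 1), (-1) ^ j *
        (Polynomial.C (MvPolynomial.aeval z (MvPolynomial.esymm (Fin d) R j)) *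
          Polynomial.X ^ (d - j)) := by
    intro z
    have h1 := Multiset.prod_X_sub_X_eq_sum_esymm ((Finset.univ : Finset (Fin d)).val.map z)
    rw [Multiset.map_map] at h1
    have hc : Multiset.card ((Finset.univ : Finset (Fin d)).val.map z) = d := by simp
    rw [hc] at h1
    simp_rw [MvPolynomial.aeval_esymm_eq_multiset_esymm]
    exact h1
  rw [key x, key y]
  refine Finset.sum_congr rfl fun j hj => ?_
  rw [newton_esymm d hu x y h j (by rw [Finset.mem_range] at hj; omega)]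

/-- non-units of `ZMod (p ^ n)` are multiples of `p` -/
private theorem nonunit_mul (p n : ℕ) (hp : p.Prime) (a : ZMod (p ^ n)) (ha : ¬ IsUnit a) :
    ∃ c : ZMod (p ^ n), a = (p : ZMod (p ^ n)) * c := by
  have : NeZero (p ^ n) := ⟨pow_ne_zero n hp.ne_zero⟩
  have h1 : a = ((a.val : ℕ) : ZMod (p ^ n)) := (ZMod.natCast_zmod_val a).symm
  have h2 : ¬ (a.val).Coprime (p ^ n) := by
    intro hc
    apply ha
    rw [h1]
    exact (ZMod.isUnit_iff_coprime _ _).mpr hc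
  have h3 : p ∣ a.val := by
    by_contra hnd
    apply h2
    exact Nat.Coprime.pow_right n ((Nat.Prime.coprime_iff_not_dvd hp).mpr hnd).symm
  obtain ⟨c, hc⟩ := h3
  refine ⟨(c : ZMod (p ^ n)), ?_⟩
  rw [h1, hc]
  push_cast
  rfl

private theorem mul_nonunit (p n : ℕ) (hp : p.Prime) (hn : 1 ≤ n) (c : ZMod (p ^ n)) :
    ¬ IsUnit ((p : ZMod (p ^ n)) * c) := by
  intro h
  have h1 : IsUnit ((p : ℕ) : ZMod (p ^ n)) := isUnit_of_mul_isUnit_left h
  rw [ZMod.isUnit_iff_coprime] at h1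
  have h2 : p.Coprime p := Nat.Coprime.coprime_dvd_right (dvd_pow_self p (by omega)) h1
  rw [Nat.coprime_self] at h2
  exact hp.ne_one h2

/-- At most `d!` solutions with pairwise distinct residues. -/
theorem linnik_full (p n d : ℕ) (hp : p.Prime) (hd : d < p) (hn : 1 ≤ n) (H : ℕ → ZMod (p ^ n)) :
    Nat.card {x : Fin d → ZMod (p ^ n) // (∀ i j, i ≠ j → IsUnit (x i - x j)) ∧
      ∀ j ∈ Finset.Icc 1 d, ∑ i, x i ^ j = H j} ≤ d.factorial := by
  classical
  rcases isEmpty_or_nonempty {x : Fin d → ZMod (p ^ n) // (∀ i j, i ≠ j → IsUnit (x i - x j)) ∧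
      ∀ j ∈ Finset.Icc 1 d, ∑ i, x i ^ j = H j} with he | ⟨⟨x0, hx0, hs0⟩⟩
  · rw [Nat.card_of_isEmpty]
    exact Nat.zero_le _
  have hnt : Nontrivial (ZMod (p ^ n)) := by
    have : Fact (1 < p ^ n) := ⟨Nat.one_lt_pow (by omega) hp.one_lt⟩
    infer_instance
  have hu : ∀ j ∈ Finset.Icc 1 d, IsUnit ((j : ℕ) : ZMod (p ^ n)) := by
    intro j hj
    rw [Finset.mem_Icc] at hj
    rw [ZMod.isUnit_iff_coprime]
    apply Nat.Coprime.pow_right
    rw [Nat.coprime_comm, Nat.Prime.coprime_iff_not_dvd hp]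
    intro hdvd
    have := Nat.le_of_dvd (by omega) hdvd
    omega
  have key : ∀ s : {x : Fin d → ZMod (p ^ n) // (∀ i j, i ≠ j → IsUnit (x i - x j)) ∧
      ∀ j ∈ Finset.Icc 1 d, ∑ i, x i ^ j = H j}, ∃ σ : Equiv.Perm (Fin d), s.1 = x0 ∘ σ := by
    rintro ⟨x, hx, hs⟩
    have hpoly := newton_prod d hu x0 x (fun j hj => (hs0 j hj).trans (hs j hj).symm)
    have hex : ∀ j, ∃ i, x j = x0 i := by
      intro j
      have h1 := congrArg (Polynomial.eval (x j)) hpoly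
      rw [Polynomial.eval_prod, Polynomial.eval_prod] at h1
      simp only [Polynomial.eval_sub, Polynomial.eval_X, Polynomial.eval_C] at h1
      have h2 : ∏ i, (x j - x i) = 0 := Finset.prod_eq_zero (Finset.mem_univ j) (sub_self _)
      rw [h2] at h1
      have h3 : ∃ i, ¬ IsUnit (x j - x0 i) := by
        by_contra hall
        push Not at hall
        have h4 : IsUnit (∏ i, (x j - x0 i)) := by
          rw [IsUnit.prod_univ_iff]
          exact hall
        rw [h1] at h4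
        exact not_isUnit_zero h4
      obtain ⟨i0, hi0⟩ := h3
      refine ⟨i0, ?_⟩
      have h5 : ∀ i, i ≠ i0 → IsUnit (x j - x0 i) := by
        intro i hi
        by_contra hni
        obtain ⟨c, hc⟩ := nonunit_mul p n hp _ hi0
        obtain ⟨c', hc'⟩ := nonunit_mul p n hp _ hni
        have h6 := hx0 i i0 hi
        have h7 : x0 i - x0 i0 = (p : ZMod (p ^ n)) * (c - c') := by
          rw [mul_sub, ← hc, ← hc']
          ring
        rw [h7] at h6
        exact mul_nonunit p n hp hn _ h6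
      have h8 : IsUnit (∏ i ∈ Finset.univ.erase i0, (x j - x0 i)) := by
        rw [IsUnit.prod_iff]
        intro i hi
        exact h5 i (Finset.ne_of_mem_erase hi)
      rw [← Finset.mul_prod_erase Finset.univ _ (Finset.mem_univ i0)] at h1
      have h9 : x j - x0 i0 = 0 := by
        rwa [IsUnit.mul_left_eq_zero h8] at h1
      exact sub_eq_zero.mp h9
    choose σ hσ using hex
    have hinj : Function.Injective σ := by
      intro i j hij
      by_contra hne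
      have h1 := hx i j hne
      rw [hσ i, hσ j, hij, sub_self] at h1
      exact not_isUnit_zero h1
    refine ⟨Equiv.ofBijective σ (Finite.injective_iff_bijective.mp hinj), ?_⟩
    funext j
    exact hσ j
  choose τ hτ using key
  have hinj : Function.Injective τ := by
    intro a b hab
    apply Subtype.ext
    rw [hτ a, hτ b, hab]
  have h1 := Nat.card_le_card_of_injective τ hinj
  rwa [Nat.card_perm, Nat.card_fin] at h1

end Pool.Agent.Lib.MP_c0a553_nt
end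

section

/-! # Linnik lemma (job HP-6) -/

namespace Pool.Agent.Lib.MP_c0a553_nt

open Finset

/-- the possible values of the power sums modulo `p ^ d` -/
private def linnikH (p d : ℕ) (h : ℕ → ℤ) (k : (j : Fin d) → Fin (p ^ (d - (j.1 + 1)))) (j : ℕ) :
    ZMod (p ^ d) :=
  if hj : j - 1 < d then (h j : ZMod (p ^ d)) + (p : ZMod (p ^ d)) ^ j * ((k ⟨j - 1, hj⟩ : ℕ) : ZMod (p ^ d))
  else 0

private theorem linnik_card (p d : ℕ) :
    Fintype.card ((j : Fin d) → Fin (p ^ (d - (j.1 + 1)))) = p ^ (d * (d - 1) / 2) := by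
  rw [Fintype.card_pi]
  simp only [Fintype.card_fin]
  rw [Finset.prod_pow_eq_pow_sum, Fin.sum_univ_eq_sum_range (fun j => d - (j + 1)) d,
    ← Finset.sum_range_id d, ← Finset.sum_range_reflect (fun j => j) d]
  congr 1
  refine Finset.sum_congr rfl fun j _ => ?_
  omega

private theorem linnik_unit (p d : ℕ) (hp : p.Prime) (z : ℤ) (hz : ¬ (p : ℤ) ∣ z) :
    IsUnit (z : ZMod (p ^ d)) := by
  have h1 : IsCoprime z ((p : ℤ)) :=
    ((Nat.prime_iff_prime_int.1 hp).coprime_iff_not_dvd.2 hz).symm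
  have h2 : IsCoprime z ((p : ℤ) ^ d) := h1.pow_right
  obtain ⟨u, v, huv⟩ := h2
  have h3 : ((u * z + v * (p : ℤ) ^ d : ℤ) : ZMod (p ^ d)) = 1 := by
    rw [huv, Int.cast_one]
  have h4 : (((p : ℤ) ^ d : ℤ) : ZMod (p ^ d)) = 0 := by
    have := ZMod.natCast_self (p ^ d)
    push_cast at this ⊢
    exact this
  rw [Int.cast_add, Int.cast_mul, Int.cast_mul, h4, mul_zero, add_zero] at h3
  exact IsUnit.of_mul_eq_one_right _ h3

private theorem linnik_exists (p d : ℕ) (hp : p.Prime) (h : ℕ → ℤ) (x : Fin d → ℤ)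
    (hx : ∀ j ∈ Finset.Icc 1 d, (p : ℤ) ^ j ∣ ∑ i, x i ^ j - h j) :
    ∃ k : (j : Fin d) → Fin (p ^ (d - (j.1 + 1))), ∀ j ∈ Finset.Icc 1 d,
      ∑ i, ((x i : ZMod (p ^ d))) ^ j = linnikH p d h k j := by
  have key : ∀ j : Fin d, ∃ k : Fin (p ^ (d - (j.1 + 1))),
      ∑ i, ((x i : ZMod (p ^ d))) ^ (j.1 + 1) = (h (j.1 + 1) : ZMod (p ^ d)) +
        (p : ZMod (p ^ d)) ^ (j.1 + 1) * ((k : ℕ) : ZMod (p ^ d)) := by
    intro j
    obtain ⟨m, hm⟩ := hx (j.1 + 1) (Finset.mem_Icc.2 ⟨by omega, j.2⟩)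
    have hpos : (0 : ℤ) < (p : ℤ) ^ (d - (j.1 + 1)) := by
      have := hp.pos
      positivity
    refine ⟨⟨(m % (p : ℤ) ^ (d - (j.1 + 1))).toNat, ?_⟩, ?_⟩
    · have h1 := Int.emod_lt_of_pos m hpos
      have h0 := Int.emod_nonneg m hpos.ne'
      zify
      rw [Int.toNat_of_nonneg h0]
      exact h1
    · have h0 := Int.emod_nonneg m hpos.ne'
      have h2 : (((m % (p : ℤ) ^ (d - (j.1 + 1))).toNat : ℕ) : ZMod (p ^ d)) =
          ((m % (p : ℤ) ^ (d - (j.1 + 1)) : ℤ) : ZMod (p ^ d)) := by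
        conv_rhs => rw [← Int.toNat_of_nonneg h0]
        rw [Int.cast_natCast]
      show _ = _ + _ * (((m % (p : ℤ) ^ (d - (j.1 + 1))).toNat : ℕ) : ZMod (p ^ d))
      rw [h2]
      have h3 : ∑ i, x i ^ (j.1 + 1) = h (j.1 + 1) + (p : ℤ) ^ (j.1 + 1) * m := by linarith
      have h4 : ∑ i, ((x i : ZMod (p ^ d))) ^ (j.1 + 1) =
          ((∑ i, x i ^ (j.1 + 1) : ℤ) : ZMod (p ^ d)) := by push_cast; rfl
      rw [h4, h3]
      have h5 : m = m % (p : ℤ) ^ (d - (j.1 + 1)) +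
          (p : ℤ) ^ (d - (j.1 + 1)) * (m / (p : ℤ) ^ (d - (j.1 + 1))) :=
        (Int.emod_add_mul_ediv _ _).symm
      have h6 : (((p : ℤ) ^ (j.1 + 1) * (p : ℤ) ^ (d - (j.1 + 1)) : ℤ) : ZMod (p ^ d)) = 0 := by
        rw [← pow_add, Nat.add_sub_cancel' (show j.1 + 1 ≤ d from j.2)]
        have := ZMod.natCast_self (p ^ d)
        push_cast at this ⊢
        exact this
      conv_lhs => rw [h5]
      push_cast at h6 ⊢
      linear_combination ((m / (p : ℤ) ^ (d - (j.1 + 1)) : ℤ) : ZMod (p ^ d)) * h6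
  choose k hk using key
  refine ⟨k, fun j hj => ?_⟩
  rw [Finset.mem_Icc] at hj
  have hj1 : j - 1 < d := by omega
  rw [linnikH, dif_pos hj1]
  have := hk ⟨j - 1, hj1⟩
  have hjj : j - 1 + 1 = j := by omega
  simp only [hjj] at this
  exact this

/-- Linnik's lemma. -/
theorem linnik (p d : ℕ) (hp : p.Prime) (hd : d < p) (hd1 : 1 ≤ d) (h : ℕ → ℤ) (a b : ℤ)
    (hab : b - a ≤ (p : ℤ) ^ d) :
    Nat.card {x : Fin d → ℤ // (∀ i, x i ∈ Finset.Ioc a b) ∧
      (∀ i j, i ≠ j → ¬ (p : ℤ) ∣ x i - x j) ∧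
        ∀ j ∈ Finset.Icc 1 d, (p : ℤ) ^ j ∣ ∑ i, x i ^ j - h j}
      ≤ d.factorial * p ^ (d * (d - 1) / 2) := by
  classical
  have hN : NeZero (p ^ d) := ⟨(pow_pos hp.pos d).ne'⟩
  let P : ((j : Fin d) → Fin (p ^ (d - (j.1 + 1)))) → (Fin d → ZMod (p ^ d)) → Prop := fun k x =>
    (∀ i j, i ≠ j → IsUnit (x i - x j)) ∧
      ∀ j ∈ Finset.Icc 1 d, ∑ i, x i ^ j = linnikH p d h k j
  let A : ((j : Fin d) → Fin (p ^ (d - (j.1 + 1)))) → Finset (Fin d → ZMod (p ^ d)) := fun k =>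
    Finset.univ.filter (P k)
  have hA : ∀ k, (A k).card ≤ d.factorial := by
    intro k
    have h1 : Nat.card {x // P k x} ≤ d.factorial :=
      linnik_full p d d hp hd hd1 (linnikH p d h k)
    rw [Nat.card_eq_fintype_card, Fintype.card_subtype] at h1
    exact h1
  let U : Finset (Fin d → ZMod (p ^ d)) := Finset.univ.biUnion A
  have hU : U.card ≤ d.factorial * p ^ (d * (d - 1) / 2) := by
    calc U.card ≤ ∑ k, (A k).card := Finset.card_biUnion_le
      _ ≤ ∑ _k : ((j : Fin d) → Fin (p ^ (d - (j.1 + 1)))), d.factorial :=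
          Finset.sum_le_sum fun k _ => hA k
      _ = d.factorial * p ^ (d * (d - 1) / 2) := by
          rw [Finset.sum_const, Finset.card_univ, linnik_card, smul_eq_mul, mul_comm]
  have hmem : ∀ x : {x : Fin d → ℤ // (∀ i, x i ∈ Finset.Ioc a b) ∧
      (∀ i j, i ≠ j → ¬ (p : ℤ) ∣ x i - x j) ∧
        ∀ j ∈ Finset.Icc 1 d, (p : ℤ) ^ j ∣ ∑ i, x i ^ j - h j},
      (fun i => ((x.1 i : ℤ) : ZMod (p ^ d))) ∈ U := by
    rintro ⟨x, hx1, hx2, hx3⟩
    obtain ⟨k, hk⟩ := linnik_exists p d hp h x hx3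
    refine Finset.mem_biUnion.2 ⟨k, Finset.mem_univ _, Finset.mem_filter.2
      ⟨Finset.mem_univ _, fun i j hij => ?_, hk⟩⟩
    have := linnik_unit p d hp _ (hx2 i j hij)
    rw [Int.cast_sub] at this
    exact this
  let F : {x : Fin d → ℤ // (∀ i, x i ∈ Finset.Ioc a b) ∧
      (∀ i j, i ≠ j → ¬ (p : ℤ) ∣ x i - x j) ∧
        ∀ j ∈ Finset.Icc 1 d, (p : ℤ) ^ j ∣ ∑ i, x i ^ j - h j} → U := fun x => ⟨_, hmem x⟩
  have hF : Function.Injective F := by
    rintro ⟨x, hx1, hx2, hx3⟩ ⟨y, hy1, hy2, hy3⟩ hxy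
    have h1 : (fun i => ((x i : ℤ) : ZMod (p ^ d))) = fun i => ((y i : ℤ) : ZMod (p ^ d)) :=
      congrArg Subtype.val hxy
    refine Subtype.ext (funext fun i => ?_)
    have h2 : ((x i : ℤ) : ZMod (p ^ d)) = (y i : ℤ) := congrFun h1 i
    rw [ZMod.intCast_eq_intCast_iff_dvd_sub] at h2
    have h3 := Finset.mem_Ioc.1 (hx1 i)
    have h4 := Finset.mem_Ioc.1 (hy1 i)
    have h5 : y i - x i = 0 := by
      refine Int.eq_zero_of_abs_lt_dvd h2 ?_
      push_cast
      rw [abs_lt]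
      constructor <;> linarith
    show x i = y i
    linarith
  calc _ ≤ Nat.card U := Nat.card_le_card_of_injective F hF
    _ = U.card := by rw [Nat.card_eq_fintype_card, Fintype.card_coe]
    _ ≤ _ := hU

end Pool.Agent.Lib.MP_c0a553_nt
end

section

/-! # Choice of the prime (job HP-8) -/

namespace Pool.Agent.Lib.MP_c0a553_nt

open Finset

/-- product of the differences -/
private noncomputable def rpD {d : ℕ} (x : Fin d → ℤ) : ℕ :=
  ∏ i : Fin d, ∏ j ∈ Finset.Iio i, (x i - x j).natAbs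

private theorem rpD_ne {d : ℕ} {x : Fin d → ℤ} (hx : Function.Injective x) : rpD x ≠ 0 := by
  unfold rpD
  rw [Finset.prod_ne_zero_iff]
  intro i _
  rw [Finset.prod_ne_zero_iff]
  intro j hj
  rw [Finset.mem_Iio] at hj
  intro h
  rw [Int.natAbs_eq_zero, sub_eq_zero] at h
  exact hj.ne' (hx h)

private theorem rpD_le {d X : ℕ} {x : Fin d → ℤ} (hx : ∀ i, x i ∈ Finset.Ioc (0 : ℤ) X) :
    rpD x ≤ (X - 1) ^ (∑ i : Fin d, (i : ℕ)) := by
  unfold rpD
  rw [← Finset.prod_pow_eq_pow_sum]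
  refine Finset.prod_le_prod' fun i _ => ?_
  have h1 : ∀ j ∈ Finset.Iio i, (x i - x j).natAbs ≤ X - 1 := by
    intro j _
    have hi := Finset.mem_Ioc.1 (hx i)
    have hj := Finset.mem_Ioc.1 (hx j)
    omega
  have h2 := Finset.prod_le_pow_card (Finset.Iio i) (fun j => (x i - x j).natAbs) (X - 1) h1
  rwa [Fin.card_Iio] at h2

private theorem rpD_incong {d p : ℕ} {x : Fin d → ℤ} (h : ¬ p ∣ rpD x) : Incong p x := by
  have key : ∀ i j : Fin d, j < i → ¬ (p : ℤ) ∣ x i - x j := by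
    intro i j hij hd
    apply h
    have h1 : p ∣ (x i - x j).natAbs := Int.natCast_dvd.1 hd
    have h2 : (x i - x j).natAbs ∣ ∏ j ∈ Finset.Iio i, (x i - x j).natAbs :=
      Finset.dvd_prod_of_mem (fun j => (x i - x j).natAbs) (Finset.mem_Iio.2 hij)
    have h3 : (∏ j ∈ Finset.Iio i, (x i - x j).natAbs) ∣ rpD x :=
      Finset.dvd_prod_of_mem (fun i => ∏ j ∈ Finset.Iio i, (x i - x j).natAbs)
        (Finset.mem_univ i)
    exact (h1.trans h2).trans h3
  intro i j hij hd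
  rcases lt_or_gt_of_ne hij with h1 | h1
  · apply key j i h1
    have h2 := (dvd_neg (α := ℤ)).2 hd
    rwa [neg_sub] at h2
  · exact key i j h1 hd

private theorem rp_sum (d : ℕ) : (∑ i : Fin d, (i : ℕ)) * 2 = d * (d - 1) := by
  rw [Fin.sum_univ_eq_sum_range (fun i => i) d]
  exact Finset.sum_range_id_mul_two d

private theorem rp_claim {d X : ℕ} (hX : 1 ≤ X) (hd : 1 ≤ d) {T : Finset ℕ}
    (hT : ∀ p ∈ T, p.Prime ∧ X ≤ p ^ d) (hcard : d ^ 3 ≤ T.card) {x y : Fin d → ℤ}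
    (hx : ∀ i, x i ∈ Finset.Ioc (0 : ℤ) X) (hy : ∀ i, y i ∈ Finset.Ioc (0 : ℤ) X)
    (hix : Function.Injective x) (hiy : Function.Injective y) :
    ∃ p ∈ T, Incong p x ∧ Incong p y := by
  by_contra hcon
  push Not at hcon
  obtain ⟨N, hN⟩ : ∃ N, N = rpD x * rpD y := ⟨_, rfl⟩
  have hN0 : N ≠ 0 := by rw [hN]; exact mul_ne_zero (rpD_ne hix) (rpD_ne hiy)
  have hdiv : ∀ p ∈ T, p ∣ N := by
    intro p hp
    by_contra hpn
    rw [hN] at hpn
    exact hcon p hp (rpD_incong fun h => hpn (h.mul_right _))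
      (rpD_incong fun h => hpn (h.mul_left _))
  have hprod : (∏ p ∈ T, p) ∣ N :=
    Finset.prod_primes_dvd N (fun p hp => (hT p hp).1.prime) hdiv
  have hNle : N ≤ (X - 1) ^ (d * (d - 1)) := by
    rw [hN, ← rp_sum, mul_two, pow_add]
    exact Nat.mul_le_mul (rpD_le hx) (rpD_le hy)
  have h1 : ∏ p ∈ T, p ≤ N := Nat.le_of_dvd (Nat.pos_of_ne_zero hN0) hprod
  have hTne : T.Nonempty := by
    rw [← Finset.card_pos]
    have : 0 < d ^ 3 := by positivity
    omega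
  rcases Nat.eq_or_lt_of_le hd with h | h
  · -- `d = 1`
    obtain ⟨p, hp⟩ := hTne
    have h2 : N ≤ 1 := by
      have := hNle
      rw [← h] at this
      simpa using this
    have h3 : N = 1 := by omega
    have h4 := hdiv p hp
    rw [h3, Nat.dvd_one] at h4
    exact (hT p hp).1.one_lt.ne' h4
  · have hk : d * (d - 1) ≠ 0 := by
      have : d - 1 ≠ 0 := by omega
      have : d ≠ 0 := by omega
      positivity
    have h2 : X ^ d ^ 3 ≤ (∏ p ∈ T, p) ^ d := by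
      calc X ^ d ^ 3 ≤ X ^ T.card := Nat.pow_le_pow_right hX hcard
        _ = ∏ _p ∈ T, X := by rw [Finset.prod_const]
        _ ≤ ∏ p ∈ T, p ^ d := Finset.prod_le_prod' fun p hp => (hT p hp).2
        _ = (∏ p ∈ T, p) ^ d := by rw [Finset.prod_pow]
    have h3 : (∏ p ∈ T, p) ^ d ≤ ((X - 1) ^ (d * (d - 1))) ^ d :=
      Nat.pow_le_pow_left (h1.trans hNle) d
    have h4 : ((X - 1) ^ (d * (d - 1))) ^ d < (X ^ (d * (d - 1))) ^ d := by
      apply Nat.pow_lt_pow_left _ (by omega)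
      exact Nat.pow_lt_pow_left (by omega) hk
    have h5 : (X ^ (d * (d - 1))) ^ d ≤ X ^ d ^ 3 := by
      rw [← pow_mul]
      apply Nat.pow_le_pow_right hX
      calc d * (d - 1) * d ≤ d * d * d := by
            apply Nat.mul_le_mul_right
            apply Nat.mul_le_mul_left
            omega
        _ = d ^ 3 := by ring
    omega

private theorem rp_equiv {d m : ℕ} {φ : Fin d → Fin (d + m)} (hφ : Function.Injective φ) :
    ∃ e : Fin d ⊕ Fin m ≃ Fin (d + m), ∀ i, e (Sum.inl i) = φ i := by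
  classical
  have hc : Fintype.card ↥((Set.range φ)ᶜ) = m := by
    rw [Fintype.card_compl_set, Set.card_range_of_injective hφ, Fintype.card_fin, Fintype.card_fin]
    omega
  have e' : Fin m ≃ ↥((Set.range φ)ᶜ) := (Fintype.equivFinOfCardEq hc).symm
  refine ⟨(Equiv.sumCongr (Equiv.ofInjective φ hφ) e').trans (Equiv.Set.sumCompl (Set.range φ)),
    fun i => ?_⟩
  simp

private theorem rp_reindex {d m : ℕ} (e : Fin d ⊕ Fin m ≃ Fin (d + m)) (x : Fin (d + m) → ℤ)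
    (j : ℕ) : ∑ i, (x (e (Sum.inl i))) ^ j + ∑ i, (x (e (Sum.inr i))) ^ j = ∑ i, (x i) ^ j := by
  rw [← Equiv.sum_comp e (fun i => (x i) ^ j), Fintype.sum_sum_type]

private theorem rp_finite_box (d X : ℕ) :
    {x : Fin d → ℤ | ∀ i, x i ∈ Finset.Ioc (0 : ℤ) X}.Finite := by
  have h : {x : Fin d → ℤ | ∀ i, x i ∈ Finset.Ioc (0 : ℤ) X} =
      ↑(Fintype.piFinset fun _ : Fin d => Finset.Ioc (0 : ℤ) X) := by
    ext x
    simp [Fintype.mem_piFinset]
  rw [h]
  exact Finset.finite_toSet _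

/-- the type counted by `JP` -/
private abbrev JPT (p d m X : ℕ) : Type :=
  {w : ((Fin d → ℤ) × (Fin m → ℤ)) × ((Fin d → ℤ) × (Fin m → ℤ)) //
    ((∀ i, w.1.1 i ∈ Finset.Ioc (0 : ℤ) X) ∧ (∀ i, w.1.2 i ∈ Finset.Ioc (0 : ℤ) X) ∧
     (∀ i, w.2.1 i ∈ Finset.Ioc (0 : ℤ) X) ∧ (∀ i, w.2.2 i ∈ Finset.Ioc (0 : ℤ) X)) ∧
    Incong p w.1.1 ∧ Incong p w.2.1 ∧
    ∀ j ∈ Finset.Icc 1 d, ∑ i, (w.1.1 i) ^ j + ∑ i, (w.1.2 i) ^ j
      = ∑ i, (w.2.1 i) ^ j + ∑ i, (w.2.2 i) ^ j}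

private theorem JPT_finite (p d m X : ℕ) : Finite (JPT p d m X) := by
  have h : {w : ((Fin d → ℤ) × (Fin m → ℤ)) × ((Fin d → ℤ) × (Fin m → ℤ)) |
    ((∀ i, w.1.1 i ∈ Finset.Ioc (0 : ℤ) X) ∧ (∀ i, w.1.2 i ∈ Finset.Ioc (0 : ℤ) X) ∧
     (∀ i, w.2.1 i ∈ Finset.Ioc (0 : ℤ) X) ∧ (∀ i, w.2.2 i ∈ Finset.Ioc (0 : ℤ) X)) ∧
    Incong p w.1.1 ∧ Incong p w.2.1 ∧
    ∀ j ∈ Finset.Icc 1 d, ∑ i, (w.1.1 i) ^ j + ∑ i, (w.1.2 i) ^ j
      = ∑ i, (w.2.1 i) ^ j + ∑ i, (w.2.2 i) ^ j}.Finite := by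
    refine Set.Finite.subset ((((rp_finite_box d X).prod (rp_finite_box m X))).prod
      ((rp_finite_box d X).prod (rp_finite_box m X))) ?_
    rintro w ⟨⟨h1, h2, h3, h4⟩, -⟩
    exact ⟨⟨h1, h2⟩, ⟨h3, h4⟩⟩
  exact h.to_subtype

private theorem rp_JP (p d m X : ℕ) : JP p d m X = Nat.card (JPT p d m X) := rfl

/-- the type counted by `RR` -/
private abbrev RRT (d s X : ℕ) : Type :=
  {p : (Fin s → ℤ) × (Fin s → ℤ) // (∀ i, p.1 i ∈ Finset.Ioc (0 : ℤ) X) ∧
    (∀ i, p.2 i ∈ Finset.Ioc (0 : ℤ) X) ∧ Rich d p.1 ∧ Rich d p.2 ∧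
    ∀ j ∈ Finset.Icc 1 d, ∑ i, (p.1 i) ^ j = ∑ i, (p.2 i) ^ j}

private theorem rp_RR (d s X : ℕ) : RR d s X = Nat.card (RRT d s X) := rfl

theorem rich_primes (d m X : ℕ) (hX : 1 ≤ X) (hd : 1 ≤ d) (T : Finset ℕ)
    (hT : ∀ p ∈ T, p.Prime ∧ X ≤ p ^ d) (hcard : d ^ 3 ≤ T.card) :
    RR d (d + m) X ≤ ((d + m) ^ d) ^ 2 * ∑ p ∈ T, JP p d m X := by
  classical
  haveI : ∀ p : ℕ, Finite (JPT p d m X) := fun p => JPT_finite p d m X
  -- the choice of `φ, ψ, p`
  have hch : ∀ z : RRT d (d + m) X, ∃ t : (Fin d → Fin (d + m)) × (Fin d → Fin (d + m)) × T,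
      Function.Injective t.1 ∧ Function.Injective t.2.1 ∧
      Incong t.2.2 (z.1.1 ∘ t.1) ∧ Incong t.2.2 (z.1.2 ∘ t.2.1) := by
    rintro ⟨⟨x, y⟩, hx, hy, ⟨φ, hφ⟩, ⟨ψ, hψ⟩, -⟩
    obtain ⟨p, hp, h1, h2⟩ := rp_claim hX hd hT hcard (x := x ∘ φ) (y := y ∘ ψ)
      (fun i => hx (φ i)) (fun i => hy (ψ i)) hφ hψ
    exact ⟨(φ, ψ, ⟨p, hp⟩), hφ.of_comp, hψ.of_comp, h1, h2⟩
  choose t ht1 ht2 ht3 ht4 using hch
  -- equivalences
  have heq : ∀ φ : Fin d → Fin (d + m), ∃ e : Fin d ⊕ Fin m ≃ Fin (d + m),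
      Function.Injective φ → ∀ i, e (Sum.inl i) = φ i := by
    intro φ
    by_cases hφ : Function.Injective φ
    · obtain ⟨e, he⟩ := rp_equiv hφ
      exact ⟨e, fun _ => he⟩
    · exact ⟨finSumFinEquiv, fun h => absurd h hφ⟩
  choose e he using heq
  let f : RRT d (d + m) X →
      ((Fin d → Fin (d + m)) × (Fin d → Fin (d + m))) × (Σ p : T, JPT p d m X) := fun z =>
    ⟨((t z).1, (t z).2.1), ⟨(t z).2.2,
      ⟨((fun i => z.1.1 (e (t z).1 (Sum.inl i)), fun i => z.1.1 (e (t z).1 (Sum.inr i))),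
        (fun i => z.1.2 (e (t z).2.1 (Sum.inl i)), fun i => z.1.2 (e (t z).2.1 (Sum.inr i)))),
        ⟨fun i => z.2.1 _, fun i => z.2.1 _, fun i => z.2.2.1 _, fun i => z.2.2.1 _⟩,
        by
          have h := ht3 z
          intro i j hij
          simp only [he _ (ht1 z)]
          exact h i j hij,
        by
          have h := ht4 z
          intro i j hij
          simp only [he _ (ht2 z)]
          exact h i j hij,
        by
          intro j hj
          simp only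
          rw [rp_reindex, rp_reindex]
          exact z.2.2.2.2.2 j hj⟩⟩⟩
  have hf : Function.Injective f := by
    intro z z' h
    have e1 : (t z).1 = (t z').1 := congrArg (fun q => q.1.1) h
    have e2 : (t z).2.1 = (t z').2.1 := congrArg (fun q => q.1.2) h
    have e3 : ((fun i => z.1.1 (e (t z).1 (Sum.inl i)), fun i => z.1.1 (e (t z).1 (Sum.inr i))),
        (fun i => z.1.2 (e (t z).2.1 (Sum.inl i)), fun i => z.1.2 (e (t z).2.1 (Sum.inr i)))) =
        ((fun i => z'.1.1 (e (t z').1 (Sum.inl i)), fun i => z'.1.1 (e (t z').1 (Sum.inr i))),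
        (fun i => z'.1.2 (e (t z').2.1 (Sum.inl i)), fun i => z'.1.2 (e (t z').2.1 (Sum.inr i)))) :=
      congrArg (fun q : ((Fin d → Fin (d + m)) × (Fin d → Fin (d + m))) × (Σ p : T, JPT p d m X) =>
        q.2.2.1) h
    rw [← e1, ← e2] at e3
    simp only [Prod.mk.injEq] at e3
    obtain ⟨⟨a1, a2⟩, a3, a4⟩ := e3
    apply Subtype.ext
    apply Prod.ext
    · funext k
      obtain ⟨k', rfl⟩ := (e (t z).1).surjective k
      rcases k' with k' | k'
      · exact congrFun a1 k'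
      · exact congrFun a2 k'
    · funext k
      obtain ⟨k', rfl⟩ := (e (t z).2.1).surjective k
      rcases k' with k' | k'
      · exact congrFun a3 k'
      · exact congrFun a4 k'
  have hcard2 := Nat.card_le_card_of_injective f hf
  rw [Nat.card_prod, Nat.card_prod, Nat.card_sigma] at hcard2
  rw [rp_RR]
  refine hcard2.trans (le_of_eq ?_)
  have h1 : Nat.card (Fin d → Fin (d + m)) = (d + m) ^ d := by
    simp
  rw [h1, sq]
  congr 1
  rw [← Finset.sum_coe_sort T (fun p => JP p d m X)]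
  rfl

end Pool.Agent.Lib.MP_c0a553_nt
end
end

section

section

/-! # Vinogradov lemma (job HP-3) -/

namespace Pool.Agent.Lib.MP_c0a553_nt

open Finset

theorem geo_nonneg (Y : ℕ) (x : ℝ) : 0 ≤ geo Y x := norm_nonneg _

private lemma sum_Icc_symm {M : Type*} [AddCommMonoid M] (X : ℕ) (g : ℤ → M) :
    ∑ ν ∈ Finset.Icc (-(X : ℤ)) X, g ν = ∑ i ∈ Finset.range (2 * X + 1), g (-(X : ℤ) + i) := by
  apply Finset.sum_nbij' (fun ν : ℤ => (ν + X).toNat) (fun i : ℕ => -(X : ℤ) + i)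
  · intro ν hν
    simp only [Finset.mem_Icc] at hν
    simp only [Finset.mem_range]
    omega
  · intro i hi
    simp only [Finset.mem_range] at hi
    simp only [Finset.mem_Icc]
    omega
  · intro ν hν
    simp only [Finset.mem_Icc] at hν
    omega
  · intro i hi
    omega
  · intro ν hν
    simp only [Finset.mem_Icc] at hν
    congr 1
    omega

theorem geo_le_trivial (Y : ℕ) (x : ℝ) : geo Y x ≤ 2 * Y + 1 := by
  unfold geo
  rw [sum_Icc_symm]
  refine (norm_sum_le _ _).trans ?_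
  simp [norm_e]

private lemma norm_e_sub_one (x : ℝ) : 4 * nn x ≤ ‖e x - 1‖ := by
  have hpi := Real.pi_pos
  set y := x - round x with hy
  have h1 : e x = e y := by
    have h2 : x = y + ((round x : ℤ) : ℝ) := by rw [hy]; ring
    conv_lhs => rw [h2]
    rw [e_add_int]
  have h3 : |y| ≤ 1 / 2 := abs_sub_round x
  have h4 : e y = Complex.exp (Complex.I * ((2 * Real.pi * y : ℝ) : ℂ)) := by
    unfold e
    congr 1
    push_cast
    ring
  rw [h1, h4, Complex.norm_exp_I_mul_ofReal_sub_one]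
  have h5 : 2 * Real.pi * y / 2 = Real.pi * y := by ring
  rw [h5, Real.norm_eq_abs, abs_mul, abs_two]
  have h6 : |Real.sin (Real.pi * y)| = |Real.sin (Real.pi * |y|)| := by
    rcases abs_cases y with ⟨h7, -⟩ | ⟨h7, -⟩
    · rw [h7]
    · rw [h7, mul_neg, Real.sin_neg, abs_neg]
  rw [h6]
  have h8 : 2 / Real.pi * (Real.pi * |y|) ≤ Real.sin (Real.pi * |y|) := by
    apply Real.mul_le_sin (by positivity)
    nlinarith [abs_nonneg y]
  have h9 : 2 / Real.pi * (Real.pi * |y|) = 2 * |y| := by field_simp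
  rw [h9] at h8
  have h10 := le_abs_self (Real.sin (Real.pi * |y|))
  have h11 : nn x = |y| := rfl
  rw [h11]
  linarith

private lemma e_nat_mul (x : ℝ) (n : ℕ) : e (n * x) = e x ^ n := by
  induction n with
  | zero => simp [e_zero]
  | succ n ih =>
    rw [pow_succ, ← ih, ← e_add]
    congr 1
    push_cast
    ring

private lemma geo_mul_nn_le (Y : ℕ) (x : ℝ) : geo Y x * nn x ≤ 1 / 2 := by
  have h1 : ∑ m ∈ Finset.Icc (-(Y : ℤ)) Y, e (m * x) =
      e (-(Y : ℝ) * x) * ∑ i ∈ Finset.range (2 * Y + 1), e x ^ i := by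
    rw [sum_Icc_symm, Finset.mul_sum]
    refine Finset.sum_congr rfl fun i _ => ?_
    rw [← e_nat_mul, ← e_add]
    congr 1
    push_cast
    ring
  have h2 : geo Y x * ‖e x - 1‖ ≤ 2 := by
    unfold geo
    rw [h1, ← norm_mul, mul_assoc, geom_sum_mul, norm_mul, norm_e, one_mul]
    refine (norm_sub_le _ _).trans ?_
    rw [norm_pow, norm_e]
    norm_num
  have h3 := norm_e_sub_one x
  have h4 := geo_nonneg Y x
  have h5 : geo Y x * (4 * nn x) ≤ geo Y x * ‖e x - 1‖ := by gcongr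
  linarith

/-- the majorant -/
private noncomputable def Fq (Y q : ℕ) (r : ℕ) : ℝ :=
  if r < 3 then 2 * Y + 1 else q / (2 * ((r : ℝ) - 2))

private lemma Fq_nonneg (Y q r : ℕ) : 0 ≤ Fq Y q r := by
  unfold Fq
  split_ifs with h
  · positivity
  · push Not at h
    have h1 : (3 : ℝ) ≤ r := by exact_mod_cast h
    have h2 : (0 : ℝ) < (r : ℝ) - 2 := by linarith
    positivity

private lemma sum_Fq_le (Y q : ℕ) :
    ∑ r ∈ Finset.range (q + 1), Fq Y q r ≤ 3 * (2 * Y + 1) + q / 2 * (1 + Real.log q) := by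
  calc ∑ r ∈ Finset.range (q + 1), Fq Y q r ≤ ∑ r ∈ Finset.range (3 + q), Fq Y q r := by
        apply Finset.sum_le_sum_of_subset_of_nonneg
        · intro r hr
          simp only [Finset.mem_range] at hr ⊢
          omega
        · intro r _ _
          exact Fq_nonneg Y q r
    _ = ∑ r ∈ Finset.range 3, Fq Y q r + ∑ r ∈ Finset.range q, Fq Y q (3 + r) :=
        Finset.sum_range_add _ _ _
    _ ≤ 3 * (2 * Y + 1) + q / 2 * (1 + Real.log q) := by
        apply add_le_add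
        · apply le_of_eq
          have : ∀ r ∈ Finset.range 3, Fq Y q r = 2 * Y + 1 := by
            intro r hr
            simp only [Finset.mem_range] at hr
            simp [Fq, hr]
          rw [Finset.sum_congr rfl this]
          simp
          ring
        · have h1 : ∑ r ∈ Finset.range q, Fq Y q (3 + r) = q / 2 * ((harmonic q : ℚ) : ℝ) := by
            unfold harmonic
            push_cast
            rw [Finset.mul_sum]
            refine Finset.sum_congr rfl fun r _ => ?_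
            have h2 : ¬ (3 + r < 3) := by omega
            simp only [Fq, h2, if_false]
            push_cast
            have h3 : (3 : ℝ) + r - 2 = r + 1 := by ring
            rw [h3]
            have h4 : (r : ℝ) + 1 ≠ 0 := by positivity
            field_simp
          rw [h1]
          have h2 := harmonic_le_one_add_log q
          gcongr

private lemma sum_natAbs_le (q : ℕ) (F : ℕ → ℝ) (hF : ∀ r, 0 ≤ F r) :
    ∑ R ∈ Finset.Icc (-(q : ℤ)) q, F R.natAbs ≤ 2 * ∑ r ∈ Finset.range (q + 1), F r := by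
  classical
  have hsub : Finset.Icc (-(q : ℤ)) q ⊆
      (Finset.range (q + 1)).image (fun r : ℕ => (r : ℤ)) ∪
        (Finset.range (q + 1)).image (fun r : ℕ => -(r : ℤ)) := by
    intro R hR
    simp only [Finset.mem_Icc] at hR
    simp only [Finset.mem_union, Finset.mem_image, Finset.mem_range]
    rcases le_total 0 R with h | h
    · left
      exact ⟨R.toNat, by omega, by omega⟩
    · right
      exact ⟨(-R).toNat, by omega, by omega⟩
  have h1 : ∑ R ∈ Finset.Icc (-(q : ℤ)) q, F R.natAbs ≤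
      ∑ R ∈ (Finset.range (q + 1)).image (fun r : ℕ => (r : ℤ)) ∪
        (Finset.range (q + 1)).image (fun r : ℕ => -(r : ℤ)), F R.natAbs :=
    Finset.sum_le_sum_of_subset_of_nonneg hsub fun R _ _ => hF _
  have h2 := Finset.sum_union_inter (s₁ := (Finset.range (q + 1)).image (fun r : ℕ => (r : ℤ)))
    (s₂ := (Finset.range (q + 1)).image (fun r : ℕ => -(r : ℤ))) (f := fun R => F R.natAbs)
  have h3 : 0 ≤ ∑ R ∈ (Finset.range (q + 1)).image (fun r : ℕ => (r : ℤ)) ∩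
        (Finset.range (q + 1)).image (fun r : ℕ => -(r : ℤ)), F R.natAbs :=
    Finset.sum_nonneg fun R _ => hF _
  have h4 : ∑ R ∈ (Finset.range (q + 1)).image (fun r : ℕ => (r : ℤ)), F R.natAbs =
      ∑ r ∈ Finset.range (q + 1), F r := by
    rw [Finset.sum_image (fun a _ b _ h => by simpa using h)]
    simp
  have h5 : ∑ R ∈ (Finset.range (q + 1)).image (fun r : ℕ => -(r : ℤ)), F R.natAbs =
      ∑ r ∈ Finset.range (q + 1), F r := by
    rw [Finset.sum_image (fun a _ b _ h => by simpa using h)]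
    simp
  rw [h4, h5] at h2
  linarith

private lemma nn_ge (q : ℕ) (hq : 1 ≤ q) (R k : ℤ) (δ x : ℝ) (hR : 2 * |R| ≤ q) (hδ : |δ| ≤ 2)
    (hx : x = (R + δ) / q + k) : |(R : ℝ)| - 2 ≤ q * nn x := by
  have hq0 : (0 : ℝ) < q := by exact_mod_cast hq
  have hR' : 2 * |(R : ℝ)| ≤ q := by exact_mod_cast hR
  unfold nn
  set n := round x
  have h1 : (q : ℝ) * |x - n| = |(R + δ) + q * ((k - n : ℤ) : ℝ)| := by
    have : (q : ℝ) = |(q : ℝ)| := (abs_of_pos hq0).symm
    rw [this, ← abs_mul, ← this, hx]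
    congr 1
    push_cast
    field_simp
    ring
  rw [h1]
  rcases eq_or_ne (k - n) 0 with h0 | h0
  · rw [h0]
    simp only [Int.cast_zero, mul_zero, add_zero]
    have h2 : |(R : ℝ)| ≤ |(R : ℝ) + δ| + |δ| := by
      have := abs_sub (a := (R : ℝ) + δ) (b := δ)
      simpa using this
    linarith
  · have h2 : (1 : ℝ) ≤ |((k - n : ℤ) : ℝ)| := by
      have : 1 ≤ |k - n| := Int.one_le_abs h0
      exact_mod_cast this
    have h3 : |(q : ℝ) * ((k - n : ℤ) : ℝ)| ≤ |(R + δ) + q * ((k - n : ℤ) : ℝ)| + |(R : ℝ) + δ| := by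
      have := abs_sub (a := (R : ℝ) + δ + q * ((k - n : ℤ) : ℝ)) (b := (R : ℝ) + δ)
      simpa using this
    have h4 : (q : ℝ) ≤ |(q : ℝ) * ((k - n : ℤ) : ℝ)| := by
      rw [abs_mul, abs_of_pos hq0]
      nlinarith
    have h5 := abs_add_le (R : ℝ) δ
    linarith

private lemma geo_le_Fq (Y q : ℕ) (hq : 1 ≤ q) (R k : ℤ) (δ x : ℝ) (hR : 2 * |R| ≤ q)
    (hδ : |δ| ≤ 2) (hx : x = (R + δ) / q + k) : geo Y x ≤ Fq Y q R.natAbs := by
  unfold Fq
  split_ifs with h
  · exact geo_le_trivial Y x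
  · push Not at h
    have h1 := nn_ge q hq R k δ x hR hδ hx
    have h2 := geo_mul_nn_le Y x
    have h3 := geo_nonneg Y x
    have h4 : |(R : ℝ)| = (R.natAbs : ℝ) := by
      rw [Nat.cast_natAbs]
      push_cast
      rfl
    have h5 : (3 : ℝ) ≤ (R.natAbs : ℝ) := by exact_mod_cast h
    rw [h4] at h1
    have hq0 : (0 : ℝ) < q := by exact_mod_cast hq
    rw [le_div_iff₀ (by linarith)]
    calc geo Y x * (2 * ((R.natAbs : ℝ) - 2)) ≤ geo Y x * (2 * (q * nn x)) := by gcongr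
      _ = 2 * q * (geo Y x * nn x) := by ring
      _ ≤ 2 * q * (1 / 2) := by gcongr
      _ = q := by ring

private lemma block_sum (α : ℝ) (q : ℕ) (hq : 1 ≤ q) (a : ℤ) (hc : IsCoprime a (q : ℤ))
    (h : |α - a / q| ≤ 1 / (q : ℝ) ^ 2) (Y : ℕ) (ν₀ : ℤ) :
    ∑ j ∈ Finset.range q, geo Y (α * ((ν₀ + j : ℤ) : ℝ)) ≤
      6 * (2 * Y + 1) + q * (1 + Real.log q) := by
  classical
  have hq0 : (0 : ℝ) < q := by exact_mod_cast hq
  set c₀ : ℤ := ⌊(q : ℝ) * (α * ν₀)⌋ with hc₀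
  set f : ℝ := (q : ℝ) * (α * ν₀) - c₀ with hf
  have hf0 : 0 ≤ f := by
    have := Int.floor_le ((q : ℝ) * (α * ν₀))
    rw [hf]
    linarith
  have hf1 : f < 1 := by
    have := Int.lt_floor_add_one ((q : ℝ) * (α * ν₀))
    rw [hf]
    linarith
  let R : ℕ → ℤ := fun j => Int.bmod (c₀ + a * j) q
  have hR1 : ∀ j, 2 * |R j| ≤ q := by
    intro j
    have h1 := Int.le_bmod (x := c₀ + a * j) (m := q) (by omega)
    have h2 := Int.bmod_lt (x := c₀ + a * j) (m := q) (by omega)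
    have h3 : R j = Int.bmod (c₀ + a * j) q := rfl
    rw [← h3] at h1 h2
    have h4 : |R j| ≤ (q : ℤ) / 2 := by
      rw [abs_le]
      constructor
      · exact h1
      · omega
    omega
  have hR2 : ∀ j, (q : ℤ) ∣ (c₀ + a * j) - R j := by
    intro j
    have h1 : R j % (q : ℤ) = (c₀ + a * j) % (q : ℤ) := Int.bmod_emod
    exact Int.ModEq.dvd h1
  have hle : ∀ j ∈ Finset.range q, geo Y (α * ((ν₀ + j : ℤ) : ℝ)) ≤ Fq Y q (R j).natAbs := by
    intro j hj
    simp only [Finset.mem_range] at hj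
    obtain ⟨k, hk⟩ := hR2 j
    set θ := α - a / q with hθ
    have hk' : ((c₀ : ℝ) + a * j) - (R j : ℝ) = q * k := by exact_mod_cast hk
    refine geo_le_Fq Y q hq (R j) k (f + q * θ * j) _ (hR1 j) ?_ ?_
    · have h1 : |(q : ℝ) * θ * j| ≤ 1 := by
        rw [abs_mul, abs_mul, abs_of_pos hq0, Nat.abs_cast]
        have h2 : (j : ℝ) ≤ q := by exact_mod_cast hj.le
        calc (q : ℝ) * |θ| * j ≤ q * (1 / (q : ℝ) ^ 2) * q := by gcongr
          _ = 1 := by field_simp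
      have h2 := abs_add_le f (q * θ * j)
      have h3 : |f| ≤ 1 := by rw [abs_of_nonneg hf0]; exact hf1.le
      linarith
    · have h1 : α = a / q + θ := by rw [hθ]; ring
      have h2 : (q : ℝ) * (α * ν₀) = c₀ + f := by rw [hf]; ring
      have h3 : (q : ℝ) * (α * ((ν₀ + j : ℤ) : ℝ)) = R j + (f + q * θ * j) + q * k := by
        push_cast
        rw [mul_add, mul_add, h2]
        have h4 : (q : ℝ) * (α * j) = a * j + q * θ * j := by
          rw [h1]
          field_simp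
        rw [h4]
        linarith
      have h5 : α * ((ν₀ + j : ℤ) : ℝ) = (q : ℝ) * (α * ((ν₀ + j : ℤ) : ℝ)) / q := by
        field_simp
      rw [h5, h3]
      field_simp
  have hinj : Set.InjOn R (Finset.range q : Finset ℕ) := by
    intro i hi j hj hij
    simp only [Finset.coe_range, Set.mem_Iio] at hi hj
    have h1 := hR2 i
    have h2 := hR2 j
    rw [hij] at h1
    have h3 : (q : ℤ) ∣ a * ((i : ℤ) - j) := by
      have := dvd_sub h1 h2
      have h4 : c₀ + a * (i : ℤ) - R j - (c₀ + a * (j : ℤ) - R j) = a * ((i : ℤ) - j) := by ring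
      rwa [h4] at this
    have h5 : (q : ℤ) ∣ (i : ℤ) - j := (IsCoprime.symm hc).dvd_of_dvd_mul_left h3
    have h6 : (i : ℤ) - j = 0 := by
      apply Int.eq_zero_of_abs_lt_dvd h5
      rw [abs_lt]
      constructor <;> omega
    omega
  calc ∑ j ∈ Finset.range q, geo Y (α * ((ν₀ + j : ℤ) : ℝ))
      ≤ ∑ j ∈ Finset.range q, Fq Y q (R j).natAbs := Finset.sum_le_sum hle
    _ = ∑ r ∈ (Finset.range q).image R, Fq Y q r.natAbs :=
        (Finset.sum_image (f := fun r : ℤ => Fq Y q r.natAbs) hinj).symm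
    _ ≤ ∑ r ∈ Finset.Icc (-(q : ℤ)) q, Fq Y q r.natAbs := by
        apply Finset.sum_le_sum_of_subset_of_nonneg
        · intro r hr
          simp only [Finset.mem_image] at hr
          obtain ⟨j, -, rfl⟩ := hr
          have h1 := hR1 j
          simp only [Finset.mem_Icc]
          have h2 := abs_le.1 (show |R j| ≤ q by have := abs_nonneg (R j); omega)
          exact h2
        · intro r _ _
          exact Fq_nonneg Y q _
    _ ≤ 2 * ∑ r ∈ Finset.range (q + 1), Fq Y q r := sum_natAbs_le q _ (Fq_nonneg Y q)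
    _ ≤ 2 * (3 * (2 * Y + 1) + q / 2 * (1 + Real.log q)) := by
        have := sum_Fq_le Y q
        gcongr
    _ = _ := by ring

/-- Vinogradov's lemma. -/
theorem geo_sum (α : ℝ) (q : ℕ) (hq : 1 ≤ q) (a : ℤ) (hc : IsCoprime a (q : ℤ))
    (h : |α - a / q| ≤ 1 / (q : ℝ) ^ 2) (X Y : ℕ) :
    ∑ ν ∈ Finset.Icc (-(X : ℤ)) X, geo Y (α * ν)
      ≤ 100 * ((X : ℝ) / q + 1) * ((Y : ℝ) + 1 + q * (1 + Real.log q)) := by
  have hq0 : (0 : ℝ) < q := by exact_mod_cast hq
  have hlog : 0 ≤ Real.log q := Real.log_nonneg (by exact_mod_cast hq)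
  set B : ℝ := 6 * (2 * Y + 1) + q * (1 + Real.log q) with hB
  have hB0 : 0 ≤ B := by positivity
  set N := (2 * X + 1) / q + 1 with hN
  have hcover : 2 * X + 1 ≤ N * q := by
    have h1 := Nat.div_add_mod (2 * X + 1) q
    have h2 := Nat.mod_lt (2 * X + 1) (show 0 < q by omega)
    rw [hN, add_mul, one_mul, mul_comm ((2 * X + 1) / q) q]
    omega
  have hblocks : ∀ M : ℕ, ∑ i ∈ Finset.range (M * q), geo Y (α * ((-(X : ℤ) + i : ℤ) : ℝ)) ≤
      M * B := by
    intro M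
    induction M with
    | zero => simp
    | succ M ih =>
      rw [add_mul, one_mul, Finset.sum_range_add]
      have h1 := block_sum α q hq a hc h Y (-(X : ℤ) + (M * q : ℕ))
      have h2 : ∑ x ∈ Finset.range q, geo Y (α * ((-(X : ℤ) + ((M * q + x : ℕ) : ℤ) : ℤ) : ℝ)) =
          ∑ j ∈ Finset.range q, geo Y (α * ((-(X : ℤ) + (M * q : ℕ) + j : ℤ) : ℝ)) := by
        refine Finset.sum_congr rfl fun j _ => ?_
        push_cast
        congr 2
        ring
      rw [h2]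
      push_cast at h1 ih ⊢
      linarith
  have hN2 : (N : ℝ) ≤ 2 * ((X : ℝ) / q + 1) := by
    have h1 : (((2 * X + 1) / q : ℕ) : ℝ) ≤ ((2 * X + 1 : ℕ) : ℝ) / q := Nat.cast_div_le
    rw [hN]
    push_cast at h1 ⊢
    have h2 : (2 * (X : ℝ) + 1) / q ≤ 2 * (X / q) + 1 := by
      rw [add_div, mul_div_assoc]
      have : 1 / (q : ℝ) ≤ 1 := by
        rw [div_le_one hq0]
        exact_mod_cast hq
      linarith
    linarith
  calc ∑ ν ∈ Finset.Icc (-(X : ℤ)) X, geo Y (α * ν)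
      = ∑ i ∈ Finset.range (2 * X + 1), geo Y (α * ((-(X : ℤ) + i : ℤ) : ℝ)) :=
        sum_Icc_symm X (fun ν => geo Y (α * (ν : ℝ)))
    _ ≤ ∑ i ∈ Finset.range (N * q), geo Y (α * ((-(X : ℤ) + i : ℤ) : ℝ)) := by
        apply Finset.sum_le_sum_of_subset_of_nonneg
        · intro i hi
          simp only [Finset.mem_range] at hi ⊢
          omega
        · intro i _ _
          exact geo_nonneg _ _
    _ ≤ N * B := hblocks N
    _ ≤ 2 * ((X : ℝ) / q + 1) * B := by gcongr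
    _ ≤ 2 * ((X : ℝ) / q + 1) * (50 * ((Y : ℝ) + 1 + q * (1 + Real.log q))) := by
        have h1 : B ≤ 50 * ((Y : ℝ) + 1 + q * (1 + Real.log q)) := by
          rw [hB]
          have : 0 ≤ (q : ℝ) * (1 + Real.log q) := by positivity
          have hY : (0 : ℝ) ≤ Y := by positivity
          linarith
        gcongr
    _ = _ := by ring

end Pool.Agent.Lib.MP_c0a553_nt
end

section

/-! # Geometric sums off the major arcs (job HP-4) -/

namespace Pool.Agent.Lib.MP_c0a553_nt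

open Finset

/-- A rational approximation with a small denominator puts `α` on the major arcs. -/
private theorem geoMinor_major (m : ℕ) (c Δ : ℤ) (hc : c ≠ 0) (hΔ : Δ ≠ 0) (P : ℕ) (hP : 1 ≤ P)
    (hPc : |(c : ℝ)| ≤ (P : ℝ) ^ (1 / 20 : ℝ)) (hPΔ : |(Δ : ℝ)| ≤ (P : ℝ) ^ (1 / 20 : ℝ))
    (α : ℝ) (q : ℕ) (hq : 1 ≤ q) (hqP : (q : ℝ) ≤ (P : ℝ) ^ (1 / 20 : ℝ)) (a : ℤ)
    (ha : |(q : ℝ) * (α * c / Δ) - a| * (P : ℝ) ^ ((2 * m : ℝ) - 1 / 20) ≤ 1) :
    Major (2 * m) P α := by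
  have hP0 : (0 : ℝ) < P := by exact_mod_cast hP
  have hsq : (P : ℝ) ^ (1 / 20 : ℝ) * (P : ℝ) ^ (1 / 20 : ℝ) = (P : ℝ) ^ (1 / 10 : ℝ) := by
    rw [← Real.rpow_add hP0]; norm_num
  have hpos : 0 < (P : ℝ) ^ (1 / 20 : ℝ) := Real.rpow_pos_of_pos hP0 _
  refine ⟨q * c.natAbs, ?_, ?_, c.sign * (a * Δ), ?_⟩
  · exact Nat.mul_pos hq (Int.natAbs_pos.2 hc)
  · push_cast
    rw [Nat.cast_natAbs, Int.cast_abs, ← hsq]
    exact mul_le_mul hqP hPc (abs_nonneg _) hpos.le
  · have hsign : ((c.natAbs : ℕ) : ℝ) = ((c.sign : ℤ) : ℝ) * (c : ℝ) := by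
      have := Int.sign_mul_self_eq_natAbs c
      have h2 : ((c.sign * c : ℤ) : ℝ) = ((c.natAbs : ℤ) : ℝ) := by rw [this]
      push_cast at h2
      rw [h2]
      simp
    have hs1 : |((c.sign : ℤ) : ℝ)| = 1 := by
      rcases lt_or_gt_of_ne hc with h | h
      · rw [Int.sign_eq_neg_one_of_neg h]; simp
      · rw [Int.sign_eq_one_of_pos h]; simp
    have hΔ' : (Δ : ℝ) ≠ 0 := by exact_mod_cast hΔ
    have e1 : ((q * c.natAbs : ℕ) : ℝ) * α - ((c.sign * (a * Δ) : ℤ) : ℝ) =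
        ((c.sign : ℤ) : ℝ) * (Δ * ((q : ℝ) * (α * c / Δ) - a)) := by
      push_cast
      have hsign' : |(c : ℝ)| = ((c.sign : ℤ) : ℝ) * (c : ℝ) := by
        rw [← hsign, Nat.cast_natAbs, Int.cast_abs]
      rw [Nat.cast_natAbs, Int.cast_abs, hsign']
      field_simp
    rw [e1, abs_mul, hs1, one_mul, abs_mul]
    have e2 : (P : ℝ) ^ (2 * m) = (P : ℝ) ^ ((2 * m : ℝ) - 1 / 20) * (P : ℝ) ^ (1 / 20 : ℝ) := by
      rw [← Real.rpow_add hP0, sub_add_cancel, ← Real.rpow_natCast]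
      push_cast
      rfl
    rw [e2]
    calc |(Δ : ℝ)| * |(q : ℝ) * (α * c / Δ) - a| *
          ((P : ℝ) ^ ((2 * m : ℝ) - 1 / 20) * (P : ℝ) ^ (1 / 20 : ℝ))
        = |(Δ : ℝ)| * (P : ℝ) ^ (1 / 20 : ℝ) *
          (|(q : ℝ) * (α * c / Δ) - a| * (P : ℝ) ^ ((2 * m : ℝ) - 1 / 20)) := by ring
      _ ≤ |(Δ : ℝ)| * (P : ℝ) ^ (1 / 20 : ℝ) * 1 :=
          mul_le_mul_of_nonneg_left ha (by positivity)
      _ ≤ (P : ℝ) ^ (1 / 20 : ℝ) * (P : ℝ) ^ (1 / 20 : ℝ) * 1 := by gcongr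
      _ = (P : ℝ) ^ (1 / 10 : ℝ) := by rw [mul_one, hsq]

private theorem geoMinor_le (t b : ℕ) (P : ℕ) (h : b ^ 20 ≤ P) (ht : t ≤ b) :
    (t : ℝ) ≤ (P : ℝ) ^ (1 / 20 : ℝ) := by
  have h1 : ((b : ℝ) ^ 20) ≤ P := by exact_mod_cast h
  have h2 : ((b : ℝ) ^ 20) ^ (1 / 20 : ℝ) ≤ (P : ℝ) ^ (1 / 20 : ℝ) :=
    Real.rpow_le_rpow (by positivity) h1 (by norm_num)
  have h3 : ((b : ℝ) ^ 20) ^ (1 / 20 : ℝ) = b := by
    rw [← Real.rpow_natCast, ← Real.rpow_mul (by positivity)]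
    norm_num
  rw [h3] at h2
  have h4 : (t : ℝ) ≤ b := by exact_mod_cast ht
  linarith

/-- Off the major arcs of degree `2 m` the average over `|ν| ≤ A P^m` of the geometric sum of
length `A P^m` with coefficient `α c / Δ` saves `P^(1/25)`. -/
theorem geo_minor (A m : ℕ) (hA : 1 ≤ A) (hm : 1 ≤ m) (c Δ : ℤ) (hc : c ≠ 0) (hΔ : Δ ≠ 0) :
    ∃ C : ℝ, 0 < C ∧ ∃ P₀ : ℕ, ∀ P : ℕ, P₀ ≤ P → ∀ α : ℝ, ¬ Major (2 * m) P α →
      ∀ X Y : ℕ, X ≤ A * P ^ m → Y ≤ A * P ^ m →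
        ∑ ν ∈ Finset.Icc (-(X : ℤ)) X, geo Y (α * c / Δ * ν)
          ≤ C * (P : ℝ) ^ ((2 * m : ℝ) - 1 / 25) := by
  refine ⟨100 * ((2 * (A : ℝ) ^ 2 + 3 * A + 1) * (1 + 200 * m)), by positivity,
    (c.natAbs + Δ.natAbs) ^ 20, ?_⟩
  intro P hP α hα X Y hX hY
  have hP1 : 1 ≤ P := by
    refine le_trans (Nat.one_le_iff_ne_zero.2 ?_) hP
    have : 0 < c.natAbs := Int.natAbs_pos.2 hc
    positivity
  have hP1' : (1 : ℝ) ≤ P := by exact_mod_cast hP1
  have hP0 : (0 : ℝ) < P := by linarith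
  have hm' : (1 : ℝ) ≤ m := by exact_mod_cast hm
  have hA' : (1 : ℝ) ≤ A := by exact_mod_cast hA
  have hPc : |(c : ℝ)| ≤ (P : ℝ) ^ (1 / 20 : ℝ) := by
    have := geoMinor_le c.natAbs _ P hP (Nat.le_add_right _ _)
    rwa [Nat.cast_natAbs, Int.cast_abs] at this
  have hPΔ : |(Δ : ℝ)| ≤ (P : ℝ) ^ (1 / 20 : ℝ) := by
    have := geoMinor_le Δ.natAbs _ P hP (Nat.le_add_left _ _)
    rwa [Nat.cast_natAbs, Int.cast_abs] at this
  -- Dirichlet
  set T : ℝ := (P : ℝ) ^ ((2 * m : ℝ) - 1 / 20) with hT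
  have hT1 : 1 ≤ T := Real.one_le_rpow hP1' (by linarith)
  have hn : 0 < ⌊T⌋₊ := Nat.floor_pos.2 hT1
  obtain ⟨r, hr1, hr2⟩ := Real.exists_rat_abs_sub_le_and_den_le (α * c / Δ) hn
  have hden : 1 ≤ r.den := r.den_pos
  have hden0 : (0 : ℝ) < r.den := by exact_mod_cast r.den_pos
  have hden1 : (1 : ℝ) ≤ r.den := by exact_mod_cast hden
  have hrcast : (r : ℝ) = (r.num : ℝ) / (r.den : ℝ) := by
    conv_lhs => rw [← Rat.num_div_den r]
    push_cast
    rfl
  rw [hrcast] at hr1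
  have hTn : T < (⌊T⌋₊ : ℝ) + 1 := Nat.lt_floor_add_one T
  have hnT : (⌊T⌋₊ : ℝ) ≤ T := Nat.floor_le (by linarith)
  have hqn : (r.den : ℝ) ≤ (⌊T⌋₊ : ℝ) := by exact_mod_cast hr2
  have hqT : (r.den : ℝ) ≤ T := hqn.trans hnT
  have hcop : IsCoprime r.num (r.den : ℤ) := by
    rw [Int.isCoprime_iff_gcd_eq_one, Int.gcd_eq_natAbs, Int.natAbs_natCast]
    exact r.reduced
  have happ : |α * c / Δ - (r.num : ℝ) / (r.den : ℝ)| ≤ 1 / (r.den : ℝ) ^ 2 := by
    refine hr1.trans ?_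
    apply one_div_le_one_div_of_le (by positivity)
    nlinarith
  -- the denominator is large
  have hbig : (P : ℝ) ^ (1 / 20 : ℝ) < r.den := by
    by_contra hle
    push Not at hle
    refine hα (geoMinor_major m c Δ hc hΔ P hP1 hPc hPΔ α r.den hden hle r.num ?_)
    rw [← hT]
    have e1 : |(r.den : ℝ) * (α * c / Δ) - r.num| =
        (r.den : ℝ) * |α * c / Δ - (r.num : ℝ) / (r.den : ℝ)| := by
      rw [← abs_of_pos hden0, ← abs_mul, abs_of_pos hden0]
      congr 1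
      field_simp
    rw [e1]
    calc (r.den : ℝ) * |α * c / Δ - (r.num : ℝ) / (r.den : ℝ)| * T
        ≤ (r.den : ℝ) * (1 / (((⌊T⌋₊ : ℝ) + 1) * r.den)) * T := by gcongr
      _ = T / ((⌊T⌋₊ : ℝ) + 1) := by field_simp
      _ ≤ 1 := by
        rw [div_le_one (by linarith)]
        exact hTn.le
  refine (geo_sum (α * c / Δ) r.den hden r.num hcop happ X Y).trans ?_
  -- final estimate
  have hX' : (X : ℝ) ≤ A * (P : ℝ) ^ m := by exact_mod_cast hX
  have hY' : (Y : ℝ) ≤ A * (P : ℝ) ^ m := by exact_mod_cast hY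
  have hPm1 : 1 ≤ (P : ℝ) ^ m := one_le_pow₀ hP1'
  have hPmT : (P : ℝ) ^ m ≤ T := by
    rw [hT, ← Real.rpow_natCast]
    exact Real.rpow_le_rpow_of_exponent_le hP1' (by linarith)
  have hPmm : (P : ℝ) ^ m * (P : ℝ) ^ m = T * (P : ℝ) ^ (1 / 20 : ℝ) := by
    rw [hT, ← Real.rpow_add hP0, sub_add_cancel, ← pow_add, ← two_mul, ← Real.rpow_natCast]
    push_cast
    rfl
  have hlogq : Real.log r.den ≤ 2 * m * Real.log P := by
    have h1 : Real.log r.den ≤ Real.log T := Real.log_le_log hden0 hqT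
    rw [hT, Real.log_rpow hP0] at h1
    have h2 : 0 ≤ Real.log P := Real.log_nonneg hP1'
    nlinarith
  have hlogP : Real.log P ≤ 100 * (P : ℝ) ^ (1 / 100 : ℝ) := by
    have := Real.log_le_rpow_div hP0.le (show (0 : ℝ) < 1 / 100 by norm_num)
    rw [div_eq_mul_inv] at this
    norm_num at this
    norm_num
    linarith
  set R : ℝ := (P : ℝ) ^ (1 / 100 : ℝ) with hR
  have hR1 : 1 ≤ R := Real.one_le_rpow hP1' (by norm_num)
  set L : ℝ := 1 + Real.log r.den with hL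
  have hL1 : 1 ≤ L := by
    have : 0 ≤ Real.log r.den := Real.log_nonneg hden1
    linarith
  have hLR : L ≤ (1 + 200 * m) * R := by
    have h1 : 2 * (m : ℝ) * Real.log P ≤ 2 * m * (100 * R) :=
      mul_le_mul_of_nonneg_left hlogP (by positivity)
    nlinarith
  have hTR : T * R = (P : ℝ) ^ ((2 * m : ℝ) - 1 / 25) := by
    rw [hT, hR, ← Real.rpow_add hP0]
    congr 1
    ring
  have hY1 : (Y : ℝ) + 1 ≤ 2 * A * (P : ℝ) ^ m := by nlinarith
  have t1 : (X : ℝ) / r.den * (Y + 1) ≤ 2 * (A : ℝ) ^ 2 * T := by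
    rw [div_mul_eq_mul_div, div_le_iff₀ hden0]
    calc (X : ℝ) * (Y + 1) ≤ (A * (P : ℝ) ^ m) * (2 * A * (P : ℝ) ^ m) := by gcongr
      _ = 2 * (A : ℝ) ^ 2 * ((P : ℝ) ^ m * (P : ℝ) ^ m) := by ring
      _ = 2 * (A : ℝ) ^ 2 * (T * (P : ℝ) ^ (1 / 20 : ℝ)) := by rw [hPmm]
      _ ≤ 2 * (A : ℝ) ^ 2 * (T * r.den) := by gcongr
      _ = 2 * (A : ℝ) ^ 2 * T * r.den := by ring
  have t2 : (X : ℝ) * L ≤ A * (T * L) := by
    calc (X : ℝ) * L ≤ (A * (P : ℝ) ^ m) * L := by gcongr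
      _ ≤ (A * T) * L := by gcongr
      _ = A * (T * L) := by ring
  have t3 : (Y : ℝ) + 1 ≤ 2 * A * T := hY1.trans (by gcongr)
  have t4 : (r.den : ℝ) * L ≤ T * L := by gcongr
  have hexp : ((X : ℝ) / r.den + 1) * ((Y : ℝ) + 1 + r.den * L) =
      (X : ℝ) / r.den * (Y + 1) + X * L + (Y + 1) + r.den * L := by
    field_simp
    ring
  have hTL : T ≤ T * L := by nlinarith
  have htot : ((X : ℝ) / r.den + 1) * ((Y : ℝ) + 1 + r.den * L) ≤
      (2 * (A : ℝ) ^ 2 + 3 * A + 1) * (T * L) := by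
    rw [hexp]
    have u1 : 2 * (A : ℝ) ^ 2 * T ≤ 2 * (A : ℝ) ^ 2 * (T * L) := by gcongr
    have u3 : 2 * (A : ℝ) * T ≤ 2 * A * (T * L) := by gcongr
    linarith
  have hTL2 : T * L ≤ (1 + 200 * m) * (T * R) := by
    have : T * L ≤ T * ((1 + 200 * m) * R) := by gcongr
    linarith
  rw [← hTR]
  calc 100 * ((X : ℝ) / r.den + 1) * ((Y : ℝ) + 1 + r.den * L)
      = 100 * (((X : ℝ) / r.den + 1) * ((Y : ℝ) + 1 + r.den * L)) := by ring
    _ ≤ 100 * ((2 * (A : ℝ) ^ 2 + 3 * A + 1) * (T * L)) := by gcongr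
    _ ≤ 100 * ((2 * (A : ℝ) ^ 2 + 3 * A + 1) * ((1 + 200 * m) * (T * R))) := by gcongr
    _ = 100 * ((2 * (A : ℝ) ^ 2 + 3 * A + 1) * (1 + 200 * m)) * (T * R) := by ring

end Pool.Agent.Lib.MP_c0a553_nt
end

section

/-! # The double Hölder inequality (job HP-2) -/

namespace Pool.Agent.Lib.MP_c0a553_nt

open Finset

/-- difference of the sums of a pair of tuples -/
private def hdel {U ι : Type} (f : U → ι → ℤ) {t : ℕ} (p : (Fin t → U) × (Fin t → U)) : ι → ℤ :=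
  fun i => ∑ j, f (p.1 j) i - ∑ j, f (p.2 j) i

/-- representation numbers: the zero fibre is the largest -/
private lemma hd_fibre {A G : Type} [Fintype A] [DecidableEq A] [AddCommGroup G] [DecidableEq G]
    (s : A → G) (μ : G) :
    (univ.filter fun p : A × A => s p.1 - s p.2 = μ).card ≤
      (univ.filter fun p : A × A => s p.1 - s p.2 = 0).card := by
  classical
  set r : G → ℕ := fun h => (univ.filter fun a : A => s a = h).card with hr
  set H : Finset G := univ.image s with hH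
  have key : ∀ ν : G, (univ.filter fun p : A × A => s p.1 - s p.2 = ν).card =
      ∑ h ∈ H, r h * r (h - ν) := by
    intro ν
    rw [Finset.card_eq_sum_card_fiberwise (f := fun p : A × A => s p.1) (t := H)
      (fun p _ => by simp [hH])]
    refine Finset.sum_congr rfl fun h _ => ?_
    rw [hr]
    simp only
    rw [← Finset.card_product]
    congr 1
    ext p
    simp only [mem_filter, mem_univ, true_and, mem_product]
    constructor
    · rintro ⟨h1, h2⟩
      refine ⟨h2, ?_⟩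
      rw [← h1, ← h2]
      abel
    · rintro ⟨h1, h2⟩
      refine ⟨?_, h1⟩
      rw [h1, h2]
      abel
  rw [key μ, key 0]
  have h1 : ∑ h ∈ H, r (h - μ) ^ 2 ≤ ∑ h ∈ H, r h ^ 2 := by
    have e1 : ∑ h ∈ H, r (h - μ) ^ 2 = ∑ h ∈ H.image (fun h => h - μ), r h ^ 2 := by
      refine (Finset.sum_image (f := fun h => r h ^ 2) (g := fun h => h - μ) ?_).symm
      intro a _ b _ hab
      simpa using hab
    rw [e1]
    have e2 : ∀ h ∈ H.image (fun h => h - μ), h ∉ H → r h ^ 2 = 0 := by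
      intro h _ hh
      have : r h = 0 := by
        rw [hr]
        simp only [card_eq_zero]
        rw [Finset.filter_eq_empty_iff]
        intro a _ ha
        exact hh (by rw [hH, ← ha]; exact mem_image_of_mem _ (mem_univ _))
      simp [this]
    calc ∑ h ∈ H.image (fun h => h - μ), r h ^ 2
        = ∑ h ∈ (H.image (fun h => h - μ)).filter (· ∈ H), r h ^ 2 := by
          rw [Finset.sum_filter]
          refine Finset.sum_congr rfl fun h hh => ?_
          split_ifs with h3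
          · rfl
          · exact e2 h hh h3
      _ ≤ ∑ h ∈ H, r h ^ 2 := by
          apply Finset.sum_le_sum_of_subset
          intro h hh
          exact (mem_filter.1 hh).2
  have h2 : 2 * ∑ h ∈ H, r h * r (h - μ) ≤ 2 * ∑ h ∈ H, r h * r (h - 0) := by
    calc 2 * ∑ h ∈ H, r h * r (h - μ) = ∑ h ∈ H, 2 * (r h * r (h - μ)) := by rw [mul_sum]
      _ ≤ ∑ h ∈ H, (r h ^ 2 + r (h - μ) ^ 2) := by
          refine sum_le_sum fun h _ => ?_
          have := two_mul_le_add_sq (r h) (r (h - μ))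
          linarith
      _ = ∑ h ∈ H, r h ^ 2 + ∑ h ∈ H, r (h - μ) ^ 2 := sum_add_distrib
      _ ≤ ∑ h ∈ H, r h ^ 2 + ∑ h ∈ H, r h ^ 2 := by gcongr
      _ = 2 * ∑ h ∈ H, r h * r (h - 0) := by
          rw [two_mul]
          simp only [sub_zero, sq]
  linarith

/-- number of pairs with given difference -/
private lemma hd_JJ {U ι : Type} [Fintype U] [Fintype ι] [DecidableEq ι] (f : U → ι → ℤ) (t : ℕ)
    (μ : ι → ℤ) :
    (univ.filter fun p : (Fin t → U) × (Fin t → U) => hdel f p = μ).card ≤ JJ f t := by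
  classical
  have h1 := hd_fibre (A := Fin t → U) (G := ι → ℤ) (fun w i => ∑ j, f (w j) i) μ
  have h2 : JJ f t = (univ.filter fun p : (Fin t → U) × (Fin t → U) =>
      (fun i => ∑ j, f (p.1 j) i) - (fun i => ∑ j, f (p.2 j) i) = (0 : ι → ℤ)).card := by
    unfold JJ
    rw [Nat.card_eq_fintype_card, Fintype.card_subtype]
    congr 1
    ext p
    simp only [mem_filter, mem_univ, true_and, sub_eq_zero, funext_iff]
  rw [h2]
  exact h1

/-- grouping -/
private lemma hd_group {U ι : Type} [Fintype U] [Fintype ι] [DecidableEq ι] (f : U → ι → ℤ) (t : ℕ)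
    (X : ι → ℕ) (hX : ∀ u i, |f u i| ≤ X i) (F : (ι → ℤ) → ℝ) (hF : ∀ μ, 0 ≤ F μ) :
    ∑ p : (Fin t → U) × (Fin t → U), F (hdel f p) ≤
      (JJ f t : ℝ) * ∑ μ ∈ Fintype.piFinset fun i =>
        Finset.Icc (-((2 * t * X i : ℕ) : ℤ)) ((2 * t * X i : ℕ) : ℤ), F μ := by
  classical
  have hsum : ∀ (w : Fin t → U) (i : ι), |∑ j, f (w j) i| ≤ t * X i := by
    intro w i
    calc |∑ j, f (w j) i| ≤ ∑ j, |f (w j) i| := abs_sum_le_sum_abs _ _
      _ ≤ ∑ _j : Fin t, (X i : ℤ) := sum_le_sum fun j _ => hX _ _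
      _ = t * X i := by simp
  have hmem : ∀ p ∈ (univ : Finset ((Fin t → U) × (Fin t → U))), hdel f p ∈
      Fintype.piFinset fun i =>
        Finset.Icc (-((2 * t * X i : ℕ) : ℤ)) ((2 * t * X i : ℕ) : ℤ) := by
    intro p _
    rw [Fintype.mem_piFinset]
    intro i
    have h1 := abs_le.1 (hsum p.1 i)
    have h2 := abs_le.1 (hsum p.2 i)
    rw [mem_Icc]
    unfold hdel
    push_cast
    constructor <;> linarith [h1.1, h1.2, h2.1, h2.2]
  rw [← Finset.sum_fiberwise_of_maps_to hmem, mul_sum]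
  refine sum_le_sum fun μ _ => ?_
  have : ∑ p ∈ univ.filter (fun p : (Fin t → U) × (Fin t → U) => hdel f p = μ), F (hdel f p) =
      ((univ.filter fun p : (Fin t → U) × (Fin t → U) => hdel f p = μ).card : ℝ) * F μ := by
    rw [Finset.sum_congr rfl (g := fun _ => F μ), sum_const, nsmul_eq_mul]
    intro p hp
    rw [(mem_filter.1 hp).2]
  rw [this]
  have h3 := hd_JJ f t μ
  have h4 : ((univ.filter fun p : (Fin t → U) × (Fin t → U) => hdel f p = μ).card : ℝ) ≤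
      JJ f t := by exact_mod_cast h3
  exact mul_le_mul_of_nonneg_right h4 (hF μ)

/-- expansion of the `2t`-th power of an exponential sum -/
private lemma hd_expand {U ι : Type} [Fintype U] [Fintype ι] (f : U → ι → ℤ) (φ : U → ℂ)
    (θ : ι → ℝ) (c : ι → ℝ) (t : ℕ) :
    (((‖∑ u, φ u * e (∑ i, θ i * f u i * c i)‖ ^ (2 * t) : ℝ)) : ℂ) =
      ∑ p : (Fin t → U) × (Fin t → U), ((∏ j, φ (p.1 j)) * ∏ j, (starRingEnd ℂ) (φ (p.2 j))) *
        e (∑ i, θ i * (hdel f p i : ℝ) * c i) := by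
  classical
  have h1 : (((‖∑ u, φ u * e (∑ i, θ i * f u i * c i)‖ ^ (2 * t) : ℝ)) : ℂ) =
      (∑ u, φ u * e (∑ i, θ i * f u i * c i)) ^ t *
        ((starRingEnd ℂ) (∑ u, φ u * e (∑ i, θ i * f u i * c i))) ^ t := by
    rw [← mul_pow, Complex.mul_conj, Complex.normSq_eq_norm_sq, pow_mul]
    push_cast
    rfl
  rw [h1, map_sum, Fintype.sum_pow, Fintype.sum_pow, sum_mul_sum, ← Finset.sum_product']
  rw [Finset.univ_product_univ]
  refine sum_congr rfl fun p _ => ?_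
  have h2 : ∀ (w : Fin t → U), ∏ j, φ (w j) * e (∑ i, θ i * f (w j) i * c i) =
      (∏ j, φ (w j)) * e (∑ i, θ i * ((∑ j, f (w j) i : ℤ) : ℝ) * c i) := by
    intro w
    rw [prod_mul_distrib, ← e_sum]
    congr 2
    rw [sum_comm]
    refine sum_congr rfl fun i _ => ?_
    push_cast
    rw [mul_sum, sum_mul]
  have h3 : ∏ j, (starRingEnd ℂ) (φ (p.2 j) * e (∑ i, θ i * f (p.2 j) i * c i)) =
      (∏ j, (starRingEnd ℂ) (φ (p.2 j))) *
        e (-∑ i, θ i * ((∑ j, f (p.2 j) i : ℤ) : ℝ) * c i) := by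
    rw [← map_prod, h2, map_mul, map_prod, e_neg]
  rw [h2, h3]
  have h4 : e (∑ i, θ i * (hdel f p i : ℝ) * c i) =
      e (∑ i, θ i * ((∑ j, f (p.1 j) i : ℤ) : ℝ) * c i) *
        e (-∑ i, θ i * ((∑ j, f (p.2 j) i : ℤ) : ℝ) * c i) := by
    rw [← e_add, ← sum_neg_distrib, ← sum_add_distrib]
    congr 1
    refine sum_congr rfl fun i _ => ?_
    unfold hdel
    push_cast
    ring
  rw [h4]
  ring

private lemma hd_coef {U : Type} (φ : U → ℂ) (hφ : ∀ u, ‖φ u‖ ≤ 1) {t : ℕ}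
    (p : (Fin t → U) × (Fin t → U)) :
    ‖(∏ j, φ (p.1 j)) * ∏ j, (starRingEnd ℂ) (φ (p.2 j))‖ ≤ 1 := by
  rw [norm_mul, norm_prod, norm_prod]
  have h1 : ∏ j, ‖φ (p.1 j)‖ ≤ 1 := Finset.prod_le_one (fun _ _ => norm_nonneg _) fun _ _ => hφ _
  have h2 : ∏ j, ‖(starRingEnd ℂ) (φ (p.2 j))‖ ≤ 1 :=
    Finset.prod_le_one (fun _ _ => norm_nonneg _) fun _ _ => by rw [RCLike.norm_conj]; exact hφ _
  exact mul_le_one₀ h1 (Finset.prod_nonneg fun _ _ => norm_nonneg _) h2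

private lemma hd_pow {α : Type} (s : Finset α) (a : α → ℝ) (ha : ∀ x, 0 ≤ a x) {m : ℕ}
    (hm : 1 ≤ m) : (∑ x ∈ s, a x) ^ m ≤ (s.card : ℝ) ^ (m - 1) * ∑ x ∈ s, a x ^ m := by
  obtain ⟨k, rfl⟩ : ∃ k, m = k + 1 := ⟨m - 1, by omega⟩
  simpa using pow_sum_le_card_mul_sum_pow (s := s) (f := a) (fun i _ => ha i) k

/-- Double Hölder bound for a bilinear exponential sum. -/
theorem double_holder {U W ι : Type} [Fintype U] [Fintype W] [Fintype ι] [DecidableEq ι]
    (f : U → ι → ℤ) (g : W → ι → ℤ) (θ : ι → ℝ) (φ : U → ℂ) (ψ : W → ℂ)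
    (hφ : ∀ u, ‖φ u‖ ≤ 1) (hψ : ∀ w, ‖ψ w‖ ≤ 1) (t : ℕ) (ht : 1 ≤ t)
    (X Y : ι → ℕ) (hX : ∀ u i, |f u i| ≤ X i) (hY : ∀ w i, |g w i| ≤ Y i) :
    ‖∑ u, ∑ w, φ u * ψ w * e (∑ i, θ i * f u i * g w i)‖ ^ (4 * t ^ 2)
      ≤ ((Fintype.card U : ℝ) * Fintype.card W) ^ (2 * t * (2 * t - 1))
        * (JJ f t : ℝ) * (JJ g t : ℝ)
        * ∏ i, ∑ ν ∈ Finset.Icc (-((2 * t * X i : ℕ) : ℤ)) ((2 * t * X i : ℕ) : ℤ),
            geo (2 * t * Y i) (θ i * ν) := by
  classical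
  have h2t : 1 ≤ 2 * t := by omega
  -- the inner sums
  set A : U → ℂ := fun u => ∑ w, ψ w * e (∑ i, θ i * g w i * f u i) with hA
  set B : (ι → ℤ) → ℂ := fun μ => ∑ u, (1 : ℂ) * e (∑ i, θ i * f u i * (μ i : ℝ)) with hB
  set T : ℂ := ∑ u, ∑ w, φ u * ψ w * e (∑ i, θ i * f u i * g w i) with hT
  have hTA : T = ∑ u, φ u * A u := by
    rw [hT, hA]
    refine sum_congr rfl fun u _ => ?_
    rw [mul_sum]
    refine sum_congr rfl fun w _ => ?_
    rw [mul_assoc]
    congr 3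
    refine sum_congr rfl fun i _ => ?_
    ring
  have s1 : ‖T‖ ≤ ∑ u, ‖A u‖ := by
    rw [hTA]
    refine (norm_sum_le _ _).trans (sum_le_sum fun u _ => ?_)
    rw [norm_mul]
    exact mul_le_of_le_one_left (norm_nonneg _) (hφ u)
  have s2 : ‖T‖ ^ (2 * t) ≤ (Fintype.card U : ℝ) ^ (2 * t - 1) * ∑ u, ‖A u‖ ^ (2 * t) := by
    refine (pow_le_pow_left₀ (norm_nonneg _) s1 _).trans ?_
    exact hd_pow univ _ (fun _ => norm_nonneg _) h2t
  have s3 : ∑ u, ‖A u‖ ^ (2 * t) ≤ ∑ p : (Fin t → W) × (Fin t → W), ‖B (hdel g p)‖ := by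
    have e1 : ((∑ u, ‖A u‖ ^ (2 * t) : ℝ) : ℂ) = ∑ p : (Fin t → W) × (Fin t → W),
        ((∏ j, ψ (p.1 j)) * ∏ j, (starRingEnd ℂ) (ψ (p.2 j))) * B (hdel g p) := by
      rw [Complex.ofReal_sum]
      have e2 : ∀ u, (((‖A u‖ ^ (2 * t) : ℝ)) : ℂ) = ∑ p : (Fin t → W) × (Fin t → W),
          ((∏ j, ψ (p.1 j)) * ∏ j, (starRingEnd ℂ) (ψ (p.2 j))) *
            e (∑ i, θ i * (hdel g p i : ℝ) * (f u i : ℝ)) := by
        intro u
        exact hd_expand g ψ θ (fun i => (f u i : ℝ)) t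
      rw [sum_congr rfl fun u _ => e2 u, sum_comm]
      refine sum_congr rfl fun p _ => ?_
      rw [← mul_sum]
      congr 1
      rw [hB]
      refine sum_congr rfl fun u _ => ?_
      rw [one_mul]
      congr 1
      refine sum_congr rfl fun i _ => ?_
      ring
    have e3 : (∑ u, ‖A u‖ ^ (2 * t) : ℝ) = ‖((∑ u, ‖A u‖ ^ (2 * t) : ℝ) : ℂ)‖ := by
      rw [Complex.norm_real, Real.norm_of_nonneg]
      positivity
    rw [e3, e1]
    refine (norm_sum_le _ _).trans (sum_le_sum fun p _ => ?_)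
    rw [norm_mul]
    exact mul_le_of_le_one_left (norm_nonneg _) (hd_coef ψ hψ p)
  have s4 : (∑ p : (Fin t → W) × (Fin t → W), ‖B (hdel g p)‖) ^ (2 * t) ≤
      ((Fintype.card W : ℝ) ^ (2 * t)) ^ (2 * t - 1) *
        ∑ p : (Fin t → W) × (Fin t → W), ‖B (hdel g p)‖ ^ (2 * t) := by
    have e1 := hd_pow (univ : Finset ((Fin t → W) × (Fin t → W))) (fun p => ‖B (hdel g p)‖)
      (fun _ => norm_nonneg _) h2t
    have e2 : (((univ : Finset ((Fin t → W) × (Fin t → W))).card : ℕ) : ℝ) =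
        (Fintype.card W : ℝ) ^ (2 * t) := by
      rw [card_univ, Fintype.card_prod, Fintype.card_fun, Fintype.card_fin]
      push_cast
      ring
    rw [e2] at e1
    exact e1
  have s5 := hd_group g t Y hY (fun μ => ‖B μ‖ ^ (2 * t)) (fun _ => by positivity)
  have s6 : ∑ μ ∈ Fintype.piFinset fun i =>
        Finset.Icc (-((2 * t * Y i : ℕ) : ℤ)) ((2 * t * Y i : ℕ) : ℤ), ‖B μ‖ ^ (2 * t) ≤
      ∑ p : (Fin t → U) × (Fin t → U), ∏ i, geo (2 * t * Y i) (θ i * hdel f p i) := by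
    have e1 : ((∑ μ ∈ Fintype.piFinset fun i =>
        Finset.Icc (-((2 * t * Y i : ℕ) : ℤ)) ((2 * t * Y i : ℕ) : ℤ), ‖B μ‖ ^ (2 * t) : ℝ) : ℂ) =
        ∑ p : (Fin t → U) × (Fin t → U), ∏ i,
          ∑ m ∈ Finset.Icc (-((2 * t * Y i : ℕ) : ℤ)) ((2 * t * Y i : ℕ) : ℤ),
            e (m * (θ i * hdel f p i)) := by
      rw [Complex.ofReal_sum]
      have e2 : ∀ μ : ι → ℤ, (((‖B μ‖ ^ (2 * t) : ℝ)) : ℂ) =
          ∑ p : (Fin t → U) × (Fin t → U), ∏ i, e (μ i * (θ i * hdel f p i)) := by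
        intro μ
        have e3 := hd_expand f (fun _ => (1 : ℂ)) θ (fun i => (μ i : ℝ)) t
        rw [hB]
        rw [e3]
        refine sum_congr rfl fun p _ => ?_
        rw [← e_sum]
        simp only [prod_const_one, map_one, one_mul]
        congr 1
        refine sum_congr rfl fun i _ => ?_
        ring
      rw [sum_congr rfl fun μ _ => e2 μ, sum_comm]
      refine sum_congr rfl fun p _ => ?_
      rw [Finset.prod_univ_sum]
    have e3 : (∑ μ ∈ Fintype.piFinset fun i =>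
        Finset.Icc (-((2 * t * Y i : ℕ) : ℤ)) ((2 * t * Y i : ℕ) : ℤ), ‖B μ‖ ^ (2 * t) : ℝ) =
        ‖((∑ μ ∈ Fintype.piFinset fun i =>
        Finset.Icc (-((2 * t * Y i : ℕ) : ℤ)) ((2 * t * Y i : ℕ) : ℤ),
          ‖B μ‖ ^ (2 * t) : ℝ) : ℂ)‖ := by
      rw [Complex.norm_real, Real.norm_of_nonneg]
      positivity
    rw [e3, e1]
    refine (norm_sum_le _ _).trans (sum_le_sum fun p _ => ?_)
    rw [norm_prod]
    exact le_of_eq rfl
  have s7 := hd_group f t X hX (fun μ => ∏ i, geo (2 * t * Y i) (θ i * μ i))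
    (fun μ => Finset.prod_nonneg fun i _ => norm_nonneg _)
  have s8 : ∑ μ ∈ Fintype.piFinset fun i =>
        Finset.Icc (-((2 * t * X i : ℕ) : ℤ)) ((2 * t * X i : ℕ) : ℤ),
          ∏ i, geo (2 * t * Y i) (θ i * μ i) =
      ∏ i, ∑ ν ∈ Finset.Icc (-((2 * t * X i : ℕ) : ℤ)) ((2 * t * X i : ℕ) : ℤ),
            geo (2 * t * Y i) (θ i * ν) := by
    rw [Finset.prod_univ_sum]
  rw [s8] at s7
  set PR : ℝ := ∏ i, ∑ ν ∈ Finset.Icc (-((2 * t * X i : ℕ) : ℤ)) ((2 * t * X i : ℕ) : ℤ),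
            geo (2 * t * Y i) (θ i * ν) with hPR
  calc ‖T‖ ^ (4 * t ^ 2) = (‖T‖ ^ (2 * t)) ^ (2 * t) := by
        rw [← pow_mul]
        congr 1
        ring
    _ ≤ ((Fintype.card U : ℝ) ^ (2 * t - 1) *
          ∑ p : (Fin t → W) × (Fin t → W), ‖B (hdel g p)‖) ^ (2 * t) := by
        refine pow_le_pow_left₀ (by positivity) (s2.trans ?_) _
        gcongr
    _ = ((Fintype.card U : ℝ) ^ (2 * t - 1)) ^ (2 * t) *
          (∑ p : (Fin t → W) × (Fin t → W), ‖B (hdel g p)‖) ^ (2 * t) := by rw [mul_pow]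
    _ ≤ ((Fintype.card U : ℝ) ^ (2 * t - 1)) ^ (2 * t) *
          (((Fintype.card W : ℝ) ^ (2 * t)) ^ (2 * t - 1) *
            ((JJ g t : ℝ) * ((JJ f t : ℝ) * PR))) := by
        have := s4.trans (mul_le_mul_of_nonneg_left
          (s5.trans (mul_le_mul_of_nonneg_left (s6.trans s7) (by positivity))) (by positivity))
        gcongr
    _ = _ := by
        rw [mul_pow, ← pow_mul, ← pow_mul, mul_comm (2 * t - 1) (2 * t)]
        ring

end Pool.Agent.Lib.MP_c0a553_nt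
end
end
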