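import Pool.Agent.Lib.MP_c0a553_nt.Defs

/-!
# MP_c0a553_nt : definitions for the p-adic part

Systems of diagonal equations over `ℚ_[p]` and nonsingular `p`-adic zeros of `Q(y ^ k)`.
-/

namespace Pool.Agent.Lib.MP_c0a553_nt

open Finset

/-- number of variables that suffices for a system of `r` diagonal equations of degree `k` over a
`p`-adic field -/
def Nsys (r k : ℕ) : ℕ := 1 + r ^ 2 * (k * (r * k ^ 3 + 1))

/-- Every system of `r` diagonal equations of degree `k` in at least `Nsys r k` variables has a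
nontrivial solution over `K`. -/
def SysSolv (K : Type) [Field K] (k : ℕ) : Prop :=
  ∀ r n : ℕ, Nsys r k ≤ n → ∀ a : Fin n → Fin r → K,
    ∃ y : Fin n → K, y ≠ 0 ∧ ∀ l, ∑ i, a i l * y i ^ k = 0

/-- number of orthogonal vectors needed -/
def n1 (k : ℕ) : ℕ := Nsys 1 (2 * k)

/-- off-diagonal rank needed in the p-adic argument -/
def r1 (k : ℕ) : ℕ := 2 * (n1 k + 1) * Nsys (n1 k) k

/-- number of diagonal variables needed in the p-adic argument -/
def v1 (k : ℕ) : ℕ := n1 k * Nsys (2 * r1 k) k

/-- number of variables that guarantees nonsingular p-adic zeros -/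
def s₁ (k : ℕ) : ℕ := v1 k + 5 * r1 k

/-- the bilinear form of the matrix `M` over `K` -/
def BB {s : ℕ} {K : Type} [Field K] (M : Matrix (Fin s) (Fin s) ℤ) (x x' : Fin s → K) : K :=
  ∑ i, ∑ j, (M i j : K) * x i * x' j

end Pool.Agent.Lib.MP_c0a553_nt
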