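import Pool.Agent.Lib.MP_c0a553_nt.Holder
import Pool.Agent.Lib.MP_c0a553_nt.PDefs

section

/-! # Fejer kernel (job HP-22) -/

namespace Pool.Agent.Lib.MP_c0a553_nt

open Finset

private theorem fejer_half (T w : ℝ) (hT : 0 < T) :
    ∫ β in (-T)..T, (1 - |β| / T) * Real.cos (w * β) =
      2 * ∫ β in (0)..T, (1 - β / T) * Real.cos (w * β) := by
  have hcont : Continuous fun β : ℝ => (1 - |β| / T) * Real.cos (w * β) := by fun_prop
  have h1 : ∫ β in (0)..T, (1 - |β| / T) * Real.cos (w * β) =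
      ∫ β in (0)..T, (1 - β / T) * Real.cos (w * β) := by
    apply intervalIntegral.integral_congr
    intro β hβ
    rw [Set.uIcc_of_le hT.le] at hβ
    simp only
    rw [abs_of_nonneg hβ.1]
  have h2 : ∫ β in (-T)..0, (1 - |β| / T) * Real.cos (w * β) =
      ∫ β in (0)..T, (1 - |β| / T) * Real.cos (w * β) := by
    have h := intervalIntegral.integral_comp_neg (a := 0) (b := T)
      (fun β : ℝ => (1 - |β| / T) * Real.cos (w * β))
    rw [neg_zero] at h
    rw [← h]
    apply intervalIntegral.integral_congr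
    intro β _
    simp only
    rw [abs_neg, mul_neg, Real.cos_neg]
  rw [← intervalIntegral.integral_add_adjacent_intervals (b := 0)
    (hcont.intervalIntegrable _ _) (hcont.intervalIntegrable _ _), h2, h1]
  ring

private theorem fejer_zero (T : ℝ) (hT : 0 < T) :
    ∫ β in (0)..T, (1 - β / T) * Real.cos (0 * β) = T / 2 := by
  have h : ∀ β ∈ Set.uIcc 0 T, HasDerivAt (fun β : ℝ => β - β ^ 2 / (2 * T))
      ((1 - β / T) * Real.cos (0 * β)) β := by
    intro β _
    have h1 : HasDerivAt (fun β : ℝ => β - β ^ 2 / (2 * T)) (1 - (2 * β ^ (2 - 1)) / (2 * T)) β := by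
      have := (hasDerivAt_id β).sub ((hasDerivAt_pow 2 β).div_const (2 * T))
      exact_mod_cast this
    refine h1.congr_deriv ?_
    rw [zero_mul, Real.cos_zero]
    field_simp
    ring
  rw [intervalIntegral.integral_eq_sub_of_hasDerivAt h
    (Continuous.intervalIntegrable (by fun_prop) _ _)]
  field_simp
  ring

private theorem fejer_ne (T w : ℝ) (hT : 0 < T) (hw : w ≠ 0) :
    ∫ β in (0)..T, (1 - β / T) * Real.cos (w * β) = (1 - Real.cos (w * T)) / (w ^ 2 * T) := by
  have h : ∀ β ∈ Set.uIcc 0 T,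
      HasDerivAt (fun β : ℝ => (1 - β / T) * (Real.sin (w * β) / w) - Real.cos (w * β) / (w ^ 2 * T))
      ((1 - β / T) * Real.cos (w * β)) β := by
    intro β _
    have hwb : HasDerivAt (fun β : ℝ => w * β) w β := by
      simpa using (hasDerivAt_id β).const_mul w
    have h1 : HasDerivAt (fun β : ℝ => 1 - β / T) (-(1 / T)) β := by
      simpa using ((hasDerivAt_id β).div_const T).const_sub 1
    have h2 : HasDerivAt (fun β : ℝ => Real.sin (w * β) / w) (Real.cos (w * β) * w / w) β :=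
      hwb.sin.div_const w
    have h3 : HasDerivAt (fun β : ℝ => Real.cos (w * β) / (w ^ 2 * T))
        (-Real.sin (w * β) * w / (w ^ 2 * T)) β := hwb.cos.div_const _
    refine ((h1.mul h2).sub h3).congr_deriv ?_
    field_simp
    ring
  rw [intervalIntegral.integral_eq_sub_of_hasDerivAt h
    (Continuous.intervalIntegrable (by fun_prop) _ _)]
  rw [mul_zero, Real.sin_zero, Real.cos_zero, div_self hT.ne']
  field_simp
  ring

/-- Fejér kernel -/
theorem fejer (T g : ℝ) (hT : 0 < T) :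
    0 ≤ ∫ β in (-T)..T, (1 - |β| / T) * Real.cos (2 * Real.pi * β * g) ∧
    (|g| ≤ 1 / (2 * T) →
      4 * T / Real.pi ^ 2 ≤ ∫ β in (-T)..T, (1 - |β| / T) * Real.cos (2 * Real.pi * β * g)) := by
  have hpi := Real.pi_pos
  have h0 : ∫ β in (-T)..T, (1 - |β| / T) * Real.cos (2 * Real.pi * β * g) =
      ∫ β in (-T)..T, (1 - |β| / T) * Real.cos ((2 * Real.pi * g) * β) := by
    apply intervalIntegral.integral_congr
    intro β _
    simp only
    congr 2
    ring
  rw [h0, fejer_half T (2 * Real.pi * g) hT]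
  by_cases hg : g = 0
  · subst hg
    rw [mul_zero, fejer_zero T hT]
    refine ⟨by positivity, fun _ => ?_⟩
    rw [div_le_iff₀ (by positivity)]
    have h3 : 3 < Real.pi := Real.pi_gt_three
    have h4 : 4 ≤ Real.pi ^ 2 := by nlinarith
    calc 4 * T = T * 4 := by ring
      _ ≤ T * Real.pi ^ 2 := by gcongr
      _ = 2 * (T / 2) * Real.pi ^ 2 := by ring
  · have hw : 2 * Real.pi * g ≠ 0 := by positivity
    rw [fejer_ne T _ hT hw]
    set w := 2 * Real.pi * g with hwdef
    have hw2 : 0 < w ^ 2 * T := by positivity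
    constructor
    · have := Real.cos_le_one (w * T)
      have h1 : 0 ≤ (1 - Real.cos (w * T)) / (w ^ 2 * T) := div_nonneg (by linarith) hw2.le
      linarith
    · intro hle
      have hwT : |w * T| ≤ Real.pi := by
        rw [hwdef, abs_mul, abs_mul, abs_of_pos hT, abs_of_pos (by positivity : 0 < 2 * Real.pi)]
        have h5 : |g| * (2 * T) ≤ 1 := by
          rw [le_div_iff₀ (by positivity)] at hle
          exact hle
        have h6 : 2 * Real.pi * |g| * T = Real.pi * (|g| * (2 * T)) := by ring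
        rw [h6]
        calc Real.pi * (|g| * (2 * T)) ≤ Real.pi * 1 := by gcongr
          _ = Real.pi := mul_one _
      have hcos := Real.cos_le_one_sub_mul_cos_sq hwT
      have h7 : 2 / Real.pi ^ 2 * (w * T) ^ 2 ≤ 1 - Real.cos (w * T) := by linarith
      have h8 : 2 * T / Real.pi ^ 2 ≤ (1 - Real.cos (w * T)) / (w ^ 2 * T) := by
        rw [le_div_iff₀ hw2]
        calc 2 * T / Real.pi ^ 2 * (w ^ 2 * T) = 2 / Real.pi ^ 2 * (w * T) ^ 2 := by ring
          _ ≤ _ := h7
      calc 4 * T / Real.pi ^ 2 = 2 * (2 * T / Real.pi ^ 2) := by ring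
        _ ≤ _ := by linarith

end Pool.Agent.Lib.MP_c0a553_nt
end

section

/-! # Orthogonal subspaces and a nonsingular block (job HQ-11) -/

namespace Pool.Agent.Lib.MP_c0a553_nt

open Finset

private theorem off_dim_orth {K : Type} [Field K] {r : ℕ} (Y₁ Y₂ : Submodule K (Fin r → K))
    (h : ∀ y ∈ Y₁, ∀ z ∈ Y₂, y ⬝ᵥ z = 0) :
    Module.finrank K Y₁ + Module.finrank K Y₂ ≤ r := by
  let φ : (Fin r → K) →ₗ[K] Module.Dual K Y₂ :=
    (Submodule.dualRestrict Y₂).comp (dotProductEquiv K (Fin r)).toLinearMap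
  have hφ : Function.Surjective φ := by
    intro g
    obtain ⟨g', hg'⟩ := Subspace.dualRestrict_surjective (W := Y₂) g
    refine ⟨(dotProductEquiv K (Fin r)).symm g', ?_⟩
    show Submodule.dualRestrict Y₂ (dotProductEquiv K (Fin r) _) = g
    rw [LinearEquiv.apply_symm_apply, hg']
  have hker : Y₁ ≤ LinearMap.ker φ := by
    intro y hy
    rw [LinearMap.mem_ker]
    ext z
    exact h y hy z.1 z.2
  have h1 := LinearMap.finrank_range_add_finrank_ker φ
  have h2 : Module.finrank K (LinearMap.range φ) = Module.finrank K Y₂ := by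
    rw [LinearMap.range_eq_top.2 hφ, finrank_top, Subspace.dual_finrank_eq]
  have h3 := Submodule.finrank_mono hker
  rw [Module.finrank_fin_fun] at h1
  omega

theorem off_dim {s r : ℕ} (K : Type) [Field K] [CharZero K] (M : Matrix (Fin s) (Fin s) ℤ)
    (U W : Fin r → Fin s) (hU : Function.Injective U) (hW : Function.Injective W)
    (hdet : (M.submatrix U W).det ≠ 0) (X₁ X₂ : Submodule K (Fin s → K))
    (h1 : ∀ x ∈ X₁, ∀ i, (∀ a, i ≠ U a) → x i = 0)
    (h2 : ∀ x ∈ X₂, ∀ i, (∀ a, i ≠ W a) → x i = 0)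
    (h : ∀ x ∈ X₁, ∀ x' ∈ X₂, BB M x x' = 0) :
    Module.finrank K X₁ + Module.finrank K X₂ ≤ r := by
  classical
  let A : Matrix (Fin r) (Fin r) K := (M.submatrix U W).map (Int.castRingHom K)
  have hA : IsUnit A.det := by
    rw [isUnit_iff_ne_zero]
    have : A.det = (Int.castRingHom K) (M.submatrix U W).det := by
      rw [RingHom.map_det]
      rfl
    rw [this]
    simpa using hdet
  have hAinj : Function.Injective A.mulVec :=
    Matrix.mulVec_injective_iff_isUnit.2 ((Matrix.isUnit_iff_isUnit_det A).2 hA)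
  let f₁ : X₁ →ₗ[K] (Fin r → K) := (LinearMap.funLeft K K U).comp X₁.subtype
  let f₂ : X₂ →ₗ[K] (Fin r → K) := (LinearMap.funLeft K K W).comp X₂.subtype
  have hf₁ : Function.Injective f₁ := by
    rw [← LinearMap.ker_eq_bot, LinearMap.ker_eq_bot']
    intro x hx
    ext i
    by_cases hi : ∃ a, i = U a
    · obtain ⟨a, rfl⟩ := hi
      exact congrFun hx a
    · push Not at hi
      exact h1 x.1 x.2 i hi
  have hf₂ : Function.Injective f₂ := by
    rw [← LinearMap.ker_eq_bot, LinearMap.ker_eq_bot']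
    intro x hx
    ext i
    by_cases hi : ∃ a, i = W a
    · obtain ⟨a, rfl⟩ := hi
      exact congrFun hx a
    · push Not at hi
      exact h2 x.1 x.2 i hi
  let g₂ : X₂ →ₗ[K] (Fin r → K) := A.mulVecLin.comp f₂
  have hg₂ : Function.Injective g₂ := by
    intro x y hxy
    apply hf₂
    exact hAinj hxy
  have key := off_dim_orth (LinearMap.range f₁) (LinearMap.range g₂) (by
    rintro _ ⟨x, rfl⟩ _ ⟨x', rfl⟩
    have h3 := h x.1 x.2 x'.1 x'.2
    have h4 : BB M x.1 x'.1 = ∑ a, ∑ b, A a b * x.1 (U a) * x'.1 (W b) := by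
      unfold BB
      have e1 : ∀ F : Fin s → K, (∀ i, (∀ a, i ≠ U a) → F i = 0) → ∑ i, F i = ∑ a, F (U a) := by
        intro F hF
        symm
        rw [← Finset.sum_image (s := Finset.univ) (g := U) (f := F)
          (fun a _ b _ hab => hU hab)]
        apply Finset.sum_subset (Finset.subset_univ _)
        intro i _ hi
        apply hF
        intro a ha
        exact hi (Finset.mem_image.2 ⟨a, Finset.mem_univ _, ha.symm⟩)
      have e2 : ∀ F : Fin s → K, (∀ i, (∀ a, i ≠ W a) → F i = 0) → ∑ i, F i = ∑ a, F (W a) := by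
        intro F hF
        symm
        rw [← Finset.sum_image (s := Finset.univ) (g := W) (f := F)
          (fun a _ b _ hab => hW hab)]
        apply Finset.sum_subset (Finset.subset_univ _)
        intro i _ hi
        apply hF
        intro a ha
        exact hi (Finset.mem_image.2 ⟨a, Finset.mem_univ _, ha.symm⟩)
      rw [e1]
      · apply Finset.sum_congr rfl
        intro a _
        rw [e2]
        · rfl
        · intro j hj
          rw [h2 x'.1 x'.2 j hj, mul_zero]
      · intro i hi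
        apply Finset.sum_eq_zero
        intro j _
        rw [h1 x.1 x.2 i hi, mul_zero, zero_mul]
    have h5 : f₁ x ⬝ᵥ g₂ x' = BB M x.1 x'.1 := by
      rw [h4]
      show ∑ a, x.1 (U a) * ∑ b, A a b * x'.1 (W b) = _
      apply Finset.sum_congr rfl
      intro a _
      rw [Finset.mul_sum]
      apply Finset.sum_congr rfl
      intro b _
      ring
    rw [h5, h3])
  rwa [LinearMap.finrank_range_of_inj hf₁, LinearMap.finrank_range_of_inj hg₂] at key

end Pool.Agent.Lib.MP_c0a553_nt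
end

section

/-! # Dimension of the span of vectors of small support (job HQ-10) -/

namespace Pool.Agent.Lib.MP_c0a553_nt

open Finset

theorem span_dim {n : ℕ} (K : Type) [Field K] (A : Set (Fin n → K)) (G : Finset (Fin n)) (N : ℕ)
    (h : ∀ T ⊆ G, T.card = N → ∃ x ∈ A, x ≠ 0 ∧ ∀ i, i ∉ T → x i = 0) :
    G.card + 1 ≤
      Module.finrank K (Submodule.span K {x : Fin n → K | x ∈ A ∧ ∀ i, i ∉ G → x i = 0}) + N := by
  induction G using Finset.strongInduction with
  | H G ih =>
    by_cases hN : G.card < N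
    · omega
    · obtain ⟨T, hTG, hT⟩ := Finset.exists_subset_card_eq (not_lt.1 hN)
      obtain ⟨x, hxA, hx0, hxT⟩ := h T hTG hT
      obtain ⟨i₀, hi₀⟩ := Function.ne_iff.1 hx0
      have hi₀T : i₀ ∈ T := by
        by_contra hcon
        exact hi₀ (hxT i₀ hcon)
      have hi₀G : i₀ ∈ G := hTG hi₀T
      have ih' := ih (G.erase i₀) (Finset.erase_ssubset hi₀G)
        (fun T' hT' hc => h T' (hT'.trans (Finset.erase_subset _ _)) hc)
      have hle : Submodule.span K {x : Fin n → K | x ∈ A ∧ ∀ i, i ∉ G.erase i₀ → x i = 0} ≤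
          Submodule.span K {x : Fin n → K | x ∈ A ∧ ∀ i, i ∉ G → x i = 0} := by
        apply Submodule.span_mono
        rintro y ⟨hy, hy'⟩
        exact ⟨hy, fun i hi => hy' i (fun hi' => hi (Finset.mem_of_mem_erase hi'))⟩
      have hmem : x ∈ Submodule.span K {x : Fin n → K | x ∈ A ∧ ∀ i, i ∉ G → x i = 0} :=
        Submodule.subset_span ⟨hxA, fun i hi => hxT i (fun hi' => hi (hTG hi'))⟩
      have hnot : x ∉ Submodule.span K {x : Fin n → K | x ∈ A ∧ ∀ i, i ∉ G.erase i₀ → x i = 0} := by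
        intro hcon
        have hle2 : Submodule.span K {x : Fin n → K | x ∈ A ∧ ∀ i, i ∉ G.erase i₀ → x i = 0} ≤
            LinearMap.ker (LinearMap.proj i₀ : (Fin n → K) →ₗ[K] K) := by
          rw [Submodule.span_le]
          rintro y ⟨-, hy'⟩
          exact hy' i₀ (Finset.notMem_erase i₀ G)
        exact hi₀ (hle2 hcon)
      have hlt : Submodule.span K {x : Fin n → K | x ∈ A ∧ ∀ i, i ∉ G.erase i₀ → x i = 0} <
          Submodule.span K {x : Fin n → K | x ∈ A ∧ ∀ i, i ∉ G → x i = 0} :=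
        SetLike.lt_iff_le_and_exists.2 ⟨hle, x, hmem, hnot⟩
      have hf := Submodule.finrank_lt_finrank_of_lt hlt
      have hcard : (G.erase i₀).card + 1 = G.card := Finset.card_erase_add_one hi₀G
      omega

end Pool.Agent.Lib.MP_c0a553_nt
end

section

/-! # One more orthogonal vector (job HQ-12) -/

namespace Pool.Agent.Lib.MP_c0a553_nt

open Finset

section orthaux

variable {s : ℕ} {K : Type} [Field K]

/-- the bilinear form as a linear map in the first variable -/
private def orthL (M : Matrix (Fin s) (Fin s) ℤ) (x' : Fin s → K) : (Fin s → K) →ₗ[K] K where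
  toFun x := BB M x x'
  map_add' x y := by
    unfold BB
    rw [← Finset.sum_add_distrib]
    refine Finset.sum_congr rfl fun i _ => ?_
    rw [← Finset.sum_add_distrib]
    refine Finset.sum_congr rfl fun j _ => ?_
    rw [Pi.add_apply]
    ring
  map_smul' c x := by
    unfold BB
    rw [RingHom.id_apply, smul_eq_mul, Finset.mul_sum]
    refine Finset.sum_congr rfl fun i _ => ?_
    rw [Finset.mul_sum]
    refine Finset.sum_congr rfl fun j _ => ?_
    rw [Pi.smul_apply, smul_eq_mul]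
    ring

/-- the bilinear form as a linear map in the second variable -/
private def orthR (M : Matrix (Fin s) (Fin s) ℤ) (x : Fin s → K) : (Fin s → K) →ₗ[K] K where
  toFun x' := BB M x x'
  map_add' y z := by
    unfold BB
    rw [← Finset.sum_add_distrib]
    refine Finset.sum_congr rfl fun i _ => ?_
    rw [← Finset.sum_add_distrib]
    refine Finset.sum_congr rfl fun j _ => ?_
    rw [Pi.add_apply]
    ring
  map_smul' c y := by
    unfold BB
    rw [RingHom.id_apply, smul_eq_mul, Finset.mul_sum]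
    refine Finset.sum_congr rfl fun i _ => ?_
    rw [Finset.mul_sum]
    refine Finset.sum_congr rfl fun j _ => ?_
    rw [Pi.smul_apply, smul_eq_mul]
    ring

private lemma orth_add_left (M : Matrix (Fin s) (Fin s) ℤ) (x y z : Fin s → K) :
    BB M (x + y) z = BB M x z + BB M y z := (orthL M z).map_add x y

private lemma orth_add_right (M : Matrix (Fin s) (Fin s) ℤ) (x y z : Fin s → K) :
    BB M x (y + z) = BB M x y + BB M x z := (orthR M x).map_add y z

private lemma orth_symm {M : Matrix (Fin s) (Fin s) ℤ} (hM : M.IsSymm) (x y : Fin s → K) :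
    BB M x y = BB M y x := by
  unfold BB
  rw [Finset.sum_comm]
  refine Finset.sum_congr rfl fun i _ => Finset.sum_congr rfl fun j _ => ?_
  rw [hM.apply i j]
  ring

private lemma orth_span (M : Matrix (Fin s) (Fin s) ℤ) (A B : Set (Fin s → K))
    (h : ∀ x ∈ A, ∀ y ∈ B, BB M x y = 0) :
    ∀ x ∈ Submodule.span K A, ∀ y ∈ Submodule.span K B, BB M x y = 0 := by
  intro x hx y hy
  have h1 : ∀ y ∈ B, BB M x y = 0 := by
    intro y hy
    have h2 : Submodule.span K A ≤ LinearMap.ker (orthL M y) := by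
      rw [Submodule.span_le]
      intro z hz
      exact LinearMap.mem_ker.2 (h z hz y hy)
    exact LinearMap.mem_ker.1 (h2 hx)
  have h3 : Submodule.span K B ≤ LinearMap.ker (orthR M x) := by
    rw [Submodule.span_le]
    intro z hz
    exact LinearMap.mem_ker.2 (h1 z hz)
  exact LinearMap.mem_ker.1 (h3 hy)

private lemma orth_supp (A : Set (Fin s → K)) (i : Fin s) (h : ∀ x ∈ A, x i = 0) :
    ∀ x ∈ Submodule.span K A, x i = 0 := by
  intro x hx
  have h2 : Submodule.span K A ≤ LinearMap.ker (LinearMap.proj (R := K) (φ := fun _ => K) i) := by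
    rw [Submodule.span_le]
    intro z hz
    exact LinearMap.mem_ker.2 (h z hz)
  exact LinearMap.mem_ker.1 (h2 hx)

end orthaux

theorem orth_step {s r : ℕ} (k : ℕ) (hk : 1 ≤ k) (K : Type) [Field K] [CharZero K]
    (M : Matrix (Fin s) (Fin s) ℤ) (hM : M.IsSymm)
    (U W : Fin r → Fin s) (hU : Function.Injective U) (hW : Function.Injective W)
    (hUW : ∀ a b, U a ≠ W b) (hdet : (M.submatrix U W).det ≠ 0)
    (n N : ℕ) (x : Fin n → Fin s → K) (R : Finset (Fin s))
    (hN : ∀ T : Finset (Fin s), T.card = N → ∃ y : Fin s → K, y ≠ 0 ∧ (∀ i, i ∉ T → y i = 0) ∧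
      ∀ l, BB M (x l) (fun i => y i ^ k) = 0)
    (hr : R.card + 2 * N ≤ r) :
    ∃ y : Fin s → K, (∀ i ∈ R, y i = 0) ∧ (∀ l, BB M (x l) (fun i => y i ^ k) = 0) ∧
      (∃ T : Finset (Fin s), T.card ≤ 2 * N ∧ ∀ i, i ∉ T → y i = 0) ∧
      BB M (fun i => y i ^ k) (fun i => y i ^ k) ≠ 0 := by
  classical
  by_contra hcon
  have hk0 : k ≠ 0 := by omega
  have hz : ∀ y : Fin s → K, (∀ i ∈ R, y i = 0) → (∀ l, BB M (x l) (fun i => y i ^ k) = 0) →
      (∃ T : Finset (Fin s), T.card ≤ 2 * N ∧ ∀ i, i ∉ T → y i = 0) →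
      BB M (fun i => y i ^ k) (fun i => y i ^ k) = 0 := by
    intro y h1 h2 h3
    by_contra h4
    exact hcon ⟨y, h1, h2, h3, h4⟩
  set A : Set (Fin s → K) := {u | ∃ y : Fin s → K, u = (fun i => y i ^ k) ∧ y ≠ 0 ∧
    (∃ T : Finset (Fin s), T.card = N ∧ ∀ i, i ∉ T → y i = 0) ∧ ∀ l, BB M (x l) u = 0} with hA
  have hex : ∀ T : Finset (Fin s), T.card = N → ∃ u ∈ A, u ≠ 0 ∧ ∀ i, i ∉ T → u i = 0 := by
    intro T hT
    obtain ⟨y, hy0, hyT, hyl⟩ := hN T hT
    refine ⟨fun i => y i ^ k, ⟨y, rfl, hy0, ⟨T, hT, hyT⟩, hyl⟩, ?_, fun i hi => ?_⟩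
    · obtain ⟨i, hi⟩ := Function.ne_iff.1 hy0
      refine Function.ne_iff.2 ⟨i, ?_⟩
      exact pow_ne_zero k hi
    · simp only [hyT i hi]
      exact zero_pow hk0
  set G1 : Finset (Fin s) := (Finset.univ.image U) \ R with hG1
  set G2 : Finset (Fin s) := (Finset.univ.image W) \ R with hG2
  set A1 : Set (Fin s → K) := {u | u ∈ A ∧ ∀ i, i ∉ G1 → u i = 0} with hA1
  set A2 : Set (Fin s → K) := {u | u ∈ A ∧ ∀ i, i ∉ G2 → u i = 0} with hA2
  have hd1 := span_dim K A G1 N fun T _ hT => hex T hT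
  have hd2 := span_dim K A G2 N fun T _ hT => hex T hT
  have horth : ∀ u ∈ A1, ∀ u' ∈ A2, BB M u u' = 0 := by
    rintro u ⟨⟨y, hy, -, ⟨T, hTc, hT⟩, hl⟩, hs1⟩ u' ⟨⟨y', hy', -, ⟨T', hTc', hT'⟩, hl'⟩, hs2⟩
    have hys : ∀ i, i ∉ G1 → y i = 0 := by
      intro i hi
      have := hs1 i hi
      rw [hy] at this
      exact (pow_eq_zero_iff hk0).1 this
    have hys' : ∀ i, i ∉ G2 → y' i = 0 := by
      intro i hi
      have := hs2 i hi
      rw [hy'] at this
      exact (pow_eq_zero_iff hk0).1 this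
    have hR : ∀ i ∈ R, i ∉ G1 ∧ i ∉ G2 := by
      intro i hi
      rw [hG1, hG2, Finset.mem_sdiff, Finset.mem_sdiff]
      exact ⟨fun h => h.2 hi, fun h => h.2 hi⟩
    have hor : ∀ i, y i = 0 ∨ y' i = 0 := by
      intro i
      by_cases h1 : i ∈ G1
      · right
        apply hys'
        intro h2
        rw [hG1, Finset.mem_sdiff, Finset.mem_image] at h1
        rw [hG2, Finset.mem_sdiff, Finset.mem_image] at h2
        obtain ⟨⟨a, -, ha⟩, -⟩ := h1
        obtain ⟨⟨b, -, hb⟩, -⟩ := h2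
        exact hUW a b (ha.trans hb.symm)
      · exact Or.inl (hys i h1)
    have hpow : (fun i => (y + y') i ^ k) = u + u' := by
      funext i
      rw [hy, hy', Pi.add_apply, Pi.add_apply]
      rcases hor i with h | h
      · simp only [h, zero_add, zero_pow hk0]
      · simp only [h, add_zero, zero_pow hk0]
    have c1 : BB M u u = 0 := by
      have := hz y (fun i hi => hys i (hR i hi).1) (fun l => by rw [← hy]; exact hl l)
        ⟨T, by omega, hT⟩
      rwa [← hy] at this
    have c2 : BB M u' u' = 0 := by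
      have := hz y' (fun i hi => hys' i (hR i hi).2) (fun l => by rw [← hy']; exact hl' l)
        ⟨T', by omega, hT'⟩
      rwa [← hy'] at this
    have c3 : BB M (u + u') (u + u') = 0 := by
      have := hz (y + y') (fun i hi => by
          rw [Pi.add_apply, hys i (hR i hi).1, hys' i (hR i hi).2, add_zero])
        (fun l => by
          rw [hpow, orth_add_right, hl l, hl' l, add_zero])
        ⟨T ∪ T', (Finset.card_union_le _ _).trans (by omega), fun i hi => by
          rw [Finset.mem_union, not_or] at hi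
          rw [Pi.add_apply, hT i hi.1, hT' i hi.2, add_zero]⟩
      rwa [hpow] at this
    rw [orth_add_left, orth_add_right, orth_add_right, c1, c2, orth_symm hM u' u] at c3
    have c4 : (2 : K) * BB M u u' = 0 := by
      rw [← c3]
      ring
    exact (mul_eq_zero.1 c4).resolve_left two_ne_zero
  have hoff := off_dim K M U W hU hW hdet (Submodule.span K A1) (Submodule.span K A2)
    (fun u hu i hi => orth_supp A1 i (fun z hz => hz.2 i (by
      rw [hG1, Finset.mem_sdiff, Finset.mem_image]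
      rintro ⟨⟨a, -, ha⟩, -⟩
      exact hi a ha.symm)) u hu)
    (fun u hu i hi => orth_supp A2 i (fun z hz => hz.2 i (by
      rw [hG2, Finset.mem_sdiff, Finset.mem_image]
      rintro ⟨⟨a, -, ha⟩, -⟩
      exact hi a ha.symm)) u hu)
    (orth_span M A1 A2 horth)
  have e1 : (Finset.univ.image U).card = r := by
    rw [Finset.card_image_of_injective _ hU, Finset.card_univ, Fintype.card_fin]
  have e2 : (Finset.univ.image W).card = r := by
    rw [Finset.card_image_of_injective _ hW, Finset.card_univ, Fintype.card_fin]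
  have e3 : G1.card + (R ∩ Finset.univ.image U).card = r := by
    rw [hG1, Finset.inter_comm, Finset.card_sdiff_add_card_inter, e1]
  have e4 : G2.card + (R ∩ Finset.univ.image W).card = r := by
    rw [hG2, Finset.inter_comm, Finset.card_sdiff_add_card_inter, e2]
  have e5 : (R ∩ Finset.univ.image U).card + (R ∩ Finset.univ.image W).card ≤ R.card := by
    rw [← Finset.card_union_of_disjoint]
    · exact Finset.card_le_card (Finset.union_subset Finset.inter_subset_left
        Finset.inter_subset_left)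
    · rw [Finset.disjoint_left]
      intro i h1 h2
      rw [Finset.mem_inter, Finset.mem_image] at h1 h2
      obtain ⟨-, a, -, ha⟩ := h1
      obtain ⟨-, b, -, hb⟩ := h2
      exact hUW a b (ha.trans hb.symm)
  have hd1' : G1.card + 1 ≤ Module.finrank K (Submodule.span K A1) + N := hd1
  have hd2' : G2.card + 1 ≤ Module.finrank K (Submodule.span K A2) + N := hd2
  omega

end Pool.Agent.Lib.MP_c0a553_nt
end

section

/-! # A long orthogonal sequence (job HQ-13) -/

namespace Pool.Agent.Lib.MP_c0a553_nt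

open Finset

private theorem orthSeq_BB_comm {s : ℕ} {K : Type} [Field K] (M : Matrix (Fin s) (Fin s) ℤ)
    (hM : M.IsSymm) (x x' : Fin s → K) : BB M x x' = BB M x' x := by
  unfold BB
  rw [Finset.sum_comm]
  refine Finset.sum_congr rfl fun i _ => Finset.sum_congr rfl fun j _ => ?_
  have h : M j i = M i j := hM.apply i j
  rw [h]
  ring

private theorem orthSeq_mono {l n : ℕ} (k : ℕ) (h : l ≤ n) : Nsys l k ≤ Nsys n k := by
  unfold Nsys
  gcongr

private theorem orthSeq_sys {s : ℕ} (k : ℕ) (hk : 1 ≤ k) (K : Type) [Field K]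
    (hS : SysSolv K k) (M : Matrix (Fin s) (Fin s) ℤ) (l N : ℕ) (hN : Nsys l k ≤ N)
    (x : Fin l → Fin s → K) (T : Finset (Fin s)) (hT : T.card = N) :
    ∃ y : Fin s → K, y ≠ 0 ∧ (∀ i, i ∉ T → y i = 0) ∧
      ∀ j, BB M (x j) (fun i => y i ^ k) = 0 := by
  classical
  let e : Fin N ≃ T := (T.equivFinOfCardEq hT).symm
  obtain ⟨z, hz, hz0⟩ := hS l N hN (fun i j => ∑ i', (M i' (e i) : K) * x j i')
  let y : Fin s → K := fun i => if h : i ∈ T then z (e.symm ⟨i, h⟩) else 0
  have hyT : ∀ i : Fin N, y (e i) = z i := by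
    intro i
    simp only [y]
    rw [dif_pos (e i).2]
    simp
  refine ⟨y, ?_, ?_, ?_⟩
  · intro h
    apply hz
    funext i
    have h1 := hyT i
    rw [h] at h1
    exact h1.symm
  · intro i hi
    simp only [y]
    rw [dif_neg hi]
  · intro j
    have h1 : BB M (x j) (fun i => y i ^ k) =
        ∑ i, (∑ i', (M i' i : K) * x j i') * y i ^ k := by
      unfold BB
      rw [Finset.sum_comm]
      refine Finset.sum_congr rfl fun i _ => ?_
      rw [Finset.sum_mul]
    have h2 : ∑ i, (∑ i', (M i' i : K) * x j i') * y i ^ k =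
        ∑ i ∈ T, (∑ i', (M i' i : K) * x j i') * y i ^ k := by
      symm
      refine Finset.sum_subset (Finset.subset_univ T) fun i _ hi => ?_
      have : y i = 0 := by
        simp only [y]
        rw [dif_neg hi]
      rw [this, zero_pow (by omega), mul_zero]
    have h3 : ∑ i ∈ T, (∑ i', (M i' i : K) * x j i') * y i ^ k =
        ∑ i : T, (∑ i', (M i' i : K) * x j i') * y i ^ k :=
      (Finset.sum_coe_sort T (fun i => (∑ i', (M i' i : K) * x j i') * y i ^ k)).symm
    rw [h1, h2, h3, ← Equiv.sum_comp e]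
    rw [← hz0 j]
    refine Finset.sum_congr rfl fun i _ => ?_
    rw [hyT i]

theorem orth_seq {s r : ℕ} (k : ℕ) (hk : 1 ≤ k) (K : Type) [Field K] [CharZero K]
    (hS : SysSolv K k) (M : Matrix (Fin s) (Fin s) ℤ) (hM : M.IsSymm)
    (U W : Fin r → Fin s) (hU : Function.Injective U) (hW : Function.Injective W)
    (hUW : ∀ a b, U a ≠ W b) (hdet : (M.submatrix U W).det ≠ 0)
    (n : ℕ) (hr : 2 * (n + 1) * Nsys n k ≤ r) :
    ∃ y : Fin n → Fin s → K, (∀ l l' i, l ≠ l' → y l i = 0 ∨ y l' i = 0) ∧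
      (∀ l l', l ≠ l' → BB M (fun i => y l i ^ k) (fun i => y l' i ^ k) = 0) ∧
      ∀ l, BB M (fun i => y l i ^ k) (fun i => y l i ^ k) ≠ 0 := by
  classical
  have key : ∀ m, m ≤ n → ∃ (y : Fin m → Fin s → K) (R : Finset (Fin s)),
      R.card ≤ 2 * Nsys n k * m ∧ (∀ l i, i ∉ R → y l i = 0) ∧
      (∀ l l' i, l ≠ l' → y l i = 0 ∨ y l' i = 0) ∧
      (∀ l l', l ≠ l' → BB M (fun i => y l i ^ k) (fun i => y l' i ^ k) = 0) ∧
      ∀ l, BB M (fun i => y l i ^ k) (fun i => y l i ^ k) ≠ 0 := by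
    intro m
    induction m with
    | zero =>
      intro _
      exact ⟨fun l => l.elim0, ∅, by simp, fun l => l.elim0, fun l => l.elim0,
        fun l => l.elim0, fun l => l.elim0⟩
    | succ m ih =>
      intro hm
      obtain ⟨y, R, hR, hyR, hdis, horth, hne⟩ := ih (by omega)
      have hle : R.card + 2 * Nsys n k ≤ r := by
        have h1 : 2 * Nsys n k * m + 2 * Nsys n k ≤ 2 * (n + 1) * Nsys n k := by
          have h2 : m + 1 ≤ n + 1 := by omega
          calc 2 * Nsys n k * m + 2 * Nsys n k = 2 * (m + 1) * Nsys n k := by ring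
            _ ≤ 2 * (n + 1) * Nsys n k := by gcongr
        omega
      obtain ⟨z, hzR, hz0, ⟨T, hT, hzT⟩, hzne⟩ := orth_step k hk K M hM U W hU hW hUW hdet m
        (Nsys n k) (fun l i => y l i ^ k) R
        (fun T hT => orthSeq_sys k hk K hS M m (Nsys n k) (orthSeq_mono k (by omega))
          (fun l i => y l i ^ k) T hT) hle
      have hzy : ∀ l i, y l i = 0 ∨ z i = 0 := by
        intro l i
        by_cases hi : i ∈ R
        · exact Or.inr (hzR i hi)
        · exact Or.inl (hyR l i hi)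
      refine ⟨Fin.snoc (α := fun _ => Fin s → K) y z, R ∪ T, ?_, ?_, ?_, ?_, ?_⟩
      · refine (Finset.card_union_le _ _).trans ?_
        calc R.card + T.card ≤ 2 * Nsys n k * m + 2 * Nsys n k := by omega
          _ = 2 * Nsys n k * (m + 1) := by ring
      · intro l i hi
        rw [Finset.mem_union, not_or] at hi
        induction l using Fin.lastCases with
        | last => rw [Fin.snoc_last]; exact hzT i hi.2
        | cast l => rw [Fin.snoc_castSucc]; exact hyR l i hi.1
      · intro l l' i hll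
        induction l using Fin.lastCases with
        | last =>
          induction l' using Fin.lastCases with
          | last => exact absurd rfl hll
          | cast l' =>
            rw [Fin.snoc_last, Fin.snoc_castSucc]
            exact (hzy l' i).symm
        | cast l =>
          induction l' using Fin.lastCases with
          | last =>
            rw [Fin.snoc_last, Fin.snoc_castSucc]
            exact hzy l i
          | cast l' =>
            rw [Fin.snoc_castSucc, Fin.snoc_castSucc]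
            exact hdis l l' i (fun h => hll (by rw [h]))
      · intro l l' hll
        induction l using Fin.lastCases with
        | last =>
          induction l' using Fin.lastCases with
          | last => exact absurd rfl hll
          | cast l' =>
            simp only [Fin.snoc_last, Fin.snoc_castSucc]
            rw [orthSeq_BB_comm M hM]
            exact hz0 l'
        | cast l =>
          induction l' using Fin.lastCases with
          | last =>
            simp only [Fin.snoc_last, Fin.snoc_castSucc]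
            exact hz0 l
          | cast l' =>
            simp only [Fin.snoc_castSucc]
            exact horth l l' (fun h => hll (by rw [h]))
      · intro l
        induction l using Fin.lastCases with
        | last => simp only [Fin.snoc_last]; exact hzne
        | cast l => simp only [Fin.snoc_castSucc]; exact hne l
  obtain ⟨y, -, -, -, h1, h2, h3⟩ := key n le_rfl
  exact ⟨y, h1, h2, h3⟩

end Pool.Agent.Lib.MP_c0a553_nt
end

section

/-! # Lower bound of the singular integral (job HP-24) -/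

namespace Pool.Agent.Lib.MP_c0a553_nt

open Finset

variable {ι : Type} [Fintype ι] [DecidableEq ι]

private lemma e_re (x : ℝ) : (e x).re = Real.cos (2 * Real.pi * x) := by
  rw [e, show (2 * Real.pi * x * Complex.I : ℂ) = ((2 * Real.pi * x : ℝ) : ℂ) * Complex.I by
    push_cast; ring, Complex.exp_ofReal_mul_I_re]

private lemma e_im (x : ℝ) : (e x).im = Real.sin (2 * Real.pi * x) := by
  rw [e, show (2 * Real.pi * x * Complex.I : ℂ) = ((2 * Real.pi * x : ℝ) : ℂ) * Complex.I by
    push_cast; ring, Complex.exp_ofReal_mul_I_im]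

private lemma continuous_e : Continuous e := by
  unfold e
  fun_prop

private lemma continuous_S (G : (ι → ℤ) → ℤ) (P : ℕ) (lo hi : ι → ℝ) :
    Continuous (S G P lo hi) := by
  unfold S
  refine continuous_finset_sum _ fun x _ => ?_
  exact continuous_e.comp (by fun_prop)

private lemma S_re (G : (ι → ℤ) → ℤ) (P : ℕ) (lo hi : ι → ℝ) (b : ℝ) :
    (S G P lo hi b).re = ∑ x ∈ box P lo hi, Real.cos (2 * Real.pi * b * G x) := by
  unfold S
  rw [Complex.re_sum]
  refine Finset.sum_congr rfl fun x _ => ?_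
  rw [e_re, ← mul_assoc]

private lemma S_im (G : (ι → ℤ) → ℤ) (P : ℕ) (lo hi : ι → ℝ) (b : ℝ) :
    (S G P lo hi b).im = ∑ x ∈ box P lo hi, Real.sin (2 * Real.pi * b * G x) := by
  unfold S
  rw [Complex.im_sum]
  refine Finset.sum_congr rfl fun x _ => ?_
  rw [e_im, ← mul_assoc]

private lemma re_integral (G : (ι → ℤ) → ℤ) (P : ℕ) (lo hi : ι → ℝ) (a b : ℝ) :
    (∫ β in a..b, S G P lo hi β).re = ∫ β in a..b, (S G P lo hi β).re := by
  have := Complex.reCLM.intervalIntegral_comp_comm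
    ((continuous_S G P lo hi).intervalIntegrable (μ := MeasureTheory.volume) a b)
  exact this.symm

private lemma im_integral (G : (ι → ℤ) → ℤ) (P : ℕ) (lo hi : ι → ℝ) (a b : ℝ) :
    (∫ β in a..b, S G P lo hi β).im = ∫ β in a..b, (S G P lo hi β).im := by
  have := Complex.imCLM.intervalIntegral_comp_comm
    ((continuous_S G P lo hi).intervalIntegrable (μ := MeasureTheory.volume) a b)
  exact this.symm

private lemma card_box (P : ℕ) (hP : 1 ≤ P) (lo hi : ι → ℝ) (hlo : ∀ i, lo i ≤ hi i) :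
    ((box P lo hi).card : ℝ) ≤ (∏ i, (hi i - lo i + 1)) * (P : ℝ) ^ Fintype.card ι := by
  have hP' : (1 : ℝ) ≤ P := by exact_mod_cast hP
  unfold box
  rw [Fintype.card_piFinset, Nat.cast_prod, ← Finset.card_univ, ← Finset.prod_const,
    ← Finset.prod_mul_distrib]
  refine Finset.prod_le_prod (fun i _ => by positivity) fun i _ => ?_
  rw [Int.card_Ioc]
  have h1 : (⌊(P : ℝ) * lo i⌋ : ℤ) ≤ ⌊(P : ℝ) * hi i⌋ := Int.floor_le_floor (by
    have := hlo i
    gcongr)
  have h2 : (((⌊(P : ℝ) * hi i⌋ - ⌊(P : ℝ) * lo i⌋).toNat : ℕ) : ℝ) =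
      ((⌊(P : ℝ) * hi i⌋ : ℤ) : ℝ) - ((⌊(P : ℝ) * lo i⌋ : ℤ) : ℝ) := by
    have h3 : (((⌊(P : ℝ) * hi i⌋ - ⌊(P : ℝ) * lo i⌋).toNat : ℕ) : ℤ) =
      ⌊(P : ℝ) * hi i⌋ - ⌊(P : ℝ) * lo i⌋ := Int.toNat_of_nonneg (by omega)
    have h4 : ((((⌊(P : ℝ) * hi i⌋ - ⌊(P : ℝ) * lo i⌋).toNat : ℕ) : ℤ) : ℝ) =
      ((⌊(P : ℝ) * hi i⌋ - ⌊(P : ℝ) * lo i⌋ : ℤ) : ℝ) := by rw [h3]
    rw [Int.cast_natCast] at h4
    rw [h4, Int.cast_sub]
  rw [h2]
  have h5 := Int.floor_le ((P : ℝ) * hi i)
  have h6 := Int.lt_floor_add_one ((P : ℝ) * lo i)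
  have h7 := hlo i
  nlinarith

/-- points with `tau < |b| ≤ P^(1/2-D)` are not on the major arcs -/
private lemma not_major' (D P : ℕ) (hD : 2 ≤ D) (hP : 2 ≤ P) (b : ℝ) (h1 : tau D P < |b|)
    (h2 : |b| ≤ (P : ℝ) ^ ((1 / 2 : ℝ) - D)) : ¬ Major D P b := by
  rintro ⟨q, hq1, hq2, a, h⟩
  have hP0 : (0 : ℝ) < P := by positivity
  have hP2 : (2 : ℝ) ≤ P := by exact_mod_cast hP
  have hP1 : (1 : ℝ) ≤ P := by linarith
  have hPD : 0 < (P : ℝ) ^ D := by positivity
  have hq0 : (1 : ℝ) ≤ q := by exact_mod_cast hq1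
  have hDr : (2 : ℝ) ≤ D := by exact_mod_cast hD
  have hhalf : (P : ℝ) ^ (-(1 : ℝ)) ≤ 1 / 2 := by
    rw [Real.rpow_neg_one]
    rw [inv_le_comm₀ hP0 (by norm_num)]
    norm_num
    exact_mod_cast hP
  have hlt : (P : ℝ) ^ (-(1.4 : ℝ)) < 1 / 2 := by
    refine lt_of_lt_of_le ?_ hhalf
    exact Real.rpow_lt_rpow_of_exponent_lt (by linarith) (by norm_num)
  have h3 : |(q : ℝ) * b| < 1 / 2 := by
    rw [abs_mul, abs_of_pos (by linarith : (0 : ℝ) < q)]
    calc (q : ℝ) * |b| ≤ (P : ℝ) ^ (1 / 10 : ℝ) * (P : ℝ) ^ ((1 / 2 : ℝ) - D) := by gcongr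
      _ = (P : ℝ) ^ ((1 / 10 : ℝ) + ((1 / 2 : ℝ) - D)) := (Real.rpow_add hP0 _ _).symm
      _ ≤ (P : ℝ) ^ (-(1.4 : ℝ)) := Real.rpow_le_rpow_of_exponent_le hP1 (by linarith)
      _ < 1 / 2 := hlt
  have h4 : |(q : ℝ) * b - a| < 1 / 2 := by
    have h5 : |(q : ℝ) * b - a| ≤ (P : ℝ) ^ (1 / 10 : ℝ) / (P : ℝ) ^ D := by
      rw [le_div_iff₀ hPD]; exact h
    refine h5.trans_lt ?_
    rw [← Real.rpow_natCast, ← Real.rpow_sub hP0]
    exact lt_of_le_of_lt (Real.rpow_le_rpow_of_exponent_le hP1 (by linarith)) hlt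
  have h5 : a = 0 := by
    have h6 : |(a : ℝ)| < 1 := by
      calc |(a : ℝ)| = |(q : ℝ) * b - ((q : ℝ) * b - a)| := by congr 1; ring
        _ ≤ |(q : ℝ) * b| + |(q : ℝ) * b - a| := abs_sub _ _
        _ < 1 := by linarith
    rw [← Int.cast_abs] at h6
    have h7 : |a| < 1 := by exact_mod_cast h6
    exact Int.abs_lt_one_iff.1 h7
  rw [h5, Int.cast_zero, sub_zero, abs_mul, abs_of_pos (by linarith : (0 : ℝ) < q)] at h
  have h6 : |b| ≤ (q : ℝ) * |b| := by
    have := abs_nonneg b
    nlinarith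
  have h7 : |b| * (P : ℝ) ^ D ≤ (P : ℝ) ^ (1 / 10 : ℝ) :=
    le_trans (by gcongr) h
  have h8 : |b| ≤ tau D P := by
    unfold tau
    rw [le_div_iff₀ hPD]
    exact h7
  linarith

private lemma core (G : (ι → ℤ) → ℤ) (D P : ℕ) (hD : 2 ≤ D) (hP : 2 ≤ P) (lo hi : ι → ℝ)
    (M : ℝ) (hM : ∀ α : ℝ, ¬ Major D P α → ‖S G P lo hi α‖ ≤ M) (hM0 : 0 ≤ M) :
    let T := (P : ℝ) ^ ((1 / 2 : ℝ) - D)
    4 * T / Real.pi ^ 2 * (((box P lo hi).filter fun x => |((G x : ℤ) : ℝ)| ≤
      (P : ℝ) ^ ((D : ℝ) - 1 / 2) / 2).card : ℝ) - 2 * (T * M)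
        - 2 * tau D P * (tau D P / T * (box P lo hi).card) ≤ (JI G D P lo hi).re := by
  intro T
  have hP0 : (0 : ℝ) < P := by positivity
  have hP2 : (2 : ℝ) ≤ P := by exact_mod_cast hP
  have hP1 : (1 : ℝ) ≤ P := by linarith
  have hT : 0 < T := Real.rpow_pos_of_pos hP0 _
  have hτ : 0 < tau D P := by unfold tau; positivity
  have hτe : tau D P = (P : ℝ) ^ ((1 / 10 : ℝ) - D) := by
    unfold tau
    rw [Real.rpow_sub hP0, Real.rpow_natCast]
  have hτT : tau D P ≤ T := by
    rw [hτe]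
    exact Real.rpow_le_rpow_of_exponent_le hP1 (by linarith)
  set τ := tau D P with hτdef
  set R : ℝ → ℝ := fun b => (S G P lo hi b).re with hR
  have hRc : Continuous R := Complex.continuous_re.comp (continuous_S G P lo hi)
  have hRe : ∀ b, R (-b) = R b := by
    intro b
    simp only [hR, S_re]
    refine Finset.sum_congr rfl fun x _ => ?_
    rw [← Real.cos_neg]
    congr 1
    ring
  have hwc : Continuous fun b : ℝ => 1 - |b| / T := by fun_prop
  have hJ : (JI G D P lo hi).re = ∫ b in (-τ)..τ, R b := by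
    unfold JI
    rw [re_integral]
  -- lower bound of the weighted integral
  have hK : 4 * T / Real.pi ^ 2 * (((box P lo hi).filter fun x => |((G x : ℤ) : ℝ)| ≤
      (P : ℝ) ^ ((D : ℝ) - 1 / 2) / 2).card : ℝ) ≤ ∫ b in (-T)..T, (1 - |b| / T) * R b := by
    have h1 : ∫ b in (-T)..T, (1 - |b| / T) * R b =
        ∑ x ∈ box P lo hi, ∫ b in (-T)..T, (1 - |b| / T) * Real.cos (2 * Real.pi * b * G x) := by
      rw [← intervalIntegral.integral_finset_sum]
      · congr 1
        ext b
        simp only [hR, S_re, Finset.mul_sum]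
      · intro x _
        exact Continuous.intervalIntegrable (hwc.mul (by fun_prop)) _ _
    rw [h1, mul_comm, ← nsmul_eq_mul, ← Finset.sum_const]
    refine le_trans ?_ (Finset.sum_le_sum_of_subset_of_nonneg
      (Finset.filter_subset (fun x => |((G x : ℤ) : ℝ)| ≤ (P : ℝ) ^ ((D : ℝ) - 1 / 2) / 2) _)
      (fun x _ _ => (fejer T (G x) hT).1))
    refine Finset.sum_le_sum fun x hx => ?_
    refine (fejer T (G x) hT).2 ?_
    have h2 := (Finset.mem_filter.1 hx).2
    refine h2.trans (le_of_eq ?_)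
    have h3 : (P : ℝ) ^ ((D : ℝ) - 1 / 2) = T⁻¹ := by
      rw [← Real.rpow_neg hP0.le]
      congr 1
      ring
    rw [h3]
    field_simp
  -- splitting
  have hii : ∀ a b, IntervalIntegrable (fun b => (1 - |b| / T) * R b) MeasureTheory.volume a b :=
    fun a b => (hwc.mul hRc).intervalIntegrable _ _
  have hsplit : ∫ b in (-T)..T, (1 - |b| / T) * R b =
      (∫ b in (-T)..(-τ), (1 - |b| / T) * R b) + (∫ b in (-τ)..τ, (1 - |b| / T) * R b) +
        ∫ b in τ..T, (1 - |b| / T) * R b := by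
    rw [intervalIntegral.integral_add_adjacent_intervals (hii _ _) (hii _ _),
      intervalIntegral.integral_add_adjacent_intervals (hii _ _) (hii _ _)]
  have hsym : (∫ b in (-T)..(-τ), (1 - |b| / T) * R b) = ∫ b in τ..T, (1 - |b| / T) * R b := by
    rw [← intervalIntegral.integral_comp_neg (fun b => (1 - |b| / T) * R b)]
    congr 1
    ext b
    rw [abs_neg, hRe]
  have htail : |∫ b in τ..T, (1 - |b| / T) * R b| ≤ T * M := by
    have h1 : ∀ b ∈ Set.uIoc τ T, ‖(1 - |b| / T) * R b‖ ≤ M := by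
      intro b hb
      rw [Set.uIoc_of_le hτT] at hb
      have hb0 : 0 < b := hτ.trans hb.1
      have hnm := not_major' D P hD hP b (by rw [abs_of_pos hb0]; exact hb.1)
        (by rw [abs_of_pos hb0]; exact hb.2)
      have h2 := hM b hnm
      have h3 : |R b| ≤ ‖S G P lo hi b‖ := Complex.abs_re_le_norm _
      rw [norm_mul, Real.norm_eq_abs, Real.norm_eq_abs, abs_of_pos hb0]
      have h4 : b / T ≤ 1 := by rw [div_le_one hT]; exact hb.2
      have h5 : 0 ≤ b / T := by positivity
      have h6 : |1 - b / T| ≤ 1 := by rw [abs_le]; constructor <;> linarith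
      calc |1 - b / T| * |R b| ≤ 1 * M := by
            gcongr
            exact h3.trans h2
        _ = M := one_mul M
    have h2 := intervalIntegral.norm_integral_le_of_norm_le_const h1
    rw [Real.norm_eq_abs, abs_of_nonneg (by linarith : 0 ≤ T - τ)] at h2
    refine h2.trans ?_
    nlinarith
  have hmid : (∫ b in (-τ)..τ, (1 - |b| / T) * R b) =
      (∫ b in (-τ)..τ, R b) - ∫ b in (-τ)..τ, |b| / T * R b := by
    rw [← intervalIntegral.integral_sub]
    · congr 1
      ext b
      ring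
    · exact hRc.intervalIntegrable _ _
    · exact Continuous.intervalIntegrable ((by fun_prop : Continuous fun b : ℝ => |b| / T).mul hRc) _ _
  have hcen : |∫ b in (-τ)..τ, |b| / T * R b| ≤ 2 * τ * (τ / T * (box P lo hi).card) := by
    have h1 : ∀ b ∈ Set.uIoc (-τ) τ, ‖|b| / T * R b‖ ≤ τ / T * (box P lo hi).card := by
      intro b hb
      rw [Set.uIoc_of_le (by linarith)] at hb
      have h2 : |b| ≤ τ := abs_le.2 ⟨hb.1.le, hb.2⟩
      have h3 : |R b| ≤ (box P lo hi).card := by
        refine (Complex.abs_re_le_norm _).trans ?_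
        unfold S
        refine (norm_sum_le _ _).trans ?_
        simp [norm_e]
      rw [norm_mul, Real.norm_eq_abs, Real.norm_eq_abs, abs_of_nonneg (by positivity : 0 ≤ |b| / T)]
      gcongr
    have h2 := intervalIntegral.norm_integral_le_of_norm_le_const h1
    rw [Real.norm_eq_abs, abs_of_nonneg (by linarith : 0 ≤ τ - -τ)] at h2
    refine h2.trans (le_of_eq ?_)
    ring
  rw [hJ]
  have e1 := abs_le.1 htail
  have e2 := abs_le.1 hcen
  rw [hsplit, hsym, hmid] at hK
  linarith [e1.1, e1.2, e2.1, e2.2]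

/-- lower bound of the (discrete) singular integral -/
theorem JI_lower (G : (ι → ℤ) → ℤ) (D : ℕ) (hD : 2 ≤ D) (hW : WeylBound G D) (lo hi : ι → ℝ)
    (hlo : ∀ i, lo i ≤ hi i) (c : ℝ) (hc : 0 < c) (P₁ : ℕ)
    (hlow : ∀ P : ℕ, P₁ ≤ P → c * (P : ℝ) ^ ((Fintype.card ι : ℝ) - 1 / 2) ≤
        (((box P lo hi).filter fun x =>
          |((G x : ℤ) : ℝ)| ≤ (P : ℝ) ^ ((D : ℝ) - 1 / 2) / 2).card : ℝ)) :
    ∃ c' : ℝ, 0 < c' ∧ ∃ P₀ : ℕ, ∀ P : ℕ, P₀ ≤ P →
      c' * (P : ℝ) ^ (Fintype.card ι) ≤ (JI G D P lo hi).re * (P : ℝ) ^ D := by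
  obtain ⟨P₂, hP₂⟩ := hW lo hi hlo
  set C : ℝ := ∏ i, (hi i - lo i + 1) with hC
  have hC0 : 0 ≤ C := Finset.prod_nonneg fun i _ => by linarith [hlo i]
  have hc' : 0 < c / Real.pi ^ 2 := by positivity
  have hlim1 : ∀ᶠ P : ℕ in Filter.atTop, 2 / (P : ℝ) < c / Real.pi ^ 2 :=
    (tendsto_const_div_atTop_nhds_zero_nat 2).eventually (gt_mem_nhds hc')
  have hlim2 : ∀ᶠ P : ℕ in Filter.atTop, 2 * C * (P : ℝ) ^ (-(3 / 10 : ℝ)) < c / Real.pi ^ 2 := by
    have h1 : Filter.Tendsto (fun P : ℕ => 2 * C * (P : ℝ) ^ (-(3 / 10 : ℝ))) Filter.atTop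
        (nhds (2 * C * 0)) :=
      ((tendsto_rpow_neg_atTop (by norm_num : (0 : ℝ) < 3 / 10)).comp
        tendsto_natCast_atTop_atTop).const_mul (2 * C)
    rw [mul_zero] at h1
    exact h1.eventually (gt_mem_nhds hc')
  obtain ⟨P₃, hP₃⟩ := Filter.eventually_atTop.1 (hlim1.and hlim2)
  refine ⟨2 * (c / Real.pi ^ 2), by positivity, max (max P₁ P₂) (max P₃ 2), fun P hP => ?_⟩
  have hPa : P₁ ≤ P := le_trans (le_trans (le_max_left _ _) (le_max_left _ _)) hP
  have hPb : P₂ ≤ P := le_trans (le_trans (le_max_right _ _) (le_max_left _ _)) hP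
  have hPc : P₃ ≤ P := le_trans (le_trans (le_max_left _ _) (le_max_right _ _)) hP
  have hPd : 2 ≤ P := le_trans (le_trans (le_max_right _ _) (le_max_right _ _)) hP
  have hP0 : (0 : ℝ) < P := by positivity
  have hP2 : (2 : ℝ) ≤ P := by exact_mod_cast hPd
  have hP1 : (1 : ℝ) ≤ P := by linarith
  obtain ⟨l1, l2⟩ := hP₃ P hPc
  set n := Fintype.card ι with hn
  have hPD : 0 < (P : ℝ) ^ D := by positivity
  have hPn : 0 < (P : ℝ) ^ n := by positivity
  have hM : ∀ α : ℝ, ¬ Major D P α → ‖S G P lo hi α‖ ≤ (P : ℝ) ^ n / (P : ℝ) ^ (D + 1) := by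
    intro α hα
    rw [le_div_iff₀ (by positivity)]
    exact hP₂ P hPb α hα
  have hcore := core G D P hD hPd lo hi _ hM (by positivity)
  simp only at hcore
  set T := (P : ℝ) ^ ((1 / 2 : ℝ) - D) with hTdef
  have hT : 0 < T := Real.rpow_pos_of_pos hP0 _
  have hτe : tau D P = (P : ℝ) ^ ((1 / 10 : ℝ) - D) := by
    unfold tau
    rw [Real.rpow_sub hP0, Real.rpow_natCast]
  have hN := hlow P hPa
  set N := (((box P lo hi).filter fun x =>
          |((G x : ℤ) : ℝ)| ≤ (P : ℝ) ^ ((D : ℝ) - 1 / 2) / 2).card : ℝ) with hNdef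
  have hB := card_box P (by omega) lo hi hlo
  rw [← hC, ← hn] at hB
  have hTD : T * (P : ℝ) ^ D = (P : ℝ) ^ (1 / 2 : ℝ) := by
    rw [hTdef, ← Real.rpow_natCast, ← Real.rpow_add hP0]
    congr 1
    ring
  have t1 : 4 * (c / Real.pi ^ 2) * (P : ℝ) ^ n ≤ 4 * T / Real.pi ^ 2 * N * (P : ℝ) ^ D := by
    have h1 : (P : ℝ) ^ n = (P : ℝ) ^ ((n : ℝ) - 1 / 2) * (T * (P : ℝ) ^ D) := by
      rw [hTD, ← Real.rpow_add hP0, ← Real.rpow_natCast]
      congr 1
      ring
    rw [h1]
    calc 4 * (c / Real.pi ^ 2) * ((P : ℝ) ^ ((n : ℝ) - 1 / 2) * (T * (P : ℝ) ^ D))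
        = 4 * T / Real.pi ^ 2 * (c * (P : ℝ) ^ ((n : ℝ) - 1 / 2)) * (P : ℝ) ^ D := by ring
      _ ≤ 4 * T / Real.pi ^ 2 * N * (P : ℝ) ^ D := by gcongr
  have t2 : 2 * (T * ((P : ℝ) ^ n / (P : ℝ) ^ (D + 1))) * (P : ℝ) ^ D ≤
      c / Real.pi ^ 2 * (P : ℝ) ^ n := by
    have hT1 : T ≤ 1 := by
      rw [hTdef]
      refine Real.rpow_le_one_of_one_le_of_nonpos hP1 ?_
      have : (2 : ℝ) ≤ D := by exact_mod_cast hD
      linarith
    have h1 : 2 * (T * ((P : ℝ) ^ n / (P : ℝ) ^ (D + 1))) * (P : ℝ) ^ D =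
        T * ((2 / (P : ℝ)) * (P : ℝ) ^ n) := by
      rw [pow_succ (P : ℝ) D]
      field_simp
    rw [h1]
    calc T * ((2 / (P : ℝ)) * (P : ℝ) ^ n) ≤ 1 * (c / Real.pi ^ 2 * (P : ℝ) ^ n) := by
          gcongr
      _ = c / Real.pi ^ 2 * (P : ℝ) ^ n := one_mul _
  have t3 : 2 * tau D P * (tau D P / T * (box P lo hi).card) * (P : ℝ) ^ D ≤
      c / Real.pi ^ 2 * (P : ℝ) ^ n := by
    have h1 : tau D P * (tau D P / T) * (P : ℝ) ^ D = (P : ℝ) ^ (-(3 / 10 : ℝ)) := by
      rw [hτe, hTdef, ← Real.rpow_sub hP0, ← Real.rpow_add hP0, ← Real.rpow_natCast,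
        ← Real.rpow_add hP0]
      congr 1
      ring
    have h2 : 2 * tau D P * (tau D P / T * (box P lo hi).card) * (P : ℝ) ^ D =
        2 * (box P lo hi).card * (tau D P * (tau D P / T) * (P : ℝ) ^ D) := by ring
    rw [h2, h1]
    calc 2 * ((box P lo hi).card : ℝ) * (P : ℝ) ^ (-(3 / 10 : ℝ))
        ≤ 2 * (C * (P : ℝ) ^ n) * (P : ℝ) ^ (-(3 / 10 : ℝ)) := by gcongr
      _ = 2 * C * (P : ℝ) ^ (-(3 / 10 : ℝ)) * (P : ℝ) ^ n := by ring
      _ ≤ c / Real.pi ^ 2 * (P : ℝ) ^ n := by gcongr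
  have hfin := mul_le_mul_of_nonneg_right hcore hPD.le
  rw [sub_mul, sub_mul] at hfin
  linarith

/-- the truncated singular integral is real -/
theorem JI_im (G : (ι → ℤ) → ℤ) (D P : ℕ) (lo hi : ι → ℝ) : (JI G D P lo hi).im = 0 := by
  unfold JI
  rw [im_integral]
  have h : ∫ β in (-tau D P)..(tau D P), (S G P lo hi β).im =
      ∫ β in (-tau D P)..(tau D P), -(S G P lo hi β).im := by
    have h1 := intervalIntegral.integral_comp_neg (a := -tau D P) (b := tau D P)
      (fun b => (S G P lo hi b).im)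
    rw [neg_neg] at h1
    rw [← h1]
    congr 1
    ext b
    simp only [S_im, ← Finset.sum_neg_distrib]
    refine Finset.sum_congr rfl fun x _ => ?_
    rw [← Real.sin_neg]
    congr 1
    ring
  rw [intervalIntegral.integral_neg] at h
  linarith

end Pool.Agent.Lib.MP_c0a553_nt
end
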