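import Pool.Agent.Lib.MP_c0a553_nt.Defs
import Pool.Agent.Lib.MP_c0a553_nt.PDefs
import Pool.Agent.Lib.MP_c0a553_nt.Holder
import Pool.Agent.Lib.MP_c0a553_nt.Energy

section

/-! # Maximal off-diagonal block (job HP-17) -/

namespace Pool.Agent.Lib.MP_c0a553_nt

open Finset

theorem offdiag {s : ℕ} (M : Matrix (Fin s) (Fin s) ℚ) (r₀ : ℕ) :
    (∃ U W : Fin r₀ → Fin s, Function.Injective U ∧ Function.Injective W ∧ (∀ a b, U a ≠ W b) ∧
      (M.submatrix U W).det ≠ 0) ∨
    ∃ r < r₀, ∃ U W : Fin r → Fin s, Function.Injective U ∧ Function.Injective W ∧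
      (∀ a b, U a ≠ W b) ∧ (M.submatrix U W).det ≠ 0 ∧
      ∀ i j, i ≠ j → (∀ a, i ≠ U a ∧ i ≠ W a) → (∀ a, j ≠ U a ∧ j ≠ W a) →
        M i j = ∑ a, ∑ b, M i (W a) * (M.submatrix U W)⁻¹ a b * M (U b) j := by
  classical
  obtain ⟨Q, hQd⟩ : ∃ Q : ℕ → Prop, ∀ r, Q r ↔ ∃ U W : Fin r → Fin s, Function.Injective U ∧
      Function.Injective W ∧ (∀ a b, U a ≠ W b) ∧ (M.submatrix U W).det ≠ 0 :=
    ⟨_, fun r => Iff.rfl⟩
  by_cases h : Q r₀
  · exact Or.inl ((hQd r₀).1 h)
  right
  have h0 : Q 0 := (hQd 0).2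
    ⟨Fin.elim0, Fin.elim0, fun a => a.elim0, fun a => a.elim0, fun a => a.elim0, by simp⟩
  obtain ⟨r, hr, hQ, hnQ⟩ : ∃ r < r₀, Q r ∧ ¬ Q (r+1) := by
    by_contra hcon
    push Not at hcon
    apply h
    have : ∀ r ≤ r₀, Q r := by
      intro r
      induction r with
      | zero => intro _; exact h0
      | succ r ih => intro hr; exact hcon r (by omega) (ih (by omega))
    exact this r₀ le_rfl
  obtain ⟨U, W, hU, hW, hUW, hdet⟩ := (hQd r).1 hQ
  refine ⟨r, hr, U, W, hU, hW, hUW, hdet, ?_⟩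
  intro i j hij hi hj
  obtain ⟨U', hU'⟩ : ∃ U' : Fin r ⊕ Fin 1 → Fin s, U' = Sum.elim U (fun _ => i) := ⟨_, rfl⟩
  obtain ⟨W', hW'⟩ : ∃ W' : Fin r ⊕ Fin 1 → Fin s, W' = Sum.elim W (fun _ => j) := ⟨_, rfl⟩
  have hinjU : Function.Injective U' := by
    rw [hU']
    rintro (a | a) (b | b) hab
    · exact congrArg Sum.inl (hU hab)
    · exact absurd (Eq.symm hab) (hi a).1
    · exact absurd hab (hi b).1
    · exact congrArg Sum.inr (Subsingleton.elim a b)
  have hinjW : Function.Injective W' := by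
    rw [hW']
    rintro (a | a) (b | b) hab
    · exact congrArg Sum.inl (hW hab)
    · exact absurd (Eq.symm hab) (hj a).2
    · exact absurd hab (hj b).2
    · exact congrArg Sum.inr (Subsingleton.elim a b)
  have hdisj : ∀ a b, U' a ≠ W' b := by
    rw [hU', hW']
    rintro (a | a) (b | b)
    · exact hUW a b
    · exact fun h => (hj a).1 h.symm
    · exact (hi b).2
    · exact hij
  have hz : (M.submatrix U' W').det = 0 := by
    by_contra hne
    apply hnQ
    rw [hQd]
    refine ⟨U' ∘ finSumFinEquiv.symm, W' ∘ finSumFinEquiv.symm,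
      hinjU.comp finSumFinEquiv.symm.injective, hinjW.comp finSumFinEquiv.symm.injective,
      fun a b => hdisj _ _, ?_⟩
    have e1 : M.submatrix (U' ∘ finSumFinEquiv.symm) (W' ∘ finSumFinEquiv.symm) =
        (M.submatrix U' W').submatrix finSumFinEquiv.symm finSumFinEquiv.symm := rfl
    rw [e1, Matrix.det_submatrix_equiv_self]
    exact hne
  have hB : M.submatrix U' W' = Matrix.fromBlocks (M.submatrix U W)
      (M.submatrix U (fun _ : Fin 1 => j)) (M.submatrix (fun _ : Fin 1 => i) W)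
      (M.submatrix (fun _ : Fin 1 => i) (fun _ : Fin 1 => j)) := by
    rw [hU', hW']
    ext (a | a) (b | b) <;> rfl
  have hunit : IsUnit (M.submatrix U W).det := isUnit_iff_ne_zero.2 hdet
  have : Invertible (M.submatrix U W) := Matrix.invertibleOfIsUnitDet _ hunit
  rw [hB, Matrix.det_fromBlocks₁₁] at hz
  have hz2 := (mul_eq_zero.1 hz).resolve_left hdet
  rw [Matrix.det_fin_one, Matrix.sub_apply, Matrix.mul_apply, Matrix.invOf_eq_nonsing_inv] at hz2
  have hz3 : M i j = ∑ b, ((M.submatrix (fun _ : Fin 1 => i) W) * (M.submatrix U W)⁻¹) 0 b *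
      M (U b) j := sub_eq_zero.1 hz2
  rw [hz3, Finset.sum_comm]
  apply Finset.sum_congr rfl
  intro b _
  rw [Matrix.mul_apply, Finset.sum_mul]
  rfl

end Pool.Agent.Lib.MP_c0a553_nt
end

section

/-! # Diagonal plus low rank (job HP-18) -/

namespace Pool.Agent.Lib.MP_c0a553_nt

open Finset

theorem diag_count {s : ℕ} (M : Matrix (Fin s) (Fin s) ℚ) (hM : M.det ≠ 0) (r : ℕ)
    (U W : Fin r → Fin s) (hU : Function.Injective U) (hW : Function.Injective W)
    (hUW : ∀ a b, U a ≠ W b) (L : Matrix (Fin r) (Fin r) ℚ)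
    (hL : ∀ i j, i ≠ j → (∀ a, i ≠ U a ∧ i ≠ W a) → (∀ a, j ≠ U a ∧ j ≠ W a) →
        M i j = ∑ a, ∑ b, M i (W a) * L a b * M (U b) j) :
    s ≤ (Finset.univ.filter fun i => (∀ a, i ≠ U a ∧ i ≠ W a) ∧
      M i i ≠ ∑ a, ∑ b, M i (W a) * L a b * M (U b) i).card + 5 * r := by
  classical
  obtain ⟨O, hO⟩ : ∃ O : Finset (Fin s), O = Finset.univ.filter
      (fun i => ∀ a, i ≠ U a ∧ i ≠ W a) := ⟨_, rfl⟩
  obtain ⟨Z, hZ⟩ : ∃ Z : Finset (Fin s), Z = O.filter
      (fun i => M i i = ∑ a, ∑ b, M i (W a) * L a b * M (U b) i) := ⟨_, rfl⟩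
  have hmO : ∀ i, i ∈ O ↔ ∀ a, i ≠ U a ∧ i ≠ W a := fun i => by rw [hO]; simp
  have hmZ : ∀ i, i ∈ Z ↔ i ∈ O ∧ M i i = ∑ a, ∑ b, M i (W a) * L a b * M (U b) i :=
    fun i => by rw [hZ, Finset.mem_filter]
  have hF : (Finset.univ.filter fun i => (∀ a, i ≠ U a ∧ i ≠ W a) ∧
      M i i ≠ ∑ a, ∑ b, M i (W a) * L a b * M (U b) i) = O.filter
      (fun i => ¬ (M i i = ∑ a, ∑ b, M i (W a) * L a b * M (U b) i)) := by
    ext i
    rw [Finset.mem_filter, Finset.mem_filter, hmO]
    simp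
  have hcO : Z.card + (Finset.univ.filter fun i => (∀ a, i ≠ U a ∧ i ≠ W a) ∧
      M i i ≠ ∑ a, ∑ b, M i (W a) * L a b * M (U b) i).card = O.card := by
    rw [hF, hZ, Finset.card_filter_add_card_filter_not]
  have hcs : s ≤ O.card + r + r := by
    have h1 : (Finset.univ : Finset (Fin s)) ⊆
        (O ∪ (Finset.univ.image U)) ∪ (Finset.univ.image W) := by
      intro i _
      by_cases hi : i ∈ O
      · exact Finset.mem_union_left _ (Finset.mem_union_left _ hi)
      · rw [hmO] at hi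
        push Not at hi
        obtain ⟨a, ha⟩ := hi
        by_cases h2 : i = U a
        · exact Finset.mem_union_left _ (Finset.mem_union_right _
            (Finset.mem_image.2 ⟨a, Finset.mem_univ _, h2.symm⟩))
        · exact Finset.mem_union_right _
            (Finset.mem_image.2 ⟨a, Finset.mem_univ _, (ha h2).symm⟩)
    have h2 := Finset.card_le_card h1
    have h3 := Finset.card_union_le (O ∪ (Finset.univ.image U)) (Finset.univ.image W)
    have h4 := Finset.card_union_le O (Finset.univ.image U)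
    have h5 : (Finset.univ.image U).card ≤ r := by
      simpa using (Finset.card_image_le (s := (Finset.univ : Finset (Fin r))) (f := U))
    have h6 : (Finset.univ.image W).card ≤ r := by
      simpa using (Finset.card_image_le (s := (Finset.univ : Finset (Fin r))) (f := W))
    rw [Finset.card_univ, Fintype.card_fin] at h2
    omega
  suffices hZc : Z.card ≤ 3 * r by omega
  by_contra hcon
  push Not at hcon
  -- linear algebra
  obtain ⟨kap, hkap⟩ : ∃ kap : Fin s → Fin r → ℚ, ∀ i b, kap i b = ∑ a, M i (W a) * L a b :=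
    ⟨_, fun _ _ => rfl⟩
  have hMij : ∀ i ∈ Z, ∀ j ∈ O, M i j = ∑ b, kap i b * M (U b) j := by
    intro i hi j hj
    have h1 : M i j = ∑ a, ∑ b, M i (W a) * L a b * M (U b) j := by
      by_cases hij : i = j
      · rw [← hij]
        exact ((hmZ i).1 hi).2
      · exact hL i j hij ((hmO i).1 ((hmZ i).1 hi).1) ((hmO j).1 hj)
    rw [h1, Finset.sum_comm]
    apply Finset.sum_congr rfl
    intro b _
    rw [hkap, Finset.sum_mul]
  let K : Matrix ((Fin r ⊕ Fin r) ⊕ (Fin r ⊕ {i : Fin s // i ∉ Z})) (Fin s) ℚ :=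
    Sum.elim (Sum.elim (fun b i => kap i b) (fun a i => M i (W a)))
      (Sum.elim (fun a i => M i (U a)) (fun z i => if z.1 = i then 1 else 0))
  have hZs : Z.card ≤ s := by
    have := Finset.card_le_univ Z
    simpa using this
  have hrank : Module.finrank ℚ (((Fin r ⊕ Fin r) ⊕ (Fin r ⊕ {i : Fin s // i ∉ Z})) → ℚ) <
      Module.finrank ℚ (Fin s → ℚ) := by
    rw [Module.finrank_fintype_fun_eq_card, Module.finrank_fintype_fun_eq_card, Fintype.card_sum,
      Fintype.card_sum, Fintype.card_sum, Fintype.card_fin, Fintype.card_fin]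
    have h1 : Fintype.card {i : Fin s // i ∉ Z} = s - Z.card := by
      rw [Fintype.card_subtype_compl, Fintype.card_fin, Fintype.card_coe]
    omega
  have hker := LinearMap.ker_ne_bot_of_finrank_lt (f := K.mulVecLin) hrank
  obtain ⟨y, hy, hy0⟩ := Submodule.exists_mem_ne_zero_of_ne_bot hker
  rw [LinearMap.mem_ker, Matrix.mulVecLin_apply] at hy
  have hy1 : ∀ b, ∑ i, kap i b * y i = 0 := fun b => congrFun hy (Sum.inl (Sum.inl b))
  have hy2 : ∀ a, ∑ i, M i (W a) * y i = 0 := fun a => congrFun hy (Sum.inl (Sum.inr a))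
  have hy3 : ∀ a, ∑ i, M i (U a) * y i = 0 := fun a => congrFun hy (Sum.inr (Sum.inl a))
  have hy4 : ∀ i, i ∉ Z → y i = 0 := by
    intro i hi
    have h1 : ∑ j, (if i = j then (1:ℚ) else 0) * y j = 0 :=
      congrFun hy (Sum.inr (Sum.inr ⟨i, hi⟩))
    simpa using h1
  have hv : Matrix.vecMul y M = 0 := by
    ext j
    have h0 : Matrix.vecMul y M j = ∑ i, M i j * y i := by
      rw [Matrix.vecMul, dotProduct]
      exact Finset.sum_congr rfl (fun i _ => mul_comm _ _)
    rw [h0, Pi.zero_apply]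
    by_cases hj : j ∈ O
    · have h1 : ∀ i, M i j * y i = ∑ b, (kap i b * y i) * M (U b) j := by
        intro i
        by_cases hi : i ∈ Z
        · rw [hMij i hi j hj, Finset.sum_mul]
          exact Finset.sum_congr rfl (fun b _ => by ring)
        · rw [hy4 i hi]; simp
      rw [Finset.sum_congr rfl (fun i _ => h1 i), Finset.sum_comm]
      apply Finset.sum_eq_zero
      intro b _
      rw [← Finset.sum_mul, hy1, zero_mul]
    · rw [hmO] at hj
      push Not at hj
      obtain ⟨a, ha⟩ := hj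
      by_cases h2 : j = U a
      · rw [h2]; exact hy3 a
      · rw [ha h2]; exact hy2 a
  exact hM (Matrix.exists_vecMul_eq_zero_iff.1 ⟨y, hy0, hv⟩)

theorem dichotomy {s : ℕ} (M : Matrix (Fin s) (Fin s) ℤ) (hM : M.det ≠ 0) (r₀ v : ℕ)
    (hs : v + 5 * r₀ ≤ s) :
    (∃ U W : Fin r₀ → Fin s, Function.Injective U ∧ Function.Injective W ∧ (∀ a b, U a ≠ W b) ∧
      (M.submatrix U W).det ≠ 0) ∨
    ∃ (V : Finset (Fin s)) (m : ℕ) (c : Fin m → Fin s → ℤ) (N : Matrix (Fin m) (Fin m) ℚ)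
      (d : Fin s → ℚ), m ≤ 2 * r₀ ∧ v ≤ V.card ∧ (∀ i ∈ V, d i ≠ 0) ∧
      ∀ i ∈ V, ∀ j ∈ V, (M i j : ℚ) =
        (if i = j then d i else 0) + ∑ a, ∑ b, N a b * c a i * c b j := by
  have hdetc : (M.map (Int.cast : ℤ → ℚ)).det ≠ 0 := by
    have h1 : ((M.det : ℤ) : ℚ) = (M.map (Int.cast : ℤ → ℚ)).det := Int.cast_det M
    rw [← h1]
    exact_mod_cast hM
  rcases offdiag (M.map (Int.cast : ℤ → ℚ)) r₀ with ⟨U, W, hU, hW, hUW, hd⟩ |
      ⟨r, hr, U, W, hU, hW, hUW, hd, hL⟩
  · left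
    refine ⟨U, W, hU, hW, hUW, fun h0 => hd ?_⟩
    have h1 : (((M.submatrix U W).det : ℤ) : ℚ) =
        ((M.submatrix U W).map (Int.cast : ℤ → ℚ)).det := Int.cast_det _
    have h2 : (M.map (Int.cast : ℤ → ℚ)).submatrix U W =
        (M.submatrix U W).map (Int.cast : ℤ → ℚ) := rfl
    rw [h2, ← h1, h0, Int.cast_zero]
  · right
    obtain ⟨L, hLd⟩ : ∃ L, L = ((M.map (Int.cast : ℤ → ℚ)).submatrix U W)⁻¹ := ⟨_, rfl⟩
    rw [← hLd] at hL
    have hcount := diag_count (M.map (Int.cast : ℤ → ℚ)) hdetc r U W hU hW hUW L hL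
    refine ⟨_, r + r, fun a i => Sum.elim (fun a => M i (W a)) (fun b => M (U b) i)
      (finSumFinEquiv.symm a), fun a b => (Matrix.fromBlocks 0 L 0 0 :
        Matrix (Fin r ⊕ Fin r) (Fin r ⊕ Fin r) ℚ) (finSumFinEquiv.symm a) (finSumFinEquiv.symm b),
      fun i => (M i i : ℚ) - ∑ a, ∑ b, (M i (W a) : ℚ) * L a b * M (U b) i, by omega,
      le_trans ?_ (Nat.sub_le_iff_le_add.2 hcount), ?_, ?_⟩
    · omega
    · intro i hi
      rw [Finset.mem_filter] at hi
      exact sub_ne_zero.2 hi.2.2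
    · intro i hi j hj
      rw [Finset.mem_filter] at hi hj
      have hsum : (∑ a : Fin (r + r), ∑ b : Fin (r + r),
          (Matrix.fromBlocks 0 L 0 0 : Matrix (Fin r ⊕ Fin r) (Fin r ⊕ Fin r) ℚ)
            (finSumFinEquiv.symm a) (finSumFinEquiv.symm b) *
          ((Sum.elim (fun a => M i (W a)) (fun b => M (U b) i) (finSumFinEquiv.symm a) : ℤ) : ℚ) *
          ((Sum.elim (fun a => M j (W a)) (fun b => M (U b) j) (finSumFinEquiv.symm b) : ℤ) : ℚ)) =
          ∑ a, ∑ b, (M i (W a) : ℚ) * L a b * M (U b) j := by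
        have e1 : ∀ a : Fin r ⊕ Fin r, (∑ b : Fin (r + r),
          (Matrix.fromBlocks 0 L 0 0 : Matrix (Fin r ⊕ Fin r) (Fin r ⊕ Fin r) ℚ)
            a (finSumFinEquiv.symm b) *
          ((Sum.elim (fun a => M i (W a)) (fun b => M (U b) i) a : ℤ) : ℚ) *
          ((Sum.elim (fun a => M j (W a)) (fun b => M (U b) j) (finSumFinEquiv.symm b) : ℤ) : ℚ)) =
          ∑ b : Fin r ⊕ Fin r,
          (Matrix.fromBlocks 0 L 0 0 : Matrix (Fin r ⊕ Fin r) (Fin r ⊕ Fin r) ℚ) a b *
          ((Sum.elim (fun a => M i (W a)) (fun b => M (U b) i) a : ℤ) : ℚ) *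
          ((Sum.elim (fun a => M j (W a)) (fun b => M (U b) j) b : ℤ) : ℚ) := fun a =>
          Equiv.sum_comp finSumFinEquiv.symm (fun b : Fin r ⊕ Fin r =>
            (Matrix.fromBlocks 0 L 0 0 : Matrix (Fin r ⊕ Fin r) (Fin r ⊕ Fin r) ℚ) a b *
          ((Sum.elim (fun a => M i (W a)) (fun b => M (U b) i) a : ℤ) : ℚ) *
          ((Sum.elim (fun a => M j (W a)) (fun b => M (U b) j) b : ℤ) : ℚ))
        rw [Finset.sum_congr rfl (fun a _ => e1 _)]
        rw [Equiv.sum_comp finSumFinEquiv.symm (fun a : Fin r ⊕ Fin r => ∑ b : Fin r ⊕ Fin r,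
          (Matrix.fromBlocks 0 L 0 0 : Matrix (Fin r ⊕ Fin r) (Fin r ⊕ Fin r) ℚ) a b *
          ((Sum.elim (fun a => M i (W a)) (fun b => M (U b) i) a : ℤ) : ℚ) *
          ((Sum.elim (fun a => M j (W a)) (fun b => M (U b) j) b : ℤ) : ℚ))]
        simp only [Fintype.sum_sum_type, Matrix.fromBlocks_apply₁₁, Matrix.fromBlocks_apply₁₂,
          Matrix.fromBlocks_apply₂₁, Matrix.fromBlocks_apply₂₂, Matrix.zero_apply, Sum.elim_inl,
          Sum.elim_inr, zero_mul, Finset.sum_const_zero, zero_add, add_zero]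
        refine Finset.sum_congr rfl (fun a _ => Finset.sum_congr rfl (fun b _ => ?_))
        ring
      show (M i j : ℚ) = _ + _
      rw [hsum]
      by_cases hij : i = j
      · subst hij
        rw [if_pos rfl]
        ring
      · rw [if_neg hij, zero_add]
        exact hL i j hij hi.2.1 hj.2.1

end Pool.Agent.Lib.MP_c0a553_nt
end

section

/-! # Induction on the number of equations (job HQ-9) -/

namespace Pool.Agent.Lib.MP_c0a553_nt

open Finset

private theorem si_extend_sum {K ι κ : Type} [Field K] [Fintype ι] [Fintype κ] [DecidableEq ι]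
    {k : ℕ} (hk : 1 ≤ k) (e : κ → ι) (he : Function.Injective e) (b : ι → K) (y : κ → K) :
    ∑ i, b i * (Function.extend e y 0 i) ^ k = ∑ j, b (e j) * y j ^ k := by
  rw [← Finset.sum_subset (Finset.subset_univ (univ.image e)), Finset.sum_image]
  · refine Finset.sum_congr rfl fun j _ => ?_
    rw [he.extend_apply]
  · intro x _ x' _ h
    exact he h
  · intro i _ hi
    have h : ¬ ∃ j, e j = i := by
      rintro ⟨j, hj⟩
      exact hi (Finset.mem_image.2 ⟨j, Finset.mem_univ _, hj⟩)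
    rw [Function.extend_apply' _ _ _ h, Pi.zero_apply, zero_pow (by omega), mul_zero]

private theorem si_extend_ne {K ι κ : Type} [Field K] (e : κ → ι) (he : Function.Injective e)
    {y : κ → K} (hy : y ≠ 0) : Function.extend e y 0 ≠ (0 : ι → K) := by
  intro h
  apply hy
  funext j
  have := congrFun h (e j)
  rwa [he.extend_apply] at this

/-- either `r` of the vectors are independent, or there is a linear relation -/
private theorem si_alt {K κ : Type} [Field K] {r : ℕ} (a : κ → Fin r → K)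
    (h : ∀ g : Fin r → κ, (Matrix.of (fun j => a (g j))).det = 0) :
    ∃ w : Fin r → K, w ≠ 0 ∧ ∀ i, ∑ l, w l * a i l = 0 := by
  have hspan : Submodule.span K (Set.range a) ≠ ⊤ := by
    intro htop
    obtain ⟨b, hb1, hb2, hb3⟩ := exists_linearIndependent K (Set.range a)
    rw [htop] at hb2
    have hB : Module.Basis b K (Fin r → K) := Module.Basis.mk hb3 (by
      rw [Subtype.range_coe_subtype]
      show ⊤ ≤ Submodule.span K {x | x ∈ b}
      rw [Set.ofPred_mem_eq, hb2])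
    have hfin : Finite b := hb3.finite
    have : Fintype b := Fintype.ofFinite b
    have hcard : Fintype.card b = r := by
      rw [← Module.finrank_eq_card_basis hB, Module.finrank_fin_fun]
    let σ : Fin r ≃ b := (Fintype.equivFinOfCardEq hcard).symm
    have hg : ∀ j : Fin r, ∃ i, a i = (σ j : Fin r → K) := fun j => hb1 (σ j).2
    choose g hg using hg
    have hli : LinearIndependent K (fun j => a (g j)) := by
      have h1 : (fun j => a (g j)) = (Subtype.val : b → (Fin r → K)) ∘ σ := by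
        funext j
        exact hg j
      rw [h1]
      exact hb3.comp σ σ.injective
    have hu : IsUnit (Matrix.of (fun j => a (g j))) :=
      Matrix.linearIndependent_rows_iff_isUnit.1 hli
    have := (Matrix.isUnit_iff_isUnit_det _).1 hu
    rw [h g] at this
    exact not_isUnit_zero this
  obtain ⟨f, hf0, hf⟩ := Submodule.exists_le_ker_of_lt_top _ (lt_top_iff_ne_top.2 hspan)
  have hfx : ∀ x : Fin r → K, f x = ∑ l, f (Pi.single l 1) * x l := by
    intro x
    conv_lhs => rw [LinearMap.pi_apply_eq_sum_univ f x]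
    refine Finset.sum_congr rfl fun l _ => ?_
    rw [smul_eq_mul, mul_comm]
    congr 2
    funext j
    rw [Pi.single_apply]
    by_cases hlj : l = j
    · subst hlj; simp
    · rw [if_neg hlj, if_neg (fun h => hlj h.symm)]
  refine ⟨fun l => f (Pi.single l 1), ?_, ?_⟩
  · intro hw
    apply hf0
    ext x
    have := hfx (Pi.single x 1)
    rw [LinearMap.comp_apply, LinearMap.single_apply, LinearMap.zero_comp, LinearMap.zero_apply]
    exact congrFun hw x
  · intro i
    rw [← hfx]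
    exact hf (Submodule.subset_span ⟨i, rfl⟩)

private theorem si_num (r k c m C : ℕ) (hC : Nsys (r + 1) k ≤ C)
    (hm : m < k * ((r + 1) * k ^ 3 + 1)) (hc : c + m * (r + 1) = C) : Nsys r k ≤ c := by
  unfold Nsys at *
  obtain ⟨M, hM⟩ : ∃ M, M = k * ((r + 1) * k ^ 3 + 1) := ⟨_, rfl⟩
  obtain ⟨M', hM'⟩ : ∃ M', M' = k * (r * k ^ 3 + 1) := ⟨_, rfl⟩
  rw [← hM] at hC hm
  rw [← hM']
  have hle : M' ≤ M := by
    rw [hM, hM']
    apply Nat.mul_le_mul_left
    apply Nat.add_le_add_right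
    apply Nat.mul_le_mul_right
    omega
  have h1 : m * (r + 1) ≤ M * (r + 1) := Nat.mul_le_mul_right _ hm.le
  have h2 : r ^ 2 * M' ≤ r ^ 2 * M := Nat.mul_le_mul_left _ hle
  have h3 : (r + 1) ^ 2 * M = r ^ 2 * M + r * M + M * (r + 1) := by ring
  have h4 : 0 ≤ r * M := Nat.zero_le _
  omega

private theorem si_main (K : Type) [Field K] (k : ℕ) (hk : 1 ≤ k)
    (hB : ∀ r m : ℕ, 1 ≤ r → k * (r * k ^ 3 + 1) ≤ m → ∀ a : Fin m → Fin r → Fin r → K,
      (∀ t, (Matrix.of (a t)).det ≠ 0) → ∃ y : Fin m → Fin r → K, (∃ t j, y t j ≠ 0) ∧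
        ∀ l, ∑ t, ∑ j, a t j l * y t j ^ k = 0) :
    ∀ (r : ℕ) (ι : Type) [Fintype ι] [DecidableEq ι], Nsys r k ≤ Fintype.card ι →
      ∀ a : ι → Fin r → K, ∃ y : ι → K, y ≠ 0 ∧ ∀ l, ∑ i, a i l * y i ^ k = 0 := by
  intro r
  induction r with
  | zero =>
    intro ι _ _ hn a
    have hpos : 0 < Fintype.card ι := by
      unfold Nsys at hn
      omega
    obtain ⟨i⟩ := Fintype.card_pos_iff.1 hpos
    refine ⟨fun _ => 1, ?_, fun l => l.elim0⟩
    intro h
    exact one_ne_zero (congrFun h i)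
  | succ r ih =>
    intro ι _ _ hn a
    obtain ⟨m0, hm0⟩ : ∃ m0, m0 = k * ((r + 1) * k ^ 3 + 1) := ⟨_, rfl⟩
    let P : ℕ → Prop := fun m => ∃ f : Fin m × Fin (r + 1) → ι, Function.Injective f ∧
      ∀ t, (Matrix.of (fun j => a (f (t, j)))).det ≠ 0
    by_cases hP : P m0
    · obtain ⟨f, hf, hdet⟩ := hP
      obtain ⟨y, ⟨t, j, htj⟩, hy⟩ := hB (r + 1) m0 (by omega) hm0.ge
        (fun t j => a (f (t, j))) hdet
      refine ⟨Function.extend f (fun p => y p.1 p.2) 0, si_extend_ne f hf ?_, fun l => ?_⟩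
      · intro h
        exact htj (congrFun h (t, j))
      · rw [si_extend_sum hk f hf (fun i => a i l), Fintype.sum_prod_type]
        exact hy l
    · have hP0 : P 0 := ⟨fun p => p.1.elim0, fun p => p.1.elim0, fun t => t.elim0⟩
      have hex : ∃ m, m < m0 ∧ P m ∧ ¬ P (m + 1) := by
        by_contra hcon
        push Not at hcon
        have : ∀ m, m ≤ m0 → P m := by
          intro m
          induction m with
          | zero => exact fun _ => hP0
          | succ m ihm => exact fun hm => hcon m (by omega) (ihm (by omega))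
        exact hP (this m0 le_rfl)
      obtain ⟨m, hm, ⟨f, hf, hdet⟩, hnot⟩ := hex
      let κ := {i : ι // i ∉ univ.image f}
      have hcardκ : Fintype.card κ + m * (r + 1) = Fintype.card ι := by
        have h1 : Fintype.card κ = Fintype.card ι - (univ.image f).card := by
          show Fintype.card {i : ι // i ∉ univ.image f} = _
          rw [Fintype.card_subtype_compl (fun i => i ∈ univ.image f), Fintype.card_coe]
        have h2 : (univ.image f).card = m * (r + 1) := by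
          rw [Finset.card_image_of_injective _ hf, Finset.card_univ, Fintype.card_prod,
            Fintype.card_fin, Fintype.card_fin]
        have h3 := Finset.card_le_univ (univ.image f)
        omega
      have hzero : ∀ g : Fin (r + 1) → κ, (Matrix.of (fun j => a (g j).1)).det = 0 := by
        intro g
        by_contra hne
        have hginj : Function.Injective g := by
          intro j j' hjj
          by_contra hjne
          apply hne
          exact Matrix.det_zero_of_row_eq hjne (by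
            show a (g j).1 = a (g j').1
            rw [hjj])
        apply hnot
        refine ⟨fun p => Fin.lastCases (motive := fun _ => ι) (g p.2).1
          (fun t => f (t, p.2)) p.1, ?_, ?_⟩
        · rintro ⟨t, j⟩ ⟨t', j'⟩ h
          induction t using Fin.lastCases with
          | last =>
            induction t' using Fin.lastCases with
            | last =>
              simp only [Fin.lastCases_last] at h
              rw [hginj (Subtype.ext h)]
            | cast t' =>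
              simp only [Fin.lastCases_last, Fin.lastCases_castSucc] at h
              exact absurd (Finset.mem_image.2 ⟨_, Finset.mem_univ _, h.symm⟩) (g j).2
          | cast t =>
            induction t' using Fin.lastCases with
            | last =>
              simp only [Fin.lastCases_last, Fin.lastCases_castSucc] at h
              exact absurd (Finset.mem_image.2 ⟨_, Finset.mem_univ _, h⟩) (g j').2
            | cast t' =>
              simp only [Fin.lastCases_castSucc] at h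
              have := hf h
              rw [Prod.mk.injEq] at this
              rw [this.1, this.2]
        · intro t
          induction t using Fin.lastCases with
          | last =>
            simp only [Fin.lastCases_last]
            exact hne
          | cast t =>
            simp only [Fin.lastCases_castSucc]
            exact hdet t
      obtain ⟨w, hw0, hw⟩ := si_alt (fun i : κ => a i.1) hzero
      obtain ⟨l0, hl0⟩ : ∃ l0, w l0 ≠ 0 := by
        by_contra hcon
        push Not at hcon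
        exact hw0 (funext hcon)
      obtain ⟨y, hy0, hy⟩ := ih κ (si_num r k _ m _ hn (hm0 ▸ hm) hcardκ)
        (fun i l => a i.1 (l0.succAbove l))
      refine ⟨Function.extend (Subtype.val : κ → ι) y 0,
        si_extend_ne _ Subtype.val_injective hy0, fun l => ?_⟩
      rw [si_extend_sum hk _ Subtype.val_injective (fun i => a i l)]
      by_cases hl : l = l0
      · subst hl
        have h1 : ∑ l', w l' * ∑ i : κ, a i.1 l' * y i ^ k = 0 := by
          have h2 : ∀ l', w l' * ∑ i : κ, a i.1 l' * y i ^ k =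
              ∑ i : κ, w l' * a i.1 l' * y i ^ k := by
            intro l'
            rw [Finset.mul_sum]
            exact Finset.sum_congr rfl fun i _ => by ring
          simp only [h2]
          rw [Finset.sum_comm]
          refine Finset.sum_eq_zero fun i _ => ?_
          rw [← Finset.sum_mul, hw i, zero_mul]
        have h4 : ∑ l', w (l.succAbove l') * ∑ i : κ, a i.1 (l.succAbove l') * y i ^ k = 0 :=
          Finset.sum_eq_zero (fun l' _ => by rw [hy l', mul_zero])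
        rw [Fin.sum_univ_succAbove _ l, h4, add_zero] at h1
        rcases mul_eq_zero.1 h1 with h3 | h3
        · exact absurd h3 hl0
        · exact h3
      · obtain ⟨l', rfl⟩ := Fin.exists_succAbove_eq hl
        exact hy l'

theorem sys_of_bases (K : Type) [Field K] (k : ℕ) (hk : 1 ≤ k)
    (hB : ∀ r m : ℕ, 1 ≤ r → k * (r * k ^ 3 + 1) ≤ m → ∀ a : Fin m → Fin r → Fin r → K,
      (∀ t, (Matrix.of (a t)).det ≠ 0) → ∃ y : Fin m → Fin r → K, (∃ t j, y t j ≠ 0) ∧
        ∀ l, ∑ t, ∑ j, a t j l * y t j ^ k = 0) : SysSolv K k := by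
  intro r n hn a
  exact si_main K k hk hB r (Fin n) (by rwa [Fintype.card_fin]) a

end Pool.Agent.Lib.MP_c0a553_nt
end

section

/-! # Decomposition into major and minor arcs (job HP-19) -/

namespace Pool.Agent.Lib.MP_c0a553_nt

open Finset

variable {ι : Type} [Fintype ι] [DecidableEq ι]

private theorem arcs_cont (g : (ι → ℤ) → ℤ) (P : ℕ) (lo hi : ι → ℝ) :
    Continuous (fun α => S g P lo hi α) := by
  unfold S
  refine continuous_finsetSum _ fun x _ => ?_
  unfold e
  fun_prop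

/-- reduced fractions are determined by their value -/
private theorem arcs_frac {q₁ a₁ q₂ a₂ : ℕ} (h₁ : Nat.Coprime a₁ q₁) (h₂ : Nat.Coprime a₂ q₂)
    (hq₁ : 1 ≤ q₁) (h : a₁ * q₂ = a₂ * q₁) : q₁ = q₂ ∧ a₁ = a₂ := by
  have h3 : q₁ ∣ q₂ := h₁.symm.dvd_of_dvd_mul_left (by rw [h]; exact dvd_mul_left _ _)
  have h4 : q₂ ∣ q₁ := h₂.symm.dvd_of_dvd_mul_left (by rw [← h]; exact dvd_mul_left _ _)
  have h5 := Nat.dvd_antisymm h3 h4
  subst h5
  exact ⟨rfl, Nat.eq_of_mul_eq_mul_right (by omega) h⟩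

/-- a point of `[-τ, 1-τ)` on a major arc is in one of the intervals -/
private theorem arcs_major (D P : ℕ) (hP : 1 ≤ P) (hτ : 2 * tau D P * (P : ℝ) ^ (1 / 10 : ℝ) < 1)
    (α : ℝ) (h1 : -tau D P ≤ α) (h2 : α < 1 - tau D P) (hM : Major D P α) :
    ∃ q a : ℕ, 1 ≤ q ∧ (q : ℝ) ≤ (P : ℝ) ^ (1 / 10 : ℝ) ∧ a < q ∧ Nat.Coprime a q ∧
      (a : ℝ) / q - tau D P ≤ α ∧ α ≤ (a : ℝ) / q + tau D P := by
  obtain ⟨q, hq1, hqu, a, ha⟩ := hM
  have hP0 : (0 : ℝ) < P := by exact_mod_cast hP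
  have hPD : (0 : ℝ) < (P : ℝ) ^ D := by positivity
  have hτ0 : 0 < tau D P := by unfold tau; positivity
  have hq0 : (0 : ℝ) < q := by exact_mod_cast hq1
  have hq1' : (1 : ℝ) ≤ q := by exact_mod_cast hq1
  have ha' : |(q : ℝ) * α - a| ≤ tau D P := by
    unfold tau
    rw [le_div_iff₀ hPD]
    exact ha
  have hα : |α - (a : ℝ) / q| ≤ tau D P := by
    have h3 : (q : ℝ) * (α - (a : ℝ) / q) = q * α - a := by field_simp
    have h4 : |(q : ℝ) * (α - (a : ℝ) / q)| ≤ tau D P := by rw [h3]; exact ha'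
    rw [abs_mul, abs_of_pos hq0] at h4
    nlinarith [abs_nonneg (α - (a : ℝ) / q)]
  set r : ℚ := (a : ℚ) / (q : ℚ) with hr
  have hrR : (r : ℝ) = (a : ℝ) / q := by rw [hr]; push_cast; rfl
  have hden : r.den ∣ q := by
    have := Rat.den_dvd a (q : ℤ)
    rw [hr]
    exact_mod_cast this
  have hdenle : r.den ≤ q := Nat.le_of_dvd (by omega) hden
  have hdu : (r.den : ℝ) ≤ (P : ℝ) ^ (1 / 10 : ℝ) :=
    le_trans (by exact_mod_cast hdenle) hqu
  have hd0 : (0 : ℝ) < r.den := by exact_mod_cast r.den_pos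
  have hval : (r.num : ℝ) / r.den = (a : ℝ) / q := by
    rw [← hrR]
    exact_mod_cast Rat.num_div_den r
  rw [← hval, abs_le] at hα
  have hsmall : 2 * tau D P * r.den < 1 :=
    lt_of_le_of_lt (mul_le_mul_of_nonneg_left hdu (by positivity)) hτ
  have hnum0 : 0 ≤ r.num := by
    by_contra hneg
    have h5 : r.num ≤ -1 := by omega
    have h6 : (r.num : ℝ) ≤ -1 := by exact_mod_cast h5
    have h7 : (r.num : ℝ) / r.den ≤ -1 / r.den := div_le_div_of_nonneg_right h6 hd0.le
    have h8 : -1 / (r.den : ℝ) < - (2 * tau D P) := by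
      rw [div_lt_iff₀ hd0]
      linarith
    linarith [hα.1, hα.2]
  have hnum1 : r.num < r.den := by
    have h6 : (r.num : ℝ) / r.den < 1 := by linarith [hα.1]
    rw [div_lt_one hd0] at h6
    exact_mod_cast h6
  obtain ⟨m, hm⟩ := Int.eq_ofNat_of_zero_le hnum0
  refine ⟨r.den, m, r.den_pos, hdu, ?_, ?_, ?_, ?_⟩
  · rw [hm] at hnum1
    exact_mod_cast hnum1
  · have := r.reduced
    rw [hm] at this
    exact this
  · rw [hm, Int.cast_natCast] at hα
    linarith [hα.1]
  · rw [hm, Int.cast_natCast] at hα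
    linarith [hα.2]

theorem arcs (G : (ι → ℤ) → ℤ) (D : ℕ) (hD : 2 ≤ D) (hW : WeylBound G D) (lo hi : ι → ℝ)
    (hlo : ∀ i, lo i ≤ hi i) :
    ∃ P₀ : ℕ, ∀ P : ℕ, P₀ ≤ P →
      ‖(((box P lo hi).filter fun x => G x = 0).card : ℂ)
        - ∑ q ∈ Finset.Icc 1 ⌊(P : ℝ) ^ (1 / 10 : ℝ)⌋₊,
            ∑ a ∈ (Finset.range q).filter (fun a => Nat.Coprime a q),
              ∫ β in (-tau D P)..(tau D P), S G P lo hi ((a : ℝ) / q + β)‖ * (P : ℝ) ^ (D + 1)
        ≤ (P : ℝ) ^ (Fintype.card ι) := by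
  obtain ⟨P₁, hP₁⟩ := hW lo hi hlo
  refine ⟨max P₁ 1024, fun P hP => ?_⟩
  have hPP₁ : P₁ ≤ P := le_trans (le_max_left _ _) hP
  have hP1024 : 1024 ≤ P := le_trans (le_max_right _ _) hP
  have hPone : 1 ≤ P := by omega
  have hP1 : (1 : ℝ) ≤ P := by exact_mod_cast hPone
  have hP0 : (0 : ℝ) < P := by linarith
  have hmin := hP₁ P hPP₁
  set u : ℝ := (P : ℝ) ^ (1 / 10 : ℝ) with hudef
  have hu10 : u ^ 10 = P := by
    rw [hudef, ← Real.rpow_natCast, ← Real.rpow_mul hP0.le]
    norm_num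
  have hu0 : 0 < u := by positivity
  have hu2 : 2 ≤ u := by
    by_contra hu
    push Not at hu
    have : u ^ 10 < 2 ^ 10 := pow_lt_pow_left₀ hu hu0.le (by norm_num)
    rw [hu10] at this
    have h3 : (1024 : ℝ) ≤ P := by exact_mod_cast hP1024
    norm_num at this
    linarith
  have hτ0 : 0 < tau D P := by unfold tau; positivity
  have hτ2 : 2 * tau D P * u ^ 2 < 1 := by
    have h1 : (P : ℝ) ^ 2 ≤ (P : ℝ) ^ D := pow_le_pow_right₀ hP1 hD
    have h2 : tau D P ≤ u / (P : ℝ) ^ 2 := by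
      unfold tau
      rw [← hudef]
      exact div_le_div_of_nonneg_left hu0.le (by positivity) h1
    have h3 : (P : ℝ) ^ 2 = u ^ 20 := by rw [← hu10]; ring
    rw [h3] at h2
    have h4 : u / u ^ 20 * (2 * u ^ 2) = 2 / u ^ 17 := by field_simp
    have h5 : (2 : ℝ) / u ^ 17 < 1 := by
      rw [div_lt_one (by positivity)]
      calc (2 : ℝ) < 2 ^ 17 := by norm_num
        _ ≤ u ^ 17 := pow_le_pow_left₀ (by norm_num) hu2 _
    calc 2 * tau D P * u ^ 2 = tau D P * (2 * u ^ 2) := by ring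
      _ ≤ u / u ^ 20 * (2 * u ^ 2) := mul_le_mul_of_nonneg_right h2 (by positivity)
      _ = 2 / u ^ 17 := h4
      _ < 1 := h5
  have hτ1 : 2 * tau D P * u < 1 := by
    refine lt_of_le_of_lt ?_ hτ2
    have : u ≤ u ^ 2 := by nlinarith
    exact mul_le_mul_of_nonneg_left this (by positivity)
  set n := Fintype.card ι with hn
  set T : Finset (Σ _ : ℕ, ℕ) := (Finset.Icc 1 ⌊u⌋₊).sigma
    (fun q => (Finset.range q).filter (fun a => Nat.Coprime a q)) with hT
  let I : (Σ _ : ℕ, ℕ) → Set ℝ := fun t =>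
    Set.Icc ((t.2 : ℝ) / t.1 - tau D P) ((t.2 : ℝ) / t.1 + tau D P)
  have hTmem : ∀ t ∈ T, 1 ≤ t.1 ∧ (t.1 : ℝ) ≤ u ∧ t.2 < t.1 ∧ Nat.Coprime t.2 t.1 := by
    intro t ht
    rw [hT, Finset.mem_sigma, Finset.mem_Icc, Finset.mem_filter, Finset.mem_range] at ht
    exact ⟨ht.1.1, (Nat.le_floor_iff hu0.le).1 ht.1.2, ht.2.1, ht.2.2⟩
  have hcont := arcs_cont G P lo hi
  have hint : ∀ s : Set ℝ, Bornology.IsBounded s →
      MeasureTheory.IntegrableOn (fun α => S G P lo hi α) s := by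
    intro s hs
    obtain ⟨R, hR⟩ := hs.subset_closedBall 0
    exact (hcont.continuousOn.integrableOn_compact (isCompact_closedBall 0 R)).mono_set hR
  have hpair : Set.Pairwise (↑T) (Function.onFun Disjoint I) := by
    intro t ht t' ht' hne
    obtain ⟨h1, h2, h3, h4⟩ := hTmem t ht
    obtain ⟨h1', h2', h3', h4'⟩ := hTmem t' ht'
    rw [Function.onFun, Set.disjoint_left]
    intro x hx hx'
    apply hne
    have hq0 : (0 : ℝ) < t.1 := by exact_mod_cast h1
    have hq0' : (0 : ℝ) < t'.1 := by exact_mod_cast h1'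
    have h5 : |(t.2 : ℝ) / t.1 - t'.2 / t'.1| ≤ 2 * tau D P := by
      have := hx.1; have := hx.2; have := hx'.1; have := hx'.2
      rw [abs_le]; constructor <;> linarith
    have h6 : |(t.2 : ℝ) * t'.1 - t'.2 * t.1| < 1 := by
      have h7 : (t.2 : ℝ) * t'.1 - t'.2 * t.1 = ((t.2 : ℝ) / t.1 - t'.2 / t'.1) * (t.1 * t'.1) := by
        field_simp
      rw [h7, abs_mul, abs_of_pos (by positivity : (0 : ℝ) < t.1 * t'.1)]
      calc |(t.2 : ℝ) / t.1 - t'.2 / t'.1| * (t.1 * t'.1) ≤ 2 * tau D P * (u * u) := by gcongr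
        _ = 2 * tau D P * u ^ 2 := by ring
        _ < 1 := hτ2
    have h8 : |(t.2 : ℤ) * t'.1 - t'.2 * t.1| < 1 := by exact_mod_cast h6
    have h9 : (t.2 : ℤ) * t'.1 - t'.2 * t.1 = 0 := Int.abs_lt_one_iff.1 h8
    have h10 : t.2 * t'.1 = t'.2 * t.1 := by
      have : (t.2 : ℤ) * t'.1 = t'.2 * t.1 := by linarith
      exact_mod_cast this
    obtain ⟨h11, h12⟩ := arcs_frac h4 h4' h1 h10
    obtain ⟨q, a⟩ := t
    obtain ⟨q', a'⟩ := t'
    simp only at h11 h12
    subst h11 h12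
    rfl
  have hsub : (⋃ t ∈ T, I t) ⊆ Set.Ico (-tau D P) (1 - tau D P) := by
    intro x hx
    simp only [Set.mem_iUnion] at hx
    obtain ⟨t, ht, hx⟩ := hx
    obtain ⟨h1, h2, h3, h4⟩ := hTmem t ht
    have hq0 : (0 : ℝ) < t.1 := by exact_mod_cast h1
    have h5 : (t.2 : ℝ) / t.1 ≤ 1 - 1 / t.1 := by
      have : (t.2 : ℝ) + 1 ≤ t.1 := by exact_mod_cast h3
      rw [le_sub_iff_add_le, ← add_div, div_le_one hq0]
      exact this
    have h6 : 2 * tau D P < 1 / t.1 := by
      rw [lt_div_iff₀ hq0]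
      exact lt_of_le_of_lt (mul_le_mul_of_nonneg_left h2 (by positivity)) hτ1
    have h7 : (0 : ℝ) ≤ (t.2 : ℝ) / t.1 := by positivity
    exact ⟨by linarith [hx.1], by linarith [hx.2]⟩
  have hmeas : MeasurableSet (⋃ t ∈ T, I t) :=
    Finset.measurableSet_biUnion _ fun t _ => measurableSet_Icc
  have hbdd : Bornology.IsBounded (Set.Ico (-tau D P) (1 - tau D P)) := Metric.isBounded_Ico _ _
  have hcount : (((box P lo hi).filter fun x => G x = 0).card : ℂ) =
      ∫ α in Set.Ico (-tau D P) (1 - tau D P), S G P lo hi α := by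
    rw [← count_eq G P lo hi (-tau D P), intervalIntegral.integral_of_le (by linarith),
      ← MeasureTheory.integral_Ico_eq_integral_Ioc]
    rw [show -tau D P + 1 = 1 - tau D P by ring]
  have hmajor : ∑ q ∈ Finset.Icc 1 ⌊u⌋₊,
            ∑ a ∈ (Finset.range q).filter (fun a => Nat.Coprime a q),
              ∫ β in (-tau D P)..(tau D P), S G P lo hi ((a : ℝ) / q + β) =
      ∫ α in ⋃ t ∈ T, I t, S G P lo hi α := by
    rw [MeasureTheory.integral_biUnion_finset T (fun t _ => measurableSet_Icc) hpair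
      (fun t _ => hint _ (Metric.isBounded_Icc _ _)), hT, Finset.sum_sigma]
    refine Finset.sum_congr rfl fun q _ => Finset.sum_congr rfl fun a _ => ?_
    rw [intervalIntegral.integral_comp_add_left (fun α => S G P lo hi α)]
    rw [intervalIntegral.integral_of_le (by linarith), ← MeasureTheory.integral_Icc_eq_integral_Ioc]
    rfl
  rw [hcount, hmajor, ← MeasureTheory.setIntegral_sdiff hmeas (hint _ hbdd) hsub]
  have hfin : MeasureTheory.volume (Set.Ico (-tau D P) (1 - tau D P) \ ⋃ t ∈ T, I t) < ⊤ :=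
    (MeasureTheory.measure_mono Set.sdiff_subset).trans_lt (by
      rw [Real.volume_Ico]; exact ENNReal.ofReal_lt_top)
  have hreal : MeasureTheory.volume.real
      (Set.Ico (-tau D P) (1 - tau D P) \ ⋃ t ∈ T, I t) ≤ 1 := by
    calc _ ≤ MeasureTheory.volume.real (Set.Ico (-tau D P) (1 - tau D P)) :=
          MeasureTheory.measureReal_mono Set.sdiff_subset (by
            rw [Real.volume_Ico]; exact ENNReal.ofReal_ne_top)
      _ = 1 := by
          rw [Real.volume_real_Ico_of_le (by linarith)]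
          ring
  have hPD : (0 : ℝ) < (P : ℝ) ^ (D + 1) := by positivity
  have hb : ∀ α ∈ Set.Ico (-tau D P) (1 - tau D P) \ ⋃ t ∈ T, I t,
      ‖S G P lo hi α‖ ≤ (P : ℝ) ^ n / (P : ℝ) ^ (D + 1) := by
    intro α hα
    rw [le_div_iff₀ hPD]
    refine hmin α fun hM => hα.2 ?_
    obtain ⟨q, a, h1, h2, h3, h4, h5, h6⟩ := arcs_major D P hPone hτ1 α hα.1.1 hα.1.2 hM
    simp only [Set.mem_iUnion]
    refine ⟨⟨q, a⟩, ?_, h5, h6⟩
    rw [hT, Finset.mem_sigma, Finset.mem_Icc, Finset.mem_filter, Finset.mem_range]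
    exact ⟨⟨h1, Nat.le_floor h2⟩, h3, h4⟩
  have hfinal := MeasureTheory.norm_setIntegral_le_of_norm_le_const hfin hb
  calc _ ≤ ((P : ℝ) ^ n / (P : ℝ) ^ (D + 1) * MeasureTheory.volume.real
      (Set.Ico (-tau D P) (1 - tau D P) \ ⋃ t ∈ T, I t)) * (P : ℝ) ^ (D + 1) :=
        mul_le_mul_of_nonneg_right hfinal hPD.le
    _ ≤ ((P : ℝ) ^ n / (P : ℝ) ^ (D + 1) * 1) * (P : ℝ) ^ (D + 1) := by gcongr
    _ = (P : ℝ) ^ n := by field_simp

end Pool.Agent.Lib.MP_c0a553_nt
end

section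

/-! # From orthogonal vectors to a nonsingular zero (job HQ-14) -/

namespace Pool.Agent.Lib.MP_c0a553_nt

open Finset

private theorem oz_left {s n : ℕ} {K : Type} [Field K] (M : Matrix (Fin s) (Fin s) ℤ)
    (a : Fin n → K) (x : Fin n → Fin s → K) (x' : Fin s → K) :
    BB M (fun i => ∑ l, a l * x l i) x' = ∑ l, a l * BB M (x l) x' := by
  unfold BB
  calc ∑ i, ∑ j, (M i j : K) * (∑ l, a l * x l i) * x' j
      = ∑ i, ∑ j, ∑ l, a l * ((M i j : K) * x l i * x' j) := by
        refine Finset.sum_congr rfl fun i _ => Finset.sum_congr rfl fun j _ => ?_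
        rw [Finset.mul_sum, Finset.sum_mul]
        exact Finset.sum_congr rfl fun l _ => by ring
    _ = ∑ i, ∑ l, ∑ j, a l * ((M i j : K) * x l i * x' j) :=
        Finset.sum_congr rfl fun i _ => Finset.sum_comm
    _ = ∑ l, ∑ i, ∑ j, a l * ((M i j : K) * x l i * x' j) := Finset.sum_comm
    _ = ∑ l, a l * ∑ i, ∑ j, (M i j : K) * x l i * x' j := by
        refine Finset.sum_congr rfl fun l _ => ?_
        rw [Finset.mul_sum]
        exact Finset.sum_congr rfl fun i _ => by rw [Finset.mul_sum]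

private theorem oz_right {s n : ℕ} {K : Type} [Field K] (M : Matrix (Fin s) (Fin s) ℤ)
    (a : Fin n → K) (x : Fin n → Fin s → K) (x' : Fin s → K) :
    BB M x' (fun i => ∑ l, a l * x l i) = ∑ l, a l * BB M x' (x l) := by
  unfold BB
  calc ∑ i, ∑ j, (M i j : K) * x' i * (∑ l, a l * x l j)
      = ∑ i, ∑ j, ∑ l, a l * ((M i j : K) * x' i * x l j) := by
        refine Finset.sum_congr rfl fun i _ => Finset.sum_congr rfl fun j _ => ?_
        rw [Finset.mul_sum]
        exact Finset.sum_congr rfl fun l _ => by ring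
    _ = ∑ i, ∑ l, ∑ j, a l * ((M i j : K) * x' i * x l j) :=
        Finset.sum_congr rfl fun i _ => Finset.sum_comm
    _ = ∑ l, ∑ i, ∑ j, a l * ((M i j : K) * x' i * x l j) := Finset.sum_comm
    _ = ∑ l, a l * ∑ i, ∑ j, (M i j : K) * x' i * x l j := by
        refine Finset.sum_congr rfl fun l _ => ?_
        rw [Finset.mul_sum]
        exact Finset.sum_congr rfl fun i _ => by rw [Finset.mul_sum]

theorem orth_zero {s n : ℕ} (k : ℕ) (hk : 1 ≤ k) (K : Type) [Field K] [CharZero K]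
    (hS : SysSolv K (2 * k)) (M : Matrix (Fin s) (Fin s) ℤ) (hM : M.IsSymm)
    (hn : Nsys 1 (2 * k) ≤ n) (y : Fin n → Fin s → K)
    (hdisj : ∀ l l' i, l ≠ l' → y l i = 0 ∨ y l' i = 0)
    (horth : ∀ l l', l ≠ l' → BB M (fun i => y l i ^ k) (fun i => y l' i ^ k) = 0)
    (hne : ∀ l, BB M (fun i => y l i ^ k) (fun i => y l i ^ k) ≠ 0) :
    NonsingZero (FF k M) K := by
  classical
  have hk0 : k ≠ 0 := by omega
  obtain ⟨t, ht, hts⟩ := hS 1 n hn
    (fun l _ => BB M (fun i => y l i ^ k) (fun i => y l i ^ k))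
  have hsum := hts 0
  set Y : Fin s → K := fun i => ∑ l, t l * y l i with hY
  -- at a coordinate where `y l₀` does not vanish
  have hYi : ∀ i l₀, y l₀ i ≠ 0 → Y i = t l₀ * y l₀ i := by
    intro i l₀ h0
    refine Finset.sum_eq_single l₀ (fun l _ hl => ?_) (fun h => absurd (Finset.mem_univ l₀) h)
    rw [(hdisj l l₀ i hl).resolve_right h0, mul_zero]
  have hYk : ∀ i, Y i ^ k = ∑ l, t l ^ k * y l i ^ k := by
    intro i
    by_cases h : ∃ l₀, y l₀ i ≠ 0
    · obtain ⟨l₀, h0⟩ := h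
      rw [hYi i l₀ h0, mul_pow]
      symm
      refine Finset.sum_eq_single l₀ (fun l _ hl => ?_) (fun h => absurd (Finset.mem_univ l₀) h)
      rw [(hdisj l l₀ i hl).resolve_right h0, zero_pow hk0, mul_zero]
    · push Not at h
      have e1 : Y i = 0 := Finset.sum_eq_zero fun l _ => by rw [h l, mul_zero]
      rw [e1, zero_pow hk0]
      symm
      exact Finset.sum_eq_zero fun l _ => by rw [h l, zero_pow hk0, mul_zero]
  have hYk' : (fun i => Y i ^ k) = fun i => ∑ l, t l ^ k * (fun l i => y l i ^ k) l i :=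
    funext hYk
  have hright : ∀ l, BB M (fun i => y l i ^ k) (fun i => Y i ^ k) =
      t l ^ k * BB M (fun i => y l i ^ k) (fun i => y l i ^ k) := by
    intro l
    rw [hYk', oz_right M (fun l => t l ^ k) (fun l i => y l i ^ k)]
    refine Finset.sum_eq_single l (fun l' _ hl => ?_) (fun h => absurd (Finset.mem_univ l) h)
    rw [horth l l' (Ne.symm hl), mul_zero]
  refine ⟨Y, ?_, ?_⟩
  · rw [eval_FF]
    have e1 : ∑ i, ∑ j, (M i j : K) * Y i ^ k * Y j ^ k =
        BB M (fun i => Y i ^ k) (fun i => Y i ^ k) := rfl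
    rw [e1]
    have e2 : BB M (fun i => Y i ^ k) (fun i => Y i ^ k) =
        ∑ l, t l ^ k * BB M (fun i => y l i ^ k) (fun i => Y i ^ k) := by
      conv_lhs => rw [hYk']
      rw [oz_left M (fun l => t l ^ k) (fun l i => y l i ^ k), ← hYk']
    rw [e2]
    simp only [hright]
    rw [← hsum]
    refine Finset.sum_congr rfl fun l _ => ?_
    rw [two_mul k, pow_add]
    ring
  · obtain ⟨l₀, hl₀⟩ : ∃ l₀, t l₀ ≠ 0 := by
      by_contra h
      push Not at h
      exact ht (funext h)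
    have h1 : BB M (fun i => y l₀ i ^ k) (fun i => Y i ^ k) ≠ 0 := by
      rw [hright]
      exact mul_ne_zero (pow_ne_zero _ hl₀) (hne l₀)
    have h2 : BB M (fun i => y l₀ i ^ k) (fun i => Y i ^ k) =
        ∑ i, y l₀ i ^ k * ∑ j, (M i j : K) * Y j ^ k := by
      unfold BB
      refine Finset.sum_congr rfl fun i _ => ?_
      rw [Finset.mul_sum]
      exact Finset.sum_congr rfl fun j _ => by ring
    rw [h2] at h1
    obtain ⟨i, _, hi⟩ := Finset.exists_ne_zero_of_sum_ne_zero h1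
    have hi1 : y l₀ i ≠ 0 := by
      intro h
      apply hi
      rw [h, zero_pow hk0, zero_mul]
    have hi2 : ∑ j, (M i j : K) * Y j ^ k ≠ 0 := right_ne_zero_of_mul hi
    refine ⟨i, ?_⟩
    rw [pderiv_FF k M hM]
    refine mul_ne_zero (mul_ne_zero (mul_ne_zero two_ne_zero ?_) (pow_ne_zero _ ?_)) hi2
    · exact_mod_cast hk0
    · rw [hYi i l₀ hi1]
      exact mul_ne_zero hl₀ hi1

end Pool.Agent.Lib.MP_c0a553_nt
end

section

/-! # The case diagonal plus low rank (job HQ-15) -/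

namespace Pool.Agent.Lib.MP_c0a553_nt

open Finset

theorem diag_case {s : ℕ} (k : ℕ) (hk : 1 ≤ k) (K : Type) [Field K] [CharZero K]
    (hS : SysSolv K k) (hS2 : SysSolv K (2 * k)) (M : Matrix (Fin s) (Fin s) ℤ) (hM : M.IsSymm)
    (V : Finset (Fin s)) (m ρ : ℕ) (hm : m ≤ ρ) (c : Fin m → Fin s → ℤ)
    (N : Matrix (Fin m) (Fin m) ℚ) (d : Fin s → ℚ)
    (hV : Nsys 1 (2 * k) * Nsys ρ k ≤ V.card) (hd : ∀ i ∈ V, d i ≠ 0)
    (hMV : ∀ i ∈ V, ∀ j ∈ V, (M i j : ℚ) =
      (if i = j then d i else 0) + ∑ a, ∑ b, N a b * c a i * c b j) :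
    NonsingZero (FF k M) K := by
  classical
  have hk0 : k ≠ 0 := by omega
  -- the blocks
  obtain ⟨f⟩ : Nonempty (Fin (Nsys 1 (2 * k)) × Fin (Nsys ρ k) ↪ V) := by
    apply Function.Embedding.nonempty_of_card_le
    simpa using hV
  have hmono : Nsys m k ≤ Nsys ρ k := by
    unfold Nsys
    gcongr
  have hsol : ∀ l : Fin (Nsys 1 (2 * k)), ∃ y' : Fin (Nsys ρ k) → K, y' ≠ 0 ∧
      ∀ a : Fin m, ∑ t, (c a (f (l, t)) : K) * y' t ^ k = 0 := fun l =>
    hS m (Nsys ρ k) hmono (fun t a => (c a (f (l, t)) : K))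
  choose y' hy0 hyc using hsol
  -- the inclusion of a block
  let g : Fin (Nsys 1 (2 * k)) → Fin (Nsys ρ k) → Fin s := fun l t => (f (l, t) : Fin s)
  have hg : ∀ l, Function.Injective (g l) := by
    intro l t t' h
    have h1 := f.injective (Subtype.ext h)
    exact (Prod.mk.inj h1).2
  let y : Fin (Nsys 1 (2 * k)) → Fin s → K := fun l => Function.extend (g l) (y' l) 0
  have hyg : ∀ l t, y l (g l t) = y' l t := fun l t => (hg l).extend_apply _ _ _
  have hyn : ∀ l i, (¬ ∃ t, g l t = i) → y l i = 0 := by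
    intro l i h
    simp only [y]
    rw [Function.extend_apply' _ _ _ h]
    rfl
  have hyV : ∀ l i, i ∉ V → y l i = 0 := by
    intro l i hi
    refine hyn l i ?_
    rintro ⟨t, rfl⟩
    exact hi (f (l, t)).2
  have hdisj : ∀ l l' i, l ≠ l' → y l i = 0 ∨ y l' i = 0 := by
    intro l l' i hl
    by_contra hc
    push Not at hc
    obtain ⟨t, ht⟩ : ∃ t, g l t = i := by
      by_contra h
      exact hc.1 (hyn l i h)
    obtain ⟨t', ht'⟩ : ∃ t, g l' t = i := by
      by_contra h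
      exact hc.2 (hyn l' i h)
    have h1 := f.injective (Subtype.ext (ht.trans ht'.symm))
    exact hl (Prod.mk.inj h1).1
  have hsum : ∀ l (F : Fin s → K), ∑ i, F i * y l i ^ k = ∑ t, F (g l t) * y' l t ^ k := by
    intro l F
    symm
    refine Finset.sum_of_injOn (g l) ((hg l).injOn) (fun _ _ => mem_coe.2 (mem_univ _)) ?_ ?_
    · intro i _ hi
      rw [hyn l i (by simpa using hi), zero_pow hk0, mul_zero]
    · intro t _
      rw [hyg]
  have hcb : ∀ l b, ∑ j, (c b j : K) * y l j ^ k = 0 := by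
    intro l b
    rw [hsum l (fun j => (c b j : K))]
    exact hyc l b
  -- the value of the linear map
  have hlin : ∀ l, ∀ i ∈ V, ∑ j, (M i j : K) * y l j ^ k = (d i : K) * y l i ^ k := by
    intro l i hi
    have h1 : ∀ j, (M i j : K) * y l j ^ k =
        (if i = j then (d i : K) * y l j ^ k else 0) +
          ∑ a, ∑ b, (N a b : K) * c a i * ((c b j : K) * y l j ^ k) := by
      intro j
      by_cases hj : j ∈ V
      · have h2 := hMV i hi j hj
        have h3 : (M i j : K) = (if i = j then (d i : K) else 0) +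
            ∑ a, ∑ b, (N a b : K) * c a i * c b j := by
          have h4 : (((M i j : ℤ) : ℚ) : K) = (((if i = j then d i else 0) +
              ∑ a, ∑ b, N a b * c a i * c b j : ℚ) : K) := by rw [h2]
          push_cast at h4
          rw [h4]
          congr 1
          split_ifs <;> simp
        rw [h3, add_mul]
        congr 1
        · split_ifs <;> simp
        · rw [Finset.sum_mul]
          refine Finset.sum_congr rfl fun a _ => ?_
          rw [Finset.sum_mul]
          refine Finset.sum_congr rfl fun b _ => ?_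
          ring
      · rw [hyV l j hj, zero_pow hk0]
        simp
    rw [Finset.sum_congr rfl fun j _ => h1 j, Finset.sum_add_distrib, Finset.sum_ite_eq,
      if_pos (mem_univ _), Finset.sum_comm]
    rw [Finset.sum_eq_zero, add_zero]
    intro a _
    rw [Finset.sum_comm]
    refine Finset.sum_eq_zero fun b _ => ?_
    rw [← Finset.mul_sum, hcb, mul_zero]
  have hB : ∀ l l', BB M (fun i => y l i ^ k) (fun i => y l' i ^ k) =
      ∑ i, y l i ^ k * ((if i ∈ V then (d i : K) else 0) * y l' i ^ k) := by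
    intro l l'
    unfold BB
    refine Finset.sum_congr rfl fun i _ => ?_
    by_cases hi : i ∈ V
    · rw [if_pos hi, ← hlin l' i hi, Finset.mul_sum]
      refine Finset.sum_congr rfl fun j _ => ?_
      ring
    · have h0 : y l i ^ k = 0 := by rw [hyV l i hi, zero_pow hk0]
      rw [h0, zero_mul]
      refine Finset.sum_eq_zero fun j _ => ?_
      simp [h0]
  have horth : ∀ l l', l ≠ l' → BB M (fun i => y l i ^ k) (fun i => y l' i ^ k) = 0 := by
    intro l l' hl
    rw [hB]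
    refine Finset.sum_eq_zero fun i _ => ?_
    rcases hdisj l l' i hl with h | h <;> rw [h, zero_pow hk0] <;> ring
  by_cases hex : ∃ l, BB M (fun i => y l i ^ k) (fun i => y l i ^ k) = 0
  · obtain ⟨l, hl⟩ := hex
    obtain ⟨t, ht⟩ : ∃ t, y' l t ≠ 0 := by
      by_contra hc
      push Not at hc
      exact hy0 l (funext hc)
    refine ⟨y l, ?_, g l t, ?_⟩
    · rw [eval_FF]
      exact hl
    · rw [pderiv_FF k M hM, hlin l (g l t) (f (l, t)).2, hyg]
      have h1 : (d (g l t) : K) ≠ 0 := by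
        exact_mod_cast hd (g l t) (f (l, t)).2
      have h2 : (k : K) ≠ 0 := by exact_mod_cast hk0
      exact mul_ne_zero (mul_ne_zero (mul_ne_zero two_ne_zero h2) (pow_ne_zero _ ht))
        (mul_ne_zero h1 (pow_ne_zero _ ht))
  · push Not at hex
    exact orth_zero k hk K hS2 M hM le_rfl y hdisj horth hex

end Pool.Agent.Lib.MP_c0a553_nt
end

section

/-! # Bilinear sum of a nonsingular block (job HP-13) -/

namespace Pool.Agent.Lib.MP_c0a553_nt

open Finset

private lemma bb_JJ_le {r k t : ℕ} (A : Fin r → Finset ℤ)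
    (f : ↥(Fintype.piFinset A) → Fin r → ℤ)
    (h : ∀ p q : Fin t → ↥(Fintype.piFinset A),
      (∀ i, ∑ j, f (p j) i = ∑ j, f (q j) i) →
        ∀ i, ∑ j, ((p j).1 i) ^ k = ∑ j, ((q j).1 i) ^ k) :
    JJ f t ≤ ∏ i, JE {k} t (A i) := by
  classical
  set T : Finset ((i : Fin r) → (Fin t → ℤ) × (Fin t → ℤ)) := Fintype.piFinset fun i =>
    (((Fintype.piFinset fun _ : Fin t => A i) ×ˢ (Fintype.piFinset fun _ : Fin t => A i)).filter
      fun p => ∀ j ∈ ({k} : Finset ℕ), ∑ i, (p.1 i) ^ j = ∑ i, (p.2 i) ^ j) with hT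
  have hTc : Nat.card ↥T = ∏ i, JE {k} t (A i) := by
    rw [Nat.card_eq_fintype_card, Fintype.card_coe, hT, Fintype.card_piFinset]
    rfl
  rw [← hTc]
  unfold JJ
  have hmem : ∀ (u : Fin t → ↥(Fintype.piFinset A)) (i : Fin r),
      (fun j => (u j).1 i) ∈ Fintype.piFinset fun _ : Fin t => A i := by
    intro u i
    rw [Fintype.mem_piFinset]
    intro j
    exact Fintype.mem_piFinset.1 (u j).2 i
  refine Nat.card_le_card_of_injective
    (fun p : {p : (Fin t → ↥(Fintype.piFinset A)) × (Fin t → ↥(Fintype.piFinset A)) //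
      ∀ i, ∑ j, f (p.1 j) i = ∑ j, f (p.2 j) i} =>
      (⟨fun i => (fun j => (p.1.1 j).1 i, fun j => (p.1.2 j).1 i), ?_⟩ : ↥T)) ?_
  · rw [hT, Fintype.mem_piFinset]
    intro i
    rw [Finset.mem_filter, Finset.mem_product]
    refine ⟨⟨hmem _ i, hmem _ i⟩, ?_⟩
    intro j hj
    rw [Finset.mem_singleton] at hj
    subst hj
    exact h p.1.1 p.1.2 p.2 i
  · intro p q hpq
    have h1 := congrArg Subtype.val hpq
    apply Subtype.ext
    apply Prod.ext
    · funext j
      apply Subtype.ext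
      funext i
      have h2 := congrFun h1 i
      exact congrFun (congrArg Prod.fst h2) j
    · funext j
      apply Subtype.ext
      funext i
      have h2 := congrFun h1 i
      exact congrFun (congrArg Prod.snd h2) j

private lemma bb_card {r A P : ℕ} {a b : Fin r → ℤ} (ha : ∀ i, |a i| ≤ A * P)
    (hb : ∀ i, |b i| ≤ A * P) :
    (Fintype.card ↥(Fintype.piFinset fun i => Finset.Ioc (a i) (b i)) : ℝ)
      ≤ (2 * A * P : ℝ) ^ r := by
  rw [Fintype.card_coe, Fintype.card_piFinset]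
  push_cast
  calc ∏ i, (((Finset.Ioc (a i) (b i)).card : ℕ) : ℝ)
      ≤ ∏ _i : Fin r, (2 * A * P : ℝ) := by
        refine Finset.prod_le_prod (fun i _ => by positivity) fun i _ => ?_
        rw [Int.card_Ioc]
        have h1 : ((b i - a i).toNat : ℤ) ≤ 2 * A * P := by
          have h2 := abs_le.1 (ha i)
          have h3 := abs_le.1 (hb i)
          have h4 : (0 : ℤ) ≤ (A : ℤ) * P := by positivity
          rw [mul_assoc]
          omega
        exact_mod_cast h1
    _ = (2 * A * P : ℝ) ^ r := by simp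

/-- the bilinear sum of an `r × r` nonsingular block -/
theorem block_bound (k A : ℕ) (hk : 1 ≤ k) (hA : 1 ≤ A) (r : ℕ) (B : Matrix (Fin r) (Fin r) ℤ)
    (hB : B.det ≠ 0) :
    ∃ C : ℝ, 0 < C ∧ ∃ P₀ : ℕ, ∀ P : ℕ, P₀ ≤ P → ∀ α : ℝ, ¬ Major (2 * k) P α →
      ∀ a b a' b' : Fin r → ℤ, (∀ i, |a i| ≤ A * P) → (∀ i, |b i| ≤ A * P) →
        (∀ i, |a' i| ≤ A * P) → (∀ i, |b' i| ≤ A * P) →
      ∀ φ ψ : (Fin r → ℤ) → ℂ, (∀ u, ‖φ u‖ ≤ 1) → (∀ w, ‖ψ w‖ ≤ 1) →
        ‖∑ u ∈ Fintype.piFinset fun i => Finset.Ioc (a i) (b i),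
          ∑ w ∈ Fintype.piFinset fun i => Finset.Ioc (a' i) (b' i),
            φ u * ψ w * e (2 * α * ((∑ i, ∑ j, B i j * u i ^ k * w j ^ k : ℤ) : ℝ))‖
          ≤ C * (P : ℝ) ^ (2 * (r : ℝ) - r / (200 * (tt k : ℝ) ^ 2)) := by
  classical
  set t : ℕ := tt k with ht
  have ht1 : 1 ≤ t := by
    rw [ht, tt]
    have : 1 ≤ (2 * k) ^ 3 := Nat.one_le_pow _ _ (by omega)
    omega
  set β : ℕ := ∑ i, ∑ j, (B i j).natAbs with hβ
  set D : ℕ := 2 * t * (β * A ^ k + A ^ k) with hD
  have hD1 : 1 ≤ D := by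
    rw [hD]
    have h1 : 1 ≤ A ^ k := Nat.one_le_pow _ _ hA
    have h2 : 1 ≤ 2 * t := by omega
    exact Nat.one_le_iff_ne_zero.2 (by positivity)
  obtain ⟨C₁, hC₁, hE⟩ := energy k A hk hA {k} (by
    intro x hx
    rw [Finset.mem_singleton] at hx
    rw [Finset.mem_Icc]
    omega)
  obtain ⟨C₂, hC₂, P₁, hG⟩ := geo_minor D k hD1 hk 2 1 (by norm_num) (by norm_num)
  set K : ℝ := ((2 * A : ℝ) ^ r * (2 * A : ℝ) ^ r) ^ (2 * t * (2 * t - 1)) * C₁ ^ r * C₁ ^ r *
    C₂ ^ r with hK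
  have hK0 : 0 < K := by
    have : (0 : ℝ) < A := by exact_mod_cast hA
    rw [hK]
    positivity
  refine ⟨K + 1, by positivity, max 1 P₁, ?_⟩
  intro P hP α hα a b a' b' ha hb ha' hb' φ ψ hφ hψ
  have hP1 : 1 ≤ P := le_trans (le_max_left _ _) hP
  have hPP : P₁ ≤ P := le_trans (le_max_right _ _) hP
  have hPr : (0 : ℝ) < P := by exact_mod_cast hP1
  -- the sets
  set U := ↥(Fintype.piFinset fun i => Finset.Ioc (a i) (b i)) with hU
  set W := ↥(Fintype.piFinset fun i => Finset.Ioc (a' i) (b' i)) with hW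
  let f : U → Fin r → ℤ := fun u j => ∑ i, B i j * u.1 i ^ k
  let g : W → Fin r → ℤ := fun w j => w.1 j ^ k
  have habs : ∀ {c d x : ℤ}, |c| ≤ A * P → |d| ≤ A * P → x ∈ Finset.Ioc c d →
      |x| ≤ A * P := by
    intro c d x hc hd hx
    rw [Finset.mem_Ioc] at hx
    rw [abs_le] at hc hd ⊢
    constructor
    · linarith [hc.1, hx.1]
    · linarith [hd.2, hx.2]
  have hpow : ∀ {x : ℤ}, |x| ≤ A * P → |x ^ k| ≤ ((A ^ k * P ^ k : ℕ) : ℤ) := by
    intro x hx
    rw [abs_pow]
    calc |x| ^ k ≤ ((A : ℤ) * P) ^ k := pow_le_pow_left₀ (abs_nonneg _) hx k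
      _ = ((A ^ k * P ^ k : ℕ) : ℤ) := by push_cast; ring
  have hfX : ∀ (u : U) (j : Fin r), |f u j| ≤ ((β * (A ^ k * P ^ k) : ℕ) : ℤ) := by
    intro u j
    calc |f u j| ≤ ∑ i, |B i j * u.1 i ^ k| := Finset.abs_sum_le_sum_abs _ _
      _ ≤ ∑ i, ((B i j).natAbs : ℤ) * ((A ^ k * P ^ k : ℕ) : ℤ) := by
          refine Finset.sum_le_sum fun i _ => ?_
          rw [abs_mul, Int.natCast_natAbs]
          exact mul_le_mul_of_nonneg_left
            (hpow (habs (ha i) (hb i) (Fintype.mem_piFinset.1 u.2 i))) (abs_nonneg _)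
      _ = (∑ i, ((B i j).natAbs : ℤ)) * ((A ^ k * P ^ k : ℕ) : ℤ) := by
          rw [Finset.sum_mul]
      _ ≤ (β : ℤ) * ((A ^ k * P ^ k : ℕ) : ℤ) := by
          refine mul_le_mul_of_nonneg_right ?_ (by positivity)
          rw [hβ]
          push_cast
          refine Finset.sum_le_sum fun i _ => ?_
          have := Finset.single_le_sum (f := fun j => |B i j|) (fun j _ => abs_nonneg _)
            (Finset.mem_univ j)
          simpa using this
      _ = ((β * (A ^ k * P ^ k) : ℕ) : ℤ) := by push_cast; ring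
  have hgY : ∀ (w : W) (j : Fin r), |g w j| ≤ ((A ^ k * P ^ k : ℕ) : ℤ) := by
    intro w j
    exact hpow (habs (ha' j) (hb' j) (Fintype.mem_piFinset.1 w.2 j))
  have hsum : (∑ u ∈ Fintype.piFinset fun i => Finset.Ioc (a i) (b i),
      ∑ w ∈ Fintype.piFinset fun i => Finset.Ioc (a' i) (b' i),
        φ u * ψ w * e (2 * α * ((∑ i, ∑ j, B i j * u i ^ k * w j ^ k : ℤ) : ℝ))) =
      ∑ u : U, ∑ w : W, φ u.1 * ψ w.1 *
        e (∑ j, (fun _ : Fin r => 2 * α) j * (f u j : ℤ) * (g w j : ℤ)) := by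
    rw [← Finset.sum_coe_sort]
    refine Finset.sum_congr rfl fun u _ => ?_
    rw [← Finset.sum_coe_sort]
    refine Finset.sum_congr rfl fun w _ => ?_
    congr 2
    show _ = ∑ j, 2 * α * ((∑ i, B i j * u.1 i ^ k : ℤ) : ℝ) * ((w.1 j ^ k : ℤ) : ℝ)
    rw [Finset.sum_comm]
    push_cast
    rw [Finset.mul_sum]
    refine Finset.sum_congr rfl fun j _ => ?_
    rw [Finset.mul_sum, Finset.mul_sum, Finset.sum_mul]
    refine Finset.sum_congr rfl fun i _ => ?_
    ring
  rw [hsum]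
  have key := double_holder f g (fun _ : Fin r => 2 * α) (fun u => φ u.1) (fun w => ψ w.1)
    (fun u => hφ _) (fun w => hψ _) t ht1 (fun _ => β * (A ^ k * P ^ k))
    (fun _ => A ^ k * P ^ k) hfX hgY
  -- the factors
  have hJf : (JJ f t : ℝ) ≤ (C₁ * (P : ℝ) ^ (2 * (t : ℝ) - k + 1 / 100)) ^ r := by
    have h1 := bb_JJ_le (k := k) (t := t) (fun i => Finset.Ioc (a i) (b i)) f (by
      intro p q hpq
      have h2 : Matrix.vecMul (fun i => ∑ j, ((p j).1 i) ^ k - ∑ j, ((q j).1 i) ^ k) B = 0 := by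
        funext l
        have h3 := hpq l
        simp only [f] at h3
        simp only [Matrix.vecMul, dotProduct, Pi.zero_apply]
        rw [Finset.sum_comm, Finset.sum_comm (s := (Finset.univ : Finset (Fin t)))] at h3
        rw [← sub_eq_zero, ← Finset.sum_sub_distrib] at h3
        rw [← h3]
        refine Finset.sum_congr rfl fun i _ => ?_
        rw [← Finset.mul_sum, ← Finset.mul_sum]
        ring
      have h4 := Matrix.eq_zero_of_vecMul_eq_zero hB h2
      intro i
      exact sub_eq_zero.1 (congrFun h4 i))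
    calc (JJ f t : ℝ) ≤ ((∏ i, JE {k} t (Finset.Ioc (a i) (b i)) : ℕ) : ℝ) := by
          exact_mod_cast h1
      _ = ∏ i, (JE {k} t (Finset.Ioc (a i) (b i)) : ℝ) := by push_cast; rfl
      _ ≤ ∏ _i : Fin r, C₁ * (P : ℝ) ^ (2 * (t : ℝ) - k + 1 / 100) := by
          refine Finset.prod_le_prod (fun i _ => by positivity) fun i _ => ?_
          have := hE P hP1 (a i) (b i) (ha i) (hb i)
          simpa using this
      _ = _ := by simp
  have hJg : (JJ g t : ℝ) ≤ (C₁ * (P : ℝ) ^ (2 * (t : ℝ) - k + 1 / 100)) ^ r := by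
    have h1 := bb_JJ_le (k := k) (t := t) (fun i => Finset.Ioc (a' i) (b' i)) g
      (fun p q hpq => hpq)
    calc (JJ g t : ℝ) ≤ ((∏ i, JE {k} t (Finset.Ioc (a' i) (b' i)) : ℕ) : ℝ) := by
          exact_mod_cast h1
      _ = ∏ i, (JE {k} t (Finset.Ioc (a' i) (b' i)) : ℝ) := by push_cast; rfl
      _ ≤ ∏ _i : Fin r, C₁ * (P : ℝ) ^ (2 * (t : ℝ) - k + 1 / 100) := by
          refine Finset.prod_le_prod (fun i _ => by positivity) fun i _ => ?_
          have := hE P hP1 (a' i) (b' i) (ha' i) (hb' i)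
          simpa using this
      _ = _ := by simp
  have hgeo : ∏ i : Fin r, ∑ ν ∈ Finset.Icc (-((2 * t * (β * (A ^ k * P ^ k)) : ℕ) : ℤ))
      ((2 * t * (β * (A ^ k * P ^ k)) : ℕ) : ℤ),
        geo (2 * t * (A ^ k * P ^ k)) ((fun _ : Fin r => 2 * α) i * ν) ≤
      (C₂ * (P : ℝ) ^ ((2 * k : ℝ) - 1 / 25)) ^ r := by
    have h1 := hG P hPP α hα (2 * t * (β * (A ^ k * P ^ k))) (2 * t * (A ^ k * P ^ k))
      (by
        rw [hD]
        have : 2 * t * (β * A ^ k + A ^ k) * P ^ k =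
          2 * t * (β * (A ^ k * P ^ k)) + 2 * t * (A ^ k * P ^ k) := by ring
        rw [this]
        exact Nat.le_add_right _ _)
      (by
        rw [hD]
        have : 2 * t * (β * A ^ k + A ^ k) * P ^ k =
          2 * t * (β * (A ^ k * P ^ k)) + 2 * t * (A ^ k * P ^ k) := by ring
        rw [this]
        exact Nat.le_add_left _ _)
    calc _ ≤ ∏ _i : Fin r, C₂ * (P : ℝ) ^ ((2 * k : ℝ) - 1 / 25) := by
          refine Finset.prod_le_prod
            (fun i _ => Finset.sum_nonneg fun ν _ => norm_nonneg _) fun i _ => ?_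
          refine le_trans (le_of_eq ?_) h1
          refine Finset.sum_congr rfl fun ν _ => ?_
          congr 1
          push_cast
          ring
      _ = _ := by simp
  have hcU := bb_card (r := r) (A := A) (P := P) ha hb
  have hcW := bb_card (r := r) (A := A) (P := P) ha' hb'
  have hgeo0 : 0 ≤ ∏ i : Fin r, ∑ ν ∈ Finset.Icc (-((2 * t * (β * (A ^ k * P ^ k)) : ℕ) : ℤ))
      ((2 * t * (β * (A ^ k * P ^ k)) : ℕ) : ℤ),
        geo (2 * t * (A ^ k * P ^ k)) ((fun _ : Fin r => 2 * α) i * ν) :=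
    Finset.prod_nonneg fun i _ => Finset.sum_nonneg fun ν _ => norm_nonneg _
  set N : ℝ := ‖∑ u : U, ∑ w : W, φ u.1 * ψ w.1 *
        e (∑ j, (fun _ : Fin r => 2 * α) j * (f u j : ℤ) * (g w j : ℤ))‖ with hN
  have hAP : (0 : ℝ) ≤ (2 * A * P : ℝ) ^ r := by positivity
  have htot : N ^ (4 * t ^ 2) ≤
      ((2 * A * P : ℝ) ^ r * (2 * A * P : ℝ) ^ r) ^ (2 * t * (2 * t - 1)) *
        (C₁ * (P : ℝ) ^ (2 * (t : ℝ) - k + 1 / 100)) ^ r *
        (C₁ * (P : ℝ) ^ (2 * (t : ℝ) - k + 1 / 100)) ^ r *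
        (C₂ * (P : ℝ) ^ ((2 * k : ℝ) - 1 / 25)) ^ r := by
    refine key.trans ?_
    have hUW : ((Fintype.card U : ℝ) * Fintype.card W) ^ (2 * t * (2 * t - 1)) ≤
        ((2 * A * P : ℝ) ^ r * (2 * A * P : ℝ) ^ r) ^ (2 * t * (2 * t - 1)) :=
      pow_le_pow_left₀ (by positivity) (mul_le_mul hcU hcW (by positivity) hAP) _
    refine mul_le_mul (mul_le_mul (mul_le_mul hUW hJf (by positivity) (by positivity)) hJg
      (by positivity) (by positivity)) hgeo hgeo0 (by positivity)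
  -- exponents
  set δ : ℝ := 2 * (r : ℝ) - r / (200 * (t : ℝ) ^ 2) with hδ
  have htr : (0 : ℝ) < t := by exact_mod_cast ht1
  have hexp : ((2 * A * P : ℝ) ^ r * (2 * A * P : ℝ) ^ r) ^ (2 * t * (2 * t - 1)) *
        (C₁ * (P : ℝ) ^ (2 * (t : ℝ) - k + 1 / 100)) ^ r *
        (C₁ * (P : ℝ) ^ (2 * (t : ℝ) - k + 1 / 100)) ^ r *
        (C₂ * (P : ℝ) ^ ((2 * k : ℝ) - 1 / 25)) ^ r =
      K * ((P : ℝ) ^ δ) ^ (4 * t ^ 2) := by
    have h1 : ((2 * A * P : ℝ) ^ r * (2 * A * P : ℝ) ^ r) ^ (2 * t * (2 * t - 1)) =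
        ((2 * A : ℝ) ^ r * (2 * A : ℝ) ^ r) ^ (2 * t * (2 * t - 1)) *
          (P : ℝ) ^ (2 * r * (2 * t * (2 * t - 1))) := by
      rw [mul_pow (2 * (A : ℝ)) (P : ℝ) r]
      rw [show (2 * (A : ℝ)) ^ r * (P : ℝ) ^ r * ((2 * (A : ℝ)) ^ r * (P : ℝ) ^ r) =
        ((2 * (A : ℝ)) ^ r * (2 * (A : ℝ)) ^ r) * (P : ℝ) ^ (2 * r) by ring, mul_pow, ← pow_mul]
    have h2 : ∀ x : ℝ, ((P : ℝ) ^ x) ^ r = (P : ℝ) ^ (x * r) := by
      intro x
      rw [← Real.rpow_natCast, ← Real.rpow_mul hPr.le]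
    have h3 : ((P : ℝ) ^ δ) ^ (4 * t ^ 2) = (P : ℝ) ^ (δ * (4 * (t : ℝ) ^ 2)) := by
      rw [← Real.rpow_natCast, ← Real.rpow_mul hPr.le]
      push_cast
      ring_nf
    have h4 : (P : ℝ) ^ (2 * r * (2 * t * (2 * t - 1))) =
        (P : ℝ) ^ (2 * (r : ℝ) * (2 * t * (2 * t - 1))) := by
      rw [← Real.rpow_natCast]
      congr 1
      push_cast [Nat.cast_sub (show 1 ≤ 2 * t by omega)]
      ring
    rw [h1, mul_pow C₁, mul_pow C₂, h2, h2, h3, h4, hK]
    have h5 : (P : ℝ) ^ (δ * (4 * (t : ℝ) ^ 2)) =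
        (P : ℝ) ^ (2 * (r : ℝ) * (2 * t * (2 * t - 1))) *
          (P : ℝ) ^ ((2 * (t : ℝ) - k + 1 / 100) * r) *
          (P : ℝ) ^ ((2 * (t : ℝ) - k + 1 / 100) * r) *
          (P : ℝ) ^ (((2 * k : ℝ) - 1 / 25) * r) := by
      rw [← Real.rpow_add hPr, ← Real.rpow_add hPr, ← Real.rpow_add hPr]
      congr 1
      rw [hδ]
      field_simp
      ring
    rw [h5]
    ring
  rw [hexp] at htot
  have hfin : N ^ (4 * t ^ 2) ≤ ((K + 1) * (P : ℝ) ^ δ) ^ (4 * t ^ 2) := by
    refine htot.trans ?_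
    rw [mul_pow]
    refine mul_le_mul_of_nonneg_right ?_ (by positivity)
    calc K ≤ K + 1 := by linarith
      _ ≤ (K + 1) ^ (4 * t ^ 2) := le_self_pow₀ (by linarith) (by positivity)
  exact le_of_pow_le_pow_left₀ (by positivity) (by positivity) hfin

end Pool.Agent.Lib.MP_c0a553_nt
end

section

/-! # Real zeros of indefinite forms (job HQ-16) -/

namespace Pool.Agent.Lib.MP_c0a553_nt

open Finset

private lemma rs_seg {s : ℕ} {f : (Fin s → ℝ) → ℝ} (hf : Continuous f) {y z : Fin s → ℝ}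
    (hy : 0 < f y) (hz : f z < 0) :
    ∃ t : ℝ, 0 ≤ t ∧ t ≤ 1 ∧ f (fun i => (1 - t) * y i + t * z i) = 0 := by
  have hc : Continuous (fun t : ℝ => f (fun i => (1 - t) * y i + t * z i)) :=
    hf.comp (continuous_pi fun i => by fun_prop)
  have h0 : f (fun i => (1 - (0 : ℝ)) * y i + 0 * z i) = f y := by
    simp
  have h1 : f (fun i => (1 - (1 : ℝ)) * y i + 1 * z i) = f z := by
    simp
  have h := intermediate_value_Icc' (zero_le_one (α := ℝ)) hc.continuousOn
  obtain ⟨t, ht, e⟩ := h ⟨h1.le.trans hz.le, hy.le.trans h0.ge⟩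
  exact ⟨t, ht.1, ht.2, e⟩

private lemma rs_cont {s : ℕ} (k : ℕ) (M : Matrix (Fin s) (Fin s) ℤ) :
    Continuous (fun y : Fin s → ℝ => ∑ i, ∑ j, (M i j : ℝ) * y i ^ k * y j ^ k) := by
  fun_prop

private lemma rs_shift {s : ℕ} {f : (Fin s → ℝ) → ℝ} (hf : Continuous f) {y : Fin s → ℝ}
    (hy : 0 < f y) : ∃ e : ℝ, 0 < e ∧ 0 < f (fun i => y i + e) := by
  have hc : Continuous (fun e : ℝ => f (fun i => y i + e)) :=
    hf.comp (continuous_pi fun i => by fun_prop)
  have h0 : (fun e : ℝ => f (fun i => y i + e)) 0 = f y := by simp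
  have h1 : ∀ᶠ e in nhds (0 : ℝ), 0 < f (fun i => y i + e) :=
    hc.continuousAt.eventually (lt_mem_nhds (by rw [h0]; exact hy))
  have h2 : ∀ᶠ e in nhdsWithin (0 : ℝ) (Set.Ioi 0), 0 < f (fun i => y i + e) :=
    h1.filter_mono nhdsWithin_le_nhds
  obtain ⟨e, he, he'⟩ := (h2.and self_mem_nhdsWithin).exists
  exact ⟨e, he', he⟩

/-- even `k`: a form taking both signs has a nonsingular real zero -/
theorem real_even {s : ℕ} (k : ℕ) (hk : 1 ≤ k) (hke : Even k) (M : Matrix (Fin s) (Fin s) ℤ)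
    (hM : M.IsSymm) (hdet : M.det ≠ 0)
    (hpos : ∃ y : Fin s → ℝ, 0 < MvPolynomial.aeval y (FF k M))
    (hneg : ∃ y : Fin s → ℝ, MvPolynomial.aeval y (FF k M) < 0) :
    NonsingZero (FF k M) ℝ := by
  obtain ⟨y, hy⟩ := hpos
  obtain ⟨z, hz⟩ := hneg
  rw [eval_FF] at hy hz
  have hs : Nonempty (Fin s) := by
    by_contra hcon
    rw [not_nonempty_iff] at hcon
    simp at hy
  set f : (Fin s → ℝ) → ℝ := fun y => ∑ i, ∑ j, (M i j : ℝ) * y i ^ k * y j ^ k with hfdef
  have hf : Continuous f := rs_cont k M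
  have habs : ∀ w : Fin s → ℝ, f (fun i => |w i|) = f w := by
    intro w
    simp only [hfdef, hke.pow_abs]
  have hy' : 0 < f (fun i => |y i|) := by rw [habs]; exact hy
  have hz' : 0 < (fun w => - f w) (fun i => |z i|) := by
    simp only [habs]
    exact neg_pos.2 hz
  obtain ⟨e₁, he₁, hY⟩ := rs_shift hf hy'
  obtain ⟨e₂, he₂, hZ⟩ := rs_shift hf.neg hz'
  obtain ⟨t, ht0, ht1, ht⟩ := rs_seg hf hY (neg_pos.1 hZ)
  set Y : Fin s → ℝ := fun i => (1 - t) * (|y i| + e₁) + t * (|z i| + e₂) with hYdef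
  have hYpos : ∀ i, 0 < Y i := by
    intro i
    have h1 : 0 < |y i| + e₁ := by positivity
    have h2 : 0 < |z i| + e₂ := by positivity
    rcases eq_or_lt_of_le ht0 with h | h
    · simp only [hYdef, ← h]
      linarith
    · have := mul_nonneg (sub_nonneg.2 ht1) h1.le
      have := mul_pos h h2
      simp only [hYdef]
      linarith
  refine ⟨Y, by rw [eval_FF]; exact ht, ?_⟩
  by_contra hcon
  push Not at hcon
  have hz0 : ∀ i, ∑ j, (M i j : ℝ) * Y j ^ k = 0 := by
    intro i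
    have h := hcon i
    rw [pderiv_FF k M hM] at h
    have hk0 : (k : ℝ) ≠ 0 := by positivity
    have hYi := (pow_pos (hYpos i) (k - 1)).ne'
    have h2 : (2 : ℝ) * k * Y i ^ (k - 1) ≠ 0 :=
      mul_ne_zero (mul_ne_zero two_ne_zero hk0) hYi
    exact (mul_eq_zero.1 h).resolve_left h2
  have hdet' : ((Int.castRingHom ℝ).mapMatrix M).det ≠ 0 := by
    rw [← RingHom.map_det]
    simpa using hdet
  have hv : ((Int.castRingHom ℝ).mapMatrix M).mulVec (fun j => Y j ^ k) = 0 := by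
    funext i
    simpa [Matrix.mulVec, dotProduct] using hz0 i
  have h0 := Matrix.eq_zero_of_mulVec_eq_zero hdet' hv
  obtain ⟨i⟩ := hs
  have h1 := congrFun h0 i
  exact (pow_pos (hYpos i) k).ne' h1

/-- a form taking both signs has a nontrivial real zero -/
theorem real_zero_of_signs {s : ℕ} (k : ℕ) (hk : 1 ≤ k) (M : Matrix (Fin s) (Fin s) ℤ)
    (hpos : ∃ y : Fin s → ℝ, 0 < MvPolynomial.aeval y (FF k M))
    (hneg : ∃ y : Fin s → ℝ, MvPolynomial.aeval y (FF k M) < 0) :
    ∃ y : Fin s → ℝ, y ≠ 0 ∧ MvPolynomial.aeval y (FF k M) = 0 := by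
  obtain ⟨y, hy⟩ := hpos
  obtain ⟨z, hz⟩ := hneg
  rw [eval_FF] at hy hz
  obtain ⟨t, ht0, ht1, ht⟩ := rs_seg (rs_cont k M) hy hz
  refine ⟨fun i => (1 - t) * y i + t * z i, ?_, by rw [eval_FF]; exact ht⟩
  intro h0
  rcases eq_or_lt_of_le ht1 with h | h
  · subst h
    simp only [sub_self, zero_mul, one_mul, zero_add] at ht
    linarith
  · have h1 : 1 - t ≠ 0 := by linarith
    have hyi : ∀ i, y i = (-(t / (1 - t))) * z i := by
      intro i
      have := congrFun h0 i
      simp only [Pi.zero_apply] at this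
      field_simp
      linarith
    have hsum : ∑ i, ∑ j, (M i j : ℝ) * y i ^ k * y j ^ k =
        ((-(t / (1 - t))) ^ k) ^ 2 * ∑ i, ∑ j, (M i j : ℝ) * z i ^ k * z j ^ k := by
      rw [Finset.mul_sum]
      refine Finset.sum_congr rfl fun i _ => ?_
      rw [Finset.mul_sum]
      refine Finset.sum_congr rfl fun j _ => ?_
      rw [hyi i, hyi j, mul_pow, mul_pow]
      ring
    rw [hsum] at hy
    have h2 : 0 ≤ ((-(t / (1 - t))) ^ k) ^ 2 := sq_nonneg _
    have := mul_nonpos_of_nonneg_of_nonpos h2 hz.le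
    linarith

end Pool.Agent.Lib.MP_c0a553_nt
end
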