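import Pool.Agent.Lib.MP_c0a553_nt.Holder

section

/-! # Decay of the singular series (job HP-25) -/

namespace Pool.Agent.Lib.MP_c0a553_nt

open Finset

variable {ι : Type} [Fintype ι] [DecidableEq ι]

private lemma fn_congr (G : MvPolynomial ι ℤ) (q : ℕ) {x y : ι → ℤ}
    (h : ∀ i, (q : ℤ) ∣ y i - x i) : (q : ℤ) ∣ fn G y - fn G x := by
  have key : ∀ z : ι → ℤ, ((fn G z : ℤ) : ZMod q) =
      MvPolynomial.eval₂ (Int.castRingHom (ZMod q)) (fun i => ((z i : ℤ) : ZMod q)) G := by
    intro z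
    have h1 := MvPolynomial.eval₂_comp_left (Int.castRingHom (ZMod q)) (RingHom.id ℤ) z G
    rw [RingHom.comp_id] at h1
    exact h1
  rw [← ZMod.intCast_zmod_eq_zero_iff_dvd, Int.cast_sub, key, key, sub_eq_zero]
  congr 1
  ext i
  have := (ZMod.intCast_zmod_eq_zero_iff_dvd _ q).2 (h i)
  rwa [Int.cast_sub, sub_eq_zero] at this

private lemma e_congr (a : ℤ) (q : ℕ) (hq : 0 < q) {u v : ℤ} (h : (q : ℤ) ∣ u - v) :
    e ((a : ℝ) / q * u) = e ((a : ℝ) * v / q) := by
  obtain ⟨m, hm⟩ := h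
  have hu : u = v + q * m := by linarith
  have hq' : (q : ℝ) ≠ 0 := by positivity
  have : (a : ℝ) / q * u = (a : ℝ) * v / q + ((a * m : ℤ) : ℝ) := by
    rw [hu]; push_cast; field_simp
  rw [this, e_add_int]

private lemma S_eq_Sc (G : MvPolynomial ι ℤ) (q : ℕ) (hq : 0 < q) (a : ℤ) :
    S (fn G) q (fun _ => 0) (fun _ => 1) ((a : ℝ) / q) = Sc (fn G) q a := by
  have hqz : (0 : ℤ) < q := by exact_mod_cast hq
  unfold S Sc box
  refine Finset.sum_nbij' (i := fun y i => (y i % q).toNat)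
    (j := fun x i => if x i = 0 then (q : ℤ) else (x i : ℤ)) ?_ ?_ ?_ ?_ ?_
  · intro y _
    rw [Fintype.mem_piFinset]
    intro i
    rw [Finset.mem_range, Int.toNat_lt (Int.emod_nonneg _ hqz.ne')]
    exact Int.emod_lt_of_pos _ hqz
  · intro x hx
    rw [Fintype.mem_piFinset] at hx ⊢
    intro i
    have := Finset.mem_range.1 (hx i)
    simp only [mul_zero, Int.floor_zero, mul_one, Int.floor_natCast, Finset.mem_Ioc]
    split_ifs with h0
    · exact ⟨hqz, le_refl _⟩
    · constructor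
      · omega
      · omega
  · intro y hy
    rw [Fintype.mem_piFinset] at hy
    funext i
    have := hy i
    simp only [mul_zero, Int.floor_zero, mul_one, Int.floor_natCast, Finset.mem_Ioc] at this
    simp only
    split_ifs with h0
    · have h1 : y i % q = 0 := by
        have := Int.emod_nonneg (y i) hqz.ne'
        omega
      obtain ⟨m, hm⟩ := Int.dvd_of_emod_eq_zero h1
      have h2 : 0 < m := by
        by_contra h3
        push_neg at h3
        nlinarith
      have h3 : m ≤ 1 := by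
        by_contra h3
        push_neg at h3
        nlinarith
      have : m = 1 := by omega
      rw [hm, this, mul_one]
    · have h1 : (((y i % q).toNat : ℕ) : ℤ) = y i % q :=
        Int.toNat_of_nonneg (Int.emod_nonneg _ hqz.ne')
      rw [h1]
      rcases this.2.lt_or_eq with h2 | h2
      · exact Int.emod_eq_of_lt this.1.le h2
      · exfalso
        apply h0
        rw [h2, Int.emod_self]
        rfl
  · intro x hx
    rw [Fintype.mem_piFinset] at hx
    funext i
    have hxi := Finset.mem_range.1 (hx i)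
    simp only
    split_ifs with h0
    · rw [Int.emod_self, h0]; rfl
    · have : ((x i : ℕ) : ℤ) % q = x i := Int.emod_eq_of_lt (by omega) (by omega)
      rw [this]
      rfl
  · intro y _
    apply e_congr a q hq
    apply fn_congr
    intro i
    have h1 : (((y i % q).toNat : ℕ) : ℤ) = y i % q :=
        Int.toNat_of_nonneg (Int.emod_nonneg _ hqz.ne')
    simp only
    rw [h1]
    exact Int.dvd_self_sub_emod

private lemma not_major (D q : ℕ) (hD : 2 ≤ D) (hq : 2 ≤ q) (a : ℕ) (ha : Nat.Coprime a q) :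
    ¬ Major D q (((a : ℤ) : ℝ) / q) := by
  rintro ⟨q', hq'1, hq'2, a', h⟩
  have hq0 : (0 : ℝ) < q := by positivity
  have hq1 : (1 : ℝ) < q := by exact_mod_cast (by omega : 1 < q)
  have hroot : (q : ℝ) ^ (1 / 10 : ℝ) < q := by
    conv_rhs => rw [← Real.rpow_one (q : ℝ)]
    exact Real.rpow_lt_rpow_of_exponent_lt hq1 (by norm_num)
  have h1 : |(q' : ℝ) * a - a' * q| * (q : ℝ) ^ D < (q : ℝ) ^ D := by
    have h2 : |(q' : ℝ) * a - a' * q| = q * |(q' : ℝ) * (((a : ℤ) : ℝ) / q) - a'| := by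
      rw [← abs_of_pos hq0, ← abs_mul, abs_of_pos hq0]
      congr 1
      push_cast
      field_simp
    rw [h2, mul_assoc]
    calc (q : ℝ) * (|(q' : ℝ) * (((a : ℤ) : ℝ) / q) - a'| * (q : ℝ) ^ D)
        ≤ q * (q : ℝ) ^ (1 / 10 : ℝ) := by gcongr
      _ < q * q := by gcongr
      _ = (q : ℝ) ^ 2 := by ring
      _ ≤ (q : ℝ) ^ D := pow_le_pow_right₀ hq1.le hD
  have h3 : |(q' : ℝ) * a - a' * q| < 1 := by
    have : 0 < (q : ℝ) ^ D := by positivity
    by_contra h4
    push_neg at h4
    nlinarith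
  have h4 : ((q' : ℤ) * a - a' * q) = 0 := by
    have : |(((q' : ℤ) * a - a' * q : ℤ) : ℝ)| < 1 := by push_cast; exact h3
    rw [← Int.cast_abs] at this
    have h5 : |(q' : ℤ) * a - a' * q| < 1 := by exact_mod_cast this
    exact Int.abs_lt_one_iff.1 h5
  have h5 : (q : ℤ) ∣ (q' : ℤ) * a := ⟨a', by linarith⟩
  have h6 : q ∣ q' * a := by exact_mod_cast h5
  have h7 : q ∣ q' := (Nat.Coprime.dvd_of_dvd_mul_right ha.symm h6)
  have h8 : q ≤ q' := Nat.le_of_dvd hq'1 h7
  have h9 : (q : ℝ) ≤ q' := by exact_mod_cast h8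
  linarith

/-- decay of the singular series -/
theorem AA_decay (G : MvPolynomial ι ℤ) (D : ℕ) (hD : 2 ≤ D) (hW : WeylBound (fn G) D) :
    ∃ q₀ : ℕ, ∀ q : ℕ, q₀ ≤ q → ‖AA (fn G) q‖ ≤ 1 / (q : ℝ) ^ 2 := by
  obtain ⟨P₀, hP⟩ := hW (fun _ => 0) (fun _ => 1) (fun _ => zero_le_one)
  refine ⟨max P₀ 2, fun q hq => ?_⟩
  have hq2 : 2 ≤ q := le_trans (le_max_right _ _) hq
  have hqP : P₀ ≤ q := le_trans (le_max_left _ _) hq
  have hq0 : (0 : ℝ) < q := by positivity
  have hq1 : (1 : ℝ) ≤ q := by exact_mod_cast (by omega : 1 ≤ q)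
  set n := Fintype.card ι with hn
  have hS : ∀ a ∈ (Finset.range q).filter (fun a => Nat.Coprime a q),
      ‖Sc (fn G) q (a : ℤ)‖ ≤ (q : ℝ) ^ n / (q : ℝ) ^ (D + 1) := by
    intro a ha
    have h1 := hP q hqP (((a : ℤ) : ℝ) / q) (not_major D q hD hq2 a (Finset.mem_filter.1 ha).2)
    rw [S_eq_Sc G q (by omega) a] at h1
    rw [le_div_iff₀ (by positivity)]
    exact h1
  have hsum : ‖∑ a ∈ (Finset.range q).filter (fun a => Nat.Coprime a q), Sc (fn G) q (a : ℤ)‖ ≤
      q * ((q : ℝ) ^ n / (q : ℝ) ^ (D + 1)) := by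
    refine (norm_sum_le_of_le _ hS).trans ?_
    rw [Finset.sum_const, nsmul_eq_mul]
    gcongr
    exact_mod_cast (Finset.card_filter_le _ _).trans (Finset.card_range q).le
  unfold AA
  rw [norm_div, norm_pow, Complex.norm_natCast, div_le_div_iff₀ (by positivity) (by positivity),
    one_mul]
  have hqn : 0 < (q : ℝ) ^ n := by positivity
  have h2 : (q : ℝ) * ((q : ℝ) ^ n / (q : ℝ) ^ (D + 1)) * (q : ℝ) ^ 2 ≤ (q : ℝ) ^ n := by
    have h3 : (q : ℝ) ^ 2 ≤ (q : ℝ) ^ D := pow_le_pow_right₀ hq1 hD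
    have h4 : (q : ℝ) * ((q : ℝ) ^ n / (q : ℝ) ^ (D + 1)) * (q : ℝ) ^ 2 =
        (q : ℝ) ^ n * ((q : ℝ) ^ 2 / (q : ℝ) ^ D) := by
      rw [pow_succ (q : ℝ) D]
      field_simp
    rw [h4]
    calc (q : ℝ) ^ n * ((q : ℝ) ^ 2 / (q : ℝ) ^ D) ≤ (q : ℝ) ^ n * 1 := by
          gcongr
          rw [div_le_one (by positivity)]
          exact h3
      _ = (q : ℝ) ^ n := mul_one _
  refine le_trans ?_ h2
  gcongr

end Pool.Agent.Lib.MP_c0a553_nt
end

section

/-! # Chinese remainder theorem (job HP-27) -/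

namespace Pool.Agent.Lib.MP_c0a553_nt

open Finset

variable {ι : Type} [Fintype ι] [DecidableEq ι]

/-- evaluation in a commutative ring -/
private noncomputable def evZ {R : Type} [CommRing R] (x : ι → R) (G : MvPolynomial ι ℤ) : R :=
  MvPolynomial.eval₂ (Int.castRingHom R) x G

omit [Fintype ι] [DecidableEq ι] in
private lemma nnm_map {R S : Type} [CommRing R] [CommRing S] (φ : R →+* S) (x : ι → R)
    (G : MvPolynomial ι ℤ) : φ (evZ x G) = evZ (fun i => φ (x i)) G := by
  unfold evZ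
  rw [MvPolynomial.eval₂_comp_left, RingHom.ext_int (φ.comp (Int.castRingHom R))
    (Int.castRingHom S)]
  rfl

omit [Fintype ι] [DecidableEq ι] in
private lemma nnm_cast (q : ℕ) (G : MvPolynomial ι ℤ) (x : ι → ℤ) :
    (q : ℤ) ∣ fn G x ↔ evZ (fun i => ((x i : ℤ) : ZMod q)) G = 0 := by
  rw [← ZMod.intCast_zmod_eq_zero_iff_dvd]
  have h1 : ((fn G x : ℤ) : ZMod q) = evZ (fun i => ((x i : ℤ) : ZMod q)) G := by
    have h2 := nnm_map (Int.castRingHom (ZMod q)) x G
    simp only [eq_intCast] at h2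
    rw [← h2]
    congr 1
  rw [h1]

private lemma nnm_card (q : ℕ) (hq : 1 ≤ q) (G : MvPolynomial ι ℤ) :
    NN (fn G) q = Nat.card {x : ι → ZMod q // evZ x G = 0} := by
  classical
  have : NeZero q := ⟨by omega⟩
  rw [Nat.card_eq_fintype_card, Fintype.card_subtype]
  unfold NN
  apply Finset.card_nbij' (fun x i => ((x i : ℕ) : ZMod q)) (fun y i => (y i).val)
  · intro x hx
    have hx := (Finset.mem_filter.1 (Finset.mem_coe.1 hx)).2
    refine Finset.mem_coe.2 (Finset.mem_filter.2 ⟨Finset.mem_univ _, ?_⟩)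
    have h1 := (nnm_cast q G _).1 hx
    simpa using h1
  · intro y hy
    have hy := (Finset.mem_filter.1 (Finset.mem_coe.1 hy)).2
    refine Finset.mem_coe.2 (Finset.mem_filter.2 ⟨?_, ?_⟩)
    · rw [Fintype.mem_piFinset]
      intro i
      rw [Finset.mem_range]
      exact ZMod.val_lt _
    · rw [nnm_cast]
      simpa using hy
  · intro x hx
    have h1 := Fintype.mem_piFinset.1 (Finset.mem_filter.1 (Finset.mem_coe.1 hx)).1
    funext i
    exact ZMod.val_cast_of_lt (Finset.mem_range.1 (h1 i))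
  · intro y _
    funext i
    simp

private noncomputable def nnmEquiv (G : MvPolynomial ι ℤ) (m n : ℕ) (h : Nat.Coprime m n) :
    {x : ι → ZMod (m * n) // evZ x G = 0} ≃
      {x : ι → ZMod m // evZ x G = 0} × {x : ι → ZMod n // evZ x G = 0} where
  toFun x :=
    (⟨fun i => (ZMod.chineseRemainder h (x.1 i)).1, by
      have h1 := nnm_map ((RingHom.fst (ZMod m) (ZMod n)).comp
        (ZMod.chineseRemainder h : ZMod (m * n) →+* ZMod m × ZMod n)) x.1 G
      rw [x.2, map_zero] at h1
      exact h1.symm⟩,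
     ⟨fun i => (ZMod.chineseRemainder h (x.1 i)).2, by
      have h1 := nnm_map ((RingHom.snd (ZMod m) (ZMod n)).comp
        (ZMod.chineseRemainder h : ZMod (m * n) →+* ZMod m × ZMod n)) x.1 G
      rw [x.2, map_zero] at h1
      exact h1.symm⟩)
  invFun p := ⟨fun i => (ZMod.chineseRemainder h).symm (p.1.1 i, p.2.1 i), by
    have h1 := nnm_map ((ZMod.chineseRemainder h).symm : ZMod m × ZMod n →+* ZMod (m * n))
      (fun i => (p.1.1 i, p.2.1 i)) G
    have h2 : evZ (fun i => (p.1.1 i, p.2.1 i)) G = (0 : ZMod m × ZMod n) := by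
      have h3 := nnm_map (RingHom.fst (ZMod m) (ZMod n)) (fun i => (p.1.1 i, p.2.1 i)) G
      have h4 := nnm_map (RingHom.snd (ZMod m) (ZMod n)) (fun i => (p.1.1 i, p.2.1 i)) G
      apply Prod.ext
      · exact h3.trans p.1.2
      · exact h4.trans p.2.2
    rw [h2, map_zero] at h1
    exact h1.symm⟩
  left_inv x := by
    apply Subtype.ext
    funext i
    simp
  right_inv p := by
    apply Prod.ext
    · apply Subtype.ext
      funext i
      simp
    · apply Subtype.ext
      funext i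
      simp

/-- Chinese remainder theorem -/
theorem NN_mul (G : MvPolynomial ι ℤ) (m n : ℕ) (hm : 1 ≤ m) (hn : 1 ≤ n) (h : Nat.Coprime m n) :
    NN (fn G) (m * n) = NN (fn G) m * NN (fn G) n := by
  rw [nnm_card m hm, nnm_card n hn, nnm_card (m * n) (Nat.mul_pos hm hn),
    Nat.card_congr (nnmEquiv G m n h), Nat.card_prod]

end Pool.Agent.Lib.MP_c0a553_nt
end

section

/-! # Hensel lower bound (job HP-28) -/

namespace Pool.Agent.Lib.MP_c0a553_nt

open Finset

variable {ι : Type} [Fintype ι] [DecidableEq ι]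

private lemma dvd_sub_aeval {R : Type} [CommRing R] {σ : Type} (G : MvPolynomial σ ℤ)
    (x y : σ → R) (c : R) (h : ∀ j, c ∣ x j - y j) :
    c ∣ MvPolynomial.aeval x G - MvPolynomial.aeval y G := by
  induction G using MvPolynomial.induction_on with
  | C a => simp
  | add p q hp hq =>
    have : MvPolynomial.aeval x (p + q) - MvPolynomial.aeval y (p + q) =
        (MvPolynomial.aeval x p - MvPolynomial.aeval y p) +
        (MvPolynomial.aeval x q - MvPolynomial.aeval y q) := by
      simp only [map_add]; ring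
    rw [this]
    exact dvd_add hp hq
  | mul_X p i hp =>
    have : MvPolynomial.aeval x (p * MvPolynomial.X i) -
        MvPolynomial.aeval y (p * MvPolynomial.X i) =
        (MvPolynomial.aeval x p - MvPolynomial.aeval y p) * x i +
        MvPolynomial.aeval y p * (x i - y i) := by
      simp only [map_mul, MvPolynomial.aeval_X]; ring
    rw [this]
    exact dvd_add (hp.mul_right _) ((h i).mul_left _)

private lemma aeval_smul_hom {R : Type} [CommRing R] {σ : Type} (G : MvPolynomial σ ℤ)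
    (D : ℕ) (hG : G.IsHomogeneous D) (c : R) (y : σ → R) :
    MvPolynomial.aeval (fun j => c * y j) G = c ^ D * MvPolynomial.aeval y G := by
  rw [MvPolynomial.aeval_def, MvPolynomial.aeval_def, MvPolynomial.eval₂_eq, MvPolynomial.eval₂_eq,
    Finset.mul_sum]
  refine Finset.sum_congr rfl fun d hd => ?_
  have h1 : d.degree = D := by
    have := hG (MvPolynomial.mem_support_iff.mp hd)
    rw [Finsupp.weight_apply] at this
    rw [Finsupp.degree_apply]
    simpa [Finsupp.sum] using this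
  rw [← h1, Finsupp.degree_apply]
  simp only [mul_pow, Finset.prod_mul_distrib, Finset.prod_pow_eq_pow_sum]
  ring

private lemma deriv_aeval {R : Type} [CommRing R] (G : MvPolynomial ι ℤ) (i : ι) (z : ι → R) :
    Polynomial.derivative (MvPolynomial.aeval
      (fun j => if j = i then (Polynomial.X : Polynomial R) else Polynomial.C (z j)) G) =
    MvPolynomial.aeval
      (fun j => if j = i then (Polynomial.X : Polynomial R) else Polynomial.C (z j))
      (MvPolynomial.pderiv i G) := by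
  induction G using MvPolynomial.induction_on with
  | C a => simp
  | add p q hp hq => simp only [map_add, hp, hq]
  | mul_X p j hp =>
    have h1 : MvPolynomial.pderiv i (p * MvPolynomial.X j) =
        MvPolynomial.pderiv i p * MvPolynomial.X j + p * MvPolynomial.pderiv i (MvPolynomial.X j) := by
      rw [Derivation.leibniz]; simp [mul_comm]; ring
    rw [h1, map_add, map_mul (MvPolynomial.aeval _), map_mul (MvPolynomial.aeval _),
      map_mul (MvPolynomial.aeval _), Polynomial.derivative_mul, hp,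
      MvPolynomial.aeval_X, MvPolynomial.pderiv_X]
    congr 1
    by_cases hj : j = i
    · subst hj; simp
    · simp [hj]

private lemma eval_aeval {R : Type} [CommRing R] (G : MvPolynomial ι ℤ) (i : ι) (z : ι → R)
    (t : R) :
    Polynomial.eval t (MvPolynomial.aeval
      (fun j => if j = i then (Polynomial.X : Polynomial R) else Polynomial.C (z j)) G) =
    MvPolynomial.aeval (fun j => if j = i then t else z j) G := by
  induction G using MvPolynomial.induction_on with
  | C a => simp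
  | add p q hp hq => simp only [map_add, Polynomial.eval_add, hp, hq]
  | mul_X p j hp =>
    rw [map_mul, map_mul, Polynomial.eval_mul, hp, MvPolynomial.aeval_X, MvPolynomial.aeval_X]
    congr 1
    by_cases hj : j = i
    · subst hj; simp
    · simp [hj]

private lemma aeval_intCast {R : Type} [CommRing R] (G : MvPolynomial ι ℤ) (z : ι → ℤ) :
    MvPolynomial.aeval (fun j => ((z j : ℤ) : R)) G = ((fn G z : ℤ) : R) := by
  rw [fn]
  induction G using MvPolynomial.induction_on with
  | C a => simp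
  | add p q hp hq => simp only [map_add, hp, hq, Int.cast_add]
  | mul_X p j hp => simp only [map_mul, hp, MvPolynomial.aeval_X, Int.cast_mul,
      MvPolynomial.eval_X]

private lemma aeval_coe_padic (p : ℕ) [Fact p.Prime] {σ : Type} (G : MvPolynomial σ ℤ)
    (x : σ → ℤ_[p]) :
    ((MvPolynomial.aeval x G : ℤ_[p]) : ℚ_[p]) = MvPolynomial.aeval (fun j => (x j : ℚ_[p])) G := by
  induction G using MvPolynomial.induction_on with
  | C a => simp
  | add q r hp hq => simp only [map_add, hp, hq, PadicInt.coe_add]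
  | mul_X q j hp => simp only [map_mul, hp, MvPolynomial.aeval_X, PadicInt.coe_mul]

/-- Hensel: lower bound for the number of solutions modulo prime powers -/
theorem NN_padic (G : MvPolynomial ι ℤ) (D : ℕ) (hG : G.IsHomogeneous D) (hD : 1 ≤ D) (p : ℕ)
    [Fact p.Prime] (h : NonsingZero G ℚ_[p]) :
    ∃ c : ℝ, 0 < c ∧ ∀ n : ℕ, c * ((p : ℝ) ^ n) ^ (Fintype.card ι) ≤ (p : ℝ) ^ n * NN (fn G) (p ^ n) := by
  have hp : p.Prime := Fact.out
  have hp1 : (1 : ℝ) < p := by exact_mod_cast hp.one_lt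
  have hp0 : (0 : ℝ) < p := by linarith
  obtain ⟨y, hy0, i, hyi⟩ := h
  -- scaling
  obtain ⟨r, hr⟩ : ∃ r : ℕ, ∀ j, ‖(p : ℚ_[p]) ^ r * y j‖ ≤ 1 := by
    have h1 : ∀ j, ∃ r : ℕ, ‖y j‖ ≤ (p : ℝ) ^ r := fun j =>
      (pow_unbounded_of_one_lt ‖y j‖ hp1).imp fun _ h => h.le
    choose r hr using h1
    refine ⟨∑ j, r j, fun j => ?_⟩
    rw [norm_mul, norm_pow, Padic.norm_p, inv_pow, inv_mul_le_iff₀ (by positivity), mul_one]
    refine (hr j).trans ?_
    exact pow_le_pow_right₀ hp1.le (Finset.single_le_sum (fun _ _ => Nat.zero_le _) (Finset.mem_univ j))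
  set x : ι → ℤ_[p] := fun j => ⟨(p : ℚ_[p]) ^ r * y j, hr j⟩ with hx
  have hxc : (fun j => (x j : ℚ_[p])) = fun j => (p : ℚ_[p]) ^ r * y j := rfl
  have hpQ : (p : ℚ_[p]) ≠ 0 := by exact_mod_cast hp.ne_zero
  have hx0 : MvPolynomial.aeval x G = 0 := by
    have : ((MvPolynomial.aeval x G : ℤ_[p]) : ℚ_[p]) = 0 := by
      rw [aeval_coe_padic, hxc, aeval_smul_hom G D hG, hy0, mul_zero]
    exact Subtype.ext this
  set d : ℤ_[p] := MvPolynomial.aeval x (MvPolynomial.pderiv i G) with hd
  have hd0 : d ≠ 0 := by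
    intro h0
    have : ((MvPolynomial.aeval x (MvPolynomial.pderiv i G) : ℤ_[p]) : ℚ_[p]) = 0 := by
      rw [← hd, h0]; rfl
    rw [aeval_coe_padic, hxc, aeval_smul_hom _ (D - 1) hG.pderiv] at this
    exact mul_ne_zero (pow_ne_zero _ (pow_ne_zero _ hpQ)) hyi this
  set e : ℕ := d.valuation with he
  have hde : ‖d‖ = (p : ℝ) ^ (-e : ℤ) := PadicInt.norm_eq_zpow_neg_valuation hd0
  set E : ℕ := 2 * e + 1 with hE
  have hnorm : ∀ (w : ℤ_[p]) (m : ℕ), (p : ℤ_[p]) ^ m ∣ w ↔ ‖w‖ ≤ (p : ℝ) ^ (-m : ℤ) := by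
    intro w m
    rw [PadicInt.norm_le_pow_iff_mem_span_pow, Ideal.mem_span_singleton]
  -- the approximations
  have happr : ∀ (w : ℤ_[p]) (m : ℕ), (p : ℤ_[p]) ^ m ∣ w - (w.appr m : ℤ_[p]) := by
    intro w m
    exact Ideal.mem_span_singleton.mp (PadicInt.appr_spec m w)
  have hsol : ∀ (n : ℕ) (z : ι → ℕ) (w : ι → ℤ_[p]), MvPolynomial.aeval w G = 0 →
      (∀ j, (p : ℤ_[p]) ^ n ∣ w j - (z j : ℤ_[p])) →
      (((p ^ n : ℕ) : ℤ)) ∣ fn G (fun j => (z j : ℤ)) := by
    intro n z w hw hz
    have h1 := dvd_sub_aeval G w (fun j => (z j : ℤ_[p])) ((p : ℤ_[p]) ^ n) hz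
    rw [hw, zero_sub, dvd_neg] at h1
    have h2 := aeval_intCast (R := ℤ_[p]) G (fun j => (z j : ℤ))
    simp only [Int.cast_natCast] at h2
    rw [h2, PadicInt.pow_p_dvd_int_iff] at h1
    push_cast
    exact h1
  -- Hensel
  have hens : ∀ z : ι → ℕ, (∀ j, j ≠ i → (p : ℤ_[p]) ^ E ∣ x j - (z j : ℤ_[p])) →
      ∃ t : ℤ_[p], MvPolynomial.aeval (fun j => if j = i then t else (z j : ℤ_[p])) G = 0 := by
    intro z hz
    set g : Polynomial ℤ_[p] := MvPolynomial.aeval
      (fun j => if j = i then (Polynomial.X : Polynomial ℤ_[p]) else Polynomial.C (z j : ℤ_[p])) G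
      with hg
    have hw : ∀ j, (p : ℤ_[p]) ^ E ∣ (if j = i then x i else (z j : ℤ_[p])) - x j := by
      intro j
      by_cases hj : j = i
      · subst hj; simp
      · simp only [hj, if_false]
        have := hz j hj
        rw [← dvd_neg, neg_sub]
        exact this
    have h1 : (p : ℤ_[p]) ^ E ∣ g.eval (x i) := by
      rw [hg, eval_aeval]
      have := dvd_sub_aeval G _ x _ hw
      rwa [hx0, sub_zero] at this
    have h2 : (p : ℤ_[p]) ^ E ∣ (Polynomial.derivative g).eval (x i) - d := by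
      rw [hg, deriv_aeval, eval_aeval, hd]
      exact dvd_sub_aeval _ _ x _ hw
    rw [hnorm] at h1 h2
    have h3 : (p : ℝ) ^ (-e : ℤ) ≤ ‖(Polynomial.derivative g).eval (x i)‖ := by
      by_contra hlt
      push Not at hlt
      have h4 : d = (d - (Polynomial.derivative g).eval (x i)) + (Polynomial.derivative g).eval (x i) := by
        ring
      have h5 : ‖d‖ < (p : ℝ) ^ (-e : ℤ) := by
        rw [h4]
        refine (PadicInt.nonarchimedean _ _).trans_lt (max_lt ?_ hlt)
        rw [norm_sub_rev]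
        refine h2.trans_lt ?_
        apply zpow_lt_zpow_right₀ hp1
        rw [hE]; push_cast; omega
      rw [hde] at h5
      exact lt_irrefl _ h5
    have h6 : ‖g.aeval (x i)‖ < ‖g.derivative.aeval (x i)‖ ^ 2 := by
      rw [Polynomial.coe_aeval_eq_eval]
      refine h1.trans_lt ?_
      calc (p : ℝ) ^ (-(E : ℕ) : ℤ) < ((p : ℝ) ^ (-e : ℤ)) ^ 2 := by
            rw [← zpow_natCast, ← zpow_mul]
            apply zpow_lt_zpow_right₀ hp1
            rw [hE]; push_cast; omega
        _ ≤ _ := pow_le_pow_left₀ (by positivity) h3 2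
    obtain ⟨t, ht, -⟩ := hensels_lemma h6
    refine ⟨t, ?_⟩
    rw [Polynomial.coe_aeval_eq_eval, hg, eval_aeval] at ht
    exact ht
  -- the constant
  set s := Fintype.card ι with hs
  have hs1 : 1 ≤ s := Fintype.card_pos_iff.mpr ⟨i⟩
  refine ⟨((p : ℝ) ^ (E * s))⁻¹, by positivity, fun n => ?_⟩
  rw [inv_mul_le_iff₀ (by positivity)]
  rcases le_or_gt n E with hn | hn
  · -- small n
    have h1 : 1 ≤ NN (fn G) (p ^ n) := by
      rw [NN, Nat.succ_le_iff, Finset.card_pos]
      refine ⟨fun j => (x j).appr n, ?_⟩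
      rw [Finset.mem_filter, Fintype.mem_piFinset]
      refine ⟨fun j => Finset.mem_range.mpr (PadicInt.appr_lt _ _), ?_⟩
      exact hsol n (fun j => (x j).appr n) x hx0 (fun j => happr _ _)
    calc ((p : ℝ) ^ n) ^ s ≤ ((p : ℝ) ^ E) ^ s :=
          pow_le_pow_left₀ (by positivity) (pow_le_pow_right₀ hp1.le hn) s
      _ = (p : ℝ) ^ (E * s) * (1 * 1) := by rw [← pow_mul]; ring
      _ ≤ (p : ℝ) ^ (E * s) * ((p : ℝ) ^ n * NN (fn G) (p ^ n)) := by
          refine mul_le_mul_of_nonneg_left ?_ (by positivity)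
          refine mul_le_mul (one_le_pow₀ hp1.le) (by exact_mod_cast h1) (by norm_num) (by positivity)
  · obtain ⟨m, rfl⟩ : ∃ m, n = E + m := ⟨n - E, by omega⟩
    have h1 : (p ^ m) ^ (s - 1) ≤ NN (fn G) (p ^ (E + m)) := by
      set T : Finset (ι → ℕ) := Fintype.piFinset
        (fun j => if j = i then ({0} : Finset ℕ) else Finset.range (p ^ m)) with hT
      have hTc : T.card = (p ^ m) ^ (s - 1) := by
        rw [hT, Fintype.card_piFinset, ← Finset.mul_prod_erase Finset.univ _ (Finset.mem_univ i)]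
        rw [if_pos rfl, Finset.card_singleton, one_mul]
        rw [Finset.prod_congr rfl (g := fun _ => p ^ m)
          (fun j hj => by rw [if_neg (Finset.ne_of_mem_erase hj), Finset.card_range])]
        rw [Finset.prod_const, Finset.card_erase_of_mem (Finset.mem_univ i), Finset.card_univ]
      set z0 : (ι → ℕ) → ι → ℕ := fun k j => (x j).appr E + p ^ E * k j with hz0
      have hz0' : ∀ k : ι → ℕ, ∀ j, j ≠ i → (p : ℤ_[p]) ^ E ∣ x j - (z0 k j : ℤ_[p]) := by
        intro k j _
        have : x j - (z0 k j : ℤ_[p]) = (x j - ((x j).appr E : ℤ_[p])) - (p : ℤ_[p]) ^ E * (k j : ℤ_[p]) := by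
          simp only [hz0]; push_cast; ring
        rw [this]
        exact dvd_sub (happr _ _) (dvd_mul_right _ _)
      choose t ht using fun k : ι → ℕ => hens (z0 k) (hz0' k)
      rw [← hTc, NN]
      refine Finset.card_le_card_of_injOn
        (fun k j => if j = i then (t k).appr (E + m) else z0 k j) ?_ ?_
      · intro k hk
        rw [Finset.mem_coe, hT, Fintype.mem_piFinset] at hk
        rw [Finset.mem_coe, Finset.mem_filter, Fintype.mem_piFinset]
        refine ⟨fun j => ?_, ?_⟩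
        · rw [Finset.mem_range]
          by_cases hj : j = i
          · simp only [hj, if_true]
            exact PadicInt.appr_lt _ _
          · simp only [hj, if_false, hz0]
            have h2 := hk j
            rw [if_neg hj, Finset.mem_range] at h2
            have h3 := PadicInt.appr_lt (x j) E
            calc (x j).appr E + p ^ E * k j < p ^ E + p ^ E * k j := by omega
              _ = p ^ E * (k j + 1) := by ring
              _ ≤ p ^ E * p ^ m := Nat.mul_le_mul_left _ h2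
              _ = p ^ (E + m) := (pow_add p E m).symm
        · refine hsol (E + m) (fun j => if j = i then (t k).appr (E + m) else z0 k j) _ (ht k) ?_
          intro j
          by_cases hj : j = i
          · simp only [hj, if_true]
            exact happr _ _
          · simp only [hj, if_false, sub_self, dvd_zero]
      · intro k hk k' hk' hkk
        rw [Finset.mem_coe, hT, Fintype.mem_piFinset] at hk hk'
        funext j
        by_cases hj : j = i
        · have h2 := hk j
          have h3 := hk' j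
          rw [if_pos hj, Finset.mem_singleton] at h2 h3
          rw [h2, h3]
        · have h2 := congrFun hkk j
          simp only [hj, if_false, hz0] at h2
          have h3 : p ^ E * k j = p ^ E * k' j := by omega
          exact Nat.eq_of_mul_eq_mul_left (pow_pos hp.pos E) h3
    obtain ⟨s', hs'⟩ : ∃ s', s = s' + 1 := ⟨s - 1, by omega⟩
    have h2 : ((p : ℝ) ^ m) ^ s' ≤ NN (fn G) (p ^ (E + m)) := by
      have : s - 1 = s' := by omega
      rw [this] at h1
      exact_mod_cast h1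
    calc ((p : ℝ) ^ (E + m)) ^ s = (p : ℝ) ^ (E * s) * ((p : ℝ) ^ m * ((p : ℝ) ^ m) ^ s') := by
          rw [hs', ← pow_mul, ← pow_mul, ← pow_add, ← pow_add]
          congr 1; ring
      _ ≤ (p : ℝ) ^ (E * s) * ((p : ℝ) ^ (E + m) * NN (fn G) (p ^ (E + m))) := by
          refine mul_le_mul_of_nonneg_left ?_ (by positivity)
          refine mul_le_mul (pow_le_pow_right₀ hp1.le (by omega)) h2 (by positivity) (by positivity)

end Pool.Agent.Lib.MP_c0a553_nt
end

section

/-! # Divisor sums of the singular series (job HP-26) -/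

namespace Pool.Agent.Lib.MP_c0a553_nt

open Finset

variable {ι : Type} [Fintype ι] [DecidableEq ι]

omit [Fintype ι] [DecidableEq ι] in
private lemma aadiv_congr (G : MvPolynomial ι ℤ) (d : ℕ) (z y : ι → ℤ) :
    (d : ℤ) ∣ fn G (fun i => z i + d * y i) - fn G z := by
  rw [← ZMod.intCast_eq_intCast_iff_dvd_sub]
  have h1 : ∀ w : ι → ℤ, ((fn G w : ℤ) : ZMod d) =
      MvPolynomial.eval (fun i => ((w i : ℤ) : ZMod d)) (MvPolynomial.map (Int.castRingHom (ZMod d)) G) := by
    intro w
    exact MvPolynomial.map_eval (Int.castRingHom (ZMod d)) w G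
  rw [h1, h1]
  congr 2
  funext i
  simp

private lemma aadiv_e_congr {d : ℕ} (hd : 1 ≤ d) (a : ℤ) {u v : ℤ} (h : (d : ℤ) ∣ u - v) :
    e ((a : ℝ) * u / d) = e ((a : ℝ) * v / d) := by
  obtain ⟨c, hc⟩ := h
  have hd0 : (d : ℝ) ≠ 0 := by positivity
  have h1 : (a : ℝ) * u / d = (a : ℝ) * v / d + ((a * c : ℤ) : ℝ) := by
    have : (u : ℝ) = v + d * c := by
      have : u = v + d * c := by linarith
      exact_mod_cast this
    rw [this]
    push_cast
    field_simp
  rw [h1, e_add_int]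

/-- the complete sum for a fraction which is not reduced -/
private lemma aadiv_Sc (G : MvPolynomial ι ℤ) (d m : ℕ) (hd : 1 ≤ d) (hm : 1 ≤ m) (a : ℕ) :
    Sc (fn G) (d * m) ((a * m : ℕ) : ℤ) = (m : ℂ) ^ (Fintype.card ι) * Sc (fn G) d (a : ℤ) := by
  have hmul : (Fintype.piFinset fun _ : ι => Finset.range m).card = m ^ (Fintype.card ι) := by
    rw [Fintype.card_piFinset]; simp
  have h1 : Sc (fn G) (d * m) ((a * m : ℕ) : ℤ) =
      ∑ p ∈ (Fintype.piFinset fun _ : ι => Finset.range d) ×ˢ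
        (Fintype.piFinset fun _ : ι => Finset.range m),
        e (((a : ℤ) : ℝ) * fn G (fun i => (p.1 i : ℤ)) / d) := by
    unfold Sc
    refine Finset.sum_nbij' (fun x => ((fun i => x i % d), (fun i => x i / d)))
      (fun p => fun i => p.1 i + d * p.2 i) ?_ ?_ ?_ ?_ ?_
    · intro x hx
      simp only [Fintype.mem_piFinset, Finset.mem_range, Finset.mem_product] at hx ⊢
      exact ⟨fun i => Nat.mod_lt _ hd, fun i => Nat.div_lt_of_lt_mul (hx i)⟩
    · intro p hp
      simp only [Fintype.mem_piFinset, Finset.mem_range, Finset.mem_product] at hp ⊢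
      intro i
      have h1 := hp.1 i
      have h2 := hp.2 i
      calc p.1 i + d * p.2 i < d + d * p.2 i := by omega
        _ = d * (p.2 i + 1) := by ring
        _ ≤ d * m := Nat.mul_le_mul_left _ h2
    · intro x hx
      funext i
      exact Nat.mod_add_div _ _
    · intro p hp
      simp only [Fintype.mem_piFinset, Finset.mem_range, Finset.mem_product] at hp
      refine Prod.ext ?_ ?_
      · funext i
        change (p.1 i + d * p.2 i) % d = p.1 i
        rw [Nat.add_mul_mod_self_left, Nat.mod_eq_of_lt (hp.1 i)]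
      · funext i
        change (p.1 i + d * p.2 i) / d = p.2 i
        rw [Nat.add_mul_div_left _ _ (by omega), Nat.div_eq_of_lt (hp.1 i), zero_add]
    · intro x hx
      have hd0 : (d : ℝ) ≠ 0 := by positivity
      have hm0 : (m : ℝ) ≠ 0 := by positivity
      have h2 : (((a * m : ℕ) : ℤ) : ℝ) * (fn G (fun i => (x i : ℤ)) : ℝ) / ((d * m : ℕ) : ℝ) =
          ((a : ℤ) : ℝ) * (fn G (fun i => (x i : ℤ)) : ℝ) / d := by
        push_cast
        field_simp
      rw [h2]
      apply aadiv_e_congr hd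
      have h3 := aadiv_congr G d (fun i => ((x i % d : ℕ) : ℤ)) (fun i => ((x i / d : ℕ) : ℤ))
      have h4 : (fun i => ((x i : ℕ) : ℤ)) =
          fun i => ((x i % d : ℕ) : ℤ) + d * ((x i / d : ℕ) : ℤ) := by
        funext i
        have := Nat.mod_add_div (x i) d
        exact_mod_cast this.symm
      rw [h4]
      exact h3
  rw [h1, Finset.sum_product]
  simp only [Finset.sum_const, hmul, nsmul_eq_mul]
  rw [← Finset.mul_sum]
  push_cast
  rfl

/-- divisor sums of the singular series count solutions -/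
theorem AA_divisors (G : MvPolynomial ι ℤ) (q : ℕ) (hq : 1 ≤ q) :
    (∑ d ∈ q.divisors, AA (fn G) d) * (q : ℂ) ^ (Fintype.card ι) = (q : ℂ) * (NN (fn G) q : ℂ) := by
  -- the full sum over all numerators, by orthogonality
  have hA : ∑ a ∈ Finset.range q, Sc (fn G) q (a : ℤ) = (q : ℂ) * (NN (fn G) q : ℂ) := by
    unfold Sc NN
    rw [Finset.sum_comm]
    have h1 : ∀ x : ι → ℕ, ∑ a ∈ Finset.range q, e ((((a : ℕ) : ℤ) : ℝ) * fn G (fun i => (x i : ℤ)) / q)
        = if (q : ℤ) ∣ fn G (fun i => (x i : ℤ)) then (q : ℂ) else 0 := by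
      intro x
      rw [← orth_one q hq]
      refine Finset.sum_congr rfl fun a _ => ?_
      push_cast
      rfl
    simp_rw [h1]
    rw [← Finset.sum_filter, Finset.sum_const, nsmul_eq_mul, mul_comm]
  rw [← hA]
  -- sort the numerators according to the greatest common divisor
  have hmaps : ∀ a ∈ Finset.range q, Nat.gcd q a ∈ q.divisors := fun a _ =>
    Nat.mem_divisors.2 ⟨Nat.gcd_dvd_left _ _, by omega⟩
  rw [← Finset.sum_fiberwise_of_maps_to hmaps]
  rw [← Nat.sum_div_divisors q (fun d => AA (fn G) d), Finset.sum_mul]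
  refine Finset.sum_congr rfl fun m hm => ?_
  obtain ⟨hmq, hq0⟩ := Nat.mem_divisors.1 hm
  obtain ⟨d, hd⟩ := hmq
  have hm1 : 1 ≤ m := Nat.pos_of_mem_divisors hm
  have hd1 : 1 ≤ d := by
    rcases Nat.eq_zero_or_pos d with h | h
    · rw [h, mul_zero] at hd; omega
    · exact h
  have hqd : q / m = d := by rw [hd]; exact Nat.mul_div_cancel_left d hm1
  rw [hqd]
  have h2 : ∑ a ∈ Finset.range q with Nat.gcd q a = m, Sc (fn G) q (a : ℤ) =
      ∑ a ∈ (Finset.range d).filter (fun a => Nat.Coprime a d), Sc (fn G) q ((a * m : ℕ) : ℤ) := by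
    refine Finset.sum_nbij' (fun a => a / m) (fun a => a * m) ?_ ?_ ?_ ?_ ?_
    · intro a ha
      simp only [Finset.mem_filter, Finset.mem_range] at ha ⊢
      obtain ⟨ha1, ha2⟩ := ha
      have hma : m ∣ a := ha2 ▸ Nat.gcd_dvd_right q a
      obtain ⟨b, rfl⟩ := hma
      rw [Nat.mul_div_cancel_left b hm1]
      refine ⟨?_, ?_⟩
      · rw [hd] at ha1
        exact Nat.lt_of_mul_lt_mul_left ha1
      · rw [hd, Nat.gcd_mul_left] at ha2
        have : Nat.gcd d b = 1 := by
          have h5 : m * Nat.gcd d b = m * 1 := by rw [ha2, mul_one]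
          exact Nat.eq_of_mul_eq_mul_left hm1 h5
        rw [Nat.coprime_comm]
        exact this
    · intro b hb
      simp only [Finset.mem_filter, Finset.mem_range] at hb ⊢
      refine ⟨?_, ?_⟩
      · rw [hd, mul_comm m d]
        exact Nat.mul_lt_mul_of_pos_right hb.1 hm1
      · rw [hd, mul_comm b m, Nat.gcd_mul_left]
        have : Nat.gcd d b = 1 := (Nat.coprime_comm.1 hb.2)
        rw [this, mul_one]
    · intro a ha
      simp only [Finset.mem_filter, Finset.mem_range] at ha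
      exact Nat.div_mul_cancel (ha.2 ▸ Nat.gcd_dvd_right q a)
    · intro b hb
      exact Nat.mul_div_cancel b hm1
    · intro a ha
      simp only [Finset.mem_filter, Finset.mem_range] at ha
      rw [Nat.div_mul_cancel (ha.2 ▸ Nat.gcd_dvd_right q a)]
  rw [h2, AA]
  have h3 : ∀ a : ℕ, Sc (fn G) q ((a * m : ℕ) : ℤ) =
      (m : ℂ) ^ (Fintype.card ι) * Sc (fn G) d (a : ℤ) := by
    intro a
    rw [hd, mul_comm m d]
    exact aadiv_Sc G d m hd1 hm1 a
  simp_rw [h3]
  rw [← Finset.mul_sum]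
  have hd0 : (d : ℂ) ^ (Fintype.card ι) ≠ 0 := by
    apply pow_ne_zero
    exact_mod_cast (by omega : d ≠ 0)
  have hq' : (q : ℂ) = m * d := by rw [hd]; push_cast; ring
  rw [hq', mul_pow]
  field_simp

end Pool.Agent.Lib.MP_c0a553_nt
end

section

/-! # Positivity of the singular series (job HP-29) -/

namespace Pool.Agent.Lib.MP_c0a553_nt

open Finset

variable {ι : Type} [Fintype ι] [DecidableEq ι]

private theorem sl_geom (x : ℝ) (hx : 2 ≤ x) (k : ℕ) :
    ∑ j ∈ Finset.range k, (1 / x) ^ (j + 1) ≤ 2 / x := by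
  have h0 : (0:ℝ) < x := by linarith
  have h1 : 1 / x ≤ 1 / 2 := one_div_le_one_div_of_le (by norm_num) hx
  have h2 : (0:ℝ) ≤ 1 / x := by positivity
  have h3 : ∑ j ∈ Finset.range k, (1 / x) ^ j ≤ 2 := by
    calc ∑ j ∈ Finset.range k, (1 / x) ^ j ≤ ∑ j ∈ Finset.range k, (1 / 2 : ℝ) ^ j := by
          gcongr
      _ ≤ ∑' j : ℕ, (1 / 2 : ℝ) ^ j :=
          summable_geometric_two.sum_le_tsum _ fun _ _ => by positivity
      _ = 2 := tsum_geometric_two
  calc ∑ j ∈ Finset.range k, (1 / x) ^ (j + 1) = (∑ j ∈ Finset.range k, (1 / x) ^ j) * (1 / x) := by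
        rw [Finset.sum_mul]
        exact Finset.sum_congr rfl fun j _ => pow_succ _ _
    _ ≤ 2 * (1 / x) := by gcongr
    _ = 2 / x := by ring

private theorem sl_prod (b : ℕ → ℝ) (p0 : ℕ) (hp0 : 6 ≤ p0) (B : ℝ) (hB : 0 ≤ B)
    (hb : ∀ m, p0 ≤ m → b m = 1 - 2 / (m : ℝ) ^ 2)
    (hB0 : B ≤ ∏ m ∈ Finset.range p0, b m) (M : ℕ) (hM : p0 ≤ M + 1) :
    B * (3 / 5 + 2 / (M : ℝ)) ≤ ∏ m ∈ Finset.range (M + 1), b m := by
  induction M with
  | zero => omega
  | succ M ih =>
    rcases Nat.lt_or_ge M (p0 - 1) with h | h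
    · have h1 : M + 1 + 1 = p0 := by omega
      rw [h1]
      refine le_trans ?_ hB0
      have h2 : (5:ℝ) ≤ ((M + 1 : ℕ) : ℝ) := by exact_mod_cast (by omega : 5 ≤ M + 1)
      have h3 : 2 / ((M + 1 : ℕ) : ℝ) ≤ 2 / 5 := by gcongr
      nlinarith
    · have ih' := ih (by omega)
      rw [Finset.prod_range_succ, hb (M + 1) (by omega)]
      have hM5 : (5:ℝ) ≤ (M : ℝ) := by exact_mod_cast (by omega : 5 ≤ M)
      have hM0 : (0:ℝ) < (M : ℝ) := by linarith
      have hc : ((M + 1 : ℕ) : ℝ) = (M : ℝ) + 1 := by push_cast; ring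
      rw [hc]
      have hnn : 0 ≤ 1 - 2 / ((M : ℝ) + 1) ^ 2 := by
        rw [sub_nonneg, div_le_one (by positivity)]
        nlinarith
      refine le_trans ?_ (mul_le_mul_of_nonneg_right ih' hnn)
      have key : 3 / 5 + 2 / ((M : ℝ) + 1) ≤ (3 / 5 + 2 / (M : ℝ)) * (1 - 2 / ((M : ℝ) + 1) ^ 2) := by
        have e1 : (3 / 5 + 2 / (M : ℝ)) * (1 - 2 / ((M : ℝ) + 1) ^ 2) -
            (3 / 5 + 2 / ((M : ℝ) + 1)) = (2 / ((M : ℝ) * ((M : ℝ) + 1) ^ 2)) *
              ((M : ℝ) + 1 - (3 / 5 * M + 2)) := by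
          field_simp
          ring
        have e2 : 0 ≤ (2 / ((M : ℝ) * ((M : ℝ) + 1) ^ 2)) * ((M : ℝ) + 1 - (3 / 5 * M + 2)) := by
          apply mul_nonneg (by positivity)
          linarith
        linarith
      calc B * (3 / 5 + 2 / ((M : ℝ) + 1))
          ≤ B * ((3 / 5 + 2 / (M : ℝ)) * (1 - 2 / ((M : ℝ) + 1) ^ 2)) := by gcongr
        _ = _ := by ring

/-- positivity of the singular series -/
theorem series_lower (G : MvPolynomial ι ℤ) (D : ℕ) (hG : G.IsHomogeneous D) (hD : 2 ≤ D)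
    (hW : WeylBound (fn G) D) (h : ∀ (p : ℕ) [Fact p.Prime], NonsingZero G ℚ_[p]) :
    ∃ c : ℝ, 0 < c ∧ ∃ Q₀ : ℕ, ∀ Q : ℕ, Q₀ ≤ Q → c ≤ (∑ q ∈ Finset.Icc 1 Q, AA (fn G) q).re := by
  classical
  obtain ⟨q0, hq0⟩ := AA_decay G D hD hW
  set n := Fintype.card ι with hn
  set del : ℕ → ℝ := fun q => (q : ℝ) * NN (fn G) q / (q : ℝ) ^ n with hdel
  have hdiv : ∀ q, 1 ≤ q → (∑ d ∈ q.divisors, AA (fn G) d) = ((del q : ℝ) : ℂ) := by
    intro q hq
    have h1 := AA_divisors G q hq
    have hq' : (q : ℂ) ≠ 0 := by exact_mod_cast (by omega : q ≠ 0)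
    have hq'' : (q : ℂ) ^ n ≠ 0 := pow_ne_zero _ hq'
    rw [hdel]
    push_cast
    rw [eq_div_iff hq'']
    exact h1
  have hNN1 : NN (fn G) 1 = 1 := by
    unfold NN
    rw [Finset.filter_true_of_mem (fun x _ => by simp), Fintype.card_piFinset]
    simp
  have hdel1 : del 1 = 1 := by simp [hdel, hNN1]
  have hmul : ∀ x y, Nat.Coprime x y → del (x * y) = del x * del y := by
    intro x y hxy
    rcases Nat.eq_zero_or_pos x with rfl | hx
    · have : y = 1 := by simpa using hxy
      subst this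
      rw [hdel1, mul_one, mul_one]
    rcases Nat.eq_zero_or_pos y with rfl | hy
    · have : x = 1 := by simpa using hxy
      subst this
      rw [hdel1, one_mul, one_mul]
    simp only [hdel]
    rw [NN_mul G x y hx hy hxy]
    have hx' : (x : ℝ) ≠ 0 := by exact_mod_cast (by omega : x ≠ 0)
    have hy' : (y : ℝ) ≠ 0 := by exact_mod_cast (by omega : y ≠ 0)
    push_cast
    rw [mul_pow]
    field_simp
  have hAA1 : AA (fn G) 1 = 1 := by
    have h1 := hdiv 1 le_rfl
    rw [Nat.divisors_one, Finset.sum_singleton, hdel1] at h1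
    simpa using h1
  -- local lower bounds
  have hloc : ∀ p : ℕ, p.Prime → ∃ c : ℝ, 0 < c ∧ c ≤ 1 ∧ ∀ k, c ≤ del (p ^ k) := by
    intro p hp
    have : Fact p.Prime := ⟨hp⟩
    obtain ⟨c, hc, hc'⟩ := NN_padic G D hG (by omega) p (h p)
    have hp0 : (0:ℝ) < (p : ℝ) := by exact_mod_cast hp.pos
    have h1 : ∀ k, c ≤ del (p ^ k) := by
      intro k
      simp only [hdel]
      rw [le_div_iff₀ (by push_cast; positivity)]
      have := hc' k
      push_cast
      exact this
    refine ⟨c, hc, ?_, h1⟩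
    have := h1 0
    rwa [pow_zero, hdel1] at this
  choose cp hcp0 hcp1 hcp using hloc
  set p0 := max q0 6 with hp0
  have hp06 : 6 ≤ p0 := le_max_right _ _
  have hp0q : q0 ≤ p0 := le_max_left _ _
  have hbig : ∀ p : ℕ, p.Prime → p0 ≤ p → ∀ k, 1 - 2 / (p : ℝ) ^ 2 ≤ del (p ^ k) := by
    intro p hp hpp k
    have hpr : (6:ℝ) ≤ (p : ℝ) := by exact_mod_cast hp06.trans hpp
    have h1 := hdiv (p ^ k) (Nat.one_le_pow _ _ hp.pos)
    rw [Nat.divisors_prime_pow hp, Finset.sum_map, Finset.sum_range_succ'] at h1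
    simp only [Function.Embedding.coeFn_mk, pow_zero, hAA1] at h1
    have h2 : ‖∑ j ∈ Finset.range k, AA (fn G) (p ^ (j + 1))‖ ≤ 2 / (p : ℝ) ^ 2 := by
      refine (norm_sum_le _ _).trans ?_
      refine le_trans (Finset.sum_le_sum fun j _ => ?_) (sl_geom ((p : ℝ) ^ 2) (by nlinarith) k)
      have h3 : q0 ≤ p ^ (j + 1) := by
        calc q0 ≤ p := hp0q.trans hpp
          _ = p ^ 1 := (pow_one p).symm
          _ ≤ p ^ (j + 1) := Nat.pow_le_pow_right hp.pos (by omega)
      refine (hq0 _ h3).trans (le_of_eq ?_)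
      push_cast
      rw [one_div, one_div, inv_pow, ← pow_mul, ← pow_mul]
      congr 2
      ring
    have h3 : del (p ^ k) = (∑ j ∈ Finset.range k, AA (fn G) (p ^ (j + 1))).re + 1 := by
      have h4 := congrArg Complex.re h1
      rw [Complex.add_re, Complex.one_re, Complex.ofReal_re] at h4
      exact h4.symm
    have h5 := (abs_le.1 ((Complex.abs_re_le_norm _).trans h2)).1
    linarith
  -- the common lower bound
  set b : ℕ → ℝ := fun m => if hm : m.Prime ∧ m < p0 then cp m hm.1 else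
    if p0 ≤ m then 1 - 2 / (m : ℝ) ^ 2 else 1 with hb
  have hblarge : ∀ m, p0 ≤ m → b m = 1 - 2 / (m : ℝ) ^ 2 := by
    intro m hm
    simp only [hb]
    rw [dif_neg (fun hh => absurd hh.2 (not_lt.2 hm)), if_pos hm]
  have hb01 : ∀ m, 0 < b m ∧ b m ≤ 1 := by
    intro m
    by_cases h1 : m.Prime ∧ m < p0
    · simp only [hb]
      rw [dif_pos h1]
      exact ⟨hcp0 m h1.1, hcp1 m h1.1⟩
    · by_cases h2 : p0 ≤ m
      · rw [hblarge m h2]
        have hmr : (6:ℝ) ≤ (m : ℝ) := by exact_mod_cast hp06.trans h2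
        constructor
        · rw [sub_pos, div_lt_one (by positivity)]
          nlinarith
        · have : 0 ≤ 2 / (m : ℝ) ^ 2 := by positivity
          linarith
      · simp only [hb]
        rw [dif_neg h1, if_neg h2]
        exact ⟨one_pos, le_rfl⟩
  have hbdel : ∀ p : ℕ, p.Prime → ∀ k, b p ≤ del (p ^ k) := by
    intro p hp k
    by_cases h1 : p < p0
    · simp only [hb]
      rw [dif_pos ⟨hp, h1⟩]
      exact hcp p hp k
    · rw [hblarge p (not_lt.1 h1)]
      exact hbig p hp (not_lt.1 h1) k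
  set B : ℝ := ∏ m ∈ Finset.range p0, b m with hB
  have hBpos : 0 < B := Finset.prod_pos fun m _ => (hb01 m).1
  have hfac : ∀ M : ℕ, p0 ≤ M → B * (3 / 5) ≤ del M.factorial := by
    intro M hM
    have h1 := Nat.multiplicative_factorization del hmul hdel1 (Nat.factorial_ne_zero M)
    rw [h1, Finsupp.prod, Nat.support_factorization]
    have h2 : ∏ p ∈ M.factorial.primeFactors, b p ≤
        ∏ p ∈ M.factorial.primeFactors, del (p ^ (M.factorial.factorization p)) :=
      Finset.prod_le_prod (fun p _ => (hb01 p).1.le)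
        fun p hp => hbdel p (Nat.prime_of_mem_primeFactors hp) _
    refine le_trans ?_ h2
    have hsub : M.factorial.primeFactors ⊆ Finset.range (M + 1) := by
      intro p hp
      rw [Finset.mem_range]
      have h3 := Nat.prime_of_mem_primeFactors hp
      have h4 := Nat.dvd_of_mem_primeFactors hp
      have h5 := (Nat.Prime.dvd_factorial h3).1 h4
      omega
    have h3 : ∏ m ∈ Finset.range (M + 1), b m ≤ ∏ p ∈ M.factorial.primeFactors, b p := by
      rw [← Finset.prod_sdiff hsub]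
      have h4 : ∏ m ∈ Finset.range (M + 1) \ M.factorial.primeFactors, b m ≤ 1 :=
        Finset.prod_le_one (fun m _ => (hb01 m).1.le) fun m _ => (hb01 m).2
      have h5 : 0 ≤ ∏ p ∈ M.factorial.primeFactors, b p :=
        Finset.prod_nonneg fun m _ => (hb01 m).1.le
      nlinarith
    refine le_trans ?_ h3
    refine le_trans ?_ (sl_prod b p0 hp06 B hBpos.le hblarge le_rfl M (by omega))
    have : 0 ≤ 2 / (M : ℝ) := by positivity
    gcongr
    linarith
  -- comparison with the partial sum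
  obtain ⟨Q1, hQ1⟩ := exists_nat_gt (10 / B)
  refine ⟨B / 2, by positivity, max p0 Q1 + 1, fun M hM => ?_⟩
  have hMp0 : p0 ≤ M := by omega
  have hMQ : Q1 ≤ M := by omega
  have hM1 : 1 ≤ M := by omega
  have hMr : (0:ℝ) < (M : ℝ) := by exact_mod_cast hM1
  have h1 := hdiv M.factorial (Nat.succ_le_of_lt (Nat.factorial_pos M))
  have hsub : Finset.Icc 1 M ⊆ M.factorial.divisors := by
    intro d hd
    rw [Finset.mem_Icc] at hd
    rw [Nat.mem_divisors]
    exact ⟨Nat.dvd_factorial hd.1 hd.2, Nat.factorial_ne_zero M⟩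
  rw [← Finset.sum_sdiff hsub] at h1
  have h2 : ‖∑ d ∈ M.factorial.divisors \ Finset.Icc 1 M, AA (fn G) d‖ ≤ 1 / (M : ℝ) := by
    have hsub2 : M.factorial.divisors \ Finset.Icc 1 M ⊆ Finset.Ioc M M.factorial := by
      intro d hd
      rw [Finset.mem_sdiff, Nat.mem_divisors, Finset.mem_Icc] at hd
      rw [Finset.mem_Ioc]
      have h3 := Nat.pos_of_dvd_of_pos hd.1.1 (Nat.factorial_pos M)
      refine ⟨?_, Nat.le_of_dvd (Nat.factorial_pos M) hd.1.1⟩
      by_contra hcon
      exact hd.2 ⟨h3, not_lt.1 hcon⟩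
    calc ‖∑ d ∈ M.factorial.divisors \ Finset.Icc 1 M, AA (fn G) d‖
        ≤ ∑ d ∈ M.factorial.divisors \ Finset.Icc 1 M, ((d : ℝ) ^ 2)⁻¹ := by
          refine (norm_sum_le _ _).trans (Finset.sum_le_sum fun d hd => ?_)
          have h3 := (Finset.mem_Ioc.1 (hsub2 hd)).1
          rw [← one_div]
          exact hq0 d (by omega)
      _ ≤ ∑ d ∈ Finset.Ioc M M.factorial, ((d : ℝ) ^ 2)⁻¹ :=
          Finset.sum_le_sum_of_subset_of_nonneg hsub2 fun d _ _ => by positivity
      _ ≤ (M : ℝ)⁻¹ - (M.factorial : ℝ)⁻¹ :=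
          sum_Ioc_inv_sq_le_sub (by omega) (Nat.self_le_factorial M)
      _ ≤ 1 / (M : ℝ) := by
          rw [one_div]
          have : (0:ℝ) ≤ (M.factorial : ℝ)⁻¹ := by positivity
          linarith
  have h3 := congrArg Complex.re h1
  rw [Complex.add_re, Complex.ofReal_re] at h3
  have h4 := (abs_le.1 ((Complex.abs_re_le_norm _).trans h2)).2
  have h5 := hfac M hMp0
  have h6 : 1 / (M : ℝ) ≤ B / 10 := by
    have h7 : 10 / B ≤ (M : ℝ) := hQ1.le.trans (by exact_mod_cast hMQ)
    rw [div_le_iff₀ hBpos] at h7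
    rw [div_le_div_iff₀ hMr (by norm_num)]
    linarith
  linarith

end Pool.Agent.Lib.MP_c0a553_nt
end
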