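import Pool.Agent.Lib.MP_c0a553_nt.PDefs

section

/-! # Chevalley-Warning for a system of diagonal equations (job HQ-2) -/

namespace Pool.Agent.Lib.MP_c0a553_nt

open Finset

theorem cw_sys (p : ℕ) [Fact p.Prime] (k r : ℕ) (hk : 1 ≤ k) {ι : Type} [DecidableEq ι]
    (J : Finset ι) (a : ι → Fin r → ZMod p) (hJ : r * k + 1 ≤ J.card) :
    ∃ y : ι → ZMod p, (∀ i, i ∉ J → y i = 0) ∧ (∃ i ∈ J, y i ≠ 0) ∧
      ∀ l, ∑ i ∈ J, a i l * y i ^ k = 0 := by
  classical
  have hp : p.Prime := Fact.out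
  let f : Fin r → MvPolynomial J (ZMod p) :=
    fun l => ∑ i : J, MvPolynomial.C (a i l) * MvPolynomial.X i ^ k
  have hev : ∀ (x : J → ZMod p) (l : Fin r),
      MvPolynomial.eval x (f l) = ∑ i : J, a i l * x i ^ k := by
    intro x l
    simp [f]
  have hdeg : ∀ l, (f l).totalDegree ≤ k := by
    intro l
    refine MvPolynomial.totalDegree_finsetSum_le fun i _ => ?_
    refine (MvPolynomial.totalDegree_mul _ _).trans ?_
    rw [MvPolynomial.totalDegree_C, zero_add, MvPolynomial.totalDegree_X_pow]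
  have hsum : (∑ l, (f l).totalDegree) < Fintype.card J := by
    have h1 : (∑ l, (f l).totalDegree) ≤ ∑ _l : Fin r, k := Finset.sum_le_sum fun l _ => hdeg l
    rw [Finset.sum_const, Finset.card_univ, Fintype.card_fin, smul_eq_mul] at h1
    rw [Fintype.card_coe]
    omega
  have hdvd : p ∣ Fintype.card { x : J → ZMod p // ∀ l, MvPolynomial.eval x (f l) = 0 } := by
    have h := char_dvd_card_solutions_of_fintype_sum_lt p hsum
    convert h
  have h0 : ∀ l, MvPolynomial.eval (0 : J → ZMod p) (f l) = 0 := by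
    intro l
    rw [hev]
    refine Finset.sum_eq_zero fun i _ => ?_
    rw [Pi.zero_apply, zero_pow (by omega), mul_zero]
  have hcard : 1 < Fintype.card { x : J → ZMod p // ∀ l, MvPolynomial.eval x (f l) = 0 } := by
    have hpos : 0 < Fintype.card { x : J → ZMod p // ∀ l, MvPolynomial.eval x (f l) = 0 } :=
      Fintype.card_pos_iff.2 ⟨⟨0, h0⟩⟩
    have := Nat.le_of_dvd hpos hdvd
    have := hp.two_le
    omega
  obtain ⟨x, hx⟩ := Fintype.exists_ne_of_one_lt_card hcard ⟨0, h0⟩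
  have hx0 : x.1 ≠ 0 := fun h => hx (Subtype.ext h)
  obtain ⟨i, hi⟩ := Function.ne_iff.1 hx0
  refine ⟨fun j => if h : j ∈ J then x.1 ⟨j, h⟩ else 0, ?_, ⟨i.1, i.2, ?_⟩, ?_⟩
  · intro j hj
    exact dif_neg hj
  · have h1 : (if h : (i : ι) ∈ J then x.1 ⟨i, h⟩ else 0) = x.1 i := dif_pos i.2
    exact fun h2 => hi (h1.symm.trans h2)
  · intro l
    have h1 := x.2 l
    rw [hev] at h1
    rw [← Finset.sum_coe_sort J]
    refine Eq.trans ?_ h1
    refine Finset.sum_congr rfl fun j _ => ?_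
    have h2 : (if h : (j : ι) ∈ J then x.1 ⟨j, h⟩ else 0) = x.1 j := dif_pos j.2
    exact congrArg (fun t => a j l * t ^ k) h2

end Pool.Agent.Lib.MP_c0a553_nt
end

section

/-! # Ultrametric bound for determinants (job HQ-6) -/

namespace Pool.Agent.Lib.MP_c0a553_nt

open Finset

theorem det_norm_le (p : ℕ) [Fact p.Prime] (r : ℕ) (A : Matrix (Fin r) (Fin r) ℚ_[p])
    (o : Fin r → ℤ) (h : ∀ j l, ‖A j l‖ ≤ (p : ℝ) ^ (-(o j))) :
    ‖A.det‖ ≤ (p : ℝ) ^ (-(∑ j, o j)) := by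
  have hp : (0 : ℝ) < p := by exact_mod_cast (Fact.out : p.Prime).pos
  have hB : (0 : ℝ) ≤ (p : ℝ) ^ (-(∑ j, o j)) := (zpow_pos hp _).le
  rw [Matrix.det_apply']
  refine IsUltrametricDist.norm_sum_le_of_forall_le_of_nonneg hB fun σ _ => ?_
  rw [norm_mul, norm_prod]
  have h1 : ‖(((Equiv.Perm.sign σ : ℤˣ) : ℤ) : ℚ_[p])‖ = 1 := by
    rcases Int.units_eq_one_or (Equiv.Perm.sign σ) with h2 | h2 <;> rw [h2] <;> simp
  rw [h1, one_mul]
  have h2 : ∀ s : Finset (Fin r), ∏ j ∈ s, (p : ℝ) ^ (-(o (σ j))) =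
      (p : ℝ) ^ (-(∑ j ∈ s, o (σ j))) := by
    intro s
    induction s using Finset.induction_on with
    | empty => simp
    | insert a s ha ih =>
      rw [Finset.prod_insert ha, Finset.sum_insert ha, ih, neg_add, zpow_add₀ hp.ne']
  calc ∏ j, ‖A (σ j) j‖ ≤ ∏ j, (p : ℝ) ^ (-(o (σ j))) :=
        Finset.prod_le_prod (fun _ _ => norm_nonneg _) fun j _ => h _ _
    _ = (p : ℝ) ^ (-(∑ j, o (σ j))) := h2 _
    _ = (p : ℝ) ^ (-(∑ j, o j)) := by rw [Equiv.sum_comp σ o]

end Pool.Agent.Lib.MP_c0a553_nt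
end

section

/-! # Lifting an approximate zero of full rank (job HQ-5) -/

namespace Pool.Agent.Lib.MP_c0a553_nt

open Finset

private theorem hs_root (p : ℕ) [Fact p.Prime] (k : ℕ) (u : ℤ_[p])
    (hu : ‖u‖ < ‖(k : ℤ_[p])‖ ^ 2) : ∃ t : ℤ_[p], t ^ k = 1 - u := by
  have key := hensels_lemma (p := p) (R := ℤ_[p])
    (F := (Polynomial.X ^ k - Polynomial.C (1 - u) : Polynomial ℤ_[p])) (a := 1) (by
      have h1 : (Polynomial.X ^ k - Polynomial.C (1 - u) : Polynomial ℤ_[p]).aeval (1 : ℤ_[p]) =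
          u := by
        simp
      have h2 : (Polynomial.X ^ k - Polynomial.C (1 - u) : Polynomial ℤ_[p]).derivative.aeval
          (1 : ℤ_[p]) = (k : ℤ_[p]) := by
        simp [Polynomial.derivative_X_pow]
      rw [h1, h2]
      exact hu)
  obtain ⟨w, hw, -⟩ := key
  refine ⟨w, ?_⟩
  have h4 : (Polynomial.X ^ k - Polynomial.C (1 - u) : Polynomial ℤ_[p]).aeval w =
      w ^ k - (1 - u) := by
    simp
  rw [h4] at hw
  exact sub_eq_zero.1 hw

private theorem hs_sum_lt (p : ℕ) [Fact p.Prime] {ι : Type*} (s : Finset ι) (f : ι → ℤ_[p])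
    {c : ℝ} (hc : 0 < c) (hf : ∀ i ∈ s, ‖f i‖ < c) : ‖∑ i ∈ s, f i‖ < c := by
  refine Finset.sum_induction f (fun x => ‖x‖ < c) (fun a b ha hb => ?_) ?_ hf
  · exact lt_of_le_of_lt (PadicInt.nonarchimedean a b) (max_lt ha hb)
  · show ‖(0 : ℤ_[p])‖ < c
    rw [norm_zero]; exact hc

private theorem hs_choose {F : Type*} [Field F] {r : ℕ} {S : Type*} (v : S → Fin r → F)
    (h : ∀ w : Fin r → F, w ≠ 0 → ∃ i, ∑ l, w l * v i l ≠ 0) :
    ∃ B : Fin r → S, IsUnit (Matrix.of (fun j l => v (B j) l) : Matrix (Fin r) (Fin r) F) := by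
  classical
  have hspan : Submodule.span F (Set.range v) = ⊤ := by
    by_contra hne
    obtain ⟨f, hf0, hf⟩ := Submodule.exists_le_ker_of_lt_top _ (lt_top_iff_ne_top.2 hne)
    have hfw : ∀ x : Fin r → F, f x = ∑ l, f (Pi.single l 1) * x l := by
      intro x
      have hx : x = ∑ l, x l • (Pi.single l (1 : F) : Fin r → F) := by
        funext j
        simp [Finset.sum_apply, Pi.single_apply]
      conv_lhs => rw [hx]
      rw [map_sum]
      refine Finset.sum_congr rfl fun l _ => ?_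
      rw [map_smul, smul_eq_mul, mul_comm]
    obtain ⟨i, hi⟩ := h (fun l => f (Pi.single l 1)) (by
      intro h0
      apply hf0
      ext l
      have := congrFun h0 l
      simpa using this)
    apply hi
    rw [← hfw (v i)]
    exact LinearMap.mem_ker.1 (hf (Submodule.subset_span ⟨i, rfl⟩))
  obtain ⟨κ, a, -, ha, hli⟩ := exists_linearIndependent' F v
  rw [hspan] at ha
  let b1 : Module.Basis κ F (Fin r → F) := Module.Basis.mk hli ha.ge
  let e : κ ≃ Fin r := b1.indexEquiv (Pi.basisFun F (Fin r))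
  refine ⟨a ∘ e.symm, ?_⟩
  have h1 : LinearIndependent F ((v ∘ a) ∘ e.symm) := hli.comp _ e.symm.injective
  exact Matrix.linearIndependent_rows_iff_isUnit.1 h1

theorem hensel_sys (p : ℕ) [Fact p.Prime] (k r : ℕ) (hk : 1 ≤ k) (hr : 1 ≤ r) {ι : Type}
    [Fintype ι] [DecidableEq ι] (b : ι → Fin r → ℤ_[p]) (y : ι → ℤ_[p])
    (h1 : ∀ i, y i = 0 ∨ ‖y i‖ = 1)
    (h2 : ∀ l, ‖∑ i, b i l * y i ^ k‖ < ‖(k : ℤ_[p])‖ ^ 2)
    (h3 : ∀ w : Fin r → ZMod p, w ≠ 0 →
      ∃ i, y i ≠ 0 ∧ ∑ l, w l * PadicInt.toZMod (b i l) ≠ 0) :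
    ∃ z : ι → ℤ_[p], z ≠ 0 ∧ ∀ l, ∑ i, b i l * z i ^ k = 0 := by
  have hk0 : (k : ℤ_[p]) ≠ 0 := by exact_mod_cast (by omega : k ≠ 0)
  have hc : 0 < ‖(k : ℤ_[p])‖ ^ 2 := by
    have := norm_pos_iff.2 hk0
    positivity
  have hc1 : ‖(k : ℤ_[p])‖ ^ 2 ≤ 1 := pow_le_one₀ (norm_nonneg _) (PadicInt.norm_le_one _)
  -- choice of the columns
  obtain ⟨B, hB⟩ := hs_choose (fun i : {i // y i ≠ 0} => fun l => PadicInt.toZMod (b i.1 l)) (by
    intro w hw
    obtain ⟨i, hi, hi'⟩ := h3 w hw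
    exact ⟨⟨i, hi⟩, hi'⟩)
  set A : Matrix (Fin r) (Fin r) ℤ_[p] := Matrix.of (fun j l => b (B j).1 l) with hA
  have hdet : IsUnit A.det := by
    have h4 : (PadicInt.toZMod A.det : ZMod p) ≠ 0 := by
      have h5 : (PadicInt.toZMod A.det : ZMod p) =
          (Matrix.of (fun j l => PadicInt.toZMod (b (B j).1 l)) :
            Matrix (Fin r) (Fin r) (ZMod p)).det := by
        rw [RingHom.map_det]
        rfl
      rw [h5]
      exact ((Matrix.isUnit_iff_isUnit_det _).1 hB).ne_zero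
    by_contra hn
    apply h4
    have h6 : A.det ∈ IsLocalRing.maximalIdeal ℤ_[p] := (IsLocalRing.mem_maximalIdeal _).2 hn
    rw [← PadicInt.ker_toZMod] at h6
    exact h6
  set w : Fin r → ℤ_[p] := fun l => ∑ i, b i l * y i ^ k with hw
  set v : Fin r → ℤ_[p] := Matrix.vecMul w A⁻¹ with hv
  have hvA : Matrix.vecMul v A = w := by
    rw [hv, Matrix.vecMul_vecMul, Matrix.nonsing_inv_mul _ hdet, Matrix.vecMul_one]
  have hvn : ∀ j, ‖v j‖ < ‖(k : ℤ_[p])‖ ^ 2 := by
    intro j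
    have : v j = ∑ l, w l * A⁻¹ l j := rfl
    rw [this]
    refine hs_sum_lt p _ _ hc fun l _ => ?_
    rw [norm_mul]
    calc ‖w l‖ * ‖A⁻¹ l j‖ ≤ ‖w l‖ * 1 :=
          mul_le_mul_of_nonneg_left (PadicInt.norm_le_one _) (norm_nonneg _)
      _ < ‖(k : ℤ_[p])‖ ^ 2 := by rw [mul_one]; exact h2 l
  set c : ι → ℤ_[p] := fun i => ∑ j, if (B j).1 = i then v j else 0 with hcdef
  have hcn : ∀ i, ‖c i‖ < ‖(k : ℤ_[p])‖ ^ 2 := by
    intro i
    refine hs_sum_lt p _ _ hc fun j _ => ?_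
    split_ifs with h
    · exact hvn j
    · rw [norm_zero]; exact hc
  have hz : ∀ i, ∃ zi : ℤ_[p], zi ^ k = y i ^ k - c i := by
    intro i
    rcases h1 i with h0 | hu
    · refine ⟨y i, ?_⟩
      have : c i = 0 := by
        refine Finset.sum_eq_zero fun j _ => ?_
        rw [if_neg]
        intro h
        exact (B j).2 (by rw [h]; exact h0)
      rw [this, sub_zero]
    · obtain ⟨s, hs⟩ := (PadicInt.isUnit_iff.2 hu).exists_right_inv
      obtain ⟨t, ht⟩ := hs_root p k (c i * s ^ k) (by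
        rw [norm_mul]
        calc ‖c i‖ * ‖s ^ k‖ ≤ ‖c i‖ * 1 :=
              mul_le_mul_of_nonneg_left (PadicInt.norm_le_one _) (norm_nonneg _)
          _ < ‖(k : ℤ_[p])‖ ^ 2 := by rw [mul_one]; exact hcn i)
      refine ⟨y i * t, ?_⟩
      rw [mul_pow, ht]
      have : y i ^ k * (1 - c i * s ^ k) = y i ^ k - c i * (y i * s) ^ k := by ring
      rw [this, hs, one_pow, mul_one]
  choose z hz using hz
  refine ⟨z, ?_, ?_⟩
  · intro h0
    set i : ι := (B ⟨0, hr⟩).1 with hi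
    have h4 := hz i
    rw [h0, Pi.zero_apply, zero_pow (by omega : k ≠ 0)] at h4
    have h5 : y i ^ k = c i := (sub_eq_zero.1 h4.symm)
    have h6 : ‖y i‖ = 1 := (h1 i).resolve_left (B ⟨0, hr⟩).2
    have h7 := hcn i
    rw [← h5, norm_pow, h6, one_pow] at h7
    linarith
  · intro l
    have h4 : ∑ i, b i l * z i ^ k = w l - ∑ i, b i l * c i := by
      rw [hw, ← Finset.sum_sub_distrib]
      refine Finset.sum_congr rfl fun i _ => ?_
      rw [hz i]; ring
    have h5 : ∑ i, b i l * c i = w l := by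
      have h6 : ∑ i, b i l * c i = ∑ j, b (B j).1 l * v j := by
        simp only [hcdef, Finset.mul_sum]
        rw [Finset.sum_comm]
        refine Finset.sum_congr rfl fun j _ => ?_
        rw [Finset.sum_eq_single (B j).1]
        · rw [if_pos rfl]
        · intro i _ hi
          rw [if_neg (Ne.symm hi), mul_zero]
        · intro h; exact absurd (Finset.mem_univ _) h
      rw [h6]
      have h7 := congrFun hvA l
      rw [← h7]
      show ∑ j, b (B j).1 l * v j = ∑ j, v j * A j l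
      refine Finset.sum_congr rfl fun j _ => ?_
      rw [mul_comm]; rfl
    rw [h4, h5, sub_self]

end Pool.Agent.Lib.MP_c0a553_nt
end

section

/-! # Olson's theorem on zero sums (job HQ-1) -/

namespace Pool.Agent.Lib.MP_c0a553_nt

open Finset

private lemma ol_pow (p : ℕ) [Fact p.Prime] (e r : ℕ) (j : Fin r) :
    (AddMonoidAlgebra.of (ZMod p) (Fin r → ZMod (p ^ e))
      (Multiplicative.ofAdd (Pi.single j 1)) - 1) ^ (p ^ e) = 0 := by
  have : CharP (AddMonoidAlgebra (ZMod p) (Fin r → ZMod (p ^ e))) p :=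
    charP_of_injective_algebraMap
      (algebraMap (ZMod p) (AddMonoidAlgebra (ZMod p) (Fin r → ZMod (p ^ e)))).injective p
  rw [sub_pow_char_pow, ← map_pow, one_pow, ← ofAdd_nsmul]
  have h0 : (p ^ e) • (Pi.single j 1 : Fin r → ZMod (p ^ e)) = 0 := by
    funext l
    rw [Pi.smul_apply, nsmul_eq_mul, ZMod.natCast_self, zero_mul, Pi.zero_apply]
  rw [h0, ofAdd_zero, map_one, sub_self]

private lemma ol_mem (p : ℕ) [Fact p.Prime] (e r : ℕ) (h : Fin r → ZMod (p ^ e)) :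
    AddMonoidAlgebra.of (ZMod p) (Fin r → ZMod (p ^ e)) (Multiplicative.ofAdd h) - 1 ∈
      Ideal.span (Set.range (fun j : Fin r =>
        AddMonoidAlgebra.of (ZMod p) (Fin r → ZMod (p ^ e))
          (Multiplicative.ofAdd (Pi.single j 1)) - 1)) := by
  have : NeZero (p ^ e) := ⟨pow_ne_zero _ (Fact.out : p.Prime).ne_zero⟩
  rw [← Ideal.Quotient.mk_eq_mk_iff_sub_mem]
  have hh : h = ∑ j : Fin r, (h j).val • (Pi.single j 1 : Fin r → ZMod (p ^ e)) := by
    funext l
    rw [Finset.sum_apply]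
    simp only [Pi.smul_apply, Pi.single_apply, smul_ite, smul_zero, nsmul_eq_mul, mul_one]
    rw [Finset.sum_ite_eq]
    simp
  rw [hh, ofAdd_sum, map_prod, map_prod, map_one]
  apply Finset.prod_eq_one
  intro j _
  rw [ofAdd_nsmul, map_pow, map_pow]
  have : Ideal.Quotient.mk (Ideal.span (Set.range (fun j : Fin r =>
        AddMonoidAlgebra.of (ZMod p) (Fin r → ZMod (p ^ e))
          (Multiplicative.ofAdd (Pi.single j 1)) - 1)))
      (AddMonoidAlgebra.of (ZMod p) (Fin r → ZMod (p ^ e))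
        (Multiplicative.ofAdd (Pi.single j 1))) = Ideal.Quotient.mk _ 1 := by
    rw [Ideal.Quotient.mk_eq_mk_iff_sub_mem]
    exact Ideal.subset_span ⟨j, rfl⟩
  rw [this, map_one, one_pow]

private lemma ol_prod (p : ℕ) [Fact p.Prime] (e r : ℕ) {ι : Type} (J : Finset ι)
    (g : ι → Fin r → ZMod (p ^ e)) (hJ : r * p ^ e + 1 ≤ J.card) :
    ∏ i ∈ J, (-AddMonoidAlgebra.of (ZMod p) (Fin r → ZMod (p ^ e)) (Multiplicative.ofAdd (g i))
      + 1) = 0 := by
  classical
  have h1 : ∀ i, ∃ c : Fin r → AddMonoidAlgebra (ZMod p) (Fin r → ZMod (p ^ e)),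
      ∑ j, c j * (AddMonoidAlgebra.of (ZMod p) (Fin r → ZMod (p ^ e))
          (Multiplicative.ofAdd (Pi.single j 1)) - 1) =
      AddMonoidAlgebra.of (ZMod p) (Fin r → ZMod (p ^ e)) (Multiplicative.ofAdd (g i)) - 1 :=
    fun i => Ideal.mem_span_range_iff_exists_fun.1 (ol_mem p e r (g i))
  choose c hc using h1
  obtain ⟨z, hz⟩ : ∃ z : Fin r → AddMonoidAlgebra (ZMod p) (Fin r → ZMod (p ^ e)), z = fun j =>
    (AddMonoidAlgebra.of (ZMod p) (Fin r → ZMod (p ^ e))
          (Multiplicative.ofAdd (Pi.single j 1)) - 1) := ⟨_, rfl⟩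
  have hzq : ∀ j, z j ^ (p ^ e) = 0 := fun j => by rw [hz]; exact ol_pow p e r j
  have hc' : ∀ i, -AddMonoidAlgebra.of (ZMod p) (Fin r → ZMod (p ^ e))
      (Multiplicative.ofAdd (g i)) + 1 = ∑ j, -(c i j) * z j := by
    intro i
    have : ∑ j, -(c i j) * z j = -∑ j, c i j * z j := by
      rw [← Finset.sum_neg_distrib]
      apply Finset.sum_congr rfl
      intro j _
      ring
    rw [this, hz, hc i]
    ring
  rw [Finset.prod_congr rfl (fun i _ => hc' i), ← Finset.prod_coe_sort J, Finset.prod_univ_sum]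
  apply Finset.sum_eq_zero
  intro t _
  rw [Finset.prod_mul_distrib]
  have hcard : (Finset.univ : Finset (Fin r)).card * p ^ e < (Finset.univ : Finset J).card := by
    rw [Finset.card_univ, Finset.card_univ, Fintype.card_fin, Fintype.card_coe]
    omega
  obtain ⟨j, _, hj⟩ := Finset.exists_lt_card_fiber_of_mul_lt_card_of_maps_to
    (f := t) (fun i _ => Finset.mem_univ (t i)) hcard
  have h2 : ∏ i : J, z (t i) = 0 := by
    rw [← Finset.prod_filter_mul_prod_filter_not Finset.univ (fun i => t i = j)]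
    have h3 : ∏ i ∈ (Finset.univ : Finset J).filter (fun i => t i = j), z (t i) = 0 := by
      have h4 : ∏ i ∈ (Finset.univ : Finset J).filter (fun i => t i = j), z (t i) =
          ∏ i ∈ (Finset.univ : Finset J).filter (fun i => t i = j), z j := by
        apply Finset.prod_congr rfl
        intro i hi
        rw [(Finset.mem_filter.1 hi).2]
      rw [h4, Finset.prod_const]
      exact pow_eq_zero_of_le hj.le (hzq j)
    rw [h3, zero_mul]
  rw [h2, mul_zero]

theorem olson (p : ℕ) [Fact p.Prime] (e r : ℕ) {ι : Type} [DecidableEq ι] (J : Finset ι)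
    (g : ι → Fin r → ZMod (p ^ e)) (hJ : r * p ^ e + 1 ≤ J.card) :
    ∃ S ⊆ J, S.Nonempty ∧ ∀ l, ∑ i ∈ S, g i l = 0 := by
  classical
  by_contra hcon
  have hcon' : ∀ S ∈ J.powerset, S ≠ ∅ → ∑ i ∈ S, g i ≠ 0 := by
    intro S hS hS0 h0
    apply hcon
    refine ⟨S, Finset.mem_powerset.1 hS, Finset.nonempty_iff_ne_empty.2 hS0, ?_⟩
    intro l
    rw [← Finset.sum_apply, h0, Pi.zero_apply]
  have h1 := ol_prod p e r J g hJ
  rw [Finset.prod_add] at h1
  have h2 := congrArg (fun x : AddMonoidAlgebra (ZMod p) (Fin r → ZMod (p ^ e)) =>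
    x.coeff (0 : Fin r → ZMod (p ^ e))) h1
  simp only [AddMonoidAlgebra.coeff_sum, AddMonoidAlgebra.coeff_zero, Finsupp.coe_zero,
    Pi.zero_apply, Finsupp.finsetSum_apply] at h2
  rw [Finset.sum_eq_single (∅ : Finset ι)] at h2
  · rw [Finset.prod_empty, Finset.prod_const_one, mul_one, AddMonoidAlgebra.one_def,
      AddMonoidAlgebra.coeff_single, Finsupp.single_eq_same] at h2
    exact one_ne_zero h2
  · intro S hS hS0
    rw [Finset.prod_const_one, mul_one, Finset.prod_neg, ← map_prod, ← ofAdd_sum]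
    have h3 : ((-1 : AddMonoidAlgebra (ZMod p) (Fin r → ZMod (p ^ e))) ^ S.card *
        AddMonoidAlgebra.of (ZMod p) (Fin r → ZMod (p ^ e))
          (Multiplicative.ofAdd (∑ i ∈ S, g i))) =
        AddMonoidAlgebra.single (∑ i ∈ S, g i) ((-1 : ZMod p) ^ S.card) := by
      rw [AddMonoidAlgebra.of_apply]
      have h4 : (-1 : AddMonoidAlgebra (ZMod p) (Fin r → ZMod (p ^ e))) =
          AddMonoidAlgebra.single 0 (-1) := by
        rw [AddMonoidAlgebra.one_def, AddMonoidAlgebra.single_neg]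
      rw [h4, AddMonoidAlgebra.single_pow, AddMonoidAlgebra.single_mul_single]
      simp
    rw [h3, AddMonoidAlgebra.coeff_single, Finsupp.single_apply, if_neg (hcon' S hS hS0)]
  · intro h
    exact absurd (Finset.empty_mem_powerset J) h

end Pool.Agent.Lib.MP_c0a553_nt
end

section

/-! # p-adic normalization of a system (job HQ-7) -/

namespace Pool.Agent.Lib.MP_c0a553_nt

open Finset

private lemma nrm_det_updateRow {R : Type*} [CommRing R] {r : ℕ} (l₀ : Fin r) (u : Fin r → R) :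
    ((1 : Matrix (Fin r) (Fin r) R).updateRow l₀ u).det = u l₀ := by
  rw [← Matrix.det_transpose, ← Matrix.updateCol_transpose, Matrix.transpose_one,
    ← Matrix.cramer_apply, Matrix.cramer_one]
  rfl

private lemma nrm_mulVec_updateRow {R : Type*} [CommRing R] {r : ℕ} (l₀ : Fin r) (u v : Fin r → R)
    (l : Fin r) :
    ((1 : Matrix (Fin r) (Fin r) R).updateRow l₀ u).mulVec v l =
      if l = l₀ then ∑ i, u i * v i else v l := by
  by_cases h : l = l₀
  · subst h
    rw [if_pos rfl]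
    change ∑ i, (1 : Matrix (Fin r) (Fin r) R).updateRow l u l i * v i = _
    rw [Matrix.updateRow_self]
  · rw [if_neg h]
    change ∑ i, (1 : Matrix (Fin r) (Fin r) R).updateRow l₀ u l i * v i = _
    rw [Matrix.updateRow_ne h]
    simp [Matrix.one_apply]

private lemma nrm_bound (p : ℕ) [hp : Fact p.Prime] {k r m : ℕ}
    (a : Fin m → Fin r → Fin r → ℚ_[p]) (ha : ∀ t, (Matrix.of (a t)).det ≠ 0)
    (g : Matrix (Fin r) (Fin r) ℚ_[p]) (hg : g.det ≠ 0) (c : Fin m → Fin r → ℤ)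
    (h : ∀ t j l, ‖(g.mulVec (a t j)) l‖ ≤ (p : ℝ) ^ (-((k : ℤ) * c t j))) :
    (k : ℤ) * ∑ t, ∑ j, c t j - m * g.det.valuation ≤ ∑ t, (Matrix.of (a t)).det.valuation := by
  have hp1 : (1 : ℝ) < p := by exact_mod_cast hp.out.one_lt
  have key : ∀ t, ∑ j, (k : ℤ) * c t j ≤ (Matrix.of (a t)).det.valuation + g.det.valuation := by
    intro t
    have h1 := det_norm_le p r (Matrix.of (fun j => g.mulVec (a t j))) (fun j => (k : ℤ) * c t j)
      (fun j l => h t j l)
    have h2 : Matrix.of (fun j => g.mulVec (a t j)) = Matrix.of (a t) * g.transpose := by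
      ext j l
      simp only [Matrix.of_apply, Matrix.mulVec, dotProduct, Matrix.mul_apply,
        Matrix.transpose_apply]
      exact Finset.sum_congr rfl fun i _ => mul_comm _ _
    rw [h2, Matrix.det_mul, Matrix.det_transpose,
      Padic.norm_eq_zpow_neg_valuation (mul_ne_zero (ha t) hg),
      Padic.valuation_mul (ha t) hg, zpow_le_zpow_iff_right₀ hp1] at h1
    linarith
  have h3 := Finset.sum_le_sum fun t (_ : t ∈ (univ : Finset (Fin m))) => key t
  rw [Finset.sum_add_distrib, Finset.sum_const, Finset.card_univ, Fintype.card_fin,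
    nsmul_eq_mul] at h3
  have h4 : (k : ℤ) * ∑ t, ∑ j, c t j = ∑ t, ∑ j, (k : ℤ) * c t j := by
    rw [Finset.mul_sum]
    refine Finset.sum_congr rfl fun t _ => ?_
    rw [Finset.mul_sum]
  rw [h4]
  linarith

private lemma nrm_nonempty (p : ℕ) [hp : Fact p.Prime] {k r m : ℕ} (hk : 1 ≤ k)
    (a : Fin m → Fin r → Fin r → ℚ_[p]) :
    ∃ c : ℤ, ∀ t j l, ‖a t j l‖ ≤ (p : ℝ) ^ (-((k : ℤ) * c)) := by
  have hp1 : (1 : ℝ) < p := by exact_mod_cast hp.out.one_lt
  obtain ⟨N, hN⟩ := pow_unbounded_of_one_lt (∑ t, ∑ j, ∑ l, ‖a t j l‖) hp1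
  refine ⟨-(N : ℤ), fun t j l => ?_⟩
  have e1 : ‖a t j l‖ ≤ ∑ l, ‖a t j l‖ :=
    Finset.single_le_sum (f := fun l => ‖a t j l‖) (fun _ _ => norm_nonneg _) (mem_univ l)
  have e2 : ∑ l, ‖a t j l‖ ≤ ∑ j, ∑ l, ‖a t j l‖ :=
    Finset.single_le_sum (f := fun j => ∑ l, ‖a t j l‖)
      (fun _ _ => Finset.sum_nonneg fun _ _ => norm_nonneg _) (mem_univ j)
  have e3 : ∑ j, ∑ l, ‖a t j l‖ ≤ ∑ t, ∑ j, ∑ l, ‖a t j l‖ :=
    Finset.single_le_sum (f := fun t => ∑ j, ∑ l, ‖a t j l‖)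
      (fun _ _ => Finset.sum_nonneg fun _ _ => Finset.sum_nonneg fun _ _ => norm_nonneg _)
      (mem_univ t)
  refine (e1.trans (e2.trans (e3.trans hN.le))).trans ?_
  rw [← zpow_natCast]
  refine zpow_le_zpow_right₀ hp1.le ?_
  have h1 : (1 : ℤ) ≤ k := by exact_mod_cast hk
  have h2 : (0 : ℤ) ≤ N := Int.natCast_nonneg N
  nlinarith

theorem normalize (p : ℕ) [Fact p.Prime] (k r m : ℕ) (hk : 1 ≤ k) (hr : 1 ≤ r)
    (a : Fin m → Fin r → Fin r → ℚ_[p]) (ha : ∀ t, (Matrix.of (a t)).det ≠ 0) :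
    ∃ (g : Matrix (Fin r) (Fin r) ℚ_[p]) (c : Fin m → Fin r → ℤ)
      (b : Fin m → Fin r → Fin r → ℤ_[p]), g.det ≠ 0 ∧
      (∀ t j l, ((b t j l : ℤ_[p]) : ℚ_[p]) =
        (p : ℚ_[p]) ^ ((k : ℤ) * c t j) * (g.mulVec (a t j)) l) ∧
      ∀ w : Fin r → ZMod p, w ≠ 0 → m ≤ k * (univ.filter fun x : Fin m × Fin r =>
        ∑ l, w l * PadicInt.toZMod (b x.1 x.2 l) ≠ 0).card := by
  classical
  have hprime : p.Prime := Fact.out
  have hp1 : (1 : ℝ) < p := by exact_mod_cast hprime.one_lt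
  have hp0 : (0 : ℝ) < p := by linarith
  have hpK : (p : ℚ_[p]) ≠ 0 := by exact_mod_cast hprime.ne_zero
  obtain ⟨z₀, ⟨g, c, hg, hgc, hz₀⟩, hmax⟩ := Int.exists_greatest_of_bdd
    (P := fun z => ∃ (g : Matrix (Fin r) (Fin r) ℚ_[p]) (c : Fin m → Fin r → ℤ), g.det ≠ 0 ∧
      (∀ t j l, ‖(g.mulVec (a t j)) l‖ ≤ (p : ℝ) ^ (-((k : ℤ) * c t j))) ∧
      z = (k : ℤ) * ∑ t, ∑ j, c t j - m * g.det.valuation)
    ⟨∑ t, (Matrix.of (a t)).det.valuation, by
      rintro z ⟨g, c, hg, h, rfl⟩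
      exact nrm_bound p a ha g hg c h⟩
    (by
      obtain ⟨c₀, hc₀⟩ := nrm_nonempty p hk a
      refine ⟨_, 1, fun _ _ => c₀, by rw [Matrix.det_one]; exact one_ne_zero, ?_, rfl⟩
      intro t j l
      rw [Matrix.one_mulVec]
      exact hc₀ t j l)
  have hnorm : ∀ t j l, ‖(p : ℚ_[p]) ^ ((k : ℤ) * (-c t j)) * (g.mulVec (a t j)) l‖ ≤ 1 := by
    intro t j l
    rw [norm_mul, Padic.norm_p_zpow]
    have h1 := hgc t j l
    have h2 : (0 : ℝ) < (p : ℝ) ^ (-((k : ℤ) * (-c t j))) := zpow_pos hp0 _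
    calc (p : ℝ) ^ (-((k : ℤ) * (-c t j))) * ‖(g.mulVec (a t j)) l‖
        ≤ (p : ℝ) ^ (-((k : ℤ) * (-c t j))) * (p : ℝ) ^ (-((k : ℤ) * c t j)) :=
          mul_le_mul_of_nonneg_left h1 h2.le
      _ = 1 := by
          rw [← zpow_add₀ hp0.ne']
          rw [show -((k : ℤ) * (-c t j)) + -((k : ℤ) * c t j) = 0 by ring, zpow_zero]
  set b : Fin m → Fin r → Fin r → ℤ_[p] := fun t j l =>
    ⟨(p : ℚ_[p]) ^ ((k : ℤ) * (-c t j)) * (g.mulVec (a t j)) l, hnorm t j l⟩ with hb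
  have hbv : ∀ t j l, ((b t j l : ℤ_[p]) : ℚ_[p]) =
      (p : ℚ_[p]) ^ ((k : ℤ) * (-c t j)) * (g.mulVec (a t j)) l := fun t j l => rfl
  refine ⟨g, fun t j => -c t j, b, hg, hbv, ?_⟩
  intro w hw
  obtain ⟨l₀, hl₀⟩ : ∃ l₀, w l₀ ≠ 0 := by
    by_contra h
    push Not at h
    exact hw (funext h)
  set L : Fin r → ℤ_[p] := fun l => (((w l).val : ℕ) : ℤ_[p]) with hL
  have hLz : ∀ l, PadicInt.toZMod (L l) = w l := by
    intro l
    rw [hL]
    simp only [map_natCast]
    exact ZMod.natCast_zmod_val (w l)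
  set u : Fin r → ℚ_[p] := fun l => (p : ℚ_[p])⁻¹ * (L l : ℚ_[p]) with hu
  set E : Matrix (Fin r) (Fin r) ℚ_[p] := (1 : Matrix (Fin r) (Fin r) ℚ_[p]).updateRow l₀ u with hE
  have hdetE : E.det = (p : ℚ_[p])⁻¹ * (L l₀ : ℚ_[p]) := nrm_det_updateRow l₀ u
  have hLl₀ : (L l₀ : ℚ_[p]) = (((w l₀).val : ℕ) : ℚ_[p]) := by
    exact PadicInt.coe_natCast _
  have hval0 : (w l₀).val ≠ 0 := by
    intro h
    exact hl₀ ((ZMod.val_eq_zero _).1 h)
  have hLne : (L l₀ : ℚ_[p]) ≠ 0 := by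
    rw [hLl₀]; exact_mod_cast hval0
  have hvalL : (L l₀ : ℚ_[p]).valuation = 0 := by
    rw [hLl₀, Padic.valuation_natCast, padicValNat.eq_zero_of_not_dvd]
    · rfl
    · intro h
      exact absurd (Nat.le_of_dvd (Nat.pos_of_ne_zero hval0) h) (not_le.2 (ZMod.val_lt _))
  have hEne : E.det ≠ 0 := by
    rw [hdetE]; exact mul_ne_zero (inv_ne_zero hpK) hLne
  have hEval : (E * g).det.valuation = g.det.valuation - 1 := by
    rw [Matrix.det_mul, Padic.valuation_mul hEne hg, hdetE,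
      Padic.valuation_mul (inv_ne_zero hpK) hLne, hvalL, Padic.valuation_inv, Padic.valuation_p]
    ring
  -- the new exponents
  set c' : Fin m → Fin r → ℤ := fun t j =>
    if ∑ l, w l * PadicInt.toZMod (b t j l) ≠ 0 then c t j - 1 else c t j with hc'
  have hsum : ∀ t j, ∑ i, u i * (g.mulVec (a t j)) i =
      (p : ℚ_[p]) ^ ((k : ℤ) * c t j) * ((p : ℚ_[p])⁻¹ *
        ((∑ i, L i * b t j i : ℤ_[p]) : ℚ_[p])) := by
    intro t j
    rw [PadicInt.coe_sum, Finset.mul_sum, Finset.mul_sum]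
    refine Finset.sum_congr rfl fun i _ => ?_
    rw [PadicInt.coe_mul, hbv, hu]
    have h1 : (p : ℚ_[p]) ^ ((k : ℤ) * c t j) * (p : ℚ_[p]) ^ ((k : ℤ) * (-c t j)) = 1 := by
      rw [← zpow_add₀ hpK, show (k : ℤ) * c t j + (k : ℤ) * (-c t j) = 0 by ring, zpow_zero]
    linear_combination (-((p : ℚ_[p])⁻¹ * (L i : ℚ_[p]) * (g.mulVec (a t j)) i)) * h1
  have hfeas : ∀ t j l, ‖((E * g).mulVec (a t j)) l‖ ≤ (p : ℝ) ^ (-((k : ℤ) * c' t j)) := by
    intro t j l
    have hmono : (p : ℝ) ^ (-((k : ℤ) * c t j)) ≤ (p : ℝ) ^ (-((k : ℤ) * c' t j)) := by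
      refine zpow_le_zpow_right₀ hp1.le ?_
      have hk0 : (0 : ℤ) ≤ k := Int.natCast_nonneg k
      have : c' t j ≤ c t j := by
        rw [hc']; simp only; split_ifs <;> omega
      have := mul_le_mul_of_nonneg_left this hk0
      linarith
    rw [← Matrix.mulVec_mulVec, hE, nrm_mulVec_updateRow]
    by_cases hl : l = l₀
    · rw [if_pos hl, hsum, norm_mul, Padic.norm_p_zpow]
      by_cases hz : ∑ l, w l * PadicInt.toZMod (b t j l) = 0
      · have hc1 : c' t j = c t j := by rw [hc']; simp only; rw [if_neg (not_not.2 hz)]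
        rw [hc1]
        have h1 : PadicInt.toZMod (∑ i, L i * b t j i) = 0 := by
          rw [map_sum, ← hz]
          refine Finset.sum_congr rfl fun i _ => ?_
          rw [map_mul, hLz]
        have h2 : ‖∑ i, L i * b t j i‖ < 1 := by
          rw [← PadicInt.mem_nonunits, ← IsLocalRing.mem_maximalIdeal, ← PadicInt.ker_toZMod]
          exact h1
        obtain ⟨y, hy⟩ := (PadicInt.norm_lt_one_iff_dvd _).1 h2
        rw [hy, PadicInt.coe_mul, PadicInt.coe_natCast, ← mul_assoc, inv_mul_cancel₀ hpK, one_mul]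
        have h3 : ‖(y : ℚ_[p])‖ ≤ 1 := y.2
        have h4 : (0 : ℝ) < (p : ℝ) ^ (-((k : ℤ) * c t j)) := zpow_pos hp0 _
        exact mul_le_of_le_one_right h4.le h3
      · have hc1 : c' t j = c t j - 1 := by rw [hc']; simp only; rw [if_pos hz]
        rw [hc1, norm_mul, norm_inv, Padic.norm_p, inv_inv]
        have h3 : ‖((∑ i, L i * b t j i : ℤ_[p]) : ℚ_[p])‖ ≤ 1 := PadicInt.norm_le_one _
        have h4 : (0 : ℝ) < (p : ℝ) ^ (-((k : ℤ) * c t j)) := zpow_pos hp0 _
        have h5 : -((k : ℤ) * (c t j - 1)) = -((k : ℤ) * c t j) + k := by ring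
        rw [h5, zpow_add₀ hp0.ne', zpow_natCast]
        refine mul_le_mul_of_nonneg_left ?_ h4.le
        calc (p : ℝ) * ‖((∑ i, L i * b t j i : ℤ_[p]) : ℚ_[p])‖ ≤ p := mul_le_of_le_one_right hp0.le h3
          _ = (p : ℝ) ^ 1 := (pow_one _).symm
          _ ≤ (p : ℝ) ^ k := pow_le_pow_right₀ hp1.le hk
    · rw [if_neg hl]
      exact (hgc t j l).trans hmono
  have hfin := hmax _ ⟨E * g, c', by rw [Matrix.det_mul]; exact mul_ne_zero hEne hg, hfeas, rfl⟩
  rw [hz₀, hEval] at hfin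
  have hcs : ∑ t, ∑ j, c' t j = ∑ t, ∑ j, c t j -
      ((univ.filter fun x : Fin m × Fin r =>
        ∑ l, w l * PadicInt.toZMod (b x.1 x.2 l) ≠ 0).card : ℤ) := by
    rw [← Fintype.sum_prod_type' (f := fun t j => c' t j),
      ← Fintype.sum_prod_type' (f := fun t j => c t j), Finset.card_filter]
    push_cast
    rw [← Finset.sum_sub_distrib]
    refine Finset.sum_congr rfl fun x _ => ?_
    rw [hc']
    simp only
    split_ifs <;> simp
  rw [hcs] at hfin
  have : (m : ℤ) ≤ k * ((univ.filter fun x : Fin m × Fin r =>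
        ∑ l, w l * PadicInt.toZMod (b x.1 x.2 l) ≠ 0).card : ℤ) := by
    linarith
  exact_mod_cast this

end Pool.Agent.Lib.MP_c0a553_nt
end

section

/-! # Approximate zeros over the p-adic integers (job HQ-3) -/

namespace Pool.Agent.Lib.MP_c0a553_nt

open Finset

private theorem zs_lt {p : ℕ} [Fact p.Prime] {x : ℤ_[p]} (h : PadicInt.toZMod x = 0) :
    ‖x‖ < 1 := by
  have h1 : x ∈ RingHom.ker (PadicInt.toZMod : ℤ_[p] →+* ZMod p) := h
  rw [PadicInt.ker_toZMod] at h1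
  exact PadicInt.mem_nonunits.1 h1

private theorem zs_one {p : ℕ} [Fact p.Prime] {x : ℤ_[p]} (h : PadicInt.toZMod x ≠ 0) :
    ‖x‖ = 1 := by
  by_contra h1
  have h2 : ‖x‖ < 1 := lt_of_le_of_ne (PadicInt.norm_le_one x) h1
  apply h
  have h3 : x ∈ RingHom.ker (PadicInt.toZMod : ℤ_[p] →+* ZMod p) := by
    rw [PadicInt.ker_toZMod]
    exact PadicInt.mem_nonunits.2 h2
  exact h3

private theorem zs_unit {p : ℕ} [Fact p.Prime] {u : ℕ} (h : ¬ p ∣ u) : ‖(u : ℤ_[p])‖ = 1 := by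
  apply zs_one
  rw [map_natCast]
  intro h1
  exact h ((ZMod.natCast_eq_zero_iff u p).1 h1)

theorem zero_step (p : ℕ) [Fact p.Prime] (k r : ℕ) (hk : 1 ≤ k) {ι : Type} [Fintype ι]
    [DecidableEq ι] (J : Finset ι) (b : ι → Fin r → ℤ_[p]) (hJ : r * k ^ 3 + 1 ≤ J.card) :
    ∃ y : ι → ℤ_[p], (∀ i, i ∉ J → y i = 0) ∧ (∀ i, y i = 0 ∨ ‖y i‖ = 1) ∧
      (∃ i ∈ J, ‖y i‖ = 1) ∧ ∀ l, ‖∑ i, b i l * y i ^ k‖ < ‖(k : ℤ_[p])‖ ^ 2 := by
  classical
  have hp : p.Prime := Fact.out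
  by_cases hpk : p ∣ k
  · -- `p ∣ k`
    obtain ⟨c, u, hu, hku⟩ := Nat.exists_eq_pow_mul_and_not_dvd (n := k) (by omega) p hp.ne_one
    have hc : 1 ≤ c := by
      rcases Nat.eq_zero_or_pos c with h0 | h0
      · subst h0
        rw [pow_zero, one_mul] at hku
        exact absurd (hku ▸ hpk) hu
      · exact h0
    have hpc : p ^ c ≤ k := Nat.le_of_dvd (by omega) ⟨u, hku⟩
    have hq : p ^ (2 * c + 1) ≤ k ^ 3 := by
      calc p ^ (2 * c + 1) ≤ p ^ (c * 3) := Nat.pow_le_pow_right hp.pos (by omega)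
        _ = (p ^ c) ^ 3 := pow_mul _ _ _
        _ ≤ k ^ 3 := Nat.pow_le_pow_left hpc 3
    have hJ' : r * p ^ (2 * c + 1) + 1 ≤ J.card :=
      (Nat.add_le_add_right (Nat.mul_le_mul_left r hq) 1).trans hJ
    obtain ⟨S, hSJ, hSne, hS⟩ := olson p (2 * c + 1) r J
      (fun i l => PadicInt.toZModPow (2 * c + 1) (b i l)) hJ'
    refine ⟨fun i => if i ∈ S then 1 else 0, ?_, ?_, ?_, ?_⟩
    · intro i hi
      simp only
      rw [if_neg fun h => hi (hSJ h)]
    · intro i
      simp only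
      split_ifs
      · right
        exact norm_one
      · left
        rfl
    · obtain ⟨i, hi⟩ := hSne
      refine ⟨i, hSJ hi, ?_⟩
      simp only
      rw [if_pos hi]
      exact norm_one
    · intro l
      have h1 : ∑ i, b i l * (if i ∈ S then (1 : ℤ_[p]) else 0) ^ k = ∑ i ∈ S, b i l := by
        rw [← Finset.sum_subset (Finset.subset_univ S)
          (f := fun i => b i l * (if i ∈ S then (1 : ℤ_[p]) else 0) ^ k)]
        · refine Finset.sum_congr rfl fun i hi => ?_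
          rw [if_pos hi, one_pow, mul_one]
        · intro i _ hi
          rw [if_neg hi, zero_pow (by omega), mul_zero]
      have h2 : PadicInt.toZModPow (2 * c + 1) (∑ i ∈ S, b i l) = 0 := by
        rw [map_sum]
        exact hS l
      have h3 : ∑ i ∈ S, b i l ∈
          RingHom.ker (PadicInt.toZModPow (p := p) (2 * c + 1)) := h2
      rw [PadicInt.ker_toZModPow, Ideal.mem_span_singleton] at h3
      obtain ⟨z, hz⟩ := h3
      have hp0 : (0 : ℝ) < (p : ℝ)⁻¹ := by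
        have : (0 : ℝ) < p := by exact_mod_cast hp.pos
        positivity
      have hp1 : (p : ℝ)⁻¹ < 1 := by
        have : (1 : ℝ) < p := by exact_mod_cast hp.one_lt
        exact inv_lt_one_of_one_lt₀ this
      have hkn : ‖(k : ℤ_[p])‖ = (p : ℝ)⁻¹ ^ c := by
        rw [hku]
        push_cast
        rw [norm_mul, norm_pow, PadicInt.norm_p, zs_unit hu, mul_one]
      simp only
      rw [h1, hz, norm_mul, norm_pow, PadicInt.norm_p, hkn, ← pow_mul]
      calc (p : ℝ)⁻¹ ^ (2 * c + 1) * ‖z‖ ≤ (p : ℝ)⁻¹ ^ (2 * c + 1) * 1 :=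
            mul_le_mul_of_nonneg_left (PadicInt.norm_le_one z) (by positivity)
        _ = (p : ℝ)⁻¹ ^ (c * 2) * (p : ℝ)⁻¹ := by
            rw [mul_one, pow_succ, Nat.mul_comm]
        _ < (p : ℝ)⁻¹ ^ (c * 2) * 1 := mul_lt_mul_of_pos_left hp1 (by positivity)
        _ = (p : ℝ)⁻¹ ^ (c * 2) := mul_one _
  · -- `p ∤ k`
    have hJ' : r * k + 1 ≤ J.card := by
      have h1 : k ≤ k ^ 3 := Nat.le_self_pow (by norm_num) k
      exact (Nat.add_le_add_right (Nat.mul_le_mul_left r h1) 1).trans hJ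
    obtain ⟨y', hy'0, ⟨i₀, hi₀, hi₀'⟩, hy's⟩ := cw_sys p k r hk J
      (fun i l => PadicInt.toZMod (b i l)) hJ'
    obtain ⟨y, hy⟩ : ∃ y : ι → ℤ_[p], y = fun i => (((y' i).val : ℕ) : ℤ_[p]) := ⟨_, rfl⟩
    have hyz : ∀ i, PadicInt.toZMod (y i) = y' i := by
      intro i
      rw [hy]
      simp only
      rw [map_natCast, ZMod.natCast_zmod_val]
    have hy0 : ∀ i, y' i = 0 → y i = 0 := by
      intro i h
      rw [hy]
      simp only
      rw [h, ZMod.val_zero, Nat.cast_zero]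
    have hy1 : ∀ i, y' i ≠ 0 → ‖y i‖ = 1 := by
      intro i h
      apply zs_one
      rw [hyz]
      exact h
    refine ⟨y, fun i hi => hy0 i (hy'0 i hi), ?_, ⟨i₀, hi₀, hy1 i₀ hi₀'⟩, ?_⟩
    · intro i
      by_cases h : y' i = 0
      · exact Or.inl (hy0 i h)
      · exact Or.inr (hy1 i h)
    · intro l
      rw [zs_unit hpk, one_pow]
      apply zs_lt
      rw [map_sum, ← hy's l, ← Finset.sum_subset (Finset.subset_univ J)]
      · refine Finset.sum_congr rfl fun i _ => ?_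
        rw [map_mul, map_pow, hyz]
      · intro i _ hi
        rw [hy0 i (hy'0 i hi), zero_pow (by omega), mul_zero, map_zero]

end Pool.Agent.Lib.MP_c0a553_nt
end

section

/-! # Approximate zeros of full rank (job HQ-4) -/

namespace Pool.Agent.Lib.MP_c0a553_nt

open Finset

theorem full_rank (p : ℕ) [Fact p.Prime] (k r : ℕ) (hk : 1 ≤ k) {ι : Type} [Fintype ι]
    [DecidableEq ι] (b : ι → Fin r → ℤ_[p])
    (hD : ∀ w : Fin r → ZMod p, w ≠ 0 →
      r * k ^ 3 + 1 ≤ (univ.filter fun i => ∑ l, w l * PadicInt.toZMod (b i l) ≠ 0).card) :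
    ∃ y : ι → ℤ_[p], (∀ i, y i = 0 ∨ ‖y i‖ = 1) ∧
      (∀ l, ‖∑ i, b i l * y i ^ k‖ < ‖(k : ℤ_[p])‖ ^ 2) ∧
      ∀ w : Fin r → ZMod p, w ≠ 0 →
        ∃ i, y i ≠ 0 ∧ ∑ l, w l * PadicInt.toZMod (b i l) ≠ 0 := by
  classical
  have hk0 : k ≠ 0 := by omega
  let bb : ι → Fin r → ZMod p := fun i l => PadicInt.toZMod (b i l)
  let W : (ι → ℤ_[p]) → Submodule (ZMod p) (Fin r → ZMod p) := fun y =>
    Submodule.span (ZMod p) (bb '' {i | y i ≠ 0})
  have hWr : ∀ y, Module.finrank (ZMod p) (W y) ≤ r := by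
    intro y
    refine (Submodule.finrank_le (W y)).trans (le_of_eq ?_)
    exact Module.finrank_fin_fun (ZMod p)
  have key : ∀ (n : ℕ) (y : ι → ℤ_[p]), (∀ i, y i = 0 ∨ ‖y i‖ = 1) →
      (∀ l, ‖∑ i, b i l * y i ^ k‖ < ‖(k : ℤ_[p])‖ ^ 2) →
      r ≤ Module.finrank (ZMod p) (W y) + n →
      ∃ y : ι → ℤ_[p], (∀ i, y i = 0 ∨ ‖y i‖ = 1) ∧
      (∀ l, ‖∑ i, b i l * y i ^ k‖ < ‖(k : ℤ_[p])‖ ^ 2) ∧
      ∀ w : Fin r → ZMod p, w ≠ 0 →
        ∃ i, y i ≠ 0 ∧ ∑ l, w l * PadicInt.toZMod (b i l) ≠ 0 := by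
    intro n
    induction n with
    | zero =>
      intro y hy1 hy2 hr
      refine ⟨y, hy1, hy2, ?_⟩
      intro w hw
      by_contra hcon
      push Not at hcon
      -- everything lies in the kernel of `w`
      let f : (Fin r → ZMod p) →ₗ[ZMod p] ZMod p := ∑ l, w l • LinearMap.proj l
      have hf : ∀ v, f v = ∑ l, w l * v l := by
        intro v
        simp [f, LinearMap.sum_apply]
      have hle : W y ≤ LinearMap.ker f := by
        rw [Submodule.span_le]
        rintro _ ⟨i, hi, rfl⟩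
        rw [SetLike.mem_coe, LinearMap.mem_ker, hf]
        exact hcon i hi
      have htop : W y = ⊤ := by
        apply Submodule.eq_top_of_finrank_eq
        rw [Module.finrank_fin_fun]
        exact le_antisymm (hWr y) (by simpa using hr)
      rw [htop, top_le_iff] at hle
      apply hw
      funext l
      have h1 : f (Pi.single l 1) = 0 := by
        have : (Pi.single l 1 : Fin r → ZMod p) ∈ LinearMap.ker f := by rw [hle]; trivial
        exact this
      rw [hf] at h1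
      simpa [Pi.single_apply] using h1
    | succ n ih =>
      intro y hy1 hy2 hr
      by_cases hfin : ∀ w : Fin r → ZMod p, w ≠ 0 →
        ∃ i, y i ≠ 0 ∧ ∑ l, w l * PadicInt.toZMod (b i l) ≠ 0
      · exact ⟨y, hy1, hy2, hfin⟩
      push Not at hfin
      obtain ⟨w, hw, hwy⟩ := hfin
      obtain ⟨y', h1, h2, ⟨i1, hi1, hi1n⟩, h4⟩ := zero_step p k r hk
        (univ.filter fun i => ∑ l, w l * PadicInt.toZMod (b i l) ≠ 0) b (hD w hw)
      have hdisj : ∀ i, y i = 0 ∨ y' i = 0 := by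
        intro i
        by_cases hi : i ∈ univ.filter fun i => ∑ l, w l * PadicInt.toZMod (b i l) ≠ 0
        · left
          by_contra hyi
          exact (Finset.mem_filter.1 hi).2 (hwy i hyi)
        · exact Or.inr (h1 i hi)
      have hyi1 : y i1 = 0 := by
        by_contra hyi
        exact (Finset.mem_filter.1 hi1).2 (hwy i1 hyi)
      have hyi1' : y' i1 ≠ 0 := by
        intro h
        rw [h, norm_zero] at hi1n
        exact zero_ne_one hi1n
      have hpow : ∀ i, (y i + y' i) ^ k = y i ^ k + y' i ^ k := by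
        intro i
        rcases hdisj i with h | h
        · rw [h, zero_add, zero_pow hk0, zero_add]
        · rw [h, add_zero, zero_pow hk0, add_zero]
      apply ih (fun i => y i + y' i)
      · intro i
        rcases hdisj i with h | h
        · simp only [h, zero_add]; exact h2 i
        · simp only [h, add_zero]; exact hy1 i
      · intro l
        have e1 : ∑ i, b i l * (y i + y' i) ^ k = ∑ i, b i l * y i ^ k + ∑ i, b i l * y' i ^ k := by
          rw [← Finset.sum_add_distrib]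
          exact Finset.sum_congr rfl fun i _ => by rw [hpow, mul_add]
        rw [e1]
        exact (PadicInt.nonarchimedean _ _).trans_lt (max_lt (hy2 l) (h4 l))
      · let f : (Fin r → ZMod p) →ₗ[ZMod p] ZMod p := ∑ l, w l • LinearMap.proj l
        have hf : ∀ v, f v = ∑ l, w l * v l := by
          intro v
          simp [f, LinearMap.sum_apply]
        have hle : W y ≤ LinearMap.ker f := by
          rw [Submodule.span_le]
          rintro _ ⟨i, hi, rfl⟩
          rw [SetLike.mem_coe, LinearMap.mem_ker, hf]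
          exact hwy i hi
        have hnot : bb i1 ∉ W y := by
          intro h
          have := hle h
          rw [LinearMap.mem_ker, hf] at this
          exact (Finset.mem_filter.1 hi1).2 this
        have hmem : bb i1 ∈ W (fun i => y i + y' i) := by
          apply Submodule.subset_span
          refine ⟨i1, ?_, rfl⟩
          simp only [Set.mem_ofPred_eq, hyi1, zero_add]
          exact hyi1'
        have hmono : W y ≤ W (fun i => y i + y' i) := by
          apply Submodule.span_mono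
          apply Set.image_mono
          intro i hi
          simp only [Set.mem_ofPred_eq] at hi ⊢
          rcases hdisj i with h | h
          · exact absurd h hi
          · rw [h, add_zero]; exact hi
        have hlt : W y < W (fun i => y i + y' i) :=
          lt_of_le_of_ne hmono fun h => hnot (by rw [h]; exact hmem)
        have := Submodule.finrank_lt_finrank_of_lt hlt
        omega
  refine key r (fun _ => 0) (fun i => Or.inl rfl) ?_ (by omega)
  intro l
  have e1 : ∑ i, b i l * (0 : ℤ_[p]) ^ k = 0 :=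
    Finset.sum_eq_zero fun i _ => by rw [zero_pow hk0, mul_zero]
  rw [e1, norm_zero]
  have : (k : ℤ_[p]) ≠ 0 := by exact_mod_cast hk0
  positivity

end Pool.Agent.Lib.MP_c0a553_nt
end

section

/-! # Systems that contain many disjoint bases (job HQ-8) -/

namespace Pool.Agent.Lib.MP_c0a553_nt

open Finset

theorem sys_bases (p : ℕ) [Fact p.Prime] (k r m : ℕ) (hk : 1 ≤ k) (hr : 1 ≤ r)
    (hm : k * (r * k ^ 3 + 1) ≤ m) (a : Fin m → Fin r → Fin r → ℚ_[p])
    (ha : ∀ t, (Matrix.of (a t)).det ≠ 0) :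
    ∃ y : Fin m → Fin r → ℚ_[p], (∃ t j, y t j ≠ 0) ∧
      ∀ l, ∑ t, ∑ j, a t j l * y t j ^ k = 0 := by
  obtain ⟨g, c, b, hg, hb, hw⟩ := normalize p k r m hk hr a ha
  have hD : ∀ w : Fin r → ZMod p, w ≠ 0 →
      r * k ^ 3 + 1 ≤ (univ.filter fun x : Fin m × Fin r =>
        ∑ l, w l * PadicInt.toZMod (b x.1 x.2 l) ≠ 0).card := by
    intro w hw0
    exact Nat.le_of_mul_le_mul_left (hm.trans (hw w hw0)) (by omega)
  obtain ⟨y, h1, h2, h3⟩ := full_rank p k r hk
    (fun x : Fin m × Fin r => b x.1 x.2) hD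
  obtain ⟨z, hz0, hz⟩ := hensel_sys p k r hk hr (fun x : Fin m × Fin r => b x.1 x.2) y h1 h2 h3
  have hp : (p : ℚ_[p]) ≠ 0 := by
    exact_mod_cast (Fact.out : p.Prime).ne_zero
  refine ⟨fun t j => (p : ℚ_[p]) ^ (c t j) * ((z (t, j) : ℤ_[p]) : ℚ_[p]), ?_, ?_⟩
  · obtain ⟨x, hx⟩ : ∃ x, z x ≠ 0 := by
      by_contra hcon
      push Not at hcon
      exact hz0 (funext hcon)
    refine ⟨x.1, x.2, mul_ne_zero (zpow_ne_zero _ hp) ?_⟩
    intro h0
    apply hx
    exact Subtype.ext h0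
  · have hterm : ∀ t j l, (g.mulVec (a t j)) l *
        ((p : ℚ_[p]) ^ (c t j) * ((z (t, j) : ℤ_[p]) : ℚ_[p])) ^ k
        = ((b t j l * z (t, j) ^ k : ℤ_[p]) : ℚ_[p]) := by
      intro t j l
      push_cast
      rw [hb t j l, mul_pow, ← zpow_natCast, ← zpow_mul, mul_comm (c t j) (k : ℤ)]
      ring
    have hv : g.mulVec (fun l => ∑ t, ∑ j, a t j l *
        ((p : ℚ_[p]) ^ (c t j) * ((z (t, j) : ℤ_[p]) : ℚ_[p])) ^ k) = 0 := by
      funext l
      have h4 : g.mulVec (fun l => ∑ t, ∑ j, a t j l *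
          ((p : ℚ_[p]) ^ (c t j) * ((z (t, j) : ℤ_[p]) : ℚ_[p])) ^ k) l
          = ∑ t, ∑ j, (g.mulVec (a t j)) l *
            ((p : ℚ_[p]) ^ (c t j) * ((z (t, j) : ℤ_[p]) : ℚ_[p])) ^ k := by
        simp only [Matrix.mulVec, dotProduct, Finset.mul_sum, Finset.sum_mul]
        rw [Finset.sum_comm]
        refine Finset.sum_congr rfl fun t _ => ?_
        rw [Finset.sum_comm]
        refine Finset.sum_congr rfl fun j _ => Finset.sum_congr rfl fun l' _ => ?_
        ring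
      rw [h4]
      simp only [hterm]
      have h5 : ∑ t, ∑ j, ((b t j l * z (t, j) ^ k : ℤ_[p]) : ℚ_[p])
          = ((∑ x : Fin m × Fin r, b x.1 x.2 l * z x ^ k : ℤ_[p]) : ℚ_[p]) := by
        rw [Fintype.sum_prod_type]
        simp only [PadicInt.coe_sum]
      rw [h5, hz l]
      simp
    have h6 := Matrix.eq_zero_of_mulVec_eq_zero hg hv
    intro l
    exact congrFun h6 l

end Pool.Agent.Lib.MP_c0a553_nt
end
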