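import Pool.Agent.Lib.MP_c0a553_nt.OddNonsing
import Pool.Agent.Lib.MP_c0a553_nt.RealSigns
import Pool.Agent.Lib.MP_c0a553_nt.JILower
import Pool.Agent.Lib.MP_c0a553_nt.SeriesLower
import Pool.Agent.Lib.MP_c0a553_nt.Holder
import Pool.Agent.Lib.MP_c0a553_nt.Energy
import Pool.Agent.Lib.MP_c0a553_nt.SysBases

section

/-! # Endgame (job HP-30) -/

namespace Pool.Agent.Lib.MP_c0a553_nt

open Finset

variable {ι : Type} [Fintype ι] [DecidableEq ι]

private theorem endgame_cont (g : (ι → ℤ) → ℤ) (P : ℕ) (lo hi : ι → ℝ) :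
    Continuous (fun α => S g P lo hi α) := by
  unfold S
  refine continuous_finsetSum _ fun x _ => ?_
  unfold e
  fun_prop

private theorem endgame_approx (g : (ι → ℤ) → ℤ) (D : ℕ)
    (lo hi : ι → ℝ) (C : ℝ) (hC : 0 < C) (P : ℕ) (hP : 1 ≤ P)
    (hmaj : ∀ q : ℕ, 1 ≤ q → q ≤ P → ∀ (a : ℤ) (β : ℝ),
      ‖S g P lo hi ((a : ℝ) / q + β)
          - Sc g q a / (q : ℂ) ^ Fintype.card ι * S g P lo hi β‖ * P
        ≤ C * q * (1 + |β| * (P : ℝ) ^ D) * (P : ℝ) ^ (Fintype.card ι)) :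
    ‖(∑ q ∈ Finset.Icc 1 ⌊(P : ℝ) ^ (1 / 10 : ℝ)⌋₊,
            ∑ a ∈ (Finset.range q).filter (fun a => Nat.Coprime a q),
              ∫ β in (-tau D P)..(tau D P), S g P lo hi ((a : ℝ) / q + β))
        - (∑ q ∈ Finset.Icc 1 ⌊(P : ℝ) ^ (1 / 10 : ℝ)⌋₊, AA g q) * JI g D P lo hi‖
      * (P : ℝ) ^ (D + 1) ≤
      4 * C * ((P : ℝ) ^ (1 / 10 : ℝ)) ^ 5 * (P : ℝ) ^ (Fintype.card ι) := by
  have hP1 : (1 : ℝ) ≤ P := by exact_mod_cast hP
  have hP0 : (0 : ℝ) < P := by linarith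
  set u : ℝ := (P : ℝ) ^ (1 / 10 : ℝ) with hu
  have hu1 : 1 ≤ u := Real.one_le_rpow hP1 (by norm_num)
  have huP : u ≤ P := by
    calc u ≤ (P : ℝ) ^ (1 : ℝ) := Real.rpow_le_rpow_of_exponent_le hP1 (by norm_num)
      _ = P := Real.rpow_one _
  have htau : tau D P * (P : ℝ) ^ D = u := by
    unfold tau
    rw [← hu]
    field_simp
  have htau0 : 0 < tau D P := by
    unfold tau
    positivity
  set n := Fintype.card ι with hn
  set K : ℝ := C * u * (1 + u) * (P : ℝ) ^ n / P * (2 * tau D P) with hK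
  have hK0 : 0 ≤ K := by positivity
  have hterm : ∀ q ∈ Finset.Icc 1 ⌊u⌋₊, ∀ a : ℕ,
      ‖(∫ β in (-tau D P)..(tau D P), S g P lo hi ((a : ℝ) / q + β)) -
        Sc g q a / (q : ℂ) ^ n * JI g D P lo hi‖ ≤ K := by
    intro q hq a
    rw [Finset.mem_Icc] at hq
    have hqu : (q : ℝ) ≤ u := (Nat.le_floor_iff (by linarith)).1 hq.2
    have hqP : q ≤ P := by exact_mod_cast hqu.trans huP
    have hc1 : Continuous fun β => S g P lo hi ((a : ℝ) / q + β) :=
      (endgame_cont g P lo hi).comp (by fun_prop)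
    have hc2 : Continuous fun β => Sc g q a / (q : ℂ) ^ n * S g P lo hi β :=
      continuous_const.mul (endgame_cont g P lo hi)
    rw [JI, ← intervalIntegral.integral_const_mul, ← intervalIntegral.integral_sub
      (hc1.intervalIntegrable _ _) (hc2.intervalIntegrable _ _)]
    have hb : ∀ β ∈ Set.uIoc (-tau D P) (tau D P),
        ‖S g P lo hi ((a : ℝ) / q + β) - Sc g q a / (q : ℂ) ^ n * S g P lo hi β‖ ≤
          C * u * (1 + u) * (P : ℝ) ^ n / P := by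
      intro β hβ
      rw [Set.uIoc_of_le (by linarith)] at hβ
      have hβ' : |β| ≤ tau D P := abs_le.2 ⟨hβ.1.le, hβ.2⟩
      have h1 := hmaj q hq.1 hqP (a : ℤ) β
      rw [Int.cast_natCast] at h1
      rw [le_div_iff₀ hP0]
      refine h1.trans ?_
      have h2 : |β| * (P : ℝ) ^ D ≤ u := by
        rw [← htau]
        exact mul_le_mul_of_nonneg_right hβ' (by positivity)
      have h3 : (0 : ℝ) ≤ |β| * (P : ℝ) ^ D := by positivity
      gcongr
    refine (intervalIntegral.norm_integral_le_of_norm_le_const hb).trans ?_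
    rw [sub_neg_eq_add, abs_of_pos (by linarith), hK]
    exact le_of_eq (by ring)
  have hsplit : (∑ q ∈ Finset.Icc 1 ⌊u⌋₊,
            ∑ a ∈ (Finset.range q).filter (fun a => Nat.Coprime a q),
              ∫ β in (-tau D P)..(tau D P), S g P lo hi ((a : ℝ) / q + β))
        - (∑ q ∈ Finset.Icc 1 ⌊u⌋₊, AA g q) * JI g D P lo hi =
      ∑ q ∈ Finset.Icc 1 ⌊u⌋₊, ∑ a ∈ (Finset.range q).filter (fun a => Nat.Coprime a q),
        ((∫ β in (-tau D P)..(tau D P), S g P lo hi ((a : ℝ) / q + β)) -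
        Sc g q a / (q : ℂ) ^ n * JI g D P lo hi) := by
    rw [Finset.sum_mul, ← Finset.sum_sub_distrib]
    refine Finset.sum_congr rfl fun q _ => ?_
    rw [Finset.sum_sub_distrib]
    congr 1
    rw [AA, Finset.sum_div, Finset.sum_mul]
  rw [hsplit]
  have hbound : ‖∑ q ∈ Finset.Icc 1 ⌊u⌋₊, ∑ a ∈ (Finset.range q).filter (fun a => Nat.Coprime a q),
        ((∫ β in (-tau D P)..(tau D P), S g P lo hi ((a : ℝ) / q + β)) -
        Sc g q a / (q : ℂ) ^ n * JI g D P lo hi)‖ ≤ u * (u * K) := by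
    calc _ ≤ ∑ q ∈ Finset.Icc 1 ⌊u⌋₊, ‖∑ a ∈ (Finset.range q).filter (fun a => Nat.Coprime a q),
        ((∫ β in (-tau D P)..(tau D P), S g P lo hi ((a : ℝ) / q + β)) -
        Sc g q a / (q : ℂ) ^ n * JI g D P lo hi)‖ := norm_sum_le _ _
      _ ≤ ∑ q ∈ Finset.Icc 1 ⌊u⌋₊, u * K := by
        refine Finset.sum_le_sum fun q hq => ?_
        have hqu : (q : ℝ) ≤ u := (Nat.le_floor_iff (by linarith)).1 (Finset.mem_Icc.1 hq).2
        calc _ ≤ ∑ a ∈ (Finset.range q).filter (fun a => Nat.Coprime a q),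
              ‖(∫ β in (-tau D P)..(tau D P), S g P lo hi ((a : ℝ) / q + β)) -
                Sc g q a / (q : ℂ) ^ n * JI g D P lo hi‖ := norm_sum_le _ _
          _ ≤ ∑ a ∈ (Finset.range q).filter (fun a => Nat.Coprime a q), K :=
            Finset.sum_le_sum fun a _ => hterm q hq a
          _ = (((Finset.range q).filter (fun a => Nat.Coprime a q)).card : ℝ) * K := by
            rw [Finset.sum_const, nsmul_eq_mul]
          _ ≤ u * K := by
            refine mul_le_mul_of_nonneg_right ?_ hK0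
            refine le_trans ?_ hqu
            have := Finset.card_filter_le (Finset.range q) (fun a => Nat.Coprime a q)
            rw [Finset.card_range] at this
            exact_mod_cast this
      _ = (⌊u⌋₊ : ℝ) * (u * K) := by
        rw [Finset.sum_const, Nat.card_Icc, nsmul_eq_mul]
        simp
      _ ≤ u * (u * K) := by
        refine mul_le_mul_of_nonneg_right (Nat.floor_le (by linarith)) (by positivity)
  calc _ ≤ u * (u * K) * (P : ℝ) ^ (D + 1) := mul_le_mul_of_nonneg_right hbound (by positivity)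
    _ = 2 * C * u ^ 3 * (1 + u) * (P : ℝ) ^ n * (tau D P * (P : ℝ) ^ D) := by
      rw [hK, pow_succ]
      field_simp
    _ = 2 * C * u ^ 4 * (1 + u) * (P : ℝ) ^ n := by
      rw [htau]; ring
    _ ≤ 2 * C * u ^ 4 * (u + u) * (P : ℝ) ^ n := by gcongr
    _ = 4 * C * u ^ 5 * (P : ℝ) ^ n := by ring

theorem endgame (G : MvPolynomial ι ℤ) (D : ℕ) (hG : G.IsHomogeneous D) (hD : 2 ≤ D)
    (hW : WeylBound (fn G) D) (h : ∀ (p : ℕ) [Fact p.Prime], NonsingZero G ℚ_[p])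
    (y : ι → ℝ) (hy : MvPolynomial.aeval y G = 0) (i₀ : ι)
    (hi₀ : MvPolynomial.aeval y (MvPolynomial.pderiv i₀ G) ≠ 0) (ε : ℝ) (hε : 0 < ε) :
    ∃ P : ℕ, 1 ≤ P ∧ ∃ x : ι → ℤ, MvPolynomial.eval x G = 0 ∧ ∀ i, |(x i : ℝ) - P * y i| ≤ ε * P := by
  obtain ⟨ρ, hρ, hρε, c, hc, P₁, hP₁⟩ := real_lower G D hG (by omega) y hy i₀ hi₀ ε hε
  have hlo : ∀ i, y i - ρ ≤ y i + ρ := fun i => by linarith
  obtain ⟨c', hc', P₂, hP₂⟩ := JI_lower (fn G) D hD hW _ _ hlo c hc P₁ hP₁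
  obtain ⟨c'', hc'', Q₀, hQ₀⟩ := series_lower G D hG hD hW h
  obtain ⟨P₃, hP₃⟩ := arcs (fn G) D hD hW _ _ hlo
  obtain ⟨C, hC, hmaj⟩ := major_approx G D hG (by omega) _ _ hlo
  -- choose `P`
  have ht : Filter.Tendsto (fun P : ℕ => (P : ℝ) ^ (1 / 10 : ℝ)) Filter.atTop Filter.atTop :=
    (tendsto_rpow_atTop (by norm_num)).comp tendsto_natCast_atTop_atTop
  obtain ⟨P, hPlarge⟩ := ((Filter.eventually_ge_atTop (max (max P₁ P₂) (max P₃ 1))).and
    (ht.eventually (Filter.eventually_ge_atTop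
      (max ((Q₀ : ℝ) + 1) ((1 + 4 * C) / (c'' * c') + 1))))).exists
  obtain ⟨hP, hu⟩ := hPlarge
  have hPP₁ : P₁ ≤ P := le_trans (le_trans (le_max_left _ _) (le_max_left _ _)) hP
  have hPP₂ : P₂ ≤ P := le_trans (le_trans (le_max_right _ _) (le_max_left _ _)) hP
  have hPP₃ : P₃ ≤ P := le_trans (le_trans (le_max_left _ _) (le_max_right _ _)) hP
  have hPone : 1 ≤ P := le_trans (le_trans (le_max_right _ _) (le_max_right _ _)) hP
  have hP1 : (1 : ℝ) ≤ P := by exact_mod_cast hPone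
  have hP0 : (0 : ℝ) < P := by linarith
  have happ := endgame_approx (fn G) D _ _ C hC P hPone (hmaj P hPone)
  have harc := hP₃ P hPP₃
  have hJI := hP₂ P hPP₂
  have hJIm := JI_im (fn G) D P (fun i => y i - ρ) (fun i => y i + ρ)
  set u : ℝ := (P : ℝ) ^ (1 / 10 : ℝ) with hudef
  have hu1 : (Q₀ : ℝ) + 1 ≤ u := le_trans (le_max_left _ _) hu
  have hu2 : (1 + 4 * C) / (c'' * c') + 1 ≤ u := le_trans (le_max_right _ _) hu
  have hu0 : 1 ≤ u := Real.one_le_rpow hP1 (by norm_num)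
  have hQ : Q₀ ≤ ⌊u⌋₊ := Nat.le_floor (by linarith)
  have hser := hQ₀ _ hQ
  have hu10 : u ^ 10 = P := by
    rw [hudef, ← Real.rpow_natCast, ← Real.rpow_mul hP0.le]
    norm_num
  set n := Fintype.card ι with hn
  set Z : ℕ := ((box P (fun i => y i - ρ) (fun i => y i + ρ)).filter fun x => fn G x = 0).card
    with hZ
  set A : ℂ := ∑ q ∈ Finset.Icc 1 ⌊u⌋₊, AA (fn G) q with hA
  set J : ℂ := JI (fn G) D P (fun i => y i - ρ) (fun i => y i + ρ) with hJ
  have hZpos : 0 < Z := by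
    by_contra hZ0
    have hZ0' : Z = 0 := by omega
    have h1 : ‖(Z : ℂ) - A * J‖ * (P : ℝ) ^ (D + 1) ≤
        (P : ℝ) ^ n + 4 * C * u ^ 5 * (P : ℝ) ^ n := by
      refine le_trans ?_ (add_le_add harc happ)
      rw [← add_mul]
      refine mul_le_mul_of_nonneg_right ?_ (by positivity)
      exact norm_sub_le_norm_sub_add_norm_sub _ _ _
    have h2 : (A * J).re ≤ ‖(Z : ℂ) - A * J‖ := by
      rw [hZ0', Nat.cast_zero, zero_sub, norm_neg]
      exact Complex.re_le_norm _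
    have h3 : (A * J).re = A.re * J.re := by
      rw [Complex.mul_re, hJIm, mul_zero, sub_zero]
    have hJre : c' * (P : ℝ) ^ n ≤ J.re * (P : ℝ) ^ D := hJI
    have h4 : c'' * (c' * (P : ℝ) ^ n) * P ≤ (A * J).re * (P : ℝ) ^ (D + 1) := by
      rw [h3, pow_succ]
      calc c'' * (c' * (P : ℝ) ^ n) * P ≤ A.re * (J.re * (P : ℝ) ^ D) * P := by
            refine mul_le_mul_of_nonneg_right ?_ hP0.le
            exact mul_le_mul hser hJre (by positivity) (hc''.le.trans hser)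
        _ = _ := by ring
    have h5 : c'' * (c' * (P : ℝ) ^ n) * P ≤ (1 + 4 * C) * u ^ 5 * (P : ℝ) ^ n := by
      calc _ ≤ (A * J).re * (P : ℝ) ^ (D + 1) := h4
        _ ≤ ‖(Z : ℂ) - A * J‖ * (P : ℝ) ^ (D + 1) := mul_le_mul_of_nonneg_right h2 (by positivity)
        _ ≤ _ := h1
        _ = (1 * 1 + 4 * C * u ^ 5) * (P : ℝ) ^ n := by ring
        _ ≤ (1 * u ^ 5 + 4 * C * u ^ 5) * (P : ℝ) ^ n := by
          gcongr
          exact one_le_pow₀ hu0
        _ = _ := by ring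
    have h6 : c'' * c' * u ^ 5 ≤ 1 + 4 * C := by
      have hPn : (0 : ℝ) < (P : ℝ) ^ n := by positivity
      have hu5 : (0 : ℝ) < u ^ 5 := by positivity
      have h7 : (c'' * c' * u ^ 5) * (u ^ 5 * (P : ℝ) ^ n) ≤ (1 + 4 * C) * (u ^ 5 * (P : ℝ) ^ n) := by
        calc (c'' * c' * u ^ 5) * (u ^ 5 * (P : ℝ) ^ n) = c'' * (c' * (P : ℝ) ^ n) * u ^ 10 := by ring
          _ ≤ (1 + 4 * C) * u ^ 5 * (P : ℝ) ^ n := by rw [hu10]; exact h5
          _ = _ := by ring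
      exact le_of_mul_le_mul_right h7 (by positivity)
    have h8 : (1 + 4 * C) / (c'' * c') < u ^ 5 := by
      calc (1 + 4 * C) / (c'' * c') < u := by linarith
        _ = u ^ 1 := (pow_one u).symm
        _ ≤ u ^ 5 := pow_le_pow_right₀ hu0 (by norm_num)
    rw [div_lt_iff₀ (by positivity)] at h8
    linarith
  obtain ⟨x, hx⟩ := Finset.card_pos.1 hZpos
  rw [Finset.mem_filter] at hx
  refine ⟨P, hPone, x, hx.2, fun i => ?_⟩
  have hxi := Fintype.mem_piFinset.1 hx.1 i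
  rw [Finset.mem_Ioc, Int.floor_lt, Int.le_floor] at hxi
  obtain ⟨hx1, hx2⟩ := hxi
  rw [abs_le]
  have h9 : ρ * (P : ℝ) ≤ ε * P := mul_le_mul_of_nonneg_right hρε hP0.le
  constructor
  · nlinarith
  · nlinarith

end Pool.Agent.Lib.MP_c0a553_nt
end

section

/-! # One diagonal variable (job HP-15) -/

namespace Pool.Agent.Lib.MP_c0a553_nt

open Finset

/-- the two coordinates `u^k`, `u^(2k)` -/
private def tbf (k : ℕ) (a b : ℤ) (u : {x : ℤ // x ∈ Finset.Ioc a b}) (i : Fin 2) : ℤ :=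
  if i = 0 then (u : ℤ) ^ k else (u : ℤ) ^ (2 * k)

private lemma tb_JJ_le (k t : ℕ) (a b : ℤ) :
    JJ (tbf k a b) t ≤ JE {k, 2 * k} t (Finset.Ioc a b) := by
  unfold JE
  rw [JJ, ← Fintype.card_coe, ← Nat.card_eq_fintype_card]
  refine Nat.card_le_card_of_injective
    (fun p => ⟨((fun j => (p.1.1 j : ℤ)), (fun j => (p.1.2 j : ℤ))), ?_⟩) ?_
  · rw [Finset.mem_filter, Finset.mem_product, Fintype.mem_piFinset, Fintype.mem_piFinset]
    refine ⟨⟨fun j => (p.1.1 j).2, fun j => (p.1.2 j).2⟩, fun j hj => ?_⟩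
    rw [Finset.mem_insert, Finset.mem_singleton] at hj
    rcases hj with rfl | rfl
    · have h2 := p.2 0
      simpa [tbf] using h2
    · have h2 := p.2 1
      simpa [tbf] using h2
  · intro p q hpq
    have h3 := congrArg Subtype.val hpq
    have h4 := congrArg Prod.fst h3
    have h5 := congrArg Prod.snd h3
    apply Subtype.ext
    refine Prod.ext ?_ ?_
    · funext j
      exact Subtype.ext (congrFun h4 j)
    · funext j
      exact Subtype.ext (congrFun h5 j)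

private lemma tb_card (A P : ℕ) (a b : ℤ) (ha : |a| ≤ A * P) (hb : |b| ≤ A * P) :
    (Fintype.card {x : ℤ // x ∈ Finset.Ioc a b} : ℝ) ≤ 2 * A * P := by
  rw [Fintype.card_coe, Int.card_Ioc]
  have h1 := abs_le.1 ha
  have h2 := abs_le.1 hb
  have h3 : ((b - a).toNat : ℤ) ≤ 2 * A * P := by
    rw [Int.ofNat_toNat]
    refine max_le ?_ (by positivity)
    linarith [h1.1, h2.2]
  exact_mod_cast h3

private lemma tb_abs (k A P : ℕ) (a b : ℤ) (ha : |a| ≤ A * P) (hb : |b| ≤ A * P)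
    (u : {x : ℤ // x ∈ Finset.Ioc a b}) (i : Fin 2) :
    |tbf k a b u i| ≤ ((if i = 0 then (A * P) ^ k else (A * P) ^ (2 * k) : ℕ) : ℤ) := by
  have h1 := abs_le.1 ha
  have h2 := abs_le.1 hb
  have h3 := Finset.mem_Ioc.1 u.2
  have h4 : |(u : ℤ)| ≤ A * P := abs_le.2 ⟨by linarith [h1.1, h3.1], by linarith [h2.2, h3.2]⟩
  rw [tbf]
  split_ifs
  · rw [abs_pow]
    push_cast
    exact pow_le_pow_left₀ (abs_nonneg _) h4 _
  · rw [abs_pow]
    push_cast
    exact pow_le_pow_left₀ (abs_nonneg _) h4 _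

private lemma tb_geo (N Y : ℕ) (θ : ℝ) :
    ∑ ν ∈ Finset.Icc (-(N : ℤ)) N, geo Y (θ * ν) ≤ (2 * N + 1) * (2 * Y + 1) := by
  refine (Finset.sum_le_card_nsmul _ _ (2 * (Y : ℝ) + 1) fun ν _ => geo_le_trivial _ _).trans ?_
  rw [Int.card_Icc, nsmul_eq_mul]
  have h1 : (((N : ℤ) + 1 - -(N : ℤ)).toNat : ℝ) = 2 * N + 1 := by
    have h2 : ((N : ℤ) + 1 - -(N : ℤ)) = ((2 * N + 1 : ℕ) : ℤ) := by push_cast; ring
    rw [h2, Int.toNat_natCast]
    push_cast
    ring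
  rw [h1]

/-- One diagonal variable `y = u v`. -/
theorem T_bound (k A : ℕ) (hk : 1 ≤ k) (hA : 1 ≤ A) (c Δ : ℤ) (hc : c ≠ 0) (hΔ : Δ ≠ 0) :
    ∃ C : ℝ, 0 < C ∧ ∃ P₀ : ℕ, ∀ P : ℕ, P₀ ≤ P → ∀ α : ℝ, ¬ Major (4 * k) P α →
      ∀ θ : ℝ, ∀ a b a' b' : ℤ, |a| ≤ A * P → |b| ≤ A * P → |a'| ≤ A * P → |b'| ≤ A * P →
        ‖∑ u ∈ Finset.Ioc a b, ∑ v ∈ Finset.Ioc a' b',
          e (α * c / Δ * ((u * v : ℤ) : ℝ) ^ (2 * k) + θ * ((u * v : ℤ) : ℝ) ^ k)‖
          ≤ C * (P : ℝ) ^ (2 - 1 / (200 * (tt k : ℝ) ^ 2)) := by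
  classical
  have hne : k ≠ 2 * k := by omega
  have hE : ({k, 2 * k} : Finset ℕ) ⊆ Finset.Icc 1 (2 * k) := by
    intro j hj
    rw [Finset.mem_insert, Finset.mem_singleton] at hj
    rw [Finset.mem_Icc]
    omega
  obtain ⟨C₁, hC₁, hen⟩ := energy k A hk hA {k, 2 * k} hE
  set t := tt k with ht
  have ht1 : 1 ≤ t := by
    rw [ht, tt]
    have : 0 < (2 * k) ^ 3 := by positivity
    omega
  obtain ⟨C₃, hC₃, P₁, hgm⟩ := geo_minor (2 * t * A ^ (2 * k)) (2 * k)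
    (Nat.one_le_iff_ne_zero.2 (by positivity)) (by omega) c Δ hc hΔ
  set D : ℝ := (2 * A * (2 * A)) ^ (2 * t * (2 * t - 1)) * C₁ * C₁ *
    ((4 * t * A ^ k + 1) * (4 * t * A ^ k + 1)) * C₃ with hD
  have hDpos : 0 < D := by positivity
  refine ⟨max 1 D, lt_of_lt_of_le one_pos (le_max_left _ _), max 1 P₁, ?_⟩
  intro P hP α hα θ a b a' b' ha hb ha' hb'
  have hP1 : 1 ≤ P := (le_max_left _ _).trans hP
  have hPP : P₁ ≤ P := (le_max_right _ _).trans hP
  have hPr : (1 : ℝ) ≤ P := by exact_mod_cast hP1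
  have hP0 : (0 : ℝ) < P := by linarith
  -- rewriting the sum
  let U := {x : ℤ // x ∈ Finset.Ioc a b}
  let W := {x : ℤ // x ∈ Finset.Ioc a' b'}
  let θ' : Fin 2 → ℝ := fun i => if i = 0 then θ else α * c / Δ
  let X : Fin 2 → ℕ := fun i => if i = 0 then (A * P) ^ k else (A * P) ^ (2 * k)
  have hsum : ∑ u ∈ Finset.Ioc a b, ∑ v ∈ Finset.Ioc a' b',
      e (α * c / Δ * ((u * v : ℤ) : ℝ) ^ (2 * k) + θ * ((u * v : ℤ) : ℝ) ^ k)
      = ∑ u : U, ∑ v : W, (1 : ℂ) * 1 *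
        e (∑ i, θ' i * tbf k a b u i * tbf k a' b' v i) := by
    rw [← Finset.sum_coe_sort]
    refine Finset.sum_congr rfl fun u _ => ?_
    rw [← Finset.sum_coe_sort]
    refine Finset.sum_congr rfl fun v _ => ?_
    rw [one_mul, one_mul, Fin.sum_univ_two]
    congr 1
    simp only [θ', tbf, if_true, one_ne_zero, if_false]
    push_cast
    ring
  have hH := double_holder (U := U) (W := W) (ι := Fin 2) (tbf k a b) (tbf k a' b') θ'
    (fun _ => 1) (fun _ => 1) (fun _ => by simp) (fun _ => by simp) t ht1 X X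
    (fun u i => tb_abs k A P a b ha hb u i) (fun v i => tb_abs k A P a' b' ha' hb' v i)
  rw [← hsum] at hH
  set N := ‖∑ u ∈ Finset.Ioc a b, ∑ v ∈ Finset.Ioc a' b',
      e (α * c / Δ * ((u * v : ℤ) : ℝ) ^ (2 * k) + θ * ((u * v : ℤ) : ℝ) ^ k)‖ with hN
  have hN0 : 0 ≤ N := norm_nonneg _
  -- the factors
  have hU : (Fintype.card U : ℝ) ≤ 2 * A * P := tb_card A P a b ha hb
  have hW : (Fintype.card W : ℝ) ≤ 2 * A * P := tb_card A P a' b' ha' hb'
  have hexp : ∀ x y : ℤ, |x| ≤ A * P → |y| ≤ A * P → (JJ (tbf k x y) t : ℝ) ≤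
      C₁ * (P : ℝ) ^ (2 * (t : ℝ) - 3 * k + 1 / 100) := by
    intro x y hx hy
    have h1 : (JJ (tbf k x y) t : ℝ) ≤ (JE {k, 2 * k} t (Finset.Ioc x y) : ℝ) := by
      exact_mod_cast tb_JJ_le k t x y
    refine (h1.trans (hen P hP1 x y hx hy)).trans (le_of_eq ?_)
    rw [Finset.sum_pair hne]
    congr 2
    push_cast
    ring
  have hg0 : ∑ ν ∈ Finset.Icc (-((2 * t * X 0 : ℕ) : ℤ)) ((2 * t * X 0 : ℕ) : ℤ),
      geo (2 * t * X 0) (θ' 0 * ν) ≤
      ((4 * t * A ^ k + 1) * (4 * t * A ^ k + 1)) * (P : ℝ) ^ (2 * (k : ℝ)) := by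
    refine (tb_geo _ _ _).trans ?_
    have h1 : (P : ℝ) ^ (2 * (k : ℝ)) = (P : ℝ) ^ k * (P : ℝ) ^ k := by
      rw [← pow_add, ← Real.rpow_natCast]
      congr 1
      push_cast
      ring
    have h2 : (1 : ℝ) ≤ (P : ℝ) ^ k := one_le_pow₀ hPr
    have h3 : (2 * ((2 * t * X 0 : ℕ) : ℝ) + 1) ≤ (4 * t * A ^ k + 1) * (P : ℝ) ^ k := by
      simp only [X, if_true]
      push_cast
      rw [mul_pow]
      nlinarith [h2]
    rw [h1]
    calc (2 * ((2 * t * X 0 : ℕ) : ℝ) + 1) * (2 * ((2 * t * X 0 : ℕ) : ℝ) + 1)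
        ≤ ((4 * t * A ^ k + 1) * (P : ℝ) ^ k) * ((4 * t * A ^ k + 1) * (P : ℝ) ^ k) :=
          mul_le_mul h3 h3 (by positivity) (by positivity)
      _ = _ := by ring
  have hg1 : ∑ ν ∈ Finset.Icc (-((2 * t * X 1 : ℕ) : ℤ)) ((2 * t * X 1 : ℕ) : ℤ),
      geo (2 * t * X 1) (θ' 1 * ν) ≤ C₃ * (P : ℝ) ^ (4 * (k : ℝ) - 1 / 25) := by
    have h1 : 2 * t * X 1 ≤ 2 * t * A ^ (2 * k) * P ^ (2 * k) := by
      simp only [X, one_ne_zero, if_false]
      rw [mul_pow, mul_assoc (2 * t)]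
    have hα' : ¬ Major (2 * (2 * k)) P α := by
      rw [show 2 * (2 * k) = 4 * k by ring]
      exact hα
    have h2 := hgm P hPP α hα' (2 * t * X 1) (2 * t * X 1) h1 h1
    simp only [θ', one_ne_zero, if_false]
    refine h2.trans (le_of_eq ?_)
    congr 2
    push_cast
    ring
  rw [Fin.prod_univ_two] at hH
  set G0 := ∑ ν ∈ Finset.Icc (-((2 * t * X 0 : ℕ) : ℤ)) ((2 * t * X 0 : ℕ) : ℤ),
      geo (2 * t * X 0) (θ' 0 * ν) with hG0
  set G1 := ∑ ν ∈ Finset.Icc (-((2 * t * X 1 : ℕ) : ℤ)) ((2 * t * X 1 : ℕ) : ℤ),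
      geo (2 * t * X 1) (θ' 1 * ν) with hG1
  have hG0' : 0 ≤ G0 := Finset.sum_nonneg fun _ _ => geo_nonneg _ _
  have hG1' : 0 ≤ G1 := Finset.sum_nonneg fun _ _ => geo_nonneg _ _
  have hJ1 := hexp a b ha hb
  have hJ2 := hexp a' b' ha' hb'
  have hUW : ((Fintype.card U : ℝ) * Fintype.card W) ^ (2 * t * (2 * t - 1)) ≤
      (2 * A * (2 * A)) ^ (2 * t * (2 * t - 1)) *
        (P : ℝ) ^ (2 * (2 * (t : ℝ) * (2 * t - 1))) := by
    have h1 : (P : ℝ) ^ (2 * (2 * (t : ℝ) * (2 * t - 1))) =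
        ((P : ℝ) * P) ^ (2 * t * (2 * t - 1)) := by
      rw [← pow_two, ← pow_mul, ← Real.rpow_natCast]
      congr 1
      have h2 : ((2 * t - 1 : ℕ) : ℝ) = 2 * (t : ℝ) - 1 := by
        rw [Nat.cast_sub (by omega)]
        push_cast
        ring
      push_cast [h2]
      ring
    rw [h1, ← mul_pow]
    refine pow_le_pow_left₀ (by positivity) ?_ _
    calc (Fintype.card U : ℝ) * Fintype.card W ≤ (2 * A * P) * (2 * A * P) :=
          mul_le_mul hU hW (by positivity) (by positivity)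
      _ = _ := by ring
  have hmain : N ^ (4 * t ^ 2) ≤ D * (P : ℝ) ^ (8 * (t : ℝ) ^ 2 - 1 / 50) := by
    refine hH.trans ?_
    have hprod : (P : ℝ) ^ (8 * (t : ℝ) ^ 2 - 1 / 50) =
        (P : ℝ) ^ (2 * (2 * (t : ℝ) * (2 * t - 1))) *
        (P : ℝ) ^ (2 * (t : ℝ) - 3 * k + 1 / 100) * (P : ℝ) ^ (2 * (t : ℝ) - 3 * k + 1 / 100) *
        ((P : ℝ) ^ (2 * (k : ℝ)) * (P : ℝ) ^ (4 * (k : ℝ) - 1 / 25)) := by
      rw [← Real.rpow_add hP0, ← Real.rpow_add hP0, ← Real.rpow_add hP0, ← Real.rpow_add hP0]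
      congr 1
      ring
    rw [hprod, hD]
    calc ((Fintype.card U : ℝ) * Fintype.card W) ^ (2 * t * (2 * t - 1))
        * (JJ (tbf k a b) t : ℝ) * (JJ (tbf k a' b') t : ℝ) * (G0 * G1)
        ≤ ((2 * A * (2 * A)) ^ (2 * t * (2 * t - 1)) *
            (P : ℝ) ^ (2 * (2 * (t : ℝ) * (2 * t - 1)))) *
          (C₁ * (P : ℝ) ^ (2 * (t : ℝ) - 3 * k + 1 / 100)) *
          (C₁ * (P : ℝ) ^ (2 * (t : ℝ) - 3 * k + 1 / 100)) *
          ((((4 * t * A ^ k + 1) * (4 * t * A ^ k + 1)) * (P : ℝ) ^ (2 * (k : ℝ))) *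
            (C₃ * (P : ℝ) ^ (4 * (k : ℝ) - 1 / 25))) := by
          gcongr
      _ = _ := by ring
  -- extracting the root
  have hroot : N ^ (4 * t ^ 2) ≤
      (max 1 D * (P : ℝ) ^ (2 - 1 / (200 * (t : ℝ) ^ 2))) ^ (4 * t ^ 2) := by
    refine hmain.trans ?_
    have htr : (0 : ℝ) < t := by exact_mod_cast ht1
    have h1 : ((P : ℝ) ^ (2 - 1 / (200 * (t : ℝ) ^ 2))) ^ (4 * t ^ 2) =
        (P : ℝ) ^ (8 * (t : ℝ) ^ 2 - 1 / 50) := by
      rw [← Real.rpow_natCast, ← Real.rpow_mul hP0.le]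
      congr 1
      push_cast
      field_simp
      ring
    rw [mul_pow, h1]
    refine mul_le_mul_of_nonneg_right ?_ (by positivity)
    have h2 : (1 : ℝ) ≤ max 1 D := le_max_left _ _
    exact (le_max_right 1 D).trans (le_self_pow₀ h2 (by positivity))
  exact le_of_pow_le_pow_left₀ (by positivity) (by positivity) hroot

end Pool.Agent.Lib.MP_c0a553_nt
end

section

/-! # Weyl bound when an off-diagonal block is large (job HP-14) -/

namespace Pool.Agent.Lib.MP_c0a553_nt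

open Finset

private theorem weylA_sum {ι a b c : Type} [Fintype ι] [DecidableEq ι] [Fintype a] [DecidableEq a]
    [Fintype b] [DecidableEq b] [Fintype c] [DecidableEq c] (E : (a ⊕ b) ⊕ c ≃ ι)
    (I : ι → Finset ℤ) (f : (ι → ℤ) → ℂ) :
    ∑ x ∈ Fintype.piFinset I, f x =
      ∑ z ∈ Fintype.piFinset fun i : c => I (E (Sum.inr i)),
        ∑ u ∈ Fintype.piFinset fun i : a => I (E (Sum.inl (Sum.inl i))),
          ∑ w ∈ Fintype.piFinset fun i : b => I (E (Sum.inl (Sum.inr i))),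
            f (fun i => Sum.elim (Sum.elim u w) z (E.symm i)) := by
  rw [← Finset.sum_product']
  rw [← Finset.sum_product']
  refine Finset.sum_nbij'
    (fun x => (((fun i => x (E (Sum.inr i))), (fun i => x (E (Sum.inl (Sum.inl i))))),
      (fun i => x (E (Sum.inl (Sum.inr i))))))
    (fun p i => Sum.elim (Sum.elim p.1.2 p.2) p.1.1 (E.symm i)) ?_ ?_ ?_ ?_ ?_
  · intro x hx
    rw [Fintype.mem_piFinset] at hx
    simp only [Finset.mem_product, Fintype.mem_piFinset]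
    exact ⟨⟨fun i => hx _, fun i => hx _⟩, fun i => hx _⟩
  · rintro ⟨⟨z, u⟩, w⟩ hp
    simp only [Finset.mem_product, Fintype.mem_piFinset] at hp ⊢
    obtain ⟨⟨hz, hu⟩, hw⟩ := hp
    intro i
    obtain ⟨j, rfl⟩ := E.surjective i
    rw [Equiv.symm_apply_apply]
    rcases j with (j | j) | j
    · exact hu j
    · exact hw j
    · exact hz j
  · intro x hx
    funext i
    obtain ⟨j, rfl⟩ := E.surjective i
    simp only [Equiv.symm_apply_apply]
    rcases j with (j | j) | j <;> rfl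
  · rintro ⟨⟨z, u⟩, w⟩ hp
    simp
  · intro x hx
    congr 1
    funext i
    obtain ⟨j, rfl⟩ := E.surjective i
    simp only [Equiv.symm_apply_apply]
    rcases j with (j | j) | j <;> rfl

private theorem weylA_fn {s : ℕ} (k : ℕ) (M : Matrix (Fin s) (Fin s) ℤ) (x : Fin s → ℤ) :
    fn (FF k M) x = ∑ i, ∑ j, M i j * x i ^ k * x j ^ k := by
  simp [fn, FF]

private theorem weylA_form {s r : ℕ} (k : ℕ) {c : Type} [Fintype c]
    (E : (Fin r ⊕ Fin r) ⊕ c ≃ Fin s) (M : Matrix (Fin s) (Fin s) ℤ) (hM : M.IsSymm)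
    (u w : Fin r → ℤ) (z : c → ℤ) :
    fn (FF k M) (fun i => Sum.elim (Sum.elim u w) z (E.symm i)) =
      ((∑ i, ∑ j, M (E (Sum.inl (Sum.inl i))) (E (Sum.inl (Sum.inl j))) * u i ^ k * u j ^ k) +
        2 * (∑ i, ∑ j, M (E (Sum.inl (Sum.inl i))) (E (Sum.inr j)) * u i ^ k * z j ^ k) +
        (∑ i, ∑ j, M (E (Sum.inr i)) (E (Sum.inr j)) * z i ^ k * z j ^ k)) +
      ((∑ i, ∑ j, M (E (Sum.inl (Sum.inr i))) (E (Sum.inl (Sum.inr j))) * w i ^ k * w j ^ k) +
        2 * (∑ i, ∑ j, M (E (Sum.inl (Sum.inr i))) (E (Sum.inr j)) * w i ^ k * z j ^ k)) +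
      2 * ∑ i, ∑ j, M (E (Sum.inl (Sum.inl i))) (E (Sum.inl (Sum.inr j))) * u i ^ k * w j ^ k := by
  rw [weylA_fn]
  have h1 : ∀ g : Fin s → ℤ, ∑ i, g i = ∑ j, g (E j) := fun g => (E.sum_comp g).symm
  rw [h1]
  simp only [h1]
  simp only [Equiv.symm_apply_apply, Fintype.sum_sum_type, Sum.elim_inl, Sum.elim_inr,
    Finset.sum_add_distrib]
  have sw : ∀ {p q : Type} [Fintype p] [Fintype q] (P : p → Fin s) (Q : q → Fin s)
      (X : p → ℤ) (Y : q → ℤ),
      ∑ i, ∑ j, M (Q i) (P j) * Y i ^ k * X j ^ k = ∑ i, ∑ j, M (P i) (Q j) * X i ^ k * Y j ^ k := by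
    intro p q _ _ P Q X Y
    rw [Finset.sum_comm]
    refine Finset.sum_congr rfl fun i _ => Finset.sum_congr rfl fun j _ => ?_
    rw [← hM.apply (P i) (Q j)]
    ring
  rw [sw (fun i => E (Sum.inl (Sum.inl i))) (fun i => E (Sum.inl (Sum.inr i))) u w,
    sw (fun i => E (Sum.inl (Sum.inl i))) (fun i => E (Sum.inr i)) u z,
    sw (fun i => E (Sum.inl (Sum.inr i))) (fun i => E (Sum.inr i)) w z]
  ring

private theorem weylA_aux {s r : ℕ} (k : ℕ) (hk : 1 ≤ k)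
    (hr : (r : ℝ) / (200 * (tt k : ℝ) ^ 2) = 2 * (k + 1))
    (M : Matrix (Fin s) (Fin s) ℤ) (hM : M.IsSymm)
    (U W : Fin r → Fin s) (hU : Function.Injective U) (hW : Function.Injective W)
    (hUW : ∀ a b, U a ≠ W b) (hdet : (M.submatrix U W).det ≠ 0) :
    WeylBound (fn (FF k M)) (2 * k) := by
  classical
  -- the splitting of the coordinates
  let c : Type := {i : Fin s // (∀ a, U a ≠ i) ∧ ∀ a, W a ≠ i}
  have hbij : Function.Bijective (Sum.elim (Sum.elim U W) (Subtype.val : c → Fin s)) := by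
    constructor
    · rintro ((i | i) | i) ((j | j) | j) hij
      · exact congrArg _ (congrArg _ (hU hij))
      · exact absurd hij (hUW i j)
      · exact absurd hij (j.2.1 i)
      · exact absurd hij.symm (hUW j i)
      · exact congrArg _ (congrArg _ (hW hij))
      · exact absurd hij (j.2.2 i)
      · exact absurd hij.symm (i.2.1 j)
      · exact absurd hij.symm (i.2.2 j)
      · exact congrArg _ (Subtype.ext hij)
    · intro i
      by_cases h1 : ∃ a, U a = i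
      · obtain ⟨a, ha⟩ := h1
        exact ⟨Sum.inl (Sum.inl a), ha⟩
      by_cases h2 : ∃ a, W a = i
      · obtain ⟨a, ha⟩ := h2
        exact ⟨Sum.inl (Sum.inr a), ha⟩
      push Not at h1 h2
      exact ⟨Sum.inr ⟨i, h1, h2⟩, rfl⟩
  let E : (Fin r ⊕ Fin r) ⊕ c ≃ Fin s := Equiv.ofBijective _ hbij
  have hEU : ∀ i, E (Sum.inl (Sum.inl i)) = U i := fun i => rfl
  have hEW : ∀ i, E (Sum.inl (Sum.inr i)) = W i := fun i => rfl
  have hcard : r + r + Fintype.card c = s := by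
    have := Fintype.card_congr E
    simpa using this
  intro lo hi hlohi
  -- the constant `A`
  obtain ⟨A, hA⟩ := exists_nat_ge (∑ i, (|lo i| + |hi i|) + 1)
  have hsum0 : ∀ i, |lo i| + |hi i| ≤ ∑ i, (|lo i| + |hi i|) := fun i =>
    Finset.single_le_sum (f := fun i => |lo i| + |hi i|) (fun i _ => by positivity)
      (Finset.mem_univ i)
  have hA1 : 1 ≤ A := by
    have : (0 : ℝ) ≤ ∑ i, (|lo i| + |hi i|) := Finset.sum_nonneg fun i _ => by positivity
    have : (1 : ℝ) ≤ A := by linarith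
    exact_mod_cast this
  have hfl : ∀ (P : ℕ), 1 ≤ P → ∀ y : ℝ, |y| + 1 ≤ A → |⌊(P : ℝ) * y⌋| ≤ (A : ℤ) * P := by
    intro P hP y hy
    have hP1 : (1 : ℝ) ≤ P := by exact_mod_cast hP
    have h1 := Int.floor_le ((P : ℝ) * y)
    have h2 := Int.lt_floor_add_one ((P : ℝ) * y)
    have h3 : |(P : ℝ) * y| ≤ P * |y| := by rw [abs_mul, abs_of_nonneg (by linarith)]
    have h4 := abs_le.1 h3
    have h5 : (P : ℝ) * |y| + 1 ≤ A * P := by nlinarith
    have h6 : |((⌊(P : ℝ) * y⌋ : ℤ) : ℝ)| ≤ A * P := by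
      rw [abs_le]; constructor <;> linarith [h4.1, h4.2]
    exact_mod_cast h6
  obtain ⟨C, hC, P₁, hblock⟩ := block_bound k A hk hA1 r (M.submatrix U W) hdet
  obtain ⟨Q, hQ⟩ := exists_nat_ge ((2 * (A : ℝ)) ^ Fintype.card c * C)
  refine ⟨max (max P₁ Q) 1, fun P hP α hα => ?_⟩
  have hPP₁ : P₁ ≤ P := le_trans (le_trans (le_max_left _ _) (le_max_left _ _)) hP
  have hPQ : Q ≤ P := le_trans (le_trans (le_max_right _ _) (le_max_left _ _)) hP
  have hP1 : 1 ≤ P := le_trans (le_max_right _ _) hP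
  have hP1' : (1 : ℝ) ≤ P := by exact_mod_cast hP1
  have hP0 : (0 : ℝ) < P := by linarith
  have hlo : ∀ i, |⌊(P : ℝ) * lo i⌋| ≤ (A : ℤ) * P := fun i => hfl P hP1 _ (by
    have := hsum0 i
    have := abs_nonneg (hi i)
    linarith)
  have hhi : ∀ i, |⌊(P : ℝ) * hi i⌋| ≤ (A : ℤ) * P := fun i => hfl P hP1 _ (by
    have := hsum0 i
    have := abs_nonneg (lo i)
    linarith)
  -- the inner bilinear sums
  have hinner : ∀ z : c → ℤ,
      ‖∑ u ∈ Fintype.piFinset fun i => Finset.Ioc ⌊(P : ℝ) * lo (U i)⌋ ⌊(P : ℝ) * hi (U i)⌋,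
        ∑ w ∈ Fintype.piFinset fun i => Finset.Ioc ⌊(P : ℝ) * lo (W i)⌋ ⌊(P : ℝ) * hi (W i)⌋,
          e (α * (fn (FF k M) (fun i => Sum.elim (Sum.elim u w) z (E.symm i)) : ℤ))‖
        ≤ C * (P : ℝ) ^ (2 * (r : ℝ) - r / (200 * (tt k : ℝ) ^ 2)) := by
    intro z
    have := hblock P hPP₁ α hα (fun i => ⌊(P : ℝ) * lo (U i)⌋) (fun i => ⌊(P : ℝ) * hi (U i)⌋)
      (fun i => ⌊(P : ℝ) * lo (W i)⌋) (fun i => ⌊(P : ℝ) * hi (W i)⌋)
      (fun i => hlo _) (fun i => hhi _) (fun i => hlo _) (fun i => hhi _)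
      (fun u => e (α * (((∑ i, ∑ j, M (U i) (U j) * u i ^ k * u j ^ k) +
        2 * (∑ i, ∑ j, M (U i) (E (Sum.inr j)) * u i ^ k * z j ^ k) +
        (∑ i, ∑ j, M (E (Sum.inr i)) (E (Sum.inr j)) * z i ^ k * z j ^ k) : ℤ) : ℝ)))
      (fun w => e (α * (((∑ i, ∑ j, M (W i) (W j) * w i ^ k * w j ^ k) +
        2 * (∑ i, ∑ j, M (W i) (E (Sum.inr j)) * w i ^ k * z j ^ k) : ℤ) : ℝ)))
      (fun u => (norm_e _).le) (fun w => (norm_e _).le)
    refine (le_of_eq ?_).trans this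
    congr 1
    refine Finset.sum_congr rfl fun u _ => Finset.sum_congr rfl fun w _ => ?_
    rw [weylA_form k E M hM u w z, ← e_add, ← e_add]
    congr 1
    simp only [hEU, hEW, Matrix.submatrix_apply]
    push_cast
    ring
  -- the number of `z`
  have hnum : ((Fintype.piFinset fun i : c => Finset.Ioc ⌊(P : ℝ) * lo (E (Sum.inr i))⌋
      ⌊(P : ℝ) * hi (E (Sum.inr i))⌋).card : ℝ) ≤ (2 * A * P : ℝ) ^ Fintype.card c := by
    rw [Fintype.card_piFinset]
    push_cast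
    have : ∏ _i : c, (2 * A * P : ℝ) = (2 * A * P : ℝ) ^ Fintype.card c := by
      rw [Finset.prod_const, Finset.card_univ]
    rw [← this]
    refine Finset.prod_le_prod (fun i _ => by positivity) fun i _ => ?_
    rw [Int.card_Ioc]
    have h1 := abs_le.1 (hlo (E (Sum.inr i)))
    have h2 := abs_le.1 (hhi (E (Sum.inr i)))
    have h3 : (((⌊(P : ℝ) * hi (E (Sum.inr i))⌋ - ⌊(P : ℝ) * lo (E (Sum.inr i))⌋).toNat : ℕ) : ℤ) ≤
        2 * A * P := by
      have h0 : (0 : ℤ) ≤ (A : ℤ) * P := by positivity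
      have h4 : (2 : ℤ) * A * P = 2 * ((A : ℤ) * P) := by ring
      rw [h4]
      omega
    exact_mod_cast h3
  have hmain : ‖S (fn (FF k M)) P lo hi α‖ ≤ (2 * A * P : ℝ) ^ Fintype.card c *
      (C * (P : ℝ) ^ (2 * (r : ℝ) - r / (200 * (tt k : ℝ) ^ 2))) := by
    unfold S box
    rw [weylA_sum E]
    refine (norm_sum_le _ _).trans ?_
    refine (Finset.sum_le_sum fun z _ => hinner z).trans ?_
    rw [Finset.sum_const, nsmul_eq_mul]
    exact mul_le_mul_of_nonneg_right hnum (by positivity)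
  rw [hr] at hmain
  rw [Fintype.card_fin]
  have hs : (s : ℝ) = 2 * r + Fintype.card c := by
    have := congrArg (Nat.cast : ℕ → ℝ) hcard
    push_cast at this
    linarith
  calc ‖S (fn (FF k M)) P lo hi α‖ * (P : ℝ) ^ (2 * k + 1)
      ≤ ((2 * A * P : ℝ) ^ Fintype.card c * (C * (P : ℝ) ^ (2 * (r : ℝ) - 2 * (k + 1)))) *
        (P : ℝ) ^ (2 * k + 1) := by gcongr
    _ = ((2 * (A : ℝ)) ^ Fintype.card c * C) * ((P : ℝ) ^ ((Fintype.card c : ℕ) : ℝ) *
        (P : ℝ) ^ (2 * (r : ℝ) - 2 * (k + 1)) * (P : ℝ) ^ ((2 * k + 1 : ℕ) : ℝ)) := by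
        rw [Real.rpow_natCast, Real.rpow_natCast, mul_pow]; ring
    _ = ((2 * (A : ℝ)) ^ Fintype.card c * C) * (P : ℝ) ^ ((s : ℝ) - 1) := by
        rw [← Real.rpow_add hP0, ← Real.rpow_add hP0]
        congr 2
        rw [hs]; push_cast; ring
    _ ≤ (P : ℝ) * (P : ℝ) ^ ((s : ℝ) - 1) := by
        have : (Q : ℝ) ≤ P := by exact_mod_cast hPQ
        gcongr
        linarith
    _ = (P : ℝ) ^ s := by
        nth_rewrite 1 [← Real.rpow_one (P : ℝ)]
        rw [← Real.rpow_add hP0, ← Real.rpow_natCast]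
        congr 1
        ring

theorem weylA {s : ℕ} (k : ℕ) (hk : 1 ≤ k) (M : Matrix (Fin s) (Fin s) ℤ) (hM : M.IsSymm)
    (U W : Fin (rr k) → Fin s) (hU : Function.Injective U) (hW : Function.Injective W)
    (hUW : ∀ a b, U a ≠ W b) (hdet : (M.submatrix U W).det ≠ 0) :
    WeylBound (fn (FF k M)) (2 * k) := by
  refine weylA_aux k hk ?_ M hM U W hU hW hUW hdet
  have ht : (tt k : ℝ) ≠ 0 := by
    unfold tt
    have : (k : ℝ) ≠ 0 := by
      have : k ≠ 0 := by omega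
      exact_mod_cast this
    push_cast
    positivity
  unfold rr
  push_cast
  field_simp
  ring

end Pool.Agent.Lib.MP_c0a553_nt
end

section

/-! # Weyl bound for diagonal plus low rank (job HP-16) -/

namespace Pool.Agent.Lib.MP_c0a553_nt

open Finset

/-- Detecting the values of finitely many linear forms by additive characters. -/
private theorem wb_detect {J κ : Type} [Fintype J] [DecidableEq J] {m : ℕ} (B : J → Finset κ)
    (lam : Fin m → J → κ → ℤ) (g : J → κ → ℝ) (Φ : (Fin m → ℤ) → ℝ) (L : ℕ)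
    (hL : ∀ z ∈ Fintype.piFinset B, ∀ a, |∑ i, lam a i (z i)| ≤ (L : ℤ)) (T : J → ℝ)
    (hT : ∀ (θ : Fin m → ℝ) (i : J),
      ‖∑ x ∈ B i, e (g i x + ∑ a, θ a * (lam a i x : ℝ))‖ ≤ T i) :
    ‖∑ z ∈ Fintype.piFinset B, e (∑ i, g i (z i) + Φ (fun a => ∑ i, lam a i (z i)))‖ ≤
      (2 * L + 1 : ℝ) ^ m * ∏ i, T i := by
  classical
  set N0 : ℕ := 2 * L + 1 with hN0
  have hN1 : 1 ≤ N0 := by omega
  have hN0' : (N0 : ℂ) ≠ 0 := by
    have : N0 ≠ 0 := by omega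
    exact_mod_cast this
  set Λ : Finset (Fin m → ℤ) := Fintype.piFinset (fun _ : Fin m => Finset.Icc (-(L : ℤ)) L) with hΛ
  set R : Finset (Fin m → ℕ) := Fintype.piFinset (fun _ : Fin m => Finset.range N0) with hR
  set lz : (J → κ) → Fin m → ℤ := fun z a => ∑ i, lam a i (z i) with hlz
  have hmemΛ : ∀ l ∈ Λ, ∀ a, |l a| ≤ (L : ℤ) := by
    intro l hl a
    have := (Fintype.mem_piFinset.1 hl) a
    rw [Finset.mem_Icc] at this
    exact abs_le.2 this
  have h1 : ∀ z ∈ Fintype.piFinset B, e (∑ i, g i (z i) + Φ (lz z)) =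
      ∑ l ∈ Λ, ∑ β ∈ R, ((N0 : ℂ) ^ m)⁻¹ *
        (e (∑ a, (β a : ℝ) * ((lz z a - l a : ℤ) : ℝ) / N0) * e (∑ i, g i (z i) + Φ l)) := by
    intro z hz
    have hmem : lz z ∈ Λ := by
      rw [hΛ, Fintype.mem_piFinset]
      intro a
      rw [Finset.mem_Icc]
      exact abs_le.1 (hL z hz a)
    have h2 : ∀ l ∈ Λ, ∑ β ∈ R, ((N0 : ℂ) ^ m)⁻¹ *
        (e (∑ a, (β a : ℝ) * ((lz z a - l a : ℤ) : ℝ) / N0) * e (∑ i, g i (z i) + Φ l)) =
        if l = lz z then e (∑ i, g i (z i) + Φ l) else 0 := by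
      intro l hl
      rw [← Finset.mul_sum, ← Finset.sum_mul]
      have h3 := orth N0 hN1 (fun a => lz z a - l a) (by
        intro a
        have e1 := hL z hz a
        have e2 := hmemΛ l hl a
        have e3 : |lz z a - l a| ≤ |lz z a| + |l a| := abs_sub _ _
        have e4 : |lz z a| ≤ (L : ℤ) := e1
        have e5 : (N0 : ℤ) = 2 * L + 1 := by rw [hN0]; push_cast; ring
        rw [e5]
        linarith)
      rw [h3, Fintype.card_fin]
      by_cases h : l = lz z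
      · rw [if_pos h, if_pos (by funext a; rw [h]; simp)]
        rw [← mul_assoc, inv_mul_cancel₀ (pow_ne_zero m hN0'), one_mul]
      · rw [if_neg h, if_neg, zero_mul, mul_zero]
        intro h4
        apply h
        funext a
        have := congrFun h4 a
        simp only [Pi.zero_apply] at this
        linarith
    rw [Finset.sum_congr rfl h2, Finset.sum_ite_eq' Λ (lz z), if_pos hmem]
  have hTnn : ∀ i, 0 ≤ T i := fun i => (norm_nonneg _).trans (hT 0 i)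
  have h5 : ∀ l : Fin m → ℤ, ∀ β : Fin m → ℕ,
      ‖∑ z ∈ Fintype.piFinset B, (e (∑ a, (β a : ℝ) * ((lz z a - l a : ℤ) : ℝ) / N0) *
        e (∑ i, g i (z i) + Φ l))‖ ≤ ∏ i, T i := by
    intro l β
    have h6 : ∀ z : J → κ, e (∑ a, (β a : ℝ) * ((lz z a - l a : ℤ) : ℝ) / N0) *
        e (∑ i, g i (z i) + Φ l) = e (Φ l - ∑ a, (β a : ℝ) * (l a : ℝ) / N0) *
          ∏ i, e (g i (z i) + ∑ a, ((β a : ℝ) / N0) * (lam a i (z i) : ℝ)) := by
      intro z
      rw [← e_sum, ← e_add, ← e_add]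
      congr 1
      have h7 : ∑ a, (β a : ℝ) * ((lz z a - l a : ℤ) : ℝ) / N0 =
          ∑ a, (β a : ℝ) * (lz z a : ℝ) / N0 - ∑ a, (β a : ℝ) * (l a : ℝ) / N0 := by
        rw [← Finset.sum_sub_distrib]
        refine Finset.sum_congr rfl fun a _ => ?_
        push_cast
        ring
      have h8 : ∑ a, (β a : ℝ) * (lz z a : ℝ) / N0 =
          ∑ i, ∑ a, ((β a : ℝ) / N0) * (lam a i (z i) : ℝ) := by
        rw [Finset.sum_comm]
        refine Finset.sum_congr rfl fun a _ => ?_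
        rw [hlz]
        push_cast
        rw [Finset.mul_sum, Finset.sum_div]
        refine Finset.sum_congr rfl fun i _ => ?_
        ring
      rw [h7, h8, Finset.sum_add_distrib]
      ring
    rw [Finset.sum_congr rfl (fun z _ => h6 z), ← Finset.mul_sum, norm_mul, norm_e, one_mul,
      ← Finset.prod_univ_sum B
        (fun i x => e (g i x + ∑ a, ((β a : ℝ) / N0) * (lam a i x : ℝ))), norm_prod]
    exact Finset.prod_le_prod (fun i _ => norm_nonneg _) (fun i _ => hT _ i)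
  have hcardΛ : (Λ.card : ℝ) = (2 * L + 1 : ℝ) ^ m := by
    rw [hΛ, Fintype.card_piFinset]
    simp only [Int.card_Icc, Finset.prod_const, Finset.card_univ, Fintype.card_fin]
    have : ((L : ℤ) + 1 - -(L : ℤ)).toNat = 2 * L + 1 := by omega
    rw [this]
    push_cast
    ring
  have hcardR : (R.card : ℝ) = (N0 : ℝ) ^ m := by
    rw [hR, Fintype.card_piFinset]
    simp
  calc ‖∑ z ∈ Fintype.piFinset B, e (∑ i, g i (z i) + Φ (fun a => ∑ i, lam a i (z i)))‖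
      = ‖∑ l ∈ Λ, ∑ β ∈ R, ((N0 : ℂ) ^ m)⁻¹ * ∑ z ∈ Fintype.piFinset B,
        (e (∑ a, (β a : ℝ) * ((lz z a - l a : ℤ) : ℝ) / N0) * e (∑ i, g i (z i) + Φ l))‖ := by
        congr 1
        rw [Finset.sum_congr rfl h1, Finset.sum_comm]
        refine Finset.sum_congr rfl fun l _ => ?_
        rw [Finset.sum_comm]
        refine Finset.sum_congr rfl fun β _ => ?_
        rw [Finset.mul_sum]
    _ ≤ ∑ l ∈ Λ, ∑ β ∈ R, ((N0 : ℝ) ^ m)⁻¹ * ∏ i, T i := by
        refine (norm_sum_le _ _).trans (Finset.sum_le_sum fun l _ => ?_)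
        refine (norm_sum_le _ _).trans (Finset.sum_le_sum fun β _ => ?_)
        rw [norm_mul, norm_inv, norm_pow, Complex.norm_natCast]
        exact mul_le_mul_of_nonneg_left (h5 l β) (by positivity)
    _ = (2 * L + 1 : ℝ) ^ m * ∏ i, T i := by
        rw [Finset.sum_const, Finset.sum_const, nsmul_eq_mul, nsmul_eq_mul, hcardΛ, hcardR]
        have : (N0 : ℝ) ^ m ≠ 0 := by
          have : (N0 : ℝ) ≠ 0 := by
            have : N0 ≠ 0 := by omega
            exact_mod_cast this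
          exact pow_ne_zero m this
        field_simp

/-- glueing coordinates -/
private def wbMix {s : ℕ} (V : Finset (Fin s)) (z1 : {i // i ∉ V} → ℤ × ℤ)
    (z2 : {i // i ∈ V} → ℤ × ℤ) : Fin s ⊕ Fin s → ℤ :=
  Sum.elim (fun i => if h : i ∈ V then (z2 ⟨i, h⟩).1 else (z1 ⟨i, h⟩).1)
    (fun i => if h : i ∈ V then (z2 ⟨i, h⟩).2 else (z1 ⟨i, h⟩).2)

private theorem wb_split {s : ℕ} (V : Finset (Fin s)) (I : Fin s ⊕ Fin s → Finset ℤ)
    (f : (Fin s ⊕ Fin s → ℤ) → ℂ) :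
    ∑ x ∈ Fintype.piFinset I, f x =
      ∑ z1 ∈ Fintype.piFinset (fun i : {i // i ∉ V} => I (Sum.inl i) ×ˢ I (Sum.inr i)),
        ∑ z2 ∈ Fintype.piFinset (fun i : {i // i ∈ V} => I (Sum.inl i) ×ˢ I (Sum.inr i)),
          f (wbMix V z1 z2) := by
  rw [← Finset.sum_product']
  symm
  refine Finset.sum_nbij' (fun z => wbMix V z.1 z.2)
    (fun x => (fun i => (x (Sum.inl i), x (Sum.inr i)), fun i => (x (Sum.inl i), x (Sum.inr i))))
    ?_ ?_ ?_ ?_ ?_
  · rintro ⟨z1, z2⟩ hz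
    rw [Finset.mem_product, Fintype.mem_piFinset, Fintype.mem_piFinset] at hz
    rw [Fintype.mem_piFinset]
    rintro (i | i)
    · simp only [wbMix, Sum.elim_inl]
      split_ifs with h
      · exact (Finset.mem_product.1 (hz.2 ⟨i, h⟩)).1
      · exact (Finset.mem_product.1 (hz.1 ⟨i, h⟩)).1
    · simp only [wbMix, Sum.elim_inr]
      split_ifs with h
      · exact (Finset.mem_product.1 (hz.2 ⟨i, h⟩)).2
      · exact (Finset.mem_product.1 (hz.1 ⟨i, h⟩)).2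
  · intro x hx
    rw [Fintype.mem_piFinset] at hx
    rw [Finset.mem_product, Fintype.mem_piFinset, Fintype.mem_piFinset]
    exact ⟨fun i => Finset.mem_product.2 ⟨hx _, hx _⟩, fun i => Finset.mem_product.2 ⟨hx _, hx _⟩⟩
  · rintro ⟨z1, z2⟩ _
    ext i
    · simp [wbMix, i.2]
    · simp [wbMix, i.2]
    · simp [wbMix, i.2]
    · simp [wbMix, i.2]
  · intro x _
    funext i
    rcases i with i | i
    · simp [wbMix]
    · simp [wbMix]
  · intro z _
    rfl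

private theorem wb_eval {s : ℕ} (k : ℕ) (M : Matrix (Fin s) (Fin s) ℤ) (x : Fin s ⊕ Fin s → ℤ) :
    fn (GG k M) x = ∑ i, ∑ j, M i j * (x (Sum.inl i) * x (Sum.inr i)) ^ k *
      (x (Sum.inl j) * x (Sum.inr j)) ^ k := by
  simp [fn, GG, map_sum]

private theorem wb_ident {s m : ℕ} (M : Matrix (Fin s) (Fin s) ℤ) (hM : M.IsSymm)
    (V : Finset (Fin s)) (c : Fin m → Fin s → ℤ) (N : Matrix (Fin m) (Fin m) ℚ) (d : Fin s → ℚ)
    (hMV : ∀ i ∈ V, ∀ j ∈ V, (M i j : ℚ) =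
      (if i = j then d i else 0) + ∑ a, ∑ b, N a b * c a i * c b j) (Y : Fin s → ℝ) :
    ∑ i, ∑ j, (M i j : ℝ) * Y i * Y j = ∑ i ∈ V, (d i : ℝ) * Y i ^ 2 +
      ∑ i ∈ V, (2 * ∑ j ∈ Vᶜ, (M i j : ℝ) * Y j) * Y i +
      ∑ a, ∑ b, (N a b : ℝ) * (∑ i ∈ V, (c a i : ℝ) * Y i) * (∑ j ∈ V, (c b j : ℝ) * Y j) +
      ∑ i ∈ Vᶜ, ∑ j ∈ Vᶜ, (M i j : ℝ) * Y i * Y j := by
  have h1 : ∀ i ∈ V, ∀ j ∈ V, (M i j : ℝ) =
      (if i = j then (d i : ℝ) else 0) + ∑ a, ∑ b, (N a b : ℝ) * c a i * c b j := by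
    intro i hi j hj
    have h2 : (((M i j : ℤ) : ℚ) : ℝ) = (((if i = j then d i else 0) +
        ∑ a, ∑ b, N a b * c a i * c b j : ℚ) : ℝ) := by rw [hMV i hi j hj]
    push_cast at h2
    rw [h2]
    split_ifs <;> simp
  have hA : ∑ i ∈ V, ∑ j ∈ V, (M i j : ℝ) * Y i * Y j = ∑ i ∈ V, (d i : ℝ) * Y i ^ 2 +
      ∑ a, ∑ b, (N a b : ℝ) * (∑ i ∈ V, (c a i : ℝ) * Y i) *
        (∑ j ∈ V, (c b j : ℝ) * Y j) := by
    have h2 : ∀ i ∈ V, ∑ j ∈ V, (M i j : ℝ) * Y i * Y j = (d i : ℝ) * Y i ^ 2 +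
        ∑ j ∈ V, ∑ a, ∑ b, (N a b : ℝ) * c a i * c b j * Y i * Y j := by
      intro i hi
      have h3 : ∀ j ∈ V, (M i j : ℝ) * Y i * Y j = (if i = j then (d i : ℝ) * Y i * Y j else 0) +
          ∑ a, ∑ b, (N a b : ℝ) * c a i * c b j * Y i * Y j := by
        intro j hj
        rw [h1 i hi j hj, add_mul, add_mul]
        congr 1
        · split_ifs <;> simp
        · rw [Finset.sum_mul, Finset.sum_mul]
          refine Finset.sum_congr rfl fun a _ => ?_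
          rw [Finset.sum_mul, Finset.sum_mul]
      rw [Finset.sum_congr rfl h3, Finset.sum_add_distrib, Finset.sum_ite_eq V i, if_pos hi]
      ring
    rw [Finset.sum_congr rfl h2, Finset.sum_add_distrib]
    congr 1
    have h4 : ∀ a b, (N a b : ℝ) * (∑ i ∈ V, (c a i : ℝ) * Y i) * (∑ j ∈ V, (c b j : ℝ) * Y j) =
        ∑ i ∈ V, ∑ j ∈ V, (N a b : ℝ) * c a i * c b j * Y i * Y j := by
      intro a b
      rw [mul_assoc, Finset.sum_mul_sum, Finset.mul_sum]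
      refine Finset.sum_congr rfl fun i _ => ?_
      rw [Finset.mul_sum]
      refine Finset.sum_congr rfl fun j _ => ?_
      ring
    rw [Finset.sum_congr rfl (fun a _ => Finset.sum_congr rfl (fun b _ => h4 a b)),
      Finset.sum_congr rfl (fun i _ => Finset.sum_comm), Finset.sum_comm]
    refine Finset.sum_congr rfl fun a _ => ?_
    rw [Finset.sum_congr rfl (fun i _ => Finset.sum_comm), Finset.sum_comm]
  have hB : ∑ i ∈ Vᶜ, ∑ j ∈ V, (M i j : ℝ) * Y i * Y j =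
      ∑ i ∈ V, ∑ j ∈ Vᶜ, (M i j : ℝ) * Y i * Y j := by
    rw [Finset.sum_comm]
    refine Finset.sum_congr rfl fun i _ => Finset.sum_congr rfl fun j _ => ?_
    rw [hM.apply i j]
    ring
  have hC : ∑ i ∈ V, (2 * ∑ j ∈ Vᶜ, (M i j : ℝ) * Y j) * Y i =
      2 * ∑ i ∈ V, ∑ j ∈ Vᶜ, (M i j : ℝ) * Y i * Y j := by
    rw [Finset.mul_sum]
    refine Finset.sum_congr rfl fun i _ => ?_
    rw [mul_assoc, Finset.sum_mul]
    congr 1
    refine Finset.sum_congr rfl fun j _ => ?_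
    ring
  have hsplit : ∑ i, ∑ j, (M i j : ℝ) * Y i * Y j =
      (∑ i ∈ V, ∑ j ∈ V, (M i j : ℝ) * Y i * Y j + ∑ i ∈ V, ∑ j ∈ Vᶜ, (M i j : ℝ) * Y i * Y j) +
      (∑ i ∈ Vᶜ, ∑ j ∈ V, (M i j : ℝ) * Y i * Y j +
        ∑ i ∈ Vᶜ, ∑ j ∈ Vᶜ, (M i j : ℝ) * Y i * Y j) := by
    rw [← Finset.sum_add_distrib, ← Finset.sum_add_distrib, ← Finset.sum_add_sum_compl V]
    congr 1 <;>
    · refine Finset.sum_congr rfl fun i _ => ?_
      rw [Finset.sum_add_sum_compl]
  rw [hsplit, hA, hB, hC]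
  ring

/-- The final bookkeeping of exponents. -/
private theorem wb_num (k s v m : ℕ) (hk : 1 ≤ k) (hvs : v ≤ s) (hm : m ≤ 2 * rr k)
    (hV : vv k ≤ v) {p K : ℝ} (hp : 1 ≤ p) (hK : K ≤ p) :
    K * (p ^ (2 * (s - v)) * p ^ (2 * k * m) *
      (p ^ (2 - 1 / (200 * (tt k : ℝ) ^ 2))) ^ v) * p ^ (4 * k + 1) ≤ p ^ (2 * s) := by
  have hp0 : 0 < p := by linarith
  have htk : (1 : ℝ) ≤ tt k := by
    have : 1 ≤ tt k := by
      unfold tt
      have : 1 ≤ (2 * k) ^ 3 := Nat.one_le_pow _ _ (by omega)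
      omega
    exact_mod_cast this
  have ht : (0 : ℝ) < 200 * (tt k : ℝ) ^ 2 := by positivity
  have hVr : (200 * (tt k : ℝ) ^ 2) * (4 * k * rr k + 4 * k + 2) ≤ v := by
    have : ((vv k : ℕ) : ℝ) ≤ v := by exact_mod_cast hV
    unfold vv at this
    push_cast at this
    linarith
  have h1 : (4 * k * rr k + 4 * k + 2 : ℝ) ≤ 1 / (200 * (tt k : ℝ) ^ 2) * v := by
    rw [div_mul_eq_mul_div, one_mul, le_div_iff₀ ht]
    linarith
  have hmr : (m : ℝ) ≤ 2 * rr k := by exact_mod_cast hm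
  have hk0 : (0 : ℝ) ≤ k := Nat.cast_nonneg k
  have h2 : (2 * k * m : ℝ) ≤ 4 * k * rr k := by nlinarith
  have hvs' : (v : ℝ) ≤ s := by exact_mod_cast hvs
  have e1 : p ^ (2 * (s - v)) = p ^ (2 * ((s : ℝ) - v)) := by
    rw [← Real.rpow_natCast]
    congr 1
    push_cast [Nat.cast_sub hvs]
    ring
  have e2 : p ^ (2 * k * m) = p ^ (2 * k * m : ℝ) := by
    rw [← Real.rpow_natCast]
    congr 1
    push_cast
    ring
  have e3 : (p ^ (2 - 1 / (200 * (tt k : ℝ) ^ 2))) ^ v =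
      p ^ ((2 - 1 / (200 * (tt k : ℝ) ^ 2)) * v) := by
    rw [Real.rpow_mul hp0.le, Real.rpow_natCast]
  have e4 : p ^ (4 * k + 1) = p ^ (4 * k + 1 : ℝ) := by
    rw [← Real.rpow_natCast]
    congr 1
    push_cast
    ring
  have hs1 : (1 : ℝ) ≤ s := by
    have h3 : (0 : ℝ) ≤ 4 * k * rr k + 4 * k := by positivity
    nlinarith
  have e5 : p ^ (2 * s) = p * p ^ (2 * s - 1 : ℝ) := by
    rw [← Real.rpow_natCast, ← Real.rpow_one_add' hp0.le]
    · congr 1
      push_cast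
      ring
    · intro h
      linarith
  rw [e1, e2, e3, e4, e5, ← Real.rpow_add hp0, ← Real.rpow_add hp0, mul_assoc,
    ← Real.rpow_add hp0]
  apply mul_le_mul hK _ (by positivity) hp0.le
  apply Real.rpow_le_rpow_of_exponent_le hp
  linarith

theorem weylB {s : ℕ} (k : ℕ) (hk : 1 ≤ k) (M : Matrix (Fin s) (Fin s) ℤ) (hM : M.IsSymm)
    (V : Finset (Fin s)) (m : ℕ) (hm : m ≤ 2 * rr k) (hV : vv k ≤ V.card)
    (c : Fin m → Fin s → ℤ) (N : Matrix (Fin m) (Fin m) ℚ) (d : Fin s → ℚ)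
    (hd : ∀ i ∈ V, d i ≠ 0)
    (hMV : ∀ i ∈ V, ∀ j ∈ V, (M i j : ℚ) =
      (if i = j then d i else 0) + ∑ a, ∑ b, N a b * c a i * c b j) :
    WeylBound (fn (GG k M)) (4 * k) := by
  classical
  intro lo hi _
  -- the constant `A`
  obtain ⟨A, hA1, hA⟩ : ∃ A : ℕ, 1 ≤ A ∧ ∀ (P : ℕ), 1 ≤ P → ∀ i,
      |⌊(P : ℝ) * lo i⌋| ≤ (A : ℤ) * P ∧ |⌊(P : ℝ) * hi i⌋| ≤ (A : ℤ) * P := by
    set A : ℕ := ⌈∑ i, (|lo i| + |hi i|)⌉₊ + 1 with hAdef
    have hfl : ∀ (P : ℕ), 1 ≤ P → ∀ x : ℝ, |x| + 1 ≤ A → |⌊(P : ℝ) * x⌋| ≤ (A : ℤ) * P := by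
      intro P hP x hx
      have hP' : (1 : ℝ) ≤ P := by exact_mod_cast hP
      have h1 : |((⌊(P : ℝ) * x⌋ : ℤ) : ℝ)| ≤ |(P : ℝ) * x| + 1 := by
        have h2 := Int.floor_le ((P : ℝ) * x)
        have h3 := Int.lt_floor_add_one ((P : ℝ) * x)
        rw [abs_le]
        constructor
        · have := neg_abs_le ((P : ℝ) * x)
          linarith
        · have := le_abs_self ((P : ℝ) * x)
          linarith
      have h4 : |(P : ℝ) * x| = P * |x| := by rw [abs_mul, abs_of_nonneg (by positivity)]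
      have h5 : |((⌊(P : ℝ) * x⌋ : ℤ) : ℝ)| ≤ A * P := by
        rw [h4] at h1
        nlinarith
      have h6 : ((|⌊(P : ℝ) * x⌋| : ℤ) : ℝ) ≤ (((A : ℤ) * P : ℤ) : ℝ) := by
        push_cast
        exact h5
      exact_mod_cast h6
    have hle : ∀ i, |lo i| + |hi i| + 1 ≤ A := by
      intro i
      have h1 : |lo i| + |hi i| ≤ ∑ i, (|lo i| + |hi i|) :=
        Finset.single_le_sum (f := fun i => |lo i| + |hi i|)
          (fun j _ => by positivity) (Finset.mem_univ i)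
      have h2 := Nat.le_ceil (∑ i, (|lo i| + |hi i|))
      rw [hAdef]
      push_cast
      linarith
    refine ⟨A, by omega, fun P hP i => ⟨hfl P hP _ ?_, hfl P hP _ ?_⟩⟩
    · have := hle i
      have := abs_nonneg (hi i)
      linarith
    · have := hle i
      have := abs_nonneg (lo i)
      linarith
  -- bounds for one variable
  have hTB : ∀ i : {i // i ∈ V}, ∃ C : ℝ, 0 < C ∧ ∃ P₀ : ℕ, ∀ P : ℕ, P₀ ≤ P → ∀ α : ℝ,
      ¬ Major (4 * k) P α → ∀ θ : ℝ, ∀ a b a' b' : ℤ, |a| ≤ A * P → |b| ≤ A * P → |a'| ≤ A * P →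
        |b'| ≤ A * P → ‖∑ u ∈ Finset.Ioc a b, ∑ v ∈ Finset.Ioc a' b',
          e (α * ((d i).num : ℤ) / (((d i).den : ℤ)) * ((u * v : ℤ) : ℝ) ^ (2 * k) +
            θ * ((u * v : ℤ) : ℝ) ^ k)‖
          ≤ C * (P : ℝ) ^ (2 - 1 / (200 * (tt k : ℝ) ^ 2)) := by
    intro i
    exact T_bound k A hk hA1 (d i).num ((d i).den : ℤ) (Rat.num_ne_zero.2 (hd i i.2))
      (by exact_mod_cast (d i).den_nz)
  choose C hC P₁ hT using hTB
  set v := V.card with hv
  have hvs : v ≤ s := by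
    have := Finset.card_le_univ V
    rwa [Fintype.card_fin] at this
  set Cc : ℕ := ∑ a, ∑ i, (c a i).natAbs with hCc
  set D : ℝ := ∏ i, C i with hD
  have hD0 : 0 < D := Finset.prod_pos fun i _ => hC i
  set K : ℝ := ((2 * A : ℝ) ^ 2) ^ (s - v) * ((2 * Cc + 1) * (A : ℝ) ^ (2 * k)) ^ m * D with hK
  refine ⟨max 1 (max ⌈K⌉₊ (∑ i, P₁ i)), ?_⟩
  intro P hP α hα
  have hP1 : 1 ≤ P := (le_max_left _ _).trans hP
  have hPK : K ≤ P := (Nat.le_ceil K).trans
    (by exact_mod_cast ((le_max_left _ _).trans (le_max_right _ _)).trans hP)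
  have hPi : ∀ i, P₁ i ≤ P := fun i =>
    ((Finset.single_le_sum (fun _ _ => Nat.zero_le _) (Finset.mem_univ i)).trans
      ((le_max_right _ _).trans (le_max_right _ _))).trans hP
  set p : ℝ := (P : ℝ) with hp
  have hp1 : 1 ≤ p := by rw [hp]; exact_mod_cast hP1
  have hp0 : 0 < p := by linarith
  have hA1r : (1 : ℝ) ≤ A := by exact_mod_cast hA1
  -- the box
  set I : Fin s ⊕ Fin s → Finset ℤ := fun i => Finset.Ioc ⌊p * lo i⌋ ⌊p * hi i⌋ with hI
  have hmemI : ∀ i, ∀ x ∈ I i, |x| ≤ (A : ℤ) * P := by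
    intro i x hx
    rw [hI, Finset.mem_Ioc] at hx
    obtain ⟨h1, h2⟩ := hA P hP1 i
    rw [abs_le] at h1 h2 ⊢
    constructor <;> linarith [hx.1, hx.2, h1.1, h2.2]
  have hcardI : ∀ i, ((I i).card : ℝ) ≤ 2 * A * p := by
    intro i
    obtain ⟨h1, h2⟩ := hA P hP1 i
    rw [abs_le] at h1 h2
    have h3 : (I i).card ≤ 2 * A * P := by
      rw [hI]
      simp only [Int.card_Ioc]
      rw [Int.toNat_le]
      push_cast
      linarith [h1.1, h2.2]
    calc ((I i).card : ℝ) ≤ ((2 * A * P : ℕ) : ℝ) := by exact_mod_cast h3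
      _ = 2 * A * p := by push_cast; ring
  set L : ℕ := Cc * (A * P) ^ (2 * k) with hL
  have hS : S (fn (GG k M)) P lo hi α = ∑ z1 ∈ Fintype.piFinset
      (fun i : {i // i ∉ V} => I (Sum.inl i) ×ˢ I (Sum.inr i)),
      ∑ z2 ∈ Fintype.piFinset (fun i : {i // i ∈ V} => I (Sum.inl i) ×ˢ I (Sum.inr i)),
        e (α * (fn (GG k M) (wbMix V z1 z2) : ℝ)) := by
    unfold S box
    exact wb_split V I (fun x => e (α * (fn (GG k M) x : ℝ)))
  have hinner : ∀ z1 ∈ Fintype.piFinset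
      (fun i : {i // i ∉ V} => I (Sum.inl i) ×ˢ I (Sum.inr i)),
      ‖∑ z2 ∈ Fintype.piFinset (fun i : {i // i ∈ V} => I (Sum.inl i) ×ˢ I (Sum.inr i)),
        e (α * (fn (GG k M) (wbMix V z1 z2) : ℝ))‖ ≤
      (2 * L + 1 : ℝ) ^ m * ∏ i, (C i * p ^ (2 - 1 / (200 * (tt k : ℝ) ^ 2))) := by
    intro z1 _
    set w : Fin s → ℝ := fun j => if h : j ∈ V then 0 else
      (((z1 ⟨j, h⟩).1 * (z1 ⟨j, h⟩).2 : ℤ) : ℝ) ^ k with hw
    set γ : Fin s → ℝ := fun i => 2 * ∑ j ∈ Vᶜ, (M i j : ℝ) * w j with hγ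
    set cst : ℝ := ∑ i ∈ Vᶜ, ∑ j ∈ Vᶜ, (M i j : ℝ) * w i * w j with hcst
    have key : ∀ z2 : {i // i ∈ V} → ℤ × ℤ, α * (fn (GG k M) (wbMix V z1 z2) : ℝ) =
        ∑ i : {i // i ∈ V}, (α * (d i : ℝ) * (((z2 i).1 * (z2 i).2 : ℤ) : ℝ) ^ (2 * k) +
          α * γ i * (((z2 i).1 * (z2 i).2 : ℤ) : ℝ) ^ k) +
        (fun l : Fin m → ℤ => α * (∑ a, ∑ b, (N a b : ℝ) * (l a : ℝ) * (l b : ℝ)) + α * cst)
          (fun a => ∑ i : {i // i ∈ V}, c a i * ((z2 i).1 * (z2 i).2) ^ k) := by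
      intro z2
      set Y : Fin s → ℝ := fun i =>
        (((wbMix V z1 z2 (Sum.inl i)) * (wbMix V z1 z2 (Sum.inr i)) : ℤ) : ℝ) ^ k with hY
      have hYV : ∀ i : {i // i ∈ V}, Y i = (((z2 i).1 * (z2 i).2 : ℤ) : ℝ) ^ k := by
        intro i
        simp [hY, wbMix, i.2]
      have hYc : ∀ j ∈ Vᶜ, Y j = w j := by
        intro j hj
        have hj' : j ∉ V := Finset.mem_compl.1 hj
        simp [hY, hw, wbMix, hj']
      have h1 : ((fn (GG k M) (wbMix V z1 z2) : ℤ) : ℝ) = ∑ i, ∑ j, (M i j : ℝ) * Y i * Y j := by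
        rw [wb_eval, hY]
        push_cast
        rfl
      rw [h1, wb_ident M hM V c N d hMV Y]
      have h2 : ∑ i ∈ V, (d i : ℝ) * Y i ^ 2 =
          ∑ i : {i // i ∈ V}, (d i : ℝ) * (((z2 i).1 * (z2 i).2 : ℤ) : ℝ) ^ (2 * k) := by
        rw [← Finset.sum_coe_sort V]
        refine Finset.sum_congr rfl fun i _ => ?_
        rw [hYV, ← pow_mul, mul_comm k 2]
      have h3 : ∑ i ∈ V, (2 * ∑ j ∈ Vᶜ, (M i j : ℝ) * Y j) * Y i =
          ∑ i : {i // i ∈ V}, γ i * (((z2 i).1 * (z2 i).2 : ℤ) : ℝ) ^ k := by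
        rw [← Finset.sum_coe_sort V]
        refine Finset.sum_congr rfl fun i _ => ?_
        rw [hYV, hγ]
        simp only
        congr 2
        refine Finset.sum_congr rfl fun j hj => ?_
        rw [hYc j hj]
      have h4 : ∑ i ∈ Vᶜ, ∑ j ∈ Vᶜ, (M i j : ℝ) * Y i * Y j = cst := by
        rw [hcst]
        refine Finset.sum_congr rfl fun i hi => Finset.sum_congr rfl fun j hj => ?_
        rw [hYc i hi, hYc j hj]
      have h5 : ∀ a, ∑ i ∈ V, (c a i : ℝ) * Y i =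
          ((∑ i : {i // i ∈ V}, c a i * ((z2 i).1 * (z2 i).2) ^ k : ℤ) : ℝ) := by
        intro a
        rw [← Finset.sum_coe_sort V]
        push_cast
        refine Finset.sum_congr rfl fun i _ => ?_
        rw [hYV]
        push_cast
        rfl
      rw [h2, h3, h4]
      simp only [h5]
      rw [Finset.sum_add_distrib, mul_add, mul_add, mul_add, Finset.mul_sum, Finset.mul_sum]
      have h6 : ∀ i : {i // i ∈ V}, α * ((d i : ℝ) *
          (((z2 i).1 * (z2 i).2 : ℤ) : ℝ) ^ (2 * k)) =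
          α * (d i : ℝ) * (((z2 i).1 * (z2 i).2 : ℤ) : ℝ) ^ (2 * k) := fun i => by ring
      have h7 : ∀ i : {i // i ∈ V}, α * (γ i * (((z2 i).1 * (z2 i).2 : ℤ) : ℝ) ^ k) =
          α * γ i * (((z2 i).1 * (z2 i).2 : ℤ) : ℝ) ^ k := fun i => by ring
      rw [Finset.sum_congr rfl (fun i _ => h6 i), Finset.sum_congr rfl (fun i _ => h7 i)]
      ring
    rw [Finset.sum_congr rfl (fun z2 _ => congrArg e (key z2))]
    refine wb_detect (fun i : {i // i ∈ V} => I (Sum.inl i) ×ˢ I (Sum.inr i))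
      (fun a i x => c a i * (x.1 * x.2) ^ k)
      (fun i x => α * (d i : ℝ) * ((x.1 * x.2 : ℤ) : ℝ) ^ (2 * k) +
        α * γ i * ((x.1 * x.2 : ℤ) : ℝ) ^ k)
      (fun l : Fin m → ℤ => α * (∑ a, ∑ b, (N a b : ℝ) * (l a : ℝ) * (l b : ℝ)) + α * cst)
      L ?_ _ ?_
    · intro z hz a
      rw [Fintype.mem_piFinset] at hz
      have h1 : ∀ i : {i // i ∈ V}, |c a i * ((z i).1 * (z i).2) ^ k| ≤
          ((c a i).natAbs : ℤ) * ((A : ℤ) * P) ^ (2 * k) := by
        intro i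
        have h2 := Finset.mem_product.1 (hz i)
        have h3 := hmemI _ _ h2.1
        have h4 := hmemI _ _ h2.2
        rw [abs_mul, abs_pow, abs_mul, Int.natCast_natAbs, pow_mul]
        apply mul_le_mul_of_nonneg_left _ (abs_nonneg _)
        apply pow_le_pow_left₀ (by positivity)
        rw [sq]
        exact mul_le_mul h3 h4 (abs_nonneg _) (by positivity)
      refine (Finset.abs_sum_le_sum_abs _ _).trans ((Finset.sum_le_sum fun i _ => h1 i).trans ?_)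
      rw [← Finset.sum_mul, hL, hCc]
      push_cast
      apply mul_le_mul_of_nonneg_right _ (by positivity)
      have h5 : ∑ i : {i // i ∈ V}, |c a i| ≤ ∑ i, |c a i| := by
        rw [Finset.sum_coe_sort V (fun i => |c a i|)]
        exact Finset.sum_le_sum_of_subset_of_nonneg (Finset.subset_univ V)
          (fun _ _ _ => abs_nonneg _)
      refine h5.trans ?_
      exact Finset.single_le_sum (f := fun a => ∑ i, |c a i|)
        (fun _ _ => Finset.sum_nonneg fun _ _ => abs_nonneg _) (Finset.mem_univ a)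
    · intro θ i
      have h1 := hT i P (hPi i) α hα (α * γ i + ∑ a, θ a * (c a i : ℝ))
        ⌊p * lo (Sum.inl i)⌋ ⌊p * hi (Sum.inl i)⌋ ⌊p * lo (Sum.inr i)⌋ ⌊p * hi (Sum.inr i)⌋
        (hA P hP1 _).1 (hA P hP1 _).2 (hA P hP1 _).1 (hA P hP1 _).2
      refine le_trans (le_of_eq ?_) h1
      rw [Finset.sum_product]
      congr 1
      refine Finset.sum_congr rfl fun u _ => Finset.sum_congr rfl fun v _ => ?_
      congr 1
      have h2 : (d i : ℝ) = ((d i).num : ℝ) / (((d i).den : ℤ) : ℝ) := by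
        rw [Rat.cast_def]
        push_cast
        rfl
      have h3 : ∑ a, θ a * ((c a i * (u * v) ^ k : ℤ) : ℝ) =
          (∑ a, θ a * (c a i : ℝ)) * ((u * v : ℤ) : ℝ) ^ k := by
        rw [Finset.sum_mul]
        refine Finset.sum_congr rfl fun a _ => ?_
        push_cast
        ring
      simp only
      rw [h3, h2]
      ring
  have houter : ((Fintype.piFinset
      (fun i : {i // i ∉ V} => I (Sum.inl i) ×ˢ I (Sum.inr i))).card : ℝ) ≤
      ((2 * A * p) ^ 2) ^ (s - v) := by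
    rw [Fintype.card_piFinset]
    push_cast
    have h1 : Fintype.card {i // i ∉ V} = s - v := by
      rw [Fintype.card_subtype_compl, Fintype.card_fin, Fintype.card_coe]
    calc ∏ i : {i // i ∉ V}, ((I (Sum.inl i) ×ˢ I (Sum.inr i)).card : ℝ)
        ≤ ∏ _i : {i // i ∉ V}, (2 * A * p) ^ 2 := by
          refine Finset.prod_le_prod (fun _ _ => by positivity) fun i _ => ?_
          rw [Finset.card_product]
          push_cast
          rw [sq]
          exact mul_le_mul (hcardI _) (hcardI _) (by positivity) (by positivity)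
      _ = _ := by rw [Finset.prod_const, Finset.card_univ, h1]
  have hprod : ∏ i : {i // i ∈ V}, (C i * p ^ (2 - 1 / (200 * (tt k : ℝ) ^ 2))) =
      D * (p ^ (2 - 1 / (200 * (tt k : ℝ) ^ 2))) ^ v := by
    rw [Finset.prod_mul_distrib, Finset.prod_const, Finset.card_univ, Fintype.card_coe]
  have hLb : (2 * L + 1 : ℝ) ≤ ((2 * Cc + 1) * (A : ℝ) ^ (2 * k)) * p ^ (2 * k) := by
    have h1 : (1 : ℝ) ≤ (A * p) ^ (2 * k) := one_le_pow₀ (by nlinarith)
    have h2 : (L : ℝ) = Cc * (A * p) ^ (2 * k) := by rw [hL]; push_cast; ring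
    rw [h2, mul_assoc, ← mul_pow]
    nlinarith
  have htotal : ‖S (fn (GG k M)) P lo hi α‖ ≤ K * (p ^ (2 * (s - v)) * p ^ (2 * k * m) *
      (p ^ (2 - 1 / (200 * (tt k : ℝ) ^ 2))) ^ v) := by
    rw [hS]
    refine (norm_sum_le _ _).trans ((Finset.sum_le_sum hinner).trans ?_)
    rw [Finset.sum_const, nsmul_eq_mul, hprod]
    have h1 : (2 * L + 1 : ℝ) ^ m ≤ (((2 * Cc + 1) * (A : ℝ) ^ (2 * k)) * p ^ (2 * k)) ^ m :=
      pow_le_pow_left₀ (by positivity) hLb m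
    have h2 : 0 ≤ D * (p ^ (2 - 1 / (200 * (tt k : ℝ) ^ 2))) ^ v := by positivity
    calc _ ≤ ((2 * A * p) ^ 2) ^ (s - v) *
          ((((2 * Cc + 1) * (A : ℝ) ^ (2 * k)) * p ^ (2 * k)) ^ m *
            (D * (p ^ (2 - 1 / (200 * (tt k : ℝ) ^ 2))) ^ v)) :=
          mul_le_mul houter (mul_le_mul_of_nonneg_right h1 h2) (by positivity) (by positivity)
      _ = _ := by
          rw [hK, pow_mul p 2 (s - v), pow_mul p (2 * k) m, mul_pow (2 * (A : ℝ)) p 2,
            mul_pow ((2 * (A : ℝ)) ^ 2), mul_pow ((2 * (Cc : ℝ) + 1) * (A : ℝ) ^ (2 * k))]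
          ring
  have hfin := wb_num k s v m hk hvs hm hV hp1 hPK
  have hcard : Fintype.card (Fin s ⊕ Fin s) = 2 * s := by
    rw [Fintype.card_sum, Fintype.card_fin]
    ring
  rw [hcard]
  exact (mul_le_mul_of_nonneg_right htotal (by positivity)).trans hfin

end Pool.Agent.Lib.MP_c0a553_nt
end

section

/-! # Nonsingular p-adic zeros exist in polynomially many variables -/

namespace Pool.Agent.Lib.MP_c0a553_nt

open Finset

/-- Every system of `r` diagonal equations of degree `k` over `ℚ_[p]` in at least `Nsys r k`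
variables has a nontrivial solution. -/
theorem sys_padic (p : ℕ) [Fact p.Prime] (k : ℕ) (hk : 1 ≤ k) : SysSolv ℚ_[p] k :=
  sys_of_bases ℚ_[p] k hk fun r m hr hm a ha => sys_bases p k r m hk hr hm a ha

/-- Every nonsingular `Q(y ^ k)` in at least `s₁ k` variables has a nonsingular zero over any field
over which systems of diagonal equations are solvable. -/
theorem nonsing_of_sys {s : ℕ} (k : ℕ) (hk : 1 ≤ k) (K : Type) [Field K] [CharZero K]
    (hS : SysSolv K k) (hS2 : SysSolv K (2 * k)) (hs : s₁ k ≤ s)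
    (M : Matrix (Fin s) (Fin s) ℤ) (hM : M.IsSymm) (hdet : M.det ≠ 0) :
    NonsingZero (FF k M) K := by
  rcases dichotomy M hdet (r1 k) (v1 k) hs with ⟨U, W, hU, hW, hUW, hd⟩ | ⟨V, m, c, N, d, hm, hV, hd, hMV⟩
  · obtain ⟨y, h1, h2, h3⟩ := orth_seq k hk K hS M hM U W hU hW hUW hd (n1 k) le_rfl
    exact orth_zero k hk K hS2 M hM le_rfl y h1 h2 h3
  · exact diag_case k hk K hS hS2 M hM V m (2 * r1 k) hm c N d hV hd hMV

theorem padic_nonsing {s : ℕ} (k : ℕ) (hk : 1 ≤ k) (hs : s₁ k ≤ s)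
    (M : Matrix (Fin s) (Fin s) ℤ) (hM : M.IsSymm) (hdet : M.det ≠ 0) (p : ℕ) [Fact p.Prime] :
    NonsingZero (FF k M) ℚ_[p] :=
  nonsing_of_sys k hk ℚ_[p] (sys_padic p k hk) (sys_padic p (2 * k) (by omega)) hs M hM hdet

end Pool.Agent.Lib.MP_c0a553_nt
end

section

/-! # Main theorem -/

namespace Pool.Agent.Lib.MP_c0a553_nt

open Finset

private lemma aux_ne (P : ℕ) (hP : 1 ≤ P) (y : ℝ) (hy : y ≠ 0) (x : ℤ) (ε : ℝ) (hε : ε ≤ |y| / 2)
    (h : |(x : ℝ) - P * y| ≤ ε * P) : x ≠ 0 := by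
  rintro rfl
  have hP' : (1 : ℝ) ≤ P := by exact_mod_cast hP
  have h1 : |((0 : ℤ) : ℝ) - P * y| = P * |y| := by
    rw [Int.cast_zero, zero_sub, abs_neg, abs_mul, abs_of_nonneg (by linarith : (0 : ℝ) ≤ P)]
  rw [h1] at h
  have hpos : 0 < |y| := abs_pos.mpr hy
  nlinarith

theorem aeval_int {σ : Type} (x : σ → ℤ) (G : MvPolynomial σ ℤ) :
    (MvPolynomial.aeval x) G = MvPolynomial.eval x G := by
  rw [MvPolynomial.aeval_def, MvPolynomial.eval, MvPolynomial.coe_eval₂Hom]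
  congr 1

/-- A nonsingular zero has a nonzero coordinate. -/
private lemma exists_coord {s : ℕ} (k : ℕ) (hk : 1 ≤ k) (M : Matrix (Fin s) (Fin s) ℤ)
    (hM : M.IsSymm) (y : Fin s → ℝ) (i : Fin s)
    (hi : MvPolynomial.aeval y (MvPolynomial.pderiv i (FF k M)) ≠ 0) : ∃ j, y j ≠ 0 := by
  by_contra hcon
  push Not at hcon
  apply hi
  rw [pderiv_FF k M hM]
  have : ∑ j, (M i j : ℝ) * y j ^ k = 0 := by
    apply Finset.sum_eq_zero
    intro j _
    rw [hcon j, zero_pow (by omega), mul_zero]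
  rw [this, mul_zero]

/-- The smooth Hasse principle for integral `M`. -/
theorem main_int {s : ℕ} (k : ℕ) (hk : 1 ≤ k) (hs : s₀ k ≤ s) (M : Matrix (Fin s) (Fin s) ℤ)
    (hM : M.IsSymm) (hdet : M.det ≠ 0) (hR : NonsingZero (FF k M) ℝ)
    (hp : ∀ (p : ℕ) [Fact p.Prime], NonsingZero (FF k M) ℚ_[p]) :
    ∃ y : Fin s → ℤ, y ≠ 0 ∧ MvPolynomial.eval y (FF k M) = 0 := by
  obtain ⟨y, hy, i, hi⟩ := hR
  obtain ⟨j, hj⟩ := exists_coord k hk M hM y i hi
  rcases dichotomy M hdet (rr k) (vv k) hs with ⟨U, W, hU, hW, hUW, hd⟩ | ⟨V, m, c, N, d, hm, hV, hd, hMV⟩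
  · have hWB := weylA k hk M hM U W hU hW hUW hd
    obtain ⟨P, hP, x, hx, hcl⟩ := endgame (FF k M) (2 * k) (FF_hom k M) (by omega) hWB hp y hy i hi
      (|y j| / 2) (by have := abs_pos.mpr hj; linarith)
    refine ⟨x, ?_, hx⟩
    intro h0
    exact aux_ne P hP (y j) hj (x j) _ le_rfl (hcl j) (by rw [h0]; rfl)
  · have hWB := weylB k hk M hM V m hm hV c N d hd hMV
    have hp' : ∀ (p : ℕ) [Fact p.Prime], NonsingZero (GG k M) ℚ_[p] := by
      intro p _
      obtain ⟨z, hz, i', hi'⟩ := hp p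
      obtain ⟨h1, h2⟩ := GG_nonsing k M ℚ_[p] z hz i' hi'
      exact ⟨_, h1, Sum.inl i', h2⟩
    obtain ⟨h1, h2⟩ := GG_nonsing k M ℝ y hy i hi
    have hpos : 0 < |y j| := abs_pos.mpr hj
    obtain ⟨P, hP, x, hx, hcl⟩ := endgame (GG k M) (4 * k) (GG_hom k M) (by omega) hWB hp'
      _ h1 (Sum.inl i) h2 (min (|y j| / 2) (1 / 2)) (by positivity)
    have hxl : x (Sum.inl j) ≠ 0 := by
      have := hcl (Sum.inl j)
      exact aux_ne P hP (y j) hj _ _ (min_le_left _ _) this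
    have hxr : x (Sum.inr j) ≠ 0 := by
      have := hcl (Sum.inr j)
      refine aux_ne P hP 1 one_ne_zero _ _ ?_ this
      rw [abs_one]
      exact min_le_right _ _
    refine ⟨fun i => x (Sum.inl i) * x (Sum.inr i), ?_, ?_⟩
    · intro h0
      have : x (Sum.inl j) * x (Sum.inr j) = 0 := congrFun h0 j
      exact (mul_ne_zero hxl hxr) this
    · have h3 := eval_GG k M ℤ (fun i => x (Sum.inl i)) (fun i => x (Sum.inr i))
      have h4 : Sum.elim (fun i => x (Sum.inl i)) (fun i => x (Sum.inr i)) = x := by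
        ext i; cases i <;> rfl
      rw [h4, aeval_int, aeval_int, hx] at h3
      exact h3.symm

end Pool.Agent.Lib.MP_c0a553_nt
end

section

/-! # Indefinite forms in polynomially many variables represent zero -/

namespace Pool.Agent.Lib.MP_c0a553_nt

open Finset

theorem zero_of_diag {s : ℕ} (k : ℕ) (hk : 1 ≤ k) (M : Matrix (Fin s) (Fin s) ℤ) (i : Fin s)
    (hi : M i i = 0) : ∃ y : Fin s → ℤ, y ≠ 0 ∧ MvPolynomial.eval y (FF k M) = 0 := by
  refine ⟨Pi.single i 1, ?_, ?_⟩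
  · intro h0
    have := congrFun h0 i
    simp at this
  · have h1 := eval_FF k M ℤ (Pi.single i 1)
    rw [aeval_int] at h1
    rw [h1]
    apply Finset.sum_eq_zero
    intro a _
    apply Finset.sum_eq_zero
    intro b _
    by_cases ha : a = i
    · by_cases hb : b = i
      · subst ha; subst hb
        simp [hi]
      · rw [Pi.single_eq_of_ne hb, zero_pow (by omega), mul_zero]
    · rw [Pi.single_eq_of_ne ha, zero_pow (by omega), mul_zero, zero_mul]

/-- Every nonsingular `Q(y ^ k)` in at least `max (s₀ k) (s₁ k)` variables that takes both signs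
over `ℝ` has a nontrivial rational zero. -/
theorem main_signs {s : ℕ} (k : ℕ) (hk : 1 ≤ k) (hs0 : s₀ k ≤ s) (hs1 : s₁ k ≤ s)
    (M : Matrix (Fin s) (Fin s) ℤ) (hM : M.IsSymm) (hdet : M.det ≠ 0)
    (hpos : ∃ y : Fin s → ℝ, 0 < MvPolynomial.aeval y (FF k M))
    (hneg : ∃ y : Fin s → ℝ, MvPolynomial.aeval y (FF k M) < 0) :
    ∃ y : Fin s → ℤ, y ≠ 0 ∧ MvPolynomial.eval y (FF k M) = 0 := by
  by_cases hdiag : ∀ i, M i i ≠ 0
  · have hR : NonsingZero (FF k M) ℝ := by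
      rcases Nat.even_or_odd k with hke | hko
      · exact real_even k hk hke M hM hdet hpos hneg
      · obtain ⟨y, hy, hz⟩ := real_zero_of_signs k hk M hpos hneg
        exact odd_nonsing k hko M hM hdet hdiag ℝ (fun n hn => root_real n hn) y hy hz
    exact main_int k hk hs0 M hM hdet hR
      (fun p _ => padic_nonsing k hk hs1 M hM hdet p)
  · push Not at hdiag
    obtain ⟨i, hi⟩ := hdiag
    exact zero_of_diag k hk M i hi

end Pool.Agent.Lib.MP_c0a553_nt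
end
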