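import Pool.Agent.Lib.MP_c0a553_nt.Holder
import Pool.Agent.Lib.MP_c0a553_nt.Defs

section

/-! # Forms are Lipschitz (job HP-19) -/

namespace Pool.Agent.Lib.MP_c0a553_nt

open Finset

variable {ι : Type} [Fintype ι] [DecidableEq ι]

private lemma fl_mul (M δ : ℝ) (hM : 0 ≤ M) (hδ : 0 ≤ δ) (j k : ℕ) (a a' b b' : ℝ)
    (ha : |a| ≤ M ^ j) (hb' : |b'| ≤ M ^ k) (h1 : |a - a'| ≤ j * M ^ (j - 1) * δ)
    (h2 : |b - b'| ≤ k * M ^ (k - 1) * δ) :
    |a * b - a' * b'| ≤ ((j + k : ℕ) : ℝ) * M ^ (j + k - 1) * δ := by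
  have e : a * b - a' * b' = a * (b - b') + (a - a') * b' := by ring
  have e1 : M ^ j * ((k : ℝ) * M ^ (k - 1)) = k * M ^ (j + k - 1) := by
    rcases k with _ | k
    · simp
    · rw [show j + (k + 1) - 1 = j + k by omega, Nat.add_sub_cancel, pow_add]; ring
  have e2 : (j : ℝ) * M ^ (j - 1) * M ^ k = j * M ^ (j + k - 1) := by
    rcases j with _ | j
    · simp
    · rw [show j + 1 + k - 1 = j + k by omega, Nat.add_sub_cancel, pow_add]; ring
  rw [e]
  refine (abs_add_le _ _).trans ?_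
  rw [abs_mul, abs_mul]
  calc |a| * |b - b'| + |a - a'| * |b'| ≤
      M ^ j * (k * M ^ (k - 1) * δ) + (j * M ^ (j - 1) * δ) * M ^ k := by gcongr
    _ = (M ^ j * ((k : ℝ) * M ^ (k - 1))) * δ + ((j : ℝ) * M ^ (j - 1) * M ^ k) * δ := by ring
    _ = _ := by rw [e1, e2]; push_cast; ring

private lemma fl_pow (M δ : ℝ) (hM : 0 ≤ M) (hδ : 0 ≤ δ) (x y : ℝ) (hx : |x| ≤ M) (hy : |y| ≤ M)
    (h : |x - y| ≤ δ) (n : ℕ) : |x ^ n - y ^ n| ≤ n * M ^ (n - 1) * δ := by
  induction n with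
  | zero => simp
  | succ n ih =>
    rw [pow_succ, pow_succ]
    exact fl_mul M δ hM hδ n 1 _ _ _ _ (by rw [abs_pow]; gcongr) (by simpa using hy) ih
      (by simpa using h)

omit [Fintype ι] in
private lemma fl_prod (M δ : ℝ) (hM : 0 ≤ M) (hδ : 0 ≤ δ) (x y : ι → ℝ) (hx : ∀ i, |x i| ≤ M)
    (hy : ∀ i, |y i| ≤ M) (h : ∀ i, |x i - y i| ≤ δ) (m : ι → ℕ) (S : Finset ι) :
    |∏ i ∈ S, x i ^ m i| ≤ M ^ (∑ i ∈ S, m i) ∧ |∏ i ∈ S, y i ^ m i| ≤ M ^ (∑ i ∈ S, m i) ∧
    |∏ i ∈ S, x i ^ m i - ∏ i ∈ S, y i ^ m i| ≤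
      ((∑ i ∈ S, m i : ℕ) : ℝ) * M ^ (∑ i ∈ S, m i - 1) * δ := by
  induction S using Finset.induction_on with
  | empty => simp
  | insert a S ha ih =>
    obtain ⟨h1, h2, h3⟩ := ih
    rw [Finset.prod_insert ha, Finset.prod_insert ha, Finset.sum_insert ha]
    refine ⟨?_, ?_, ?_⟩
    · rw [abs_mul, abs_pow, pow_add]
      exact mul_le_mul (pow_le_pow_left₀ (abs_nonneg _) (hx a) _) h1 (abs_nonneg _) (by positivity)
    · rw [abs_mul, abs_pow, pow_add]
      exact mul_le_mul (pow_le_pow_left₀ (abs_nonneg _) (hy a) _) h2 (abs_nonneg _) (by positivity)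
    · have h4 : |x a ^ m a| ≤ M ^ m a := by
        rw [abs_pow]
        exact pow_le_pow_left₀ (abs_nonneg _) (hx a) _
      exact fl_mul M δ hM hδ _ _ _ _ _ _ h4 h2 (fl_pow M δ hM hδ _ _ (hx a) (hy a) (h a) _) h3

/-- a homogeneous form is Lipschitz on `[-A P, A P]` with constant `C P^(D-1)` -/
theorem form_lip (G : MvPolynomial ι ℤ) (D : ℕ) (hG : G.IsHomogeneous D) (hD : 1 ≤ D) (A : ℕ) :
    ∃ C : ℝ, 0 < C ∧ ∀ P : ℕ, 1 ≤ P → ∀ x y : ι → ℝ, (∀ i, |x i| ≤ A * P) →
      (∀ i, |y i| ≤ A * P) → ∀ δ : ℝ, 0 ≤ δ → (∀ i, |x i - y i| ≤ δ) →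
      |MvPolynomial.aeval x G - MvPolynomial.aeval y G| ≤ C * (P : ℝ) ^ (D - 1) * δ := by
  set W : ℝ := ∑ m ∈ G.support, |((G.coeff m : ℤ) : ℝ)| with hW
  have hW0 : 0 ≤ W := Finset.sum_nonneg fun m _ => abs_nonneg _
  refine ⟨1 + D * (A : ℝ) ^ (D - 1) * W, by positivity, ?_⟩
  intro P hP x y hx hy δ hδ h
  have hexp : ∀ z : ι → ℝ, MvPolynomial.aeval z G =
      ∑ m ∈ G.support, ((G.coeff m : ℤ) : ℝ) * ∏ i, z i ^ m i := by
    intro z
    rw [MvPolynomial.aeval_def, MvPolynomial.eval₂_eq']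
    rfl
  rw [hexp, hexp, ← Finset.sum_sub_distrib]
  refine (Finset.abs_sum_le_sum_abs _ _).trans ?_
  have hterm : ∀ m ∈ G.support, |((G.coeff m : ℤ) : ℝ) * ∏ i, x i ^ m i -
      ((G.coeff m : ℤ) : ℝ) * ∏ i, y i ^ m i| ≤
      |((G.coeff m : ℤ) : ℝ)| * (D * ((A : ℝ) * P) ^ (D - 1) * δ) := by
    intro m hm
    have hdeg : ∑ i, m i = D := by
      by_contra hne
      rw [MvPolynomial.mem_support_iff] at hm
      apply hm
      apply hG.coeff_eq_zero
      rwa [Finsupp.degree_eq_sum]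
    rw [← mul_sub, abs_mul]
    apply mul_le_mul_of_nonneg_left _ (abs_nonneg _)
    have h1 := (fl_prod ((A : ℝ) * P) δ (by positivity) hδ x y hx hy h m Finset.univ).2.2
    rwa [hdeg] at h1
  refine (Finset.sum_le_sum hterm).trans ?_
  rw [← Finset.sum_mul, ← hW, mul_pow]
  have h2 : 0 ≤ (P : ℝ) ^ (D - 1) * δ := by positivity
  calc W * (D * ((A : ℝ) ^ (D - 1) * (P : ℝ) ^ (D - 1)) * δ) =
      (D * (A : ℝ) ^ (D - 1) * W) * ((P : ℝ) ^ (D - 1) * δ) := by ring
    _ ≤ (1 + D * (A : ℝ) ^ (D - 1) * W) * ((P : ℝ) ^ (D - 1) * δ) := by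
        apply mul_le_mul_of_nonneg_right _ h2
        linarith
    _ = _ := by ring

end Pool.Agent.Lib.MP_c0a553_nt
end

section

/-! # Approximation on the major arcs (job HP-20) -/

namespace Pool.Agent.Lib.MP_c0a553_nt

open Finset

variable {ι : Type} [Fintype ι] [DecidableEq ι]

private lemma ap_e_lip (x y : ℝ) : ‖e x - e y‖ ≤ 2 * Real.pi * |x - y| := by
  have h1 : e x - e y = e y * (e (x - y) - 1) := by
    have h2 : e x = e y * e (x - y) := by rw [← e_add]; congr 1; ring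
    rw [h2]; ring
  rw [h1, norm_mul, norm_e, one_mul]
  have h3 : e (x - y) = Complex.exp (Complex.I * ((2 * Real.pi * (x - y) : ℝ) : ℂ)) := by
    rw [e]
    congr 1
    push_cast
    ring
  rw [h3]
  refine Real.norm_exp_I_mul_ofReal_sub_one_le.trans (le_of_eq ?_)
  rw [Real.norm_eq_abs, abs_mul, abs_of_pos (by positivity : (0:ℝ) < 2 * Real.pi)]

omit [Fintype ι] [DecidableEq ι] in
/-- values at congruent points are congruent -/
private lemma ap_congr (G : MvPolynomial ι ℤ) (q : ℕ) (y y' : ι → ℤ)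
    (h : ∀ i, (q : ℤ) ∣ y i - y' i) : (q : ℤ) ∣ fn G y - fn G y' := by
  have key : ∀ y : ι → ℤ, ((fn G y : ℤ) : ZMod q) =
      MvPolynomial.aeval (fun i => ((y i : ℤ) : ZMod q)) G := by
    intro y
    exact (MvPolynomial.aeval_algebraMap_apply (R := ℤ) (A := ℤ) (ZMod q) y G).symm
  have h2 : (fun i => ((y i : ℤ) : ZMod q)) = fun i => ((y' i : ℤ) : ZMod q) := by
    funext i
    exact ((ZMod.intCast_eq_intCast_iff_dvd_sub _ _ _).2 (by
      have := (dvd_neg.2 (h i)); rwa [neg_sub] at this))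
  have h3 : ((fn G y : ℤ) : ZMod q) = ((fn G y' : ℤ) : ZMod q) := by rw [key, key, h2]
  have h4 := (ZMod.intCast_eq_intCast_iff_dvd_sub _ _ _).1 h3
  have := dvd_neg.2 h4
  rwa [neg_sub] at this

omit [Fintype ι] [DecidableEq ι] in
private lemma ap_real (G : MvPolynomial ι ℤ) (x : ι → ℤ) :
    ((fn G x : ℤ) : ℝ) = MvPolynomial.aeval (fun i => ((x i : ℤ) : ℝ)) G :=
  (MvPolynomial.aeval_algebraMap_apply (R := ℤ) (A := ℤ) ℝ x G).symm

/-- shift of the complete sum -/
private lemma ap_complete (G : MvPolynomial ι ℤ) (q : ℕ) (hq : 1 ≤ q) (a : ℤ) (x : ι → ℤ) :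
    ∑ z ∈ Fintype.piFinset (fun _ : ι => Finset.range q),
      e ((a : ℝ) * fn G (fun i => x i + (z i : ℤ)) / q) = Sc (fn G) q a := by
  have hq0 : (0 : ℤ) < q := by exact_mod_cast hq
  have hqr : (q : ℝ) ≠ 0 := by positivity
  unfold Sc
  refine Finset.sum_bij' (fun z _ => fun i => ((x i + (z i : ℤ)) % q).toNat)
    (fun w _ => fun i => (((w i : ℤ) - x i) % q).toNat) ?_ ?_ ?_ ?_ ?_
  · intro z _
    rw [Fintype.mem_piFinset]
    intro i
    rw [Finset.mem_range]
    have h1 := Int.emod_lt_of_pos (x i + (z i : ℤ)) hq0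
    have h2 := Int.emod_nonneg (x i + (z i : ℤ)) hq0.ne'
    omega
  · intro z _
    rw [Fintype.mem_piFinset]
    intro i
    rw [Finset.mem_range]
    have h1 := Int.emod_lt_of_pos ((z i : ℤ) - x i) hq0
    have h2 := Int.emod_nonneg ((z i : ℤ) - x i) hq0.ne'
    omega
  · intro z hz
    rw [Fintype.mem_piFinset] at hz
    funext i
    have h0 := Finset.mem_range.1 (hz i)
    have h2 := Int.emod_nonneg (x i + (z i : ℤ)) hq0.ne'
    dsimp only
    rw [Int.toNat_of_nonneg h2, Int.emod_sub_emod, add_sub_cancel_left,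
      Int.emod_eq_of_lt (by positivity) (by exact_mod_cast h0), Int.toNat_natCast]
  · intro z hz
    rw [Fintype.mem_piFinset] at hz
    funext i
    have h0 := Finset.mem_range.1 (hz i)
    have h2 := Int.emod_nonneg ((z i : ℤ) - x i) hq0.ne'
    dsimp only
    rw [Int.toNat_of_nonneg h2, Int.add_emod_emod, add_sub_cancel,
      Int.emod_eq_of_lt (by positivity) (by exact_mod_cast h0), Int.toNat_natCast]
  · intro z _
    have hd : (q : ℤ) ∣ fn G (fun i => x i + (z i : ℤ)) -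
        fn G (fun i => ((((x i + (z i : ℤ)) % q).toNat : ℕ) : ℤ)) := by
      apply ap_congr
      intro i
      have h2 := Int.emod_nonneg (x i + (z i : ℤ)) hq0.ne'
      rw [Int.toNat_of_nonneg h2]
      exact Int.dvd_self_sub_emod
    obtain ⟨c, hc⟩ := hd
    have h3 : fn G (fun i => x i + (z i : ℤ)) =
        fn G (fun i => ((((x i + (z i : ℤ)) % q).toNat : ℕ) : ℤ)) + q * c := by linarith
    rw [h3]
    have h4 : (a : ℝ) * ((fn G (fun i => ((((x i + (z i : ℤ)) % q).toNat : ℕ) : ℤ)) +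
        q * c : ℤ) : ℝ) / q = (a : ℝ) * (fn G (fun i => ((((x i + (z i : ℤ)) % q).toNat : ℕ) : ℤ)) :
        ℝ) / q + ((a * c : ℤ) : ℝ) := by
      push_cast
      field_simp
    rw [h4, e_add_int]

/-- shift of a box -/
private lemma ap_shift (L H : ι → ℤ) (M q : ℕ) (hM : ∀ i, (Finset.Ioc (L i) (H i)).card ≤ M)
    (z : ι → ℤ) (hz0 : ∀ i, 0 ≤ z i) (hz : ∀ i, z i ≤ q) (f : (ι → ℤ) → ℂ)
    (hf : ∀ x, ‖f x‖ ≤ 1) :
    ‖∑ x ∈ Fintype.piFinset (fun i => Finset.Ioc (L i) (H i)), f (fun i => x i + z i) -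
      ∑ x ∈ Fintype.piFinset (fun i => Finset.Ioc (L i) (H i)), f x‖ ≤
      2 * (Fintype.card ι * (q * (M : ℝ) ^ (Fintype.card ι - 1))) := by
  classical
  set B := Fintype.piFinset (fun i => Finset.Ioc (L i) (H i)) with hB
  set g : (ι → ℤ) → (ι → ℤ) := fun x i => x i + z i with hg
  have hginj : Function.Injective g := by
    intro x y hxy
    funext i
    have := congrFun hxy i
    simp only [hg] at this
    linarith
  set B' := B.image g with hB'
  have h1 : ∑ x ∈ B, f (fun i => x i + z i) = ∑ y ∈ B', f y := by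
    rw [hB', Finset.sum_image (fun x _ y _ h => hginj h)]
  have hcard : B'.card = B.card := Finset.card_image_of_injective _ hginj
  rw [h1, ← Finset.sum_sdiff_sub_sum_sdiff]
  have h2 : ‖∑ x ∈ B' \ B, f x‖ ≤ (B' \ B).card := by
    refine (norm_sum_le _ _).trans ?_
    refine (Finset.sum_le_card_nsmul _ _ 1 (fun x _ => hf x)).trans ?_
    simp
  have h3 : ‖∑ x ∈ B \ B', f x‖ ≤ (B \ B').card := by
    refine (norm_sum_le _ _).trans ?_
    refine (Finset.sum_le_card_nsmul _ _ 1 (fun x _ => hf x)).trans ?_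
    simp
  have h4 : (B' \ B).card = (B \ B').card := Finset.card_sdiff_comm hcard
  have h5 : (B \ B').card ≤ Fintype.card ι * (q * M ^ (Fintype.card ι - 1)) := by
    have hsub : B \ B' ⊆ Finset.univ.biUnion (fun i => Fintype.piFinset
        (Function.update (fun j => Finset.Ioc (L j) (H j)) i (Finset.Ioc (L i) (L i + q)))) := by
      intro x hx
      rw [Finset.mem_sdiff] at hx
      obtain ⟨hxB, hxB'⟩ := hx
      have hnot : (fun i => x i - z i) ∉ B := by
        intro hmem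
        apply hxB'
        rw [hB', Finset.mem_image]
        refine ⟨_, hmem, ?_⟩
        funext i
        simp [hg]
      rw [hB, Fintype.mem_piFinset] at hnot hxB
      push Not at hnot
      obtain ⟨i, hi⟩ := hnot
      rw [Finset.mem_biUnion]
      refine ⟨i, Finset.mem_univ _, ?_⟩
      rw [Fintype.mem_piFinset]
      intro j
      by_cases hj : j = i
      · subst hj
        rw [Function.update_self]
        have h6 := Finset.mem_Ioc.1 (hxB j)
        rw [Finset.mem_Ioc] at hi ⊢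
        have h7 := hz0 j
        have h8 := hz j
        push Not at hi
        refine ⟨h6.1, ?_⟩
        by_contra hc
        have := hi (by omega)
        omega
      · rw [Function.update_of_ne hj]
        exact hxB j
    refine (Finset.card_le_card hsub).trans (Finset.card_biUnion_le.trans ?_)
    refine (Finset.sum_le_card_nsmul _ _ (q * M ^ (Fintype.card ι - 1)) ?_).trans ?_
    · intro i _
      rw [Fintype.card_piFinset, ← Finset.mul_prod_erase Finset.univ _ (Finset.mem_univ i),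
        Function.update_self]
      apply Nat.mul_le_mul
      · simp
      · refine (Finset.prod_le_pow_card _ _ M ?_).trans ?_
        · intro j hj
          rw [Function.update_of_ne (Finset.ne_of_mem_erase hj)]
          exact hM j
        · rw [Finset.card_erase_of_mem (Finset.mem_univ i), Finset.card_univ]
    · simp
  have h6 : ((B \ B').card : ℝ) ≤ Fintype.card ι * (q * (M : ℝ) ^ (Fintype.card ι - 1)) := by
    exact_mod_cast h5
  calc ‖∑ x ∈ B' \ B, f x - ∑ x ∈ B \ B', f x‖ ≤ ‖∑ x ∈ B' \ B, f x‖ + ‖∑ x ∈ B \ B', f x‖ :=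
        norm_sub_le _ _
    _ ≤ (B' \ B).card + (B \ B').card := add_le_add h2 h3
    _ = 2 * (B \ B').card := by rw [h4]; ring
    _ ≤ _ := by linarith

theorem major_approx (G : MvPolynomial ι ℤ) (D : ℕ) (hG : G.IsHomogeneous D) (hD : 1 ≤ D)
    (lo hi : ι → ℝ) (hlo : ∀ i, lo i ≤ hi i) :
    ∃ C : ℝ, 0 < C ∧ ∀ P : ℕ, 1 ≤ P → ∀ q : ℕ, 1 ≤ q → q ≤ P → ∀ (a : ℤ) (β : ℝ),
      ‖S (fn G) P lo hi ((a : ℝ) / q + β)
          - Sc (fn G) q a / (q : ℂ) ^ Fintype.card ι * S (fn G) P lo hi β‖ * P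
        ≤ C * q * (1 + |β| * (P : ℝ) ^ D) * (P : ℝ) ^ (Fintype.card ι) := by
  classical
  obtain ⟨A, hA⟩ : ∃ A : ℕ, ∀ i, |lo i| + |hi i| + 2 ≤ A := by
    refine ⟨⌈∑ i, (|lo i| + |hi i|) + 2⌉₊, fun i => ?_⟩
    have h1 := Finset.single_le_sum (f := fun i => |lo i| + |hi i|)
      (fun j _ => by positivity) (Finset.mem_univ i)
    have h2 := Nat.le_ceil (∑ i, (|lo i| + |hi i|) + 2)
    linarith
  obtain ⟨C1, hC1, hlip⟩ := form_lip G D hG hD A
  set n := Fintype.card ι with hn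
  have hpi := Real.pi_pos
  refine ⟨2 * n * (A : ℝ) ^ (n - 1) + 2 * Real.pi * C1 * (A : ℝ) ^ n + 1, by positivity, ?_⟩
  intro P hP q hq hqP a β
  have hP0 : (1 : ℝ) ≤ P := by exact_mod_cast hP
  have hq0 : (1 : ℝ) ≤ q := by exact_mod_cast hq
  have hqP' : (q : ℝ) ≤ P := by exact_mod_cast hqP
  set L : ι → ℤ := fun i => ⌊(P : ℝ) * lo i⌋ with hL
  set H : ι → ℤ := fun i => ⌊(P : ℝ) * hi i⌋ with hH
  set B := box P lo hi with hB
  have hBeq : B = Fintype.piFinset (fun i => Finset.Ioc (L i) (H i)) := rfl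
  have hside : ∀ i, (Finset.Ioc (L i) (H i)).card ≤ A * P := by
    intro i
    rw [Int.card_Ioc]
    have h1 : (H i : ℝ) ≤ P * hi i := Int.floor_le _
    have h2 : (P : ℝ) * lo i < L i + 1 := Int.lt_floor_add_one _
    have h3 := hA i
    have h4 : (P : ℝ) * hi i ≤ P * |hi i| := by gcongr; exact le_abs_self _
    have h5 : -((P : ℝ) * |lo i|) ≤ P * lo i := by
      have := neg_abs_le (lo i)
      nlinarith
    have h6 : ((H i - L i : ℤ) : ℝ) ≤ ((A * P : ℕ) : ℤ) := by
      push_cast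
      nlinarith
    have h7 : H i - L i ≤ ((A * P : ℕ) : ℤ) := by exact_mod_cast h6
    omega
  have hcardB : (B.card : ℝ) ≤ (A * P) ^ n := by
    have h1 : B.card ≤ (A * P) ^ n := by
      rw [hBeq, Fintype.card_piFinset]
      refine (Finset.prod_le_pow_card _ _ (A * P) (fun i _ => hside i)).trans ?_
      rw [Finset.card_univ]
    exact_mod_cast h1
  have hmem : ∀ x ∈ B, ∀ i, |(x i : ℝ)| + q ≤ A * P := by
    intro x hx i
    rw [hBeq, Fintype.mem_piFinset] at hx
    obtain ⟨h1, h2⟩ := Finset.mem_Ioc.1 (hx i)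
    have h3 : (x i : ℝ) ≤ P * hi i := (by exact_mod_cast h2 : (x i : ℝ) ≤ H i).trans
      (Int.floor_le _)
    have h4 : (P : ℝ) * lo i < x i := by
      have h5 : (P : ℝ) * lo i < L i + 1 := Int.lt_floor_add_one _
      have h6 : (L i : ℝ) + 1 ≤ x i := by exact_mod_cast h1
      linarith
    have h7 := hA i
    have h8 : (P : ℝ) * hi i ≤ P * |hi i| := by gcongr; exact le_abs_self _
    have h9 : -((P : ℝ) * |lo i|) ≤ P * lo i := by
      have := neg_abs_le (lo i)
      nlinarith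
    have h10 : 0 ≤ (P : ℝ) * |lo i| := by positivity
    have h11 : 0 ≤ (P : ℝ) * |hi i| := by positivity
    have h12 : |(x i : ℝ)| ≤ P * |lo i| + P * |hi i| := by
      rw [abs_le]
      constructor <;> linarith
    nlinarith
  set α : ℝ := (a : ℝ) / q + β with hα
  set Z := Fintype.piFinset (fun _ : ι => Finset.range q) with hZ
  have hZcard : (Z.card : ℝ) = (q : ℝ) ^ n := by
    rw [hZ, Fintype.card_piFinset]
    simp [hn]
  set T : ℂ := ∑ z ∈ Z, ∑ x ∈ B, e (α * fn G (fun i => x i + (z i : ℤ))) with hT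
  -- first estimate
  have hE1 : ‖T - (q : ℂ) ^ n * S (fn G) P lo hi α‖ ≤
      (q : ℝ) ^ n * (2 * (n * (q * ((A : ℝ) * P) ^ (n - 1)))) := by
    have h1 : (q : ℂ) ^ n * S (fn G) P lo hi α = ∑ z ∈ Z, S (fn G) P lo hi α := by
      rw [Finset.sum_const, nsmul_eq_mul]
      congr 1
      have : (Z.card : ℂ) = ((Z.card : ℝ) : ℂ) := by push_cast; rfl
      rw [this, hZcard]
      push_cast
      rfl
    rw [h1, hT, ← Finset.sum_sub_distrib]
    refine (norm_sum_le _ _).trans ?_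
    refine (Finset.sum_le_card_nsmul _ _ (2 * (n * (q * ((A : ℝ) * P) ^ (n - 1)))) ?_).trans ?_
    · intro z hz
      rw [hZ, Fintype.mem_piFinset] at hz
      have h2 := ap_shift L H (A * P) q hside (fun i => (z i : ℤ)) (fun i => by positivity)
        (fun i => by
          have := Finset.mem_range.1 (hz i)
          exact_mod_cast this.le) (fun x => e (α * fn G x)) (fun x => (norm_e _).le)
      rw [S, ← hB, hBeq]
      refine h2.trans (le_of_eq ?_)
      push_cast
      rfl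
    · rw [nsmul_eq_mul, hZcard]
  -- second estimate
  have hE2 : ‖T - Sc (fn G) q a * S (fn G) P lo hi β‖ ≤
      (q : ℝ) ^ n * ((A * P) ^ n * (2 * Real.pi * (|β| * (C1 * (P : ℝ) ^ (D - 1) * q)))) := by
    have h1 : Sc (fn G) q a * S (fn G) P lo hi β = ∑ z ∈ Z, ∑ x ∈ B,
        e ((a : ℝ) * fn G (fun i => x i + (z i : ℤ)) / q) * e (β * fn G x) := by
      rw [Finset.sum_comm, S, Finset.mul_sum]
      apply Finset.sum_congr rfl
      intro x _
      rw [← Finset.sum_mul, ap_complete G q hq a x]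
    rw [h1, hT, ← Finset.sum_sub_distrib]
    refine (norm_sum_le _ _).trans ?_
    refine (Finset.sum_le_card_nsmul _ _
      ((A * P) ^ n * (2 * Real.pi * (|β| * (C1 * (P : ℝ) ^ (D - 1) * q)))) ?_).trans ?_
    · intro z hz
      rw [hZ, Fintype.mem_piFinset] at hz
      rw [← Finset.sum_sub_distrib]
      refine (norm_sum_le _ _).trans ?_
      refine (Finset.sum_le_card_nsmul _ _
        (2 * Real.pi * (|β| * (C1 * (P : ℝ) ^ (D - 1) * q))) ?_).trans ?_
      · intro x hx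
        have h2 : e (α * fn G (fun i => x i + (z i : ℤ))) =
            e ((a : ℝ) * fn G (fun i => x i + (z i : ℤ)) / q) *
              e (β * fn G (fun i => x i + (z i : ℤ))) := by
          rw [← e_add, hα]
          congr 1
          ring
        rw [h2, ← mul_sub, norm_mul, norm_e, one_mul]
        refine (ap_e_lip _ _).trans ?_
        apply mul_le_mul_of_nonneg_left _ (by positivity)
        rw [← mul_sub, abs_mul]
        apply mul_le_mul_of_nonneg_left _ (abs_nonneg _)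
        rw [ap_real, ap_real]
        have hzi : ∀ i, (z i : ℝ) ≤ q := fun i => by
          have := Finset.mem_range.1 (hz i)
          exact_mod_cast this.le
        apply hlip P hP _ _ _ _ q (by positivity)
        · intro i
          push_cast
          rw [add_sub_cancel_left, abs_of_nonneg (by positivity)]
          exact hzi i
        · intro i
          push_cast
          have h3 := hmem x hx i
          have h4 := abs_add_le (x i : ℝ) (z i : ℝ)
          rw [abs_of_nonneg (by positivity : (0:ℝ) ≤ z i)] at h4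
          have := hzi i
          linarith
        · intro i
          have h3 := hmem x hx i
          linarith
      · rw [nsmul_eq_mul]
        apply mul_le_mul_of_nonneg_right hcardB (by positivity)
    · rw [nsmul_eq_mul, hZcard]
  -- conclusion
  have hqn : (0 : ℝ) < (q : ℝ) ^ n := by positivity
  have hqnC : ((q : ℂ) ^ n) ≠ 0 := by
    have : (q : ℂ) ≠ 0 := by
      exact_mod_cast (by omega : q ≠ 0)
    exact pow_ne_zero _ this
  have h1 : ‖S (fn G) P lo hi α - Sc (fn G) q a / (q : ℂ) ^ n * S (fn G) P lo hi β‖ * (q : ℝ) ^ n ≤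
      (q : ℝ) ^ n * (2 * (n * (q * ((A : ℝ) * P) ^ (n - 1)))) +
      (q : ℝ) ^ n * ((A * P) ^ n * (2 * Real.pi * (|β| * (C1 * (P : ℝ) ^ (D - 1) * q)))) := by
    have h2 : (S (fn G) P lo hi α - Sc (fn G) q a / (q : ℂ) ^ n * S (fn G) P lo hi β) *
        (q : ℂ) ^ n = (T - Sc (fn G) q a * S (fn G) P lo hi β) -
          (T - (q : ℂ) ^ n * S (fn G) P lo hi α) := by
      field_simp
      ring
    have h3 : ‖(q : ℂ) ^ n‖ = (q : ℝ) ^ n := by
      rw [norm_pow, Complex.norm_natCast]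
    calc _ = ‖(S (fn G) P lo hi α - Sc (fn G) q a / (q : ℂ) ^ n * S (fn G) P lo hi β) *
        (q : ℂ) ^ n‖ := by rw [norm_mul, h3]
      _ ≤ ‖T - Sc (fn G) q a * S (fn G) P lo hi β‖ +
          ‖T - (q : ℂ) ^ n * S (fn G) P lo hi α‖ := by rw [h2]; exact norm_sub_le _ _
      _ ≤ _ := by linarith
  have h2 : ‖S (fn G) P lo hi α - Sc (fn G) q a / (q : ℂ) ^ n * S (fn G) P lo hi β‖ ≤
      2 * (n * (q * ((A : ℝ) * P) ^ (n - 1))) +
      ((A * P) ^ n * (2 * Real.pi * (|β| * (C1 * (P : ℝ) ^ (D - 1) * q)))) := by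
    rw [← mul_add, mul_comm ((q : ℝ) ^ n)] at h1
    exact le_of_mul_le_mul_right h1 hqn
  have e1 : (n : ℝ) * (((A : ℝ) * P) ^ (n - 1) * P) = n * (A : ℝ) ^ (n - 1) * (P : ℝ) ^ n := by
    rcases n with _ | n
    · simp
    · rw [Nat.add_sub_cancel, mul_pow, pow_succ]; ring
  have e2 : (P : ℝ) ^ (D - 1) * P = (P : ℝ) ^ D := by
    rw [← pow_succ, Nat.sub_add_cancel hD]
  calc ‖S (fn G) P lo hi α - Sc (fn G) q a / (q : ℂ) ^ n * S (fn G) P lo hi β‖ * P ≤
      (2 * (n * (q * ((A : ℝ) * P) ^ (n - 1))) +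
      ((A * P) ^ n * (2 * Real.pi * (|β| * (C1 * (P : ℝ) ^ (D - 1) * q))))) * P :=
        mul_le_mul_of_nonneg_right h2 (by positivity)
    _ = 2 * q * (n * (((A : ℝ) * P) ^ (n - 1) * P)) +
        ((A : ℝ) * P) ^ n * (2 * Real.pi * C1) * |β| * ((P : ℝ) ^ (D - 1) * P) * q := by ring
    _ = (2 * n * (A : ℝ) ^ (n - 1)) * q * (P : ℝ) ^ n +
        (2 * Real.pi * C1 * (A : ℝ) ^ n) * q * (|β| * (P : ℝ) ^ D) * (P : ℝ) ^ n := by
        rw [e1, e2, mul_pow]; ring
    _ ≤ _ := by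
        have g1 : 0 ≤ (q : ℝ) * (P : ℝ) ^ n := by positivity
        have g2 : 0 ≤ |β| * (P : ℝ) ^ D := by positivity
        have g3 : 0 ≤ (2 * n * (A : ℝ) ^ (n - 1)) := by positivity
        have g4 : 0 ≤ (2 * Real.pi * C1 * (A : ℝ) ^ n) := by positivity
        have g5 : (2 * n * (A : ℝ) ^ (n - 1)) + (2 * Real.pi * C1 * (A : ℝ) ^ n) *
            (|β| * (P : ℝ) ^ D) ≤ (2 * n * (A : ℝ) ^ (n - 1) + 2 * Real.pi * C1 * (A : ℝ) ^ n + 1) *
            (1 + |β| * (P : ℝ) ^ D) := by nlinarith [mul_nonneg g3 g2]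
        calc _ = ((2 * n * (A : ℝ) ^ (n - 1)) + (2 * Real.pi * C1 * (A : ℝ) ^ n) *
            (|β| * (P : ℝ) ^ D)) * (q * (P : ℝ) ^ n) := by ring
          _ ≤ _ := mul_le_mul_of_nonneg_right g5 g1
          _ = _ := by ring

end Pool.Agent.Lib.MP_c0a553_nt
end

section

/-! # Many lattice points near a nonsingular real zero (job HP-23) -/

namespace Pool.Agent.Lib.MP_c0a553_nt

open Finset

variable {ι : Type} [Fintype ι] [DecidableEq ι]

omit [DecidableEq ι] in
private lemma rl_expand (G : MvPolynomial ι ℤ) (z : ι → ℝ) : MvPolynomial.aeval z G =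
    ∑ m ∈ G.support, ((G.coeff m : ℤ) : ℝ) * ∏ i, z i ^ m i := by
  rw [MvPolynomial.aeval_def, MvPolynomial.eval₂_eq']
  rfl

omit [DecidableEq ι] in
private lemma rl_hom (G : MvPolynomial ι ℤ) (D : ℕ) (hG : G.IsHomogeneous D) (P : ℝ)
    (z : ι → ℝ) : MvPolynomial.aeval (fun i => P * z i) G = P ^ D * MvPolynomial.aeval z G := by
  rw [rl_expand, rl_expand, Finset.mul_sum]
  refine Finset.sum_congr rfl fun m hm => ?_
  have hdeg : ∑ i, m i = D := by
    by_contra hne
    rw [MvPolynomial.mem_support_iff] at hm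
    apply hm
    apply hG.coeff_eq_zero
    rwa [Finsupp.degree_eq_sum]
  simp_rw [mul_pow]
  rw [Finset.prod_mul_distrib, Finset.prod_pow_eq_pow_sum, hdeg]
  ring

omit [DecidableEq ι] in
private lemma rl_cast (G : MvPolynomial ι ℤ) (x : ι → ℤ) :
    ((fn G x : ℤ) : ℝ) = MvPolynomial.aeval (fun i => (x i : ℝ)) G := by
  rw [rl_expand, fn, MvPolynomial.eval_eq']
  push_cast
  rfl

omit [DecidableEq ι] in
private lemma rl_cont (G : MvPolynomial ι ℤ) :
    Continuous fun x : ι → ℝ => MvPolynomial.aeval x G := by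
  simp_rw [rl_expand]
  fun_prop

omit [Fintype ι] in
private lemma rl_deriv (G : MvPolynomial ι ℤ) (z : ι → ℝ) (i : ι) (t : ℝ) :
    HasDerivAt (fun s => MvPolynomial.aeval (Function.update z i s) G)
      (MvPolynomial.aeval (Function.update z i t) (MvPolynomial.pderiv i G)) t := by
  induction G using MvPolynomial.induction_on with
  | C a => simpa using hasDerivAt_const t ((algebraMap ℤ ℝ) a)
  | add p q hp hq =>
    simp only [map_add]
    exact hp.add hq
  | mul_X p n hp =>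
    simp only [map_mul, Derivation.leibniz, map_add, smul_eq_mul, MvPolynomial.aeval_X]
    have hX : HasDerivAt (fun s => Function.update z i s n)
        (MvPolynomial.aeval (Function.update z i t) (MvPolynomial.pderiv i
          (MvPolynomial.X n : MvPolynomial ι ℤ))) t := by
      by_cases h : n = i
      · subst h
        simpa using hasDerivAt_id' t
      · simpa [Function.update_of_ne h, MvPolynomial.pderiv_X_of_ne h] using
          hasDerivAt_const t (z n)
    have := hp.mul hX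
    rw [add_comm, mul_comm (MvPolynomial.aeval (Function.update z i t) p)] at this
    rw [mul_comm (MvPolynomial.aeval (Function.update z i t) (MvPolynomial.pderiv i p))] at this
    rw [add_comm, mul_comm (MvPolynomial.aeval (Function.update z i t) p)]
    first
    | exact this
    | (rw [add_comm]; exact this)

omit [DecidableEq ι] in
private lemma rl_nbhd (f : (ι → ℝ) → ℝ) (hf : Continuous f) (y : ι → ℝ) (hy : 0 < f y) (ε : ℝ)
    (hε : 0 < ε) : ∃ ρ : ℝ, 0 < ρ ∧ ρ ≤ ε ∧ ∀ x : ι → ℝ, (∀ i, |x i - y i| ≤ ρ) → 0 < f x := by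
  have h := (isOpen_lt continuous_const hf).mem_nhds hy
  obtain ⟨r, hr, h⟩ := Metric.nhds_basis_closedBall.mem_iff.mp h
  refine ⟨min r ε, lt_min hr hε, min_le_right _ _, fun x hx => ?_⟩
  apply h
  rw [Metric.mem_closedBall, dist_pi_le_iff hr.le]
  intro i
  rw [Real.dist_eq]
  exact (hx i).trans (min_le_left _ _)

/-- the geometric part -/
private lemma rl_geom (G : MvPolynomial ι ℤ)
    (y : ι → ℝ) (hy : MvPolynomial.aeval y G = 0) (i₀ : ι)
    (hi₀ : 0 < MvPolynomial.aeval y (MvPolynomial.pderiv i₀ G)) (ε : ℝ) (hε : 0 < ε) :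
    ∃ ρ : ℝ, 0 < ρ ∧ ρ ≤ ε ∧ ∃ ρ' : ℝ, 0 < ρ' ∧ ρ' ≤ ρ ∧
      ∀ z : ι → ℝ, (∀ j, j ≠ i₀ → |z j - y j| ≤ ρ') →
        ∃ r : ℝ, y i₀ - ρ ≤ r ∧ r ≤ y i₀ + ρ ∧
          MvPolynomial.aeval (Function.update z i₀ r) G = 0 := by
  obtain ⟨ρ, hρ, hρε, hpos⟩ := rl_nbhd _ (rl_cont (MvPolynomial.pderiv i₀ G)) y hi₀ ε hε
  have hmono : StrictMonoOn (fun s => MvPolynomial.aeval (Function.update y i₀ s) G)
      (Set.Icc (y i₀ - ρ) (y i₀ + ρ)) := by
    apply strictMonoOn_of_deriv_pos (convex_Icc _ _)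
    · exact (continuous_iff_continuousAt.mpr fun t =>
        (rl_deriv G y i₀ t).continuousAt).continuousOn
    · intro t ht
      rw [interior_Icc] at ht
      rw [(rl_deriv G y i₀ t).deriv]
      apply hpos
      intro i
      by_cases h : i = i₀
      · subst h
        simp only [Function.update_self]
        rw [abs_le]
        constructor <;> linarith [ht.1, ht.2]
      · simp only [Function.update_of_ne h, sub_self, abs_zero]
        exact hρ.le
  have h0 : MvPolynomial.aeval (Function.update y i₀ (y i₀)) G = 0 := by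
    rw [Function.update_eq_self, hy]
  have hlo : MvPolynomial.aeval (Function.update y i₀ (y i₀ - ρ)) G < 0 := by
    rw [← h0]
    exact hmono ⟨le_refl _, by linarith⟩ ⟨by linarith, by linarith⟩ (by linarith)
  have hhi : 0 < MvPolynomial.aeval (Function.update y i₀ (y i₀ + ρ)) G := by
    rw [← h0]
    exact hmono ⟨by linarith, by linarith⟩ ⟨by linarith, le_refl _⟩ (by linarith)
  have hcu : ∀ s : ℝ, Continuous fun x : ι → ℝ =>
      MvPolynomial.aeval (Function.update x i₀ s) G := by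
    intro s
    exact (rl_cont G).comp (continuous_id.update i₀ continuous_const)
  obtain ⟨ρ₁, h1, h1', hp1⟩ := rl_nbhd
    (fun x => -MvPolynomial.aeval (Function.update x i₀ (y i₀ - ρ)) G) (hcu _).neg y
    (by simpa using hlo) ρ hρ
  obtain ⟨ρ₂, h2, h2', hp2⟩ := rl_nbhd
    (fun x => MvPolynomial.aeval (Function.update x i₀ (y i₀ + ρ)) G) (hcu _) y hhi ρ hρ
  refine ⟨ρ, hρ, hρε, min ρ₁ ρ₂, lt_min h1 h2, (min_le_left _ _).trans h1', ?_⟩
  intro z hz
  have hz' : ∀ i, |Function.update z i₀ (y i₀) i - y i| ≤ min ρ₁ ρ₂ := by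
    intro i
    by_cases h : i = i₀
    · subst h
      simp [h1.le, h2.le]
    · rw [Function.update_of_ne h]
      exact hz i h
  have e1 := hp1 _ fun i => (hz' i).trans (min_le_left _ _)
  have e2 := hp2 _ fun i => (hz' i).trans (min_le_right _ _)
  simp only [Function.update_idem] at e1 e2
  have hc : ContinuousOn (fun s => MvPolynomial.aeval (Function.update z i₀ s) G)
      (Set.Icc (y i₀ - ρ) (y i₀ + ρ)) :=
    (continuous_iff_continuousAt.mpr fun t => (rl_deriv G z i₀ t).continuousAt).continuousOn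
  have hivt := intermediate_value_Icc (by linarith : y i₀ - ρ ≤ y i₀ + ρ) hc
  obtain ⟨r, hr, hr0⟩ := hivt ⟨by linarith, e2.le⟩
  exact ⟨r, hr.1, hr.2, hr0⟩

private lemma rl_ioc (a w : ℝ) : w - 1 ≤ ((Finset.Ioc ⌊a⌋ ⌊a + w⌋).card : ℝ) := by
  rw [Int.card_Ioc]
  have h1 : ⌊a + w⌋ - ⌊a⌋ ≤ (((⌊a + w⌋ - ⌊a⌋).toNat : ℕ) : ℤ) := Int.self_le_toNat _
  have h2 : ((⌊a + w⌋ - ⌊a⌋ : ℤ) : ℝ) ≤ (((⌊a + w⌋ - ⌊a⌋).toNat : ℕ) : ℝ) := by exact_mod_cast h1
  have h3 := Int.sub_one_lt_floor (a + w)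
  have h4 := Int.floor_le a
  push_cast at h2
  linarith

private lemma rl_pos (G : MvPolynomial ι ℤ) (D : ℕ) (hG : G.IsHomogeneous D) (hD : 1 ≤ D)
    (y : ι → ℝ) (hy : MvPolynomial.aeval y G = 0) (i₀ : ι)
    (hi₀ : 0 < MvPolynomial.aeval y (MvPolynomial.pderiv i₀ G)) (ε : ℝ) (hε : 0 < ε) :
    ∃ ρ : ℝ, 0 < ρ ∧ ρ ≤ ε ∧ ∃ c : ℝ, 0 < c ∧ ∃ P₀ : ℕ, ∀ P : ℕ, P₀ ≤ P →
      c * (P : ℝ) ^ ((Fintype.card ι : ℝ) - 1 / 2) ≤
        (((box P (fun i => y i - ρ) (fun i => y i + ρ)).filter fun x =>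
          |((fn G x : ℤ) : ℝ)| ≤ (P : ℝ) ^ ((D : ℝ) - 1 / 2) / 2).card : ℝ) := by
  obtain ⟨ρ, hρ, hρε, ρ', hρ', hρρ, hroot⟩ := rl_geom G y hy i₀ hi₀ ε hε
  obtain ⟨A, hA⟩ : ∃ A : ℕ, ∀ i, |y i| + ρ ≤ A := by
    obtain ⟨A, hA⟩ := exists_nat_ge (∑ i, |y i| + ρ)
    refine ⟨A, fun i => le_trans ?_ hA⟩
    have := Finset.single_le_sum (f := fun i => |y i|) (fun i _ => abs_nonneg _)
      (Finset.mem_univ i)
    simpa using this
  obtain ⟨C, hC, hlip⟩ := form_lip G D hG hD A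
  refine ⟨ρ, hρ, hρε, ρ' ^ (Fintype.card ι - 1) / (4 * C), by positivity, ?_⟩
  have hsq : Filter.Tendsto (fun P : ℕ => Real.sqrt (P : ℝ)) Filter.atTop Filter.atTop :=
    Real.tendsto_sqrt_atTop.comp tendsto_natCast_atTop_atTop
  have ev1 := hsq.eventually_ge_atTop (4 * C)
  have ev2 := hsq.eventually_ge_atTop (1 / (2 * C * ρ))
  have ev3 := (tendsto_natCast_atTop_atTop (R := ℝ)).eventually_ge_atTop (1 / ρ')
  have ev4 := Filter.eventually_ge_atTop (α := ℕ) 1
  obtain ⟨P₀, hP₀⟩ := Filter.eventually_atTop.mp (ev1.and (ev2.and (ev3.and ev4)))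
  refine ⟨P₀, fun P hP => ?_⟩
  obtain ⟨q1, q2, q3, q4⟩ := hP₀ P hP
  have hPpos : (0 : ℝ) < P := by exact_mod_cast q4
  set w : ℝ := Real.sqrt P / (2 * C) with hw
  have hwpos : 0 < w := by positivity
  have hsqr : Real.sqrt P * Real.sqrt P = P := Real.mul_self_sqrt hPpos.le
  have hspos : 0 < Real.sqrt P := Real.sqrt_pos.mpr hPpos
  have hw2 : 2 ≤ w := by
    rw [hw, le_div_iff₀ (by positivity)]
    linarith
  have hwρ : w ≤ ρ * P := by
    rw [hw, div_le_iff₀ (by positivity)]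
    rw [div_le_iff₀ (by positivity)] at q2
    nlinarith
  have hρP : 1 ≤ ρ' * P := by
    rw [div_le_iff₀ hρ'] at q3
    linarith
  set F := (box P (fun i => y i - ρ) (fun i => y i + ρ)).filter fun x =>
          |((fn G x : ℤ) : ℝ)| ≤ (P : ℝ) ^ ((D : ℝ) - 1 / 2) / 2 with hF
  set B : Finset (ι → ℤ) := Fintype.piFinset fun j =>
    if j = i₀ then {0} else Finset.Ioc ⌊(P : ℝ) * (y j - ρ')⌋ ⌊(P : ℝ) * (y j - ρ') + 2 * ρ' * P⌋
    with hB
  -- the fibres
  have hfib : ∀ m ∈ B, ∃ a : ℝ, ∀ n ∈ Finset.Ioc ⌊a⌋ ⌊a + w⌋, Function.update m i₀ n ∈ F := by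
    intro m hm
    rw [hB, Fintype.mem_piFinset] at hm
    have hm' : ∀ j, j ≠ i₀ → (P : ℝ) * (y j - ρ') < m j ∧ (m j : ℝ) ≤ P * (y j + ρ') := by
      intro j hj
      have := hm j
      rw [if_neg hj, Finset.mem_Ioc, Int.floor_lt, Int.le_floor] at this
      refine ⟨this.1, this.2.trans (le_of_eq ?_)⟩
      ring
    obtain ⟨r, hr1, hr2, hr0⟩ := hroot (fun j => (m j : ℝ) / P) (by
      intro j hj
      obtain ⟨h1, h2⟩ := hm' j hj
      rw [abs_le]
      constructor
      · rw [le_sub_iff_add_le, le_div_iff₀ hPpos]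
        linarith
      · rw [sub_le_iff_le_add, div_le_iff₀ hPpos]
        linarith)
    obtain ⟨a, ha1, ha2, ha3, ha4⟩ : ∃ a : ℝ, P * (y i₀ - ρ) ≤ a ∧ a + w ≤ P * (y i₀ + ρ) ∧
        P * r - w ≤ a ∧ a ≤ P * r := by
      by_cases hc : r ≤ y i₀
      · refine ⟨P * r, by gcongr, ?_, by linarith, le_refl _⟩
        nlinarith
      · refine ⟨P * r - w, ?_, ?_, le_refl _, by linarith⟩
        · push Not at hc
          nlinarith
        · nlinarith
    refine ⟨a, fun n hn => ?_⟩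
    rw [Finset.mem_Ioc, Int.floor_lt, Int.le_floor] at hn
    have hnr : |(n : ℝ) - P * r| ≤ w := by
      rw [abs_le]
      constructor <;> linarith [hn.1, hn.2]
    rw [hF, Finset.mem_filter, box, Fintype.mem_piFinset]
    have hmem : ∀ i, (P : ℝ) * (y i - ρ) < (Function.update m i₀ n i : ℤ) ∧
        ((Function.update m i₀ n i : ℤ) : ℝ) ≤ P * (y i + ρ) := by
      intro i
      by_cases h : i = i₀
      · subst h
        rw [Function.update_self]
        exact ⟨lt_of_le_of_lt ha1 hn.1, hn.2.trans ha2⟩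
      · rw [Function.update_of_ne h]
        obtain ⟨h1, h2⟩ := hm' i h
        constructor
        · nlinarith
        · nlinarith
    refine ⟨fun i => ?_, ?_⟩
    · rw [Finset.mem_Ioc, Int.floor_lt, Int.le_floor]
      exact hmem i
    · rw [rl_cast]
      have hx : ∀ i, |((Function.update m i₀ n i : ℤ) : ℝ)| ≤ A * P := by
        intro i
        obtain ⟨h1, h2⟩ := hmem i
        have h3 := hA i
        rw [abs_le]
        constructor
        · nlinarith [neg_abs_le (y i)]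
        · nlinarith [le_abs_self (y i)]
      have hy' : ∀ i, |P * Function.update (fun j => (m j : ℝ) / P) i₀ r i| ≤ A * P := by
        intro i
        by_cases h : i = i₀
        · subst h
          rw [Function.update_self]
          have h3 := hA i
          rw [abs_le]
          constructor
          · nlinarith [neg_abs_le (y i)]
          · nlinarith [le_abs_self (y i)]
        · rw [Function.update_of_ne h]
          have := hx i
          rw [Function.update_of_ne h] at this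
          rwa [mul_div_cancel₀ _ hPpos.ne']
      have hdist : ∀ i, |((Function.update m i₀ n i : ℤ) : ℝ) -
          P * Function.update (fun j => (m j : ℝ) / P) i₀ r i| ≤ w := by
        intro i
        by_cases h : i = i₀
        · subst h
          rw [Function.update_self, Function.update_self]
          exact hnr
        · rw [Function.update_of_ne h, Function.update_of_ne h, mul_div_cancel₀ _ hPpos.ne',
            sub_self, abs_zero]
          exact hwpos.le
      have key := hlip P q4 _ _ hx hy' w hwpos.le hdist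
      rw [rl_hom G D hG, hr0, mul_zero, sub_zero] at key
      refine key.trans (le_of_eq ?_)
      rw [hw, Real.sqrt_eq_rpow, Real.rpow_sub hPpos, Real.rpow_natCast]
      obtain ⟨D', rfl⟩ : ∃ D', D = D' + 1 := ⟨D - 1, by omega⟩
      have e1 : (P : ℝ) ^ (1 / 2 : ℝ) * (P : ℝ) ^ (1 / 2 : ℝ) = P := by
        rw [← Real.rpow_add hPpos]
        norm_num
      have e2 : (P : ℝ) ^ (1 / 2 : ℝ) ≠ 0 := (Real.rpow_pos_of_pos hPpos _).ne'
      rw [Nat.add_sub_cancel, pow_succ]
      field_simp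
      nlinarith [e1]
  -- counting
  have hBcard : (ρ' * P) ^ (Fintype.card ι - 1) ≤ (B.card : ℝ) := by
    rw [hB, Fintype.card_piFinset, ← Finset.mul_prod_erase _ _ (Finset.mem_univ i₀)]
    rw [if_pos rfl, Finset.card_singleton, one_mul]
    push_cast
    have : (ρ' * P) ^ (Fintype.card ι - 1) = ∏ _j ∈ Finset.univ.erase i₀, (ρ' * P : ℝ) := by
      rw [Finset.prod_const, Finset.card_erase_of_mem (Finset.mem_univ _), Finset.card_univ]
    rw [this]
    apply Finset.prod_le_prod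
    · intro j _
      positivity
    · intro j hj
      rw [if_neg (Finset.ne_of_mem_erase hj)]
      have := rl_ioc ((P : ℝ) * (y j - ρ')) (2 * ρ' * P)
      linarith
  have hcount : (B.card : ℝ) * (w / 2) ≤ (F.card : ℝ) := by
    have hsub : (F.filter fun x => Function.update x i₀ 0 ∈ B).card ≤ F.card :=
      Finset.card_filter_le _ _
    have hsum : ((F.filter fun x => Function.update x i₀ 0 ∈ B).card : ℝ) =
        ∑ b ∈ B, (((F.filter fun x => Function.update x i₀ 0 ∈ B).filter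
          fun x => Function.update x i₀ 0 = b).card : ℝ) := by
      rw [← Nat.cast_sum]
      congr 1
      apply Finset.card_eq_sum_card_fiberwise
      intro x hx
      simp only [Finset.coe_filter, Set.mem_ofPred_eq] at hx
      exact hx.2
    have hge : ∀ b ∈ B, w / 2 ≤ (((F.filter fun x => Function.update x i₀ 0 ∈ B).filter
          fun x => Function.update x i₀ 0 = b).card : ℝ) := by
      intro b hb
      obtain ⟨a, ha⟩ := hfib b hb
      have hb0 : Function.update b i₀ 0 = b := by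
        have := hb
        rw [hB, Fintype.mem_piFinset] at this
        have h0 := this i₀
        rw [if_pos rfl, Finset.mem_singleton] at h0
        conv_rhs => rw [← Function.update_eq_self i₀ b]
        rw [h0]
      have h1 : (Finset.Ioc ⌊a⌋ ⌊a + w⌋).card ≤ ((F.filter fun x => Function.update x i₀ 0 ∈ B).filter
          fun x => Function.update x i₀ 0 = b).card := by
        apply Finset.card_le_card_of_injOn (fun n => Function.update b i₀ n)
        · intro n hn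
          have h2 := ha n hn
          simp only [Finset.coe_filter, Finset.mem_filter, Set.mem_ofPred_eq,
            Function.update_idem, hb0]
          exact ⟨⟨h2, hb⟩, trivial⟩
        · intro n _ n' _ h
          have := congrFun h i₀
          simpa using this
      have h2 := rl_ioc a w
      have h3 : ((Finset.Ioc ⌊a⌋ ⌊a + w⌋).card : ℝ) ≤ (((F.filter fun x =>
        Function.update x i₀ 0 ∈ B).filter fun x => Function.update x i₀ 0 = b).card : ℝ) := by
        exact_mod_cast h1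
      linarith
    have h4 : (B.card : ℝ) * (w / 2) ≤ ∑ b ∈ B, (((F.filter fun x =>
        Function.update x i₀ 0 ∈ B).filter fun x => Function.update x i₀ 0 = b).card : ℝ) := by
      rw [← nsmul_eq_mul]
      exact Finset.card_nsmul_le_sum _ _ _ hge
    rw [← hsum] at h4
    refine h4.trans ?_
    exact_mod_cast hsub
  have hn1 : 1 ≤ Fintype.card ι := Fintype.card_pos_iff.mpr ⟨i₀⟩
  calc ρ' ^ (Fintype.card ι - 1) / (4 * C) * (P : ℝ) ^ ((Fintype.card ι : ℝ) - 1 / 2)
      = (ρ' * P) ^ (Fintype.card ι - 1) * (w / 2) := by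
        obtain ⟨N, hN⟩ : ∃ N, Fintype.card ι = N + 1 := ⟨Fintype.card ι - 1, by omega⟩
        have e3 : (P : ℝ) ^ ((Fintype.card ι : ℝ) - 1 / 2) = (P : ℝ) ^ N * Real.sqrt P := by
          rw [hN, Real.sqrt_eq_rpow, ← Real.rpow_natCast (P : ℝ) N, ← Real.rpow_add hPpos]
          congr 1
          push_cast
          ring
        rw [e3, hN, Nat.add_sub_cancel, mul_pow, hw]
        field_simp
        ring
    _ ≤ (B.card : ℝ) * (w / 2) := by gcongr
    _ ≤ (F.card : ℝ) := hcount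

/-- many lattice points near a nonsingular real zero -/
theorem real_lower (G : MvPolynomial ι ℤ) (D : ℕ) (hG : G.IsHomogeneous D) (hD : 1 ≤ D)
    (y : ι → ℝ) (hy : MvPolynomial.aeval y G = 0) (i₀ : ι)
    (hi₀ : MvPolynomial.aeval y (MvPolynomial.pderiv i₀ G) ≠ 0) (ε : ℝ) (hε : 0 < ε) :
    ∃ ρ : ℝ, 0 < ρ ∧ ρ ≤ ε ∧ ∃ c : ℝ, 0 < c ∧ ∃ P₀ : ℕ, ∀ P : ℕ, P₀ ≤ P →
      c * (P : ℝ) ^ ((Fintype.card ι : ℝ) - 1 / 2) ≤
        (((box P (fun i => y i - ρ) (fun i => y i + ρ)).filter fun x =>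
          |((fn G x : ℤ) : ℝ)| ≤ (P : ℝ) ^ ((D : ℝ) - 1 / 2) / 2).card : ℝ) := by
  rcases lt_or_gt_of_ne hi₀ with h | h
  · have h1 := rl_pos (-G) D hG.neg hD y (by simpa using hy) i₀ (by simpa using h) ε hε
    have h2 : ∀ x : ι → ℤ, fn (-G) x = - fn G x := by
      intro x
      simp [fn]
    simpa [h2] using h1
  · exact rl_pos G D hG hD y hy i₀ h ε hε

end Pool.Agent.Lib.MP_c0a553_nt
end

section

/-! # Nonsingular zeros for odd k (job HP-31) -/

namespace Pool.Agent.Lib.MP_c0a553_nt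

open Finset

theorem root_real (n : ℕ) (hn : 1 ≤ n) :
    ∃ δ : ℝ, 0 < δ ∧ ∀ z : ℝ, ‖z‖ < δ → ∃ w : ℝ, w ^ n = 1 + z := by
  refine ⟨1, one_pos, fun z hz => ⟨(1 + z) ^ ((n : ℝ)⁻¹), ?_⟩⟩
  rw [Real.norm_eq_abs, abs_lt] at hz
  exact Real.rpow_inv_natCast_pow (by linarith) (by omega)

theorem root_padic (p : ℕ) [Fact p.Prime] (n : ℕ) (hn : 1 ≤ n) :
    ∃ δ : ℝ, 0 < δ ∧ ∀ z : ℚ_[p], ‖z‖ < δ → ∃ w : ℚ_[p], w ^ n = 1 + z := by
  have hn0 : ((n : ℤ_[p]) : ℤ_[p]) ≠ 0 := by
    exact_mod_cast (by omega : n ≠ 0)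
  have hnn : 0 < ‖(n : ℤ_[p])‖ := norm_pos_iff.2 hn0
  refine ⟨min 1 (‖(n : ℤ_[p])‖ ^ 2), lt_min one_pos (by positivity), fun z hz => ?_⟩
  have hz1 : ‖z‖ ≤ 1 := (lt_of_lt_of_le hz (min_le_left _ _)).le
  have hz2 : ‖z‖ < ‖(n : ℤ_[p])‖ ^ 2 := lt_of_lt_of_le hz (min_le_right _ _)
  let z' : ℤ_[p] := ⟨z, hz1⟩
  have key := hensels_lemma (p := p) (R := ℤ_[p])
    (F := (Polynomial.X ^ n - Polynomial.C (1 + z') : Polynomial ℤ_[p])) (a := 1) (by
      have h1 : (Polynomial.X ^ n - Polynomial.C (1 + z') : Polynomial ℤ_[p]).aeval (1 : ℤ_[p]) =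
          -z' := by
        simp
      have h2 : (Polynomial.X ^ n - Polynomial.C (1 + z') : Polynomial ℤ_[p]).derivative.aeval
          (1 : ℤ_[p]) = (n : ℤ_[p]) := by
        simp [Polynomial.derivative_X_pow]
      rw [h1, h2, norm_neg]
      exact hz2)
  obtain ⟨w, hw, -⟩ := key
  refine ⟨(w : ℚ_[p]), ?_⟩
  have h3 : w ^ n = 1 + z' := by
    have h4 : (Polynomial.X ^ n - Polynomial.C (1 + z') : Polynomial ℤ_[p]).aeval w =
        w ^ n - (1 + z') := by
      simp
    rw [h4] at hw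
    exact sub_eq_zero.1 hw
  have h5 := congrArg (fun u : ℤ_[p] => (u : ℚ_[p])) h3
  simpa using h5

/-- the algebra of one step -/
private theorem odd_alg {K : Type} [Field K] (l : ℕ) (c m mij mjj q τ w : K) (hm : m ≠ 0)
    (hq : q = -2 * c * m)
    (hw : w ^ 2 = 1 + (mij ^ 2 - m * mjj) * q ^ (2 * l) * τ ^ (2 * (2 * l + 1))) :
    let b := (q * τ ^ 2) ^ (2 * l + 1)
    let a := (-(b * mij) + q ^ (l + 1) * τ ^ (2 * l + 1) * w) / m
    2 * b * c + a ^ 2 * m + 2 * a * b * mij + b ^ 2 * mjj = 0 := by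
  intro b a
  have ha : a * m = -(b * mij) + q ^ (l + 1) * τ ^ (2 * l + 1) * w := by
    simp only [a]
    field_simp
  have hb : b = q ^ (2 * l + 1) * τ ^ (2 * (2 * l + 1)) := by
    simp only [b]
    rw [mul_pow, ← pow_mul]
  have h1 : m * (2 * b * c + a ^ 2 * m + 2 * a * b * mij + b ^ 2 * mjj) =
      (a * m + b * mij) ^ 2 - (b ^ 2 * (mij ^ 2 - m * mjj) + b * q) := by
    rw [hq]
    ring
  have h2 : (a * m + b * mij) ^ 2 - (b ^ 2 * (mij ^ 2 - m * mjj) + b * q) = 0 := by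
    rw [ha]
    have h3 : (-(b * mij) + q ^ (l + 1) * τ ^ (2 * l + 1) * w + b * mij) ^ 2 =
        (q ^ (l + 1)) ^ 2 * (τ ^ (2 * l + 1)) ^ 2 * w ^ 2 := by ring
    rw [h3, hw, hb]
    ring
  rw [h2] at h1
  exact (mul_eq_zero.1 h1).resolve_left hm

/-- moving two coordinates -/
private theorem odd_quad {s : ℕ} {K : Type} [Field K] (N : Fin s → Fin s → K)
    (hN : ∀ i j, N i j = N j i) (x x'' : Fin s → K) (i j : Fin s) (a b : K)
    (hx'' : ∀ l, x'' l = x l + a * (if l = i then 1 else 0) + b * (if l = j then 1 else 0))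
    (hQ : ∑ i, ∑ j, N i j * x i * x j = 0) (hi : ∑ l, N i l * x l = 0) :
    (∑ l, N i l * x'' l = a * N i i + b * N i j) ∧
    (∑ i, ∑ j, N i j * x'' i * x'' j = 2 * b * (∑ l, N j l * x l) + a ^ 2 * N i i +
      2 * a * b * N i j + b ^ 2 * N j j) := by
  have hL : ∀ l, ∑ r, N l r * x'' r = (∑ r, N l r * x r) + a * N l i + b * N l j := by
    intro l
    have h1 : ∀ r, N l r * x'' r = N l r * x r + a * (N l r * (if r = i then 1 else 0)) +
        b * (N l r * (if r = j then 1 else 0)) := by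
      intro r
      rw [hx'']
      ring
    simp only [h1]
    rw [Finset.sum_add_distrib, Finset.sum_add_distrib, ← Finset.mul_sum, ← Finset.mul_sum]
    simp
  refine ⟨by rw [hL, hi]; ring, ?_⟩
  have h2 : ∀ y : Fin s → K, ∑ i, ∑ j, N i j * y i * y j = ∑ i, y i * ∑ j, N i j * y j := by
    intro y
    refine Finset.sum_congr rfl fun i _ => ?_
    rw [Finset.mul_sum]
    refine Finset.sum_congr rfl fun j _ => by ring
  rw [h2] at hQ ⊢
  have h3 : ∀ l, x'' l * ∑ r, N l r * x'' r =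
      x l * (∑ r, N l r * x r) + a * (N i l * x l) + b * (N j l * x l) +
      a * ((∑ r, N l r * x'' r) * (if l = i then 1 else 0)) +
      b * ((∑ r, N l r * x'' r) * (if l = j then 1 else 0)) := by
    intro l
    have h4 : x'' l * ∑ r, N l r * x'' r = x l * (∑ r, N l r * x'' r) +
        a * ((∑ r, N l r * x'' r) * (if l = i then 1 else 0)) +
        b * ((∑ r, N l r * x'' r) * (if l = j then 1 else 0)) := by
      generalize (∑ r, N l r * x'' r) = S
      rw [hx'' l]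
      ring
    rw [h4, hN i l, hN j l]
    have h5 := hL l
    generalize (∑ r, N l r * x'' r) = S at *
    rw [h5]
    ring
  simp only [h3]
  rw [Finset.sum_add_distrib, Finset.sum_add_distrib, Finset.sum_add_distrib,
    Finset.sum_add_distrib, ← Finset.mul_sum, ← Finset.mul_sum, ← Finset.mul_sum,
    ← Finset.mul_sum, hQ, hi]
  simp only [mul_ite, mul_one, mul_zero, Finset.sum_ite_eq', Finset.mem_univ, if_true]
  rw [hL i, hL j, hi, hN j i]
  ring

/-- For odd `k` a nontrivial zero over a field in which `1 + z`, `z` small, has all roots, gives a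
nonsingular zero. -/
theorem odd_nonsing {s : ℕ} (k : ℕ) (hk : Odd k) (M : Matrix (Fin s) (Fin s) ℤ) (hM : M.IsSymm)
    (hdet : M.det ≠ 0) (hdiag : ∀ i, M i i ≠ 0) (K : Type) [NontriviallyNormedField K] [CharZero K]
    (hroot : ∀ n : ℕ, 1 ≤ n → ∃ δ : ℝ, 0 < δ ∧ ∀ z : K, ‖z‖ < δ → ∃ w : K, w ^ n = 1 + z)
    (y : Fin s → K) (hy : y ≠ 0) (hz : MvPolynomial.aeval y (FF k M) = 0) :
    NonsingZero (FF k M) K := by
  classical
  obtain ⟨l, rfl⟩ := hk
  have hk0 : (2 * l + 1) ≠ 0 := by omega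
  have hkK : ((2 * l + 1 : ℕ) : K) ≠ 0 := Nat.cast_ne_zero.2 hk0
  have h2K : (2 : K) ≠ 0 := two_ne_zero
  have hQ := hz
  rw [eval_FF] at hQ
  obtain ⟨i0, hi0⟩ : ∃ i, y i ≠ 0 := by
    by_contra hc
    push Not at hc
    exact hy (funext hc)
  let x : Fin s → K := fun i => y i ^ (2 * l + 1)
  have hNsymm : ∀ i j, ((M i j : ℤ) : K) = ((M j i : ℤ) : K) := by
    intro i j
    rw [hM.apply j i]
  -- some linear form does not vanish
  obtain ⟨j, hj⟩ : ∃ j, ∑ r, (M j r : K) * x r ≠ 0 := by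
    by_contra hc
    push Not at hc
    have hdetK : (M.map (Int.cast : ℤ → K)).det ≠ 0 := by
      have h1 : (M.map (Int.cast : ℤ → K)).det = ((M.det : ℤ) : K) := by
        have h0 := RingHom.map_det (Int.castRingHom K) M
        exact h0.symm
      rw [h1]
      exact_mod_cast hdet
    have h2 := Matrix.eq_zero_of_mulVec_eq_zero hdetK (v := x) (by
      funext j
      simp only [Matrix.mulVec, dotProduct, Matrix.map_apply, Pi.zero_apply]
      exact hc j)
    have h3 := congrFun h2 i0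
    exact hi0 (pow_eq_zero_iff hk0 |>.1 h3)
  by_cases hA : ∃ i, y i ≠ 0 ∧ ∑ r, (M i r : K) * x r ≠ 0
  · obtain ⟨i, h1, h2⟩ := hA
    refine ⟨y, hz, i, ?_⟩
    rw [pderiv_FF _ M hM]
    exact mul_ne_zero (mul_ne_zero (mul_ne_zero h2K hkK) (pow_ne_zero _ h1)) h2
  push Not at hA
  have hi := hA i0 hi0
  have hyj : y j = 0 := by
    by_contra hc
    exact hj (hA j hc)
  have hij : j ≠ i0 := by
    rintro rfl
    exact hi0 hyj
  obtain ⟨c, hc⟩ : ∃ c, c = ∑ r, (M j r : K) * x r := ⟨_, rfl⟩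
  obtain ⟨m, hm⟩ : ∃ m : K, m = (M i0 i0 : K) := ⟨_, rfl⟩
  obtain ⟨mij, hmij⟩ : ∃ m : K, m = (M i0 j : K) := ⟨_, rfl⟩
  obtain ⟨mjj, hmjj⟩ : ∃ m : K, m = (M j j : K) := ⟨_, rfl⟩
  have hm0 : m ≠ 0 := by
    rw [hm]
    exact_mod_cast hdiag i0
  have hc0 : c ≠ 0 := by rw [hc]; exact hj
  obtain ⟨q, hq⟩ : ∃ q : K, q = -2 * c * m := ⟨_, rfl⟩
  have hq0 : q ≠ 0 := by
    rw [hq]
    exact mul_ne_zero (mul_ne_zero (neg_ne_zero.2 h2K) hc0) hm0
  have hxi : x i0 ≠ 0 := pow_ne_zero _ hi0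
  obtain ⟨δ2, hδ2, hr2⟩ := hroot 2 (by norm_num)
  obtain ⟨δk, hδk, hrk⟩ := hroot (2 * l + 1) (by omega)
  -- the constants
  obtain ⟨C1, hC1⟩ : ∃ C1 : ℝ, C1 = ‖(mij ^ 2 - m * mjj) * q ^ (2 * l)‖ := ⟨_, rfl⟩
  obtain ⟨C2, hC2⟩ : ∃ C2 : ℝ, C2 = (‖q ^ (2 * l + 1) * mij‖ + 2 * ‖q ^ (l + 1)‖) / ‖m‖ / ‖x i0‖ :=
    ⟨_, rfl⟩
  have hC1p : 0 ≤ C1 := by rw [hC1]; positivity
  have hC2p : 0 ≤ C2 := by rw [hC2]; positivity
  obtain ⟨ε, hε⟩ : ∃ ε : ℝ, ε = min 1 (min (min δ2 1 / (C1 + 1)) (min δk 1 / (C2 + 1))) := ⟨_, rfl⟩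
  have hεp : 0 < ε := by
    rw [hε]
    positivity
  obtain ⟨τ, hτ0, hτ⟩ := NormedField.exists_norm_lt K hεp
  have hτ0' : τ ≠ 0 := norm_pos_iff.1 hτ0
  have hτ1 : ‖τ‖ ≤ 1 := by
    refine hτ.le.trans ?_
    rw [hε]
    exact min_le_left _ _
  have hτ2 : C1 * ‖τ‖ < min δ2 1 := by
    have h1 : ‖τ‖ < min δ2 1 / (C1 + 1) := by
      refine hτ.trans_le ?_
      rw [hε]
      exact (min_le_right _ _).trans (min_le_left _ _)
    rw [lt_div_iff₀ (by positivity)] at h1
    nlinarith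
  have hτ3 : C2 * ‖τ‖ < min δk 1 := by
    have h1 : ‖τ‖ < min δk 1 / (C2 + 1) := by
      refine hτ.trans_le ?_
      rw [hε]
      exact (min_le_right _ _).trans (min_le_right _ _)
    rw [lt_div_iff₀ (by positivity)] at h1
    nlinarith
  have hpow : ∀ r : ℕ, r ≠ 0 → ‖τ‖ ^ r ≤ ‖τ‖ := by
    intro r hr
    exact pow_le_of_le_one (norm_nonneg _) hτ1 hr
  -- the square root
  obtain ⟨z, hzz⟩ : ∃ z : K, z = (mij ^ 2 - m * mjj) * q ^ (2 * l) * τ ^ (2 * (2 * l + 1)) :=
    ⟨_, rfl⟩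
  have hznorm : ‖z‖ < min δ2 1 := by
    refine lt_of_le_of_lt ?_ hτ2
    rw [hzz, norm_mul, ← hC1, norm_pow]
    exact mul_le_mul_of_nonneg_left (hpow _ (by omega)) hC1p
  obtain ⟨w, hw⟩ := hr2 z (hznorm.trans_le (min_le_left _ _))
  have hz1 : ‖z‖ < 1 := hznorm.trans_le (min_le_right _ _)
  have hne : ∀ z : K, ‖z‖ < 1 → 1 + z ≠ 0 := by
    intro z hz h0
    have h1 : z = -1 := by linear_combination h0
    rw [h1, norm_neg, norm_one] at hz
    exact lt_irrefl _ hz
  have hw0 : w ≠ 0 := by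
    rintro rfl
    apply hne z hz1
    rw [← hw]
    simp
  have hwn : ‖w‖ ≤ 2 := by
    have h1 : ‖w‖ ^ 2 ≤ 2 := by
      rw [← norm_pow, hw]
      refine (norm_add_le _ _).trans ?_
      rw [norm_one]
      linarith
    nlinarith [norm_nonneg w]
  obtain ⟨b, hb⟩ : ∃ b : K, b = (q * τ ^ 2) ^ (2 * l + 1) := ⟨_, rfl⟩
  obtain ⟨a, ha⟩ : ∃ a : K, a = (-(b * mij) + q ^ (l + 1) * τ ^ (2 * l + 1) * w) / m := ⟨_, rfl⟩
  have heq : 2 * b * c + a ^ 2 * m + 2 * a * b * mij + b ^ 2 * mjj = 0 := by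
    rw [ha, hb]
    exact odd_alg l c m mij mjj q τ w hm0 hq (by rw [hw, hzz])
  have hanorm : ‖a / x i0‖ < min δk 1 := by
    refine lt_of_le_of_lt ?_ hτ3
    rw [norm_div, ha, norm_div, hC2, div_mul_eq_mul_div, div_mul_eq_mul_div]
    gcongr
    refine (norm_add_le _ _).trans ?_
    rw [norm_neg, add_mul]
    refine add_le_add ?_ ?_
    · rw [hb, mul_pow, ← pow_mul, mul_right_comm, norm_mul, norm_pow τ]
      gcongr
      exact hpow _ (by omega)
    · rw [norm_mul, norm_mul, norm_pow τ]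
      have h1 := hpow (2 * l + 1) hk0
      calc ‖q ^ (l + 1)‖ * ‖τ‖ ^ (2 * l + 1) * ‖w‖ ≤ ‖q ^ (l + 1)‖ * ‖τ‖ * 2 := by gcongr
        _ = 2 * ‖q ^ (l + 1)‖ * ‖τ‖ := by ring
  obtain ⟨w', hw'⟩ := hrk (a / x i0) (hanorm.trans_le (min_le_left _ _))
  have hw'0 : w' ≠ 0 := by
    rintro rfl
    apply hne (a / x i0) (hanorm.trans_le (min_le_right _ _))
    rw [← hw']
    simp
  -- the new point
  let y'' : Fin s → K := Function.update (Function.update y i0 (y i0 * w')) j (q * τ ^ 2)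
  have hy''j : y'' j = q * τ ^ 2 := by simp [y'']
  have hy''i : y'' i0 = y i0 * w' := by
    simp only [y'']
    rw [Function.update_of_ne hij.symm, Function.update_self]
  have hx'' : ∀ r, y'' r ^ (2 * l + 1) =
      x r + a * (if r = i0 then 1 else 0) + b * (if r = j then 1 else 0) := by
    intro r
    by_cases h1 : r = i0
    · subst h1
      rw [hy''i, mul_pow, hw', if_pos rfl, if_neg (Ne.symm hij)]
      change x r * (1 + a / x r) = _
      field_simp
      ring
    · by_cases h2 : r = j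
      · subst h2
        rw [hy''j, if_neg h1, if_pos rfl, ← hb]
        have h3 : x r = 0 := by
          simp only [x]
          rw [hyj, zero_pow hk0]
        rw [h3]
        ring
      · rw [if_neg h1, if_neg h2]
        simp only [y'']
        rw [Function.update_of_ne h2, Function.update_of_ne h1]
        simp [x]
  have key := odd_quad (fun i j => ((M i j : ℤ) : K)) hNsymm x (fun r => y'' r ^ (2 * l + 1)) i0 j
    a b hx'' hQ hi
  rw [← hc, ← hm, ← hmij, ← hmjj, heq] at key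
  refine ⟨y'', ?_, i0, ?_⟩
  · rw [eval_FF]
    exact key.2
  · rw [pderiv_FF _ M hM]
    refine mul_ne_zero (mul_ne_zero (mul_ne_zero h2K hkK) (pow_ne_zero _ ?_)) ?_
    · rw [hy''i]
      exact mul_ne_zero hi0 hw'0
    · rw [key.1]
      have h1 : a * m + b * mij = q ^ (l + 1) * τ ^ (2 * l + 1) * w := by
        rw [ha]
        field_simp
        ring
      rw [h1]
      exact mul_ne_zero (mul_ne_zero (pow_ne_zero _ hq0) (pow_ne_zero _ hτ0')) hw0

end Pool.Agent.Lib.MP_c0a553_nt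
end
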